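import Pool.Agent.MP_48470b_gt.An.Sup
import Pool.Agent.MP_48470b_gt.Sph.S5

/-! The Picard iterates converge with all derivatives. -/

namespace Pool.Agent.MP48470b.An

open Finset Matrix Pool.Agent.MP_48470b_gt.Sph Filter

namespace FR

variable {K : Type*} [CommRing K] [Algebra ℝ K] (F : FR K)

/-- First order part of the Hessian. -/
noncomputable def hs0 (w : K) : Matrix I4 I4 K := Matrix.of fun i j =>
  ∑ b, F.d i (F.Q j b) * F.E b w + (∑ k, F.d i (F.ν k) * ∑ b, F.Q k b * F.E b w) * F.ν j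

lemma hs_eq (w : K) (i j : I4) : F.toDC.hs w i j =
    ∑ a, ∑ b, F.Q i a * F.Q j b * F.E a (F.E b w) + F.hs0 w i j := by
  have e : F.toDC.hs w i j = F.d i (F.d j w) + (∑ k, F.d i (F.ν k) * F.d k w) * F.ν j := rfl
  rw [e, F.dd, add_assoc]
  simp only [F.d_apply _ w]
  rfl

/-- First order coefficients of the stability operator. -/
noncomputable def be (b : I3) : K := ∑ i, F.d i (F.Q i b) - hf K * ∑ i, F.f i * F.Q i b

lemma gi_eq (a b : I3) : F.gi a b = ∑ i, F.Q i a * F.Q i b :=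
  (congrFun (congrFun F.QQ a) b).symm

lemma L_eq (w : K) : F.toDC.L w = ∑ a, ∑ b, F.gi a b * F.E a (F.E b w)
    + (∑ b, F.be b * F.E b w + F.toDC.V * w) := by
  have e : F.toDC.L w = ∑ i, F.d i (F.d i w) - hf K * ∑ i, F.f i * F.d i w + F.toDC.V * w := rfl
  rw [e]
  simp only [F.dd]
  simp only [F.d_apply _ w, gi_eq, be, Fin.sum_univ_three, Fin.sum_univ_four]
  ring

lemma Q_eq (u ω : K) (C : Matrix I4 I4 K) : F.toDC.Q u ω C =
    ∑ a, ∑ b, (-∑ i, ∑ j, bb C (F.toDC.gr u) ω i j * (F.Q i a * F.Q j b)) * F.E a (F.E b u)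
      + Qf u ω (F.toDC.gr u) (F.toDC.gr F.toDC.R) (F.hs0 u) F.toDC.A C F.toDC.A' := by
  have e : fp (bb C (F.toDC.gr u) ω) (F.toDC.hs u) = fp (bb C (F.toDC.gr u) ω) (F.hs0 u)
      + ∑ a, ∑ b, (∑ i, ∑ j, bb C (F.toDC.gr u) ω i j * (F.Q i a * F.Q j b)) * F.E a (F.E b u) := by
    generalize bb C (F.toDC.gr u) ω = B
    simp only [DC.fp_eq, hs_eq, Fin.sum_univ_three, Fin.sum_univ_four]
    ring
  simp only [DC.Q, Qf, e, neg_mul, sum_neg_distrib]
  ring

end FR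

variable {f : I4 → R}

lemma gi_pos (h : Imm f) (x : S3) (ξ : I3 → ℝ) (hξ : ξ ≠ 0) :
    0 < ∑ i, ∑ j, (fr h).gi i j x * ξ i * ξ j := by
  have e : ∑ i, ∑ j, (fr h).gi i j x * ξ i * ξ j = ∑ k, (∑ a, (fr h).Q k a x * ξ a) ^ 2 := by
    simp only [FR.gi_eq, R.add_apply, R.mul_apply, Fin.sum_univ_three, Fin.sum_univ_four]
    ring
  rw [e]
  refine (sum_nonneg fun _ _ => sq_nonneg _).lt_of_ne' fun h0 => hξ ?_
  rw [sum_eq_zero_iff_of_nonneg fun _ _ => sq_nonneg _] at h0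
  ext b
  have h1 : ∀ a, ∑ k, (fr h).T k b x * (fr h).Q k a x = (1 : Matrix I3 I3 ℝ) b a := fun a => by
    have := congrArg (fun w : R => w x) ((fr h).TQ' b a)
    simp only [R.sum_apply, R.mul_apply, Matrix.one_apply] at this ⊢
    rw [this]; split_ifs <;> rfl
  have h2 : ∑ a, (1 : Matrix I3 I3 ℝ) b a * ξ a = ξ b := by simp [Matrix.one_apply]
  have h3 := fun k => pow_eq_zero_iff (two_ne_zero) |>.1 (h0 k (mem_univ k))
  rw [← h2]
  simp only [← h1, Pi.zero_apply, Fin.sum_univ_three, Fin.sum_univ_four] at h3 ⊢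
  linear_combination (fr h).T 0 b x * h3 0 + (fr h).T 1 b x * h3 1 + (fr h).T 2 b x * h3 2
    + (fr h).T 3 b x * h3 3

section ps
variable (u ω : ℕ → R) (C : ℕ → Matrix I4 I4 R)

/-- Coefficient sequences. -/
def PS : Subring (ℕ → R) := Subring.closure
  {z | (∃ c, z = fun _ => c) ∨ z = u ∨ (∃ a, z = fun n => E a (u n)) ∨
    (∃ i j, z = fun n => C n i j) ∨ z = ω}

/-- Sequences that are affine in the second derivatives. -/
def S2 (z : ℕ → R) : Prop := ∃ p0 ∈ PS u ω C, ∃ p : I3 → I3 → ℕ → R, (∀ a b, p a b ∈ PS u ω C) ∧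
  ∀ n, z n = p0 n + ∑ a, ∑ b, p a b n * E a (E b (u n))

variable {u ω C}

lemma PS_c (c : R) : (fun _ => c) ∈ PS u ω C := Subring.subset_closure (Or.inl ⟨c, rfl⟩)
lemma PS_u : (fun n => u n) ∈ PS u ω C := Subring.subset_closure (Or.inr (Or.inl rfl))
lemma PS_E (a : I3) : (fun n => E a (u n)) ∈ PS u ω C :=
  Subring.subset_closure (Or.inr (Or.inr (Or.inl ⟨a, rfl⟩)))
lemma PS_C (i j : I4) : (fun n => C n i j) ∈ PS u ω C :=
  Subring.subset_closure (Or.inr (Or.inr (Or.inr (Or.inl ⟨i, j, rfl⟩))))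
lemma PS_ω : (fun n => ω n) ∈ PS u ω C :=
  Subring.subset_closure (Or.inr (Or.inr (Or.inr (Or.inr rfl))))
lemma PS_add {a b : ℕ → R} (ha : a ∈ PS u ω C) (hb : b ∈ PS u ω C) :
    (fun n => a n + b n) ∈ PS u ω C := add_mem ha hb
lemma PS_sub {a b : ℕ → R} (ha : a ∈ PS u ω C) (hb : b ∈ PS u ω C) :
    (fun n => a n - b n) ∈ PS u ω C := sub_mem ha hb
lemma PS_mul {a b : ℕ → R} (ha : a ∈ PS u ω C) (hb : b ∈ PS u ω C) :
    (fun n => a n * b n) ∈ PS u ω C := mul_mem ha hb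
lemma PS_neg {a : ℕ → R} (ha : a ∈ PS u ω C) : (fun n => - a n) ∈ PS u ω C := neg_mem ha
lemma PS_sum {ι : Type*} [Fintype ι] {a : ι → ℕ → R} (ha : ∀ i, a i ∈ PS u ω C) :
    (fun n => ∑ i, a i n) ∈ PS u ω C := by
  have := sum_mem (S := PS u ω C) (t := univ) fun i _ => ha i
  rwa [Finset.sum_fn] at this

lemma S2.ps {a : ℕ → R} (ha : a ∈ PS u ω C) : S2 u ω C a :=
  ⟨a, ha, fun _ _ _ => 0, fun _ _ => PS_c 0, fun n => by simp⟩
lemma S2.EE (a b : I3) : S2 u ω C fun n => E a (E b (u n)) :=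
  ⟨fun _ => 0, PS_c 0, fun a' b' _ => if a' = a then if b' = b then 1 else 0 else 0,
    fun _ _ => PS_c _, fun n => by simp⟩
lemma S2.add {a b : ℕ → R} (ha : S2 u ω C a) (hb : S2 u ω C b) : S2 u ω C fun n => a n + b n := by
  obtain ⟨p0, h0, p, h1, h2⟩ := ha
  obtain ⟨q0, g0, q, g1, g2⟩ := hb
  refine ⟨_, PS_add h0 g0, fun i j n => p i j n + q i j n, fun i j => PS_add (h1 i j) (g1 i j),
    fun n => ?_⟩
  simp only [h2, g2, Fin.sum_univ_three]; ring
lemma S2.mul {a b : ℕ → R} (ha : a ∈ PS u ω C) (hb : S2 u ω C b) :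
    S2 u ω C fun n => a n * b n := by
  obtain ⟨q0, g0, q, g1, g2⟩ := hb
  refine ⟨_, PS_mul ha g0, fun i j n => a n * q i j n, fun i j => PS_mul ha (g1 i j), fun n => ?_⟩
  simp only [g2, Fin.sum_univ_three]; ring
lemma S2.of_eq {a b : ℕ → R} (ha : S2 u ω C a) (e : ∀ n, b n = a n) : S2 u ω C b := by
  rwa [show b = a from funext e]
lemma S2.sum {ι : Type*} [Fintype ι] {a : ι → ℕ → R} (ha : ∀ i, S2 u ω C (a i)) :
    S2 u ω C fun n => ∑ i, a i n := by
  have := Finset.sum_induction a (S2 u ω C) (s := univ) (fun _ _ h1 h2 => h1.add h2)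
    (S2.ps (PS_c 0)) fun i _ => ha i
  rwa [Finset.sum_fn] at this

lemma PS_d (h : Imm f) (i : I4) : (fun n => (dc h).gr (u n) i) ∈ PS u ω C := by
  have e : ∀ n, (dc h).gr (u n) i = ∑ a, (fr h).Q i a * E a (u n) := fun n => (fr h).d_apply i _
  simp only [e]
  exact PS_sum fun a => PS_mul (PS_c _) (PS_E a)

lemma PS_qq {p : ℕ → I4 → R} (hp : ∀ i, (fun n => p n i) ∈ PS u ω C) (i : I4) :
    (fun n => qq (C n) (p n) i) ∈ PS u ω C :=
  PS_add (hp i) (PS_sum fun j => PS_mul (PS_C i j) (hp j))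

lemma PS_bb (h : Imm f) (i j : I4) :
    (fun n => bb (C n) ((dc h).gr (u n)) (ω n) i j) ∈ PS u ω C :=
  PS_sub (PS_add (PS_add (PS_C i j) (PS_C i j)) (PS_sum fun k => PS_mul (PS_C i k) (PS_C k j)))
    (PS_mul PS_ω (PS_mul (PS_qq (PS_qq (PS_d h)) i) (PS_qq (PS_qq (PS_d h)) j)))

lemma PS_Qf (h : Imm f) : (fun n => Qf (u n) (ω n) ((dc h).gr (u n)) ((dc h).gr (dc h).R)
    ((fr h).hs0 (u n)) (dc h).A (C n) (dc h).A') ∈ PS u ω C := by
  have hq := PS_qq (PS_d (u := u) (ω := ω) (C := C) h)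
  have hN : ∀ i j, (fun n => (u n • (dc h).A) i j) ∈ PS u ω C := fun i j => PS_mul PS_u (PS_c _)
  refine PS_add (PS_add (PS_add (PS_sub (PS_sum fun p => PS_mul
    (PS_sum fun k => PS_mul (hN _ k) (hN k _))
    (PS_add (PS_c _) (PS_sum fun k => PS_mul (PS_c _) (PS_C k _))))
    (PS_sum fun p => PS_mul (PS_bb h _ _) ?_)) (PS_mul PS_ω (PS_sum fun i => PS_mul (PS_qq hq i)
    (PS_sum fun j => PS_mul (PS_c _) (hq j))))) (PS_mul PS_u (PS_sum fun p => PS_mul (PS_bb h _ _)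
    (PS_sum fun j => PS_mul (PS_c _) (hq j)))))
    (PS_mul PS_u (PS_sum fun j => PS_mul (PS_c _) (hq j)))
  exact PS_add (PS_sum fun b => PS_mul (PS_c _) (PS_E b)) (PS_mul (PS_sum fun k => PS_mul (PS_c _)
    (PS_sum fun b => PS_mul (PS_c _) (PS_E b))) (PS_c _))

lemma PS_diff (h : Imm f) (ha : ∀ n, (dc h).Aux (u n) (ω n) (C n)) {z : ℕ → R}
    (hz : z ∈ PS u ω C) (c : I3) : S2 u ω C fun n => E c (z n) := by
  have hC : ∀ i j, (fun n => E c (C n i j)) ∈ PS u ω C := fun i j => by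
    have e : ∀ n, E c (C n i j) = -∑ k, (∑ l, (1 + C n) i l *
        (E c (u n) * (dc h).A l k + u n * E c ((dc h).A l k))) * (1 + C n) k j := fun n => by
      have h0 : ∀ p q, E c ((1 : Matrix I4 I4 R) p q) = 0 := fun p q => by
        rw [Matrix.one_apply]; split_ifs <;> simp
      have h1 : (1 + u n • (dc h).A) * (Matrix.of fun p q => E c (C n p q)) =
          -((Matrix.of fun p q => E c (u n) * (dc h).A p q + u n * E c ((dc h).A p q))
            * (1 + C n)) := by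
        refine Matrix.ext fun p q => ?_
        have := congrArg (E c) (congrFun (congrFun (ha n).NP p) q)
        simp only [Matrix.mul_apply, Matrix.add_apply, Matrix.smul_apply, smul_eq_mul, map_add,
          Derivation.leibniz, h0, Fin.sum_univ_four, Matrix.neg_apply, Matrix.of_apply] at this ⊢
        linear_combination this
      have h2 := congrArg (fun M => (1 + C n) * M) h1
      simp only [← Matrix.mul_assoc, (ha n).PN, one_mul, Matrix.mul_neg] at h2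
      exact congrFun (congrFun h2 i) j
    simp only [e]
    exact PS_neg (PS_sum fun k => PS_mul (PS_sum fun l => PS_mul (PS_add (PS_c _) (PS_C i l))
      (PS_add (PS_mul (PS_E c) (PS_c _)) (PS_mul PS_u (PS_c _)))) (PS_add (PS_c _) (PS_C k j)))
  have hp : ∀ i, S2 u ω C fun n => E c ((dc h).gr (u n) i) := fun i =>
    (S2.sum fun a => (S2.mul (PS_c ((fr h).Q i a)) (S2.EE c a)).add
      (S2.ps (PS_mul (PS_E a) (PS_c (E c ((fr h).Q i a)))))).of_eq fun n => by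
      have e : (dc h).gr (u n) i = ∑ a, (fr h).Q i a * E a (u n) := (fr h).d_apply i _
      simp only [e, map_sum, Derivation.leibniz, smul_eq_mul]
  have hq : ∀ i, S2 u ω C fun n => E c (qq (C n) ((dc h).gr (u n)) i) := fun i =>
    ((hp i).add (S2.sum fun j => (S2.mul (PS_C i j) (hp j)).add
      (S2.ps (PS_mul (PS_d h j) (hC i j))))).of_eq fun n => by
      simp only [qq, Pi.add_apply, mulVec, dotProduct, map_add, map_sum, Derivation.leibniz,
        smul_eq_mul]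
  have hω : S2 u ω C fun n => E c (ω n) :=
    (S2.mul (PS_mul (PS_c (-2)) (PS_mul PS_ω PS_ω))
      (S2.sum fun i => S2.mul (PS_qq (PS_d h) i) (hq i))).of_eq fun n => by
      have h1 := (ha n).2
      have h2 := congrArg (E c) h1
      generalize qq (C n) ((dc h).gr (u n)) = q at *
      simp only [dotProduct, Fin.sum_univ_four, map_add, Derivation.leibniz, smul_eq_mul,
        Derivation.map_one_eq_zero] at h1 h2 ⊢
      linear_combination ω n * h2 - E c (ω n) * h1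
  induction hz using Subring.closure_induction with
  | mem z hz =>
    rcases hz with ⟨c', rfl⟩ | rfl | ⟨a, rfl⟩ | ⟨i, j, rfl⟩ | rfl
    exacts [S2.ps (PS_c _), S2.ps (PS_E c), S2.EE c a, S2.ps (hC i j), hω]
  | zero => exact (S2.ps (PS_c 0)).of_eq fun n => by simp
  | one => exact (S2.ps (PS_c 0)).of_eq fun n => by simp
  | add a b _ _ h1 h2 => exact (h1.add h2).of_eq fun n => by simp
  | neg a _ h1 => exact (S2.mul (PS_c (-1)) h1).of_eq fun n => by simp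
  | mul a b g1 g2 h1 h2 => exact ((S2.mul g1 h2).add (S2.mul g2 h1)).of_eq fun n => by simp

lemma PS_bdd (hu : ∃ M, ∀ n x, |u n x| ≤ M) (hE : ∀ a, ∃ M, ∀ n x, |E a (u n) x| ≤ M)
    (hC : ∀ i j, ∃ M, ∀ n x, |C n i j x| ≤ M) (hω : ∃ M, ∀ n x, |ω n x| ≤ M) {z : ℕ → R}
    (hz : z ∈ PS u ω C) : ∃ M, ∀ n x, |z n x| ≤ M := by
  induction hz using Subring.closure_induction with
  | mem z hz =>
    rcases hz with ⟨c', rfl⟩ | rfl | ⟨a, rfl⟩ | ⟨i, j, rfl⟩ | rfl
    · obtain ⟨M, -, hM⟩ := exists_bound c'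
      exact ⟨M, fun _ => hM⟩
    exacts [hu, hE a, hC i j, hω]
  | zero => exact ⟨0, by simp⟩
  | one => exact ⟨1, by simp⟩
  | add a b _ _ h1 h2 =>
    obtain ⟨M, hM⟩ := h1
    obtain ⟨N, hN⟩ := h2
    exact ⟨M + N, fun n x => (abs_add_le _ _).trans (add_le_add (hM n x) (hN n x))⟩
  | neg a _ h1 =>
    obtain ⟨M, hM⟩ := h1
    exact ⟨M, fun n x => by simpa using hM n x⟩
  | mul a b _ _ h1 h2 =>
    obtain ⟨M, hM⟩ := h1
    obtain ⟨N, hN⟩ := h2
    exact ⟨M * N, fun n x => (abs_mul _ _).trans_le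
      (mul_le_mul (hM n x) (hN n x) (abs_nonneg _) ((abs_nonneg _).trans (hM n x)))⟩

end ps

/-- Uniform mean-square bounds for `k` tangential derivatives. -/
def UB (h : Imm f) : ℕ → (ℕ → R) → Prop
  | 0, z => ∃ t, ∀ n, (wi h).Dom ((wi h).v0 (z n)) t
  | k + 1, z => UB h k z ∧ ∀ i, UB h k fun n => (dc h).d i (z n)

lemma UB.add {h : Imm f} : ∀ {k : ℕ} {a b : ℕ → R}, UB h k a → UB h k b →
    UB h k fun n => a n + b n
  | 0, _, _, ⟨t, ht⟩, ⟨s, hs⟩ => ⟨t + s, fun n => (ht n).add (hs n)⟩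
  | _ + 1, _, _, ha, hb => ⟨ha.1.add hb.1, fun i => by
      simp only [map_add]; exact (ha.2 i).add (hb.2 i)⟩

lemma UB.cmul {h : Imm f} : ∀ {k : ℕ} (c : R) {a : ℕ → R}, UB h k a → UB h k fun n => c * a n
  | 0, c, _, ⟨t, ht⟩ => by
      obtain ⟨M, M0, hM⟩ := exists_bound c
      exact ⟨M * t, fun n => (ht n).bmul hM M0⟩
  | _ + 1, c, _, ha => ⟨ha.1.cmul c, fun i => by
      simp only [DC.dmul]; exact (ha.1.cmul _).add ((ha.2 i).cmul c)⟩

lemma UB.E {h : Imm f} {k : ℕ} {z : ℕ → R} (hz : UB h (k + 1) z) (a : I3) :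
    UB h k fun n => E a (z n) := by
  simp only [dc_E h a (z _), Fin.sum_univ_four]
  exact ((((hz.2 0).cmul _).add ((hz.2 1).cmul _)).add ((hz.2 2).cmul _)).add ((hz.2 3).cmul _)

lemma UB.zero {h : Imm f} : ∀ {k : ℕ} {z : ℕ → R}, UB h k z → UB h 0 z
  | 0, _, hz => hz
  | _ + 1, _, hz => hz.1.zero

lemma UB.W {h : Imm f} {z : ℕ → R} : ∀ (J : List I3) {k : ℕ}, UB h (k + J.length) z →
    UB h k fun n => W J (z n)
  | [], _, hz => hz
  | a :: J, k, hz => (UB.W J (k := k + 1) (by rwa [add_assoc, add_comm 1])).E a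

lemma UB.norm {h : Imm f} {z : ℕ → R} {t : ℕ → ℝ} (hz : ∀ n, (wi h).Dom ((wi h).v0 (z n)) (t n)) :
    ∃ M, ∀ n, ‖z n‖ ^ 2 ≤ M * t n ^ 2 := by
  obtain ⟨m, m0, hm⟩ := exists_lower (rho h) (rho_pos h)
  refine ⟨(√m)⁻¹ ^ 2, fun n => ?_⟩
  rw [← mul_pow]
  have s0 := Real.sqrt_pos.2 m0
  refine I_le_of_dom h ((hz n).abs.cmul (inv_pos.2 s0).le) fun x => ?_
  rw [← mul_assoc]
  refine le_mul_of_one_le_left (abs_nonneg _) ?_
  rw [← div_eq_mul_inv, one_le_div s0]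
  exact Real.sqrt_le_sqrt (hm x)

lemma UB.P3 {h : Imm f} {z : ℕ → R} (hz : UB h 3 z) : ∃ M, ∀ n, P 3 (z n) ≤ M := by
  have key : ∀ J : {J : List I3 // J.length ≤ 3}, ∃ M, ∀ n, ‖MP_48470b_gt.Sph.W J.1 (z n)‖ ^ 2 ≤ M := fun J => by
    obtain ⟨t, ht⟩ := (UB.W J.1 (k := 3 - J.1.length) (by rwa [Nat.sub_add_cancel J.2])).zero
    obtain ⟨M, hM⟩ := UB.norm (t := fun _ => t) ht
    exact ⟨_, hM⟩
  have : Finite {J : List I3 // J.length ≤ 3} := List.finite_length_le I3 3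
  obtain ⟨M, hM⟩ := S5.unif key
  exact ⟨_, fun n => S5.P_le_of_words 3 _ M fun J hJ => hM ⟨J, hJ⟩ n⟩

theorem Hyp.limit {h : Imm f} {Inv : Set R} {c : Cst} (H : Hyp (dc h) (wi h) Inv c)
    {u ω : ℕ → R} {C : ℕ → Matrix I4 I4 R} (hb : ∀ n, Ball (dc h) (wi h) Inv c (u n))
    (ha : ∀ n, (dc h).Aux (u n) (ω n) (C n))
    (he : ∀ n, (dc h).L (u (n + 1)) = (dc h).R + (dc h).Q (u n) (ω n) (C n))
    (hd : ∀ n, (wi h).Dom ((wi h).v0 ((dc h).L (u (n + 1) - u n))) (c.ρ₀ * c.κ ^ n)) :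
    ∃ w : R, ∀ J : List I3,
      TendstoUniformly (fun n => (W J (u n) : S3 → ℝ)) (W J w : S3 → ℝ) atTop := by
  have cl := H.cl
  have l0 := fun n => H.lin0 (hb n).1 (hb n).2.1
  have l1 := fun n => H.lin1 (hb n)
  have z0 : nr (fun _ : I4 => (0 : ℝ)) ≤ 1 := by rw [nr_zero]; exact zero_le_one
  have bC := fun n x => TD.C_bound (T := tdx (dc h) (wi h) x fun _ => 0) (ha n).1 cl.g1 cl.hg
    ((TD.Bd.smulM ⟨(l0 n).sup x, (l0 n).sup x, le_rfl⟩ ((tdx_Bd x z0 (uc (dc h).A)).mono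
      (H.pb.hA x) (H.pb.hA x) le_rfl)).mono (le_of_eq (mul_comm _ _)) (le_of_eq (mul_comm _ _))
      le_rfl)
  have bp := fun n x => (tdx_Bd (D := dc h) (S := wi h) x z0 ((dc h).gr (u n))).mono
    ((l1 n).sup x) ((l1 n).sup x) le_rfl
  have hcl : S5.Cl u (PS u ω C) := ⟨PS_c, fun z hz => PS_bdd ⟨_, fun n => (l0 n).sup⟩
    (fun a => by
      obtain ⟨M, M0, hM⟩ := exists_bound (∑ k, E a (f k) ^ 2)
      refine ⟨√M * c.m₁, fun n x => ?_⟩
      rw [dc_E h a]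
      simp only [R.sum_apply, R.mul_apply]
      refine (abs_dot_le _ _).trans (mul_le_mul (Real.sqrt_le_sqrt ?_) ((l1 n).sup x)
        (nr_nonneg _) (Real.sqrt_nonneg _))
      simpa using (le_abs_self _).trans (hM x))
    (fun i j => ⟨_, fun n x => (abs_le_nr (fun p => uc (C n) p x) (i, j)).trans (bC n x).1⟩)
    ⟨1, fun n x => (TD.ω_bound (ha n).2 (TD.qq_bound (bC n x) (bp n x))).1⟩ hz,
    fun z hz c => PS_diff h ha hz c⟩
  have it : S5.Iter u (PS u ω C) (fr h).gi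
      (fun a b n => -∑ i, ∑ j, bb (C n) ((dc h).gr (u n)) (ω n) i j * ((fr h).Q i a * (fr h).Q j b))
      (fun n => (dc h).R + Qf (u n) (ω n) ((dc h).gr (u n)) ((dc h).gr (dc h).R)
        ((fr h).hs0 (u n)) (dc h).A (C n) (dc h).A')
      (fun n => ∑ b, (fr h).be b * E b (u n) + (dc h).V * u n) c.β :=
    { cl := hcl
      symm := fun i j => congrFun (congrFun (fr h).gi_symm j) i
      pos := gi_pos h
      hb := fun a b => PS_neg (PS_sum fun i => PS_sum fun j => PS_mul (PS_bb h i j) (PS_c _))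
      hc := PS_add (PS_c _) (PS_Qf h)
      hc1 := PS_add (PS_sum fun b => PS_mul (PS_c _) (PS_E b)) (PS_mul (PS_c _) PS_u)
      eqn := fun n => by
        have e1 := (fr h).L_eq (u (n + 1))
        have e2 := (fr h).Q_eq (u n) (ω n) (C n)
        have e3 := he n
        unfold dc at *
        rw [e1, e2] at e3
        exact e3.trans (add_left_comm _ _ _)
      th0 := cl.pos.1
      th1 := cl.hβ
      small := fun n x ξ => by
        have b1 := (TD.bb_bound (ha n).2 (bC n x) (bp n x)).1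
        have b2 := (abs_dot_le (fun p => uc (bb (C n) ((dc h).gr (u n)) (ω n)) p x)
          (fun p : I4 × I4 => ∑ a, ∑ b, (fr h).Q p.1 a x * (fr h).Q p.2 b x * ξ a b)).trans
          (mul_le_mul_of_nonneg_right b1 (nr_nonneg _))
        have b3 := pow_le_pow_left₀ (abs_nonneg _) b2 2
        rw [sq_abs, mul_pow, nr_sq] at b3
        refine le_of_eq_of_le ?_ (b3.trans (le_of_eq ?_))
        · rw [← neg_sq]
          congr 1
          generalize bb (C n) ((dc h).gr (u n)) (ω n) = B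
          simp only [Fintype.sum_prod_type, uc, R.neg_apply, R.add_apply, R.mul_apply,
            Fin.sum_univ_three, Fin.sum_univ_four]
          ring
        · congr 1
          simp only [Fintype.sum_prod_type, FR.gi_eq, R.add_apply, R.mul_apply,
            Fin.sum_univ_three, Fin.sum_univ_four]
          ring }
  have c0 : UB h 0 u := ⟨_, fun n => (l0 n).n0⟩
  have c1 : ∀ i, UB h 0 fun n => (dc h).d i (u n) := fun i => ⟨_, fun n => (l0 n).n1.mono
    (fun x => abs_le_nr (fun i => (dc h).gr (u n) i x) i) le_rfl⟩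
  have c2 : ∀ i j, UB h 0 fun n => (dc h).d i ((dc h).d j (u n)) := fun i j =>
    ⟨_, fun n => (l0 n).nr.mono
      (fun x => abs_le_nr (fun p => (dc h).dT ((dc h).gr (u n)) p x) (i, j)) le_rfl⟩
  have c3 : ∀ i j k, UB h 0 fun n => (dc h).d i ((dc h).d j ((dc h).d k (u n))) := fun i j k =>
    ⟨_, fun n => (l1 n).n3.mono
      (fun x => abs_le_nr (fun p => (dc h).dT ((dc h).dT ((dc h).gr (u n))) p x) (i, j, k)) le_rfl⟩
  have u3 : UB h 3 u := ⟨⟨⟨c0, c1⟩, fun i => ⟨c1 i, fun j => c2 j i⟩⟩, fun i =>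
    ⟨⟨c1 i, fun j => c2 j i⟩, fun j => ⟨c2 j i, fun k => c3 k j i⟩⟩⟩
  obtain ⟨M, hM⟩ := UB.norm (z := fun n => u (n + 1) - u n) fun n =>
    (H.lin0 (H.invs _ (hb (n + 1)).1 _ (hb n).1) (hd n)).n0
  have κ0 : 0 ≤ c.κ := by
    obtain ⟨p1, p2, p3, p4, p5, p6⟩ := cl.pos
    have := cl.α0; have := cl.G10; have := cl.ρ₀0; have := cl.G0; have := cl.K₀0
    have := cl.K₁0; have := cl.Kh0; have := cl.c₀0; have := cl.c₁0; have := cl.c₂0
    have hg : 0 ≤ c.g := zero_le_one.trans cl.g1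
    unfold Cst.κ Cst.κ₀ Cst.Cs; positivity
  exact it.limit' u3.P3 (S5.cauchy_of_sq (C := M * (c.K₀ * c.ρ₀) ^ 2) (κ := c.κ ^ 2) (sq_nonneg _)
    (pow_lt_one₀ κ0 cl.contr two_ne_zero) fun n => (hM n).trans (le_of_eq (by ring)))

end Pool.Agent.MP48470b.An
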