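import Pool.Agent.MP_48470b_gt.An.Pic

/-! Contraction and the self-map property of the Picard iteration. -/

namespace Pool.Agent.MP48470b.An

open Finset Matrix

lemma map_Qf {K K' : Type*} [CommRing K] [CommRing K'] (φ : K →+* K') (u ω : K) (p z : I4 → K)
    (h A C : Matrix I4 I4 K) (A' : I4 → Matrix I4 I4 K) :
    φ (Qf u ω p z h A C A') = Qf (φ u) (φ ω) (fun i => φ (p i)) (fun i => φ (z i)) (h.map φ)
      (A.map φ) (C.map φ) (fun l => (A' l).map φ) := by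
  simp only [Qf, fp, uc, bb, qq, tv, mulVec, dotProduct, Matrix.mul_apply, vecMulVec_apply,
    map_sum, map_add, map_sub, map_mul, Matrix.add_apply, Matrix.sub_apply, Matrix.smul_apply,
    smul_eq_mul, Pi.add_apply, Matrix.of_apply, Matrix.map_apply]

variable {K : Type*} [CommRing K] [Algebra ℝ K] {X : Type*}

/-- Differences of two values. -/
def tdp (S : IS K X) (x : X) : TD (K × K) where
  s := (S.ev x : K →+* ℝ).comp (RingHom.fst K K)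
  t := (S.ev x : K →+* ℝ).comp (RingHom.snd K K)
  d := { toFun := fun a => S.ev x (a.1 - a.2)
         map_zero' := by simp
         map_add' := fun a b => by simp only [Prod.fst_add, Prod.snd_add, map_sub, map_add]; ring }
  mul a b := by simp; ring

/-- Directional derivatives. -/
def tdx (D : DC K) (S : IS K X) (x : X) (ξ : I4 → ℝ) : TD K where
  s := S.ev x
  t := S.ev x
  d := { toFun := fun a => ∑ m, ξ m * S.ev x (D.d m a)
         map_zero' := by simp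
         map_add' := fun a b => by simp only [map_add, mul_add, sum_add_distrib] }
  mul a b := by
    simp only [AddMonoidHom.coe_mk, ZeroHom.coe_mk, D.dmul, map_add, map_mul, RingHom.coe_coe,
      Fin.sum_univ_four]
    ring

/-- A pair of matrices. -/
def pm (M N : Matrix I4 I4 K) : Matrix I4 I4 (K × K) := Matrix.of fun i j => (M i j, N i j)

variable {D : DC K} {S : IS K X} {Inv : Set K} {c : Cst}

lemma tdx_Bd {ι : Type*} [Fintype ι] (x : X) {ξ : I4 → ℝ} (hξ : nr ξ ≤ 1) (v : ι → K) :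
    (tdx D S x ξ).Bd v (S.vn v x) (S.vn v x) (S.vn (D.dT v) x) :=
  ⟨le_rfl, le_rfl, (nr_vm ξ (fun p => S.ev x (D.dT v p))).trans
    (mul_le_of_le_one_left (nr_nonneg _) hξ)⟩

lemma tdp_Bd {ι : Type*} [Fintype ι] (x : X) (v w : ι → K) :
    (tdp S x).Bd (fun i => (v i, w i)) (S.vn v x) (S.vn w x) (S.vn (fun i => v i - w i) x) :=
  ⟨le_rfl, le_rfl, le_rfl⟩

lemma tdp_Bd0 {ι : Type*} [Fintype ι] (x : X) (v : ι → K) {a : ℝ} (h : S.vn v x ≤ a) :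
    (tdp S x).Bd (fun i => (v i, v i)) a a 0 :=
  (tdp_Bd x v v).mono h h (by simp [IS.vn, nr_zero])

lemma gr_sub (D : DC K) (u v : K) : (fun i => D.gr u i - D.gr v i) = D.gr (u - v) := by
  ext i; simp [DC.gr]

lemma hs_sub (D : DC K) (u v : K) :
    (fun i => uc (D.hs u) i - uc (D.hs v) i) = uc (D.hs (u - v)) := by
  ext i
  simp only [uc, DC.hs, DC.ap, Matrix.of_apply, map_sub, Fin.sum_univ_four]
  ring

lemma L_sub (D : DC K) (u v : K) : D.L (u - v) = D.L u - D.L v := by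
  simp only [DC.L, DC.lf, DC.lap, map_sub, Fin.sum_univ_four]
  ring

/-- Pointwise difference bound. -/
lemma Q_sub_le {α a₁ a₂ e₁ e₂ g m₀ m : ℝ} (pb : PB D S α a₁ a₂ e₁ e₂) (hg1 : 1 ≤ g)
    (hg : 1 + α * m₀ * g ≤ g) {u v ω ω' : K} {C C' : Matrix I4 I4 K} (hu : D.Aux u ω C)
    (hv : D.Aux v ω' C') (x : X) (hu0 : |S.ev x u| ≤ m₀) (hv0 : |S.ev x v| ≤ m₀)
    (hu1 : S.vn (D.gr u) x ≤ m) (hv1 : S.vn (D.gr v) x ≤ m) :
    |S.ev x (D.Q u ω C - D.Q v ω' C')| ≤ cβ g m * S.vn (uc (D.hs (u - v))) x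
      + cbN g m * α * (|S.ev x (u - v)| * S.vn (uc (D.hs v)) x)
      + cbp g m * (S.vn (D.gr (u - v)) x * S.vn (uc (D.hs v)) x)
      + α * g ^ 3 * (S.vn (D.gr (u - v)) x * S.vn (D.gr u) x)
      + α * g ^ 3 * (S.vn (D.gr (u - v)) x * S.vn (D.gr v) x)
      + (ckN α a₁ e₁ g m₀ m * α + cku a₁ e₁ g m) * |S.ev x (u - v)|
      + ckp α a₁ e₁ g m₀ m * S.vn (D.gr (u - v)) x := by
  have h := TD.Q_bound (T := tdp S x) (u := (u, v)) (ω := (ω, ω'))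
    (p := fun i => (D.gr u i, D.gr v i)) (z := fun i => (D.gr D.R i, D.gr D.R i))
    (h := pm (D.hs u) (D.hs v)) (A := pm D.A D.A) (C := pm C C')
    (A' := fun l => pm (D.A' l) (D.A' l)) (U := m₀) (Lu := |S.ev x (u - v)|)
    (by
      ext i j
      · simpa [pm, Matrix.mul_apply, Prod.fst_sum, mul_sum, mul_assoc] using congrFun (congrFun hu.1 i) j
      · simpa [pm, Matrix.mul_apply, Prod.snd_sum, mul_sum, mul_assoc] using congrFun (congrFun hv.1 i) j)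
    (by
      ext
      · simpa [pm, qq, dotProduct, mulVec, Prod.fst_sum] using hu.2
      · simpa [pm, qq, dotProduct, mulVec, Prod.snd_sum] using hv.2)
    hg1 hg ⟨hu0, hv0, le_rfl⟩ le_rfl (tdp_Bd x _ _) hu1 hv1
    (tdp_Bd x (uc (D.hs u)) (uc (D.hs v))) (tdp_Bd0 x (uc D.A) (pb.hA x))
    (tdp_Bd0 x (uc3 D.A') (pb.hA' x)) (tdp_Bd0 x (D.gr D.R) (pb.hz x))
  rw [gr_sub, hs_sub] at h
  have e1 := map_Qf (RingHom.fst K K) (u, v) (ω, ω') (fun i => (D.gr u i, D.gr v i))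
    (fun i => (D.gr D.R i, D.gr D.R i)) (pm (D.hs u) (D.hs v)) (pm D.A D.A) (pm C C')
    (fun l => pm (D.A' l) (D.A' l))
  have e2 := map_Qf (RingHom.snd K K) (u, v) (ω, ω') (fun i => (D.gr u i, D.gr v i))
    (fun i => (D.gr D.R i, D.gr D.R i)) (pm (D.hs u) (D.hs v)) (pm D.A D.A) (pm C C')
    (fun l => pm (D.A' l) (D.A' l))
  refine le_trans (le_of_eq ?_) (h.trans (le_of_eq (by ring)))
  exact congrArg (fun a => |S.ev x a|) (congrArg₂ (· - ·) e1.symm e2.symm)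

lemma Cst.Close.pos (cl : c.Close) : 0 ≤ c.β ∧ 0 ≤ cbN c.g c.m₁ ∧ 0 ≤ cbp c.g c.m₁ ∧ 0 ≤ c.kN ∧
    0 ≤ c.kp ∧ 0 ≤ c.ku := by
  have := cl.m₀0; have := cl.m₁0; have := cl.α0; have := cl.a₁0; have := cl.e₁0
  have hg : 0 ≤ c.g := zero_le_one.trans cl.g1
  have h1 : 0 ≤ cβ c.g c.m₁ := by
    unfold cβ; nlinarith [cl.g1, mul_nonneg (pow_nonneg hg 4) (sq_nonneg c.m₁)]
  have h2 : 0 ≤ cbN c.g c.m₁ := by unfold cbN; positivity
  have h3 : 0 ≤ cbp c.g c.m₁ := by unfold cbp; positivity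
  refine ⟨h1, h2, h3, ?_, ?_, ?_⟩
  · unfold Cst.kN ckN; positivity
  · unfold Cst.kp ckp; positivity
  · unfold Cst.ku cku; positivity

lemma Cst.Close.G10 (cl : c.Close) : 0 ≤ c.G1 := by
  have := cl.K₀0; have := cl.K₁0; have := cl.Kh0
  have := cl.c₀0; have := cl.c₁0; have := cl.c₂0
  unfold Cst.G1 Cst.Cs Cst.KΔ; positivity

lemma Hyp.lip (h : Hyp D S Inv c) {u v ω ω' : K} {C C' : Matrix I4 I4 K}
    (bu : Ball D S Inv c u) (bv : Ball D S Inv c v) (hu : D.Aux u ω C) (hv : D.Aux v ω' C')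
    {ρ : ℝ} (hρ : S.Dom (S.v0 (D.L (u - v))) ρ) :
    S.Dom (S.v0 (D.Q u ω C - D.Q v ω' C')) (c.κ * ρ) := by
  have cl := h.cl
  obtain ⟨p1, p2, p3, p4, p5, p6⟩ := cl.pos
  have lu := h.lin0 bu.1 bu.2.1
  have lv := h.lin0 bv.1 bv.2.1
  have lw := h.lin0 (h.invs u bu.1 v bv.1) hρ
  have ku := h.lin1 bu
  have kv := h.lin1 bv
  have := cl.α0; have := hρ.1; have := cl.G10; have := cl.ρ₀0; have := cl.G0
  have hg : 0 ≤ c.g := zero_le_one.trans cl.g1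
  have hCs : 0 ≤ c.Cs * ρ := by
    have := cl.K₀0; have := cl.K₁0; have := cl.Kh0
    have := cl.c₀0; have := cl.c₁0; have := cl.c₂0
    unfold Cst.Cs; positivity
  have hv4 : S.Dom (fun x => S.vn (uc (D.hs v)) x ^ 2) c.G2 := kv.n4.mono (fun x => by
    rw [abs_of_nonneg (sq_nonneg _)]
    exact pow_le_pow_left₀ (S.vn_nonneg _ _) (hs_le D S v x) 2) le_rfl
  refine (((((((lw.nh.cmul p1).add ((lv.nh.bmul (ψ := fun x => |S.ev x (u - v)|)
    (fun x => by rw [abs_abs]; exact lw.sup x) hCs).cmul (c := cbN c.g c.m₁ * c.α)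
    (by positivity))).add ((lw.n4.mul4 hv4 (c := c.G * ρ) (by positivity)
    (by nlinarith [mul_le_mul_of_nonneg_right cl.hG (sq_nonneg ρ)])).cmul p3)).add
    ((lw.n4.mul4 lu.n4 (c := c.G1 * ρ * c.ρ₀) (by positivity) (le_of_eq (by ring))).cmul
    (c := c.α * c.g ^ 3) (by positivity))).add
    ((lw.n4.mul4 lv.n4 (c := c.G1 * ρ * c.ρ₀) (by positivity) (le_of_eq (by ring))).cmul
    (c := c.α * c.g ^ 3) (by positivity))).add
    (lw.n0.abs.cmul (c := c.kN * c.α + c.ku) (by positivity))).add (lw.n1.cmul p5)).mono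
    (fun x => Q_sub_le h.pb cl.g1 cl.hg hu hv x (lu.sup x) (lv.sup x) (ku.sup x) (kv.sup x))
    (le_of_eq ?_)
  unfold Cst.κ Cst.κ₀
  ring

lemma aux_zero (D : DC K) : D.Aux 0 1 0 := by
  refine ⟨by simp, ?_⟩
  simp [qq, DC.gr, dotProduct]

lemma Q_zero (D : DC K) : D.Q 0 1 0 = 0 := by
  simp [DC.Q, Qf, fp, uc, bb, qq, DC.gr, dotProduct, vecMulVec_apply]

lemma Hyp.grow (h : Hyp D S Inv c) {u ω : K} {C : Matrix I4 I4 K}
    (bu : Ball D S Inv c u) (hu : D.Aux u ω C) : S.Dom (S.v0 (D.Q u ω C)) (c.κ₀ * c.ρ₀) := by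
  have cl := h.cl
  obtain ⟨p1, p2, p3, p4, p5, p6⟩ := cl.pos
  have lu := h.lin0 bu.1 bu.2.1
  have ku := h.lin1 bu
  have := cl.α0; have := cl.G10; have := cl.ρ₀0
  have hg : 0 ≤ c.g := zero_le_one.trans cl.g1
  refine ((((lu.nh.cmul p1).add (lu.n4.cmul (c := c.α * c.g ^ 3) (by positivity))).add
    (lu.n0.abs.cmul (c := c.kN * c.α + c.ku) (by positivity))).add (lu.n1.cmul p5)).mono
    (fun x => ?_) (le_of_eq ?_)
  · have g0 : S.vn (D.gr 0) x = 0 := by simp [IS.vn, DC.gr, nr_zero]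
    have g1 : S.vn (uc (D.hs 0)) x = 0 := by simp [IS.vn, DC.hs, DC.ap, uc, nr_zero]
    have := Q_sub_le h.pb cl.g1 cl.hg hu (aux_zero D) x (lu.sup x) (by simpa using cl.m₀0)
      (ku.sup x) (by rw [g0]; exact cl.m₁0)
    rw [Q_zero, sub_zero, sub_zero, g0, g1] at this
    refine this.trans (le_of_eq ?_)
    unfold Cst.β Cst.kN Cst.ku Cst.kp IS.v0
    ring
  · unfold Cst.κ₀
    ring

lemma Hyp.grow1 (h : Hyp D S Inv c) {u ω : K} {C : Matrix I4 I4 K}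
    (bu : Ball D S Inv c u) (hu : D.Aux u ω C) : S.Dom (S.vn (D.gr (D.Q u ω C))) c.H1 := by
  have cl := h.cl
  obtain ⟨p1, p2, p3, p4, p5, p6⟩ := cl.pos
  have lu := h.lin0 bu.1 bu.2.1
  have ku := h.lin1 bu
  have hα := cl.α0; have := cl.G10; have := cl.ρ₀0; have := cl.a₁0; have := cl.a₂0
  have := cl.e₂0; have := cl.m₀0; have := cl.m₁0
  have hg : 0 ≤ c.g := zero_le_one.trans cl.g1
  refine ((((((((ku.n3.add (lu.n1.cmul (c := c.a₁ + c.α ^ 2) (by positivity))).add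
    (lu.nr.cmul hα)).cmul p1).add
    (lu.nh.cmul (c := cbN c.g c.m₁ * (c.m₁ * c.α + c.m₀ * c.a₁)) (by positivity))).add
    (ku.n4.cmul p3)).add (lu.nr.cmul (c := 2 * c.α * c.g ^ 3 * c.m₁ + c.kp) (by positivity))).add
    (lu.n1.cmul (c := c.kN * c.α + c.ku + (c.g ^ 3 * c.m₁ * c.a₁ + c.m₀ * c.β * c.g * c.a₂
      + c.m₀ * c.g * c.e₂)) (by positivity))).add
    (lu.n0.abs.cmul (c := c.kN * c.a₁ + c.α * c.m₀ * c.α * c.g * c.a₁) (by positivity))).mono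
    (fun x => ?_) le_rfl
  rw [abs_of_nonneg (S.vn_nonneg _ _)]
  have n1 := S.vn_nonneg (D.gr u) x
  have n2 := S.vn_nonneg (D.dT (D.gr u)) x
  have n3 := S.vn_nonneg (D.dT (D.dT (D.gr u))) x
  have n4 := S.vn_nonneg (uc (D.hs u)) x
  have n0 := abs_nonneg (S.v0 u x)
  refine nr_le_of_dot (by positivity) fun ξ hξ => ?_
  have bu0 : (tdx D S x ξ).B0 u |S.ev x u| c.m₀ (S.vn (D.gr u) x) :=
    ⟨le_rfl, lu.sup x, (abs_dot_le ξ (fun m => S.ev x (D.d m u))).trans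
      (mul_le_of_le_one_left (nr_nonneg _) hξ)⟩
  have bp := tdx_Bd (D := D) (S := S) x hξ (D.gr u)
  have bA : (tdx D S x ξ).Bd (uc D.A) c.α c.α c.a₁ :=
    (tdx_Bd x hξ (uc D.A)).mono (h.pb.hA x) (h.pb.hA x) (h.pb.hA' x)
  have bA' : (tdx D S x ξ).Bd (uc3 D.A') c.a₁ c.a₁ c.a₂ :=
    (tdx_Bd x hξ (uc3 D.A')).mono (h.pb.hA' x) (h.pb.hA' x) (h.pb.hA'' x)
  have bz : (tdx D S x ξ).Bd (D.gr D.R) c.e₁ c.e₁ c.e₂ :=
    (tdx_Bd x hξ (D.gr D.R)).mono (h.pb.hz x) (h.pb.hz x) (h.pb.hz' x)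
  have bν : (tdx D S x ξ).Bd D.ν 1 1 c.α :=
    (tdx_Bd x hξ D.ν).mono (vn_ν D S x).le (vn_ν D S x).le (h.pb.hA x)
  have bh0 := (tdx_Bd (D := D) (S := S) x hξ (D.dT (D.gr u))).add ((bA.mulV bp).outM bν)
  have bh : (tdx D S x ξ).Bd (uc (D.hs u)) (S.vn (uc (D.hs u)) x) (S.vn (uc (D.hs u)) x) _ :=
    ⟨le_rfl, le_rfl, bh0.2.2⟩
  have key := TD.Q_bound hu.1 hu.2 cl.g1 cl.hg bu0 (lu.sup x) bp (ku.sup x) (ku.sup x) bh bA bA' bz
  refine le_trans (le_of_eq rfl) (key.trans ?_)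
  have s0 : |S.ev x u| ≤ c.m₀ := lu.sup x
  have s1 := ku.sup x
  have s2 := hs_le D S u x
  have i1 : cbN c.g c.m₁ * ((S.vn (D.gr u) x * c.α + |S.ev x u| * c.a₁) * S.vn (uc (D.hs u)) x) ≤
      cbN c.g c.m₁ * ((c.m₁ * c.α + c.m₀ * c.a₁) * S.vn (uc (D.hs u)) x) := by gcongr
  have i2 : cbp c.g c.m₁ * (S.vn (D.dT (D.gr u)) x * S.vn (uc (D.hs u)) x) ≤
      cbp c.g c.m₁ * (S.vn (D.dT (D.gr u)) x * S.vn (D.dT (D.gr u)) x) := by gcongr
  have i3 : c.α * c.g ^ 3 * (S.vn (D.dT (D.gr u)) x * S.vn (D.gr u) x) ≤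
      c.α * c.g ^ 3 * (S.vn (D.dT (D.gr u)) x * c.m₁) := by gcongr
  unfold Cst.β Cst.kN Cst.ku Cst.kp IS.v0
  linarith

lemma Hyp.step (h : Hyp D S Inv c) {u : K} (bu : Ball D S Inv c u) :
    ∃ ω C w, D.Aux u ω C ∧ Ball D S Inv c w ∧ D.L w = D.R + D.Q u ω C := by
  obtain ⟨ω, C, hu⟩ := h.aux (h.lin0 bu.1 bu.2.1).sup
  obtain ⟨w, hw, hL⟩ := h.solve _ (h.invQ u bu.1 ω C hu)
  refine ⟨ω, C, w, hu, ⟨hw, ?_, ?_⟩, hL⟩ <;> rw [hL]
  · exact (h.res0.add (h.grow bu hu)).mono' (fun x => le_of_eq (by simp [IS.v0])) h.cl.self0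
  · refine (h.res1.add (h.grow1 bu hu)).mono (fun x => ?_) h.cl.self1
    rw [abs_of_nonneg (S.vn_nonneg _ _)]
    simp only [IS.vn, DC.gr, map_add]
    exact nr_add_le _ _

lemma Hyp.ball0 (h : Hyp D S Inv c) : Ball D S Inv c 0 := by
  have e : D.L 0 = 0 := by simp [DC.L, DC.lf, DC.lap]
  refine ⟨h.inv0, ?_, ?_⟩ <;> rw [e]
  · exact IS.Dom.zero.mono' (fun x => by simp [IS.v0]) h.cl.ρ₀0
  · exact IS.Dom.zero.mono' (fun x => by simp [IS.vn, DC.gr, nr_zero]) h.cl.ρ₁0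

theorem Hyp.picard (h : Hyp D S Inv c) : ∃ (u ω : ℕ → K) (C : ℕ → Matrix I4 I4 K),
    ∀ n, Ball D S Inv c (u n) ∧ D.Aux (u n) (ω n) (C n) ∧
      D.L (u (n + 1)) = D.R + D.Q (u n) (ω n) (C n) ∧
      S.Dom (S.v0 (D.L (u (n + 1) - u n))) (c.ρ₀ * c.κ ^ n) := by
  choose ω C w h1 h2 h3 using fun u : {u // Ball D S Inv c u} => h.step u.2
  obtain ⟨s, s0, s1⟩ : ∃ s : ℕ → {u // Ball D S Inv c u}, (s 0).1 = 0 ∧
      ∀ n, (s (n + 1)).1 = w (s n) :=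
    ⟨fun n => Nat.rec ⟨0, h.ball0⟩ (fun _ u => ⟨w u, h2 u⟩) n, rfl, fun _ => rfl⟩
  refine ⟨fun n => (s n).1, fun n => ω (s n), fun n => C (s n), fun n =>
    ⟨(s n).2, h1 _, (congrArg D.L (s1 n)).trans (h3 _), ?_⟩⟩
  induction n with
  | zero =>
    simp only [s0, sub_zero, pow_zero, mul_one]
    exact (s (0 + 1)).2.2.1
  | succ n ih =>
    have e1 := (congrArg D.L (s1 (n + 1))).trans (h3 _)
    have e2 := (congrArg D.L (s1 n)).trans (h3 _)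
    rw [L_sub, e1, e2, add_sub_add_left_eq_sub]
    exact (h.lip (s (n + 1)).2 (s n).2 (h1 _) (h1 _) ih).le (le_of_eq (by ring))

end Pool.Agent.MP48470b.An
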