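import Pool.Agent.MP_48470b_gt.An.Frame
import Pool.Agent.MP_48470b_gt.An.Pic2
import Pool.Agent.MP_48470b_gt.Sph.B2
import Pool.Agent.MP_48470b_gt.Sph.B3

/-! The tangential calculus of an immersion of the three-sphere. -/

namespace Pool.Agent.MP48470b.An

open Finset Matrix Pool.Agent.MP_48470b_gt.Sph
open scoped ContDiff

noncomputable section

/-- Gram determinant. -/
def gram (f : I4 → R) : R :=
  ((Matrix.of fun k a => E a (f k))ᵀ * (Matrix.of fun k a => E a (f k))).det

/-- Immersions. -/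
def Imm (f : I4 → R) : Prop := ∀ x, 0 < gram f x

variable {f : I4 → R}

/-- The frame data of an immersion. -/
def fr (h : Imm f) : FR R where
  E := E
  b01 w := by rw [E_01, two_smul]; ring
  b12 w := by rw [E_12, two_smul]; ring
  b20 w := by rw [E_20, two_smul]; ring
  f := f
  J := R.comp Real.sqrt (gram f) fun x => Real.contDiffAt_sqrt (h x).ne'
  Ji := R.comp (fun t => (√t)⁻¹) (gram f) fun x =>
    (Real.contDiffAt_sqrt (h x).ne').inv (Real.sqrt_pos.2 (h x)).ne'
  e := R.comp Real.exp ((-1 / 4 : ℝ) • ∑ k, f k ^ 2) fun _ => Real.contDiff_exp.contDiffAt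
  hJ := R.ext fun x => Real.mul_self_sqrt (h x).le
  hJi := R.ext fun x => mul_inv_cancel₀ (Real.sqrt_pos.2 (h x)).ne'
  he a := R.ext fun x => by
    rw [E, D_comp]
    simp only [Real.deriv_exp, Derivation.map_smul, Fin.sum_univ_four, map_add, sq,
      Derivation.leibniz, smul_eq_mul, R.smul_apply, R.add_apply, R.mul_apply, R.neg_apply,
      R.comp_apply, hf, R.algebraMap_apply]
    ring

/-- The tangential calculus. -/
def dc (h : Imm f) : DC R := (fr h).toDC

/-- The Gaussian weight. -/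
def rho (h : Imm f) : R := (fr h).ρ

lemma rho_apply (h : Imm f) (x : S3) :
    rho h x = √(gram f x) * Real.exp (-1 / 4 * ∑ k, f k x ^ 2) := by
  simp [rho, FR.ρ, fr]

lemma rho_pos (h : Imm f) (x : S3) : 0 < rho h x := by
  rw [rho_apply]; exact mul_pos (Real.sqrt_pos.2 (h x)) (Real.exp_pos _)

/-- The weighted integral. -/
def wi (h : Imm f) : IS R S3 where
  ev := ev
  I := I ∘ₗ LinearMap.mulLeft ℝ (rho h)
  pos _ ha := I_nonneg fun x => mul_nonneg (rho_pos h x).le (ha x)

lemma wi_I (h : Imm f) (w : R) : (wi h).I w = I (rho h * w) := rfl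

@[simp] lemma wi_ev (h : Imm f) (x : S3) (w : R) : (wi h).ev x w = w x := rfl

lemma dc_f (h : Imm f) : (dc h).f = f := rfl

lemma dc_ν (h : Imm f) (i : I4) (x : S3) :
    (dc h).ν i x = (√(gram f x))⁻¹ * crs (Matrix.of fun k a => E a (f k)) i x := rfl

lemma dc_E (h : Imm f) (a : I3) (w : R) : E a w = ∑ k, E a (f k) * (dc h).d k w := (fr h).hE a w

lemma dc_ibp (h : Imm f) : IBP (dc h) (wi h) := (fr h).ibp _ I I_E (wi_I h)

/-- `f` commutes with the isometries in `G`. -/
def Eqv (f : I4 → R) (G : Set (E4 ≃ₗᵢ[ℝ] E4)) : Prop :=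
  ∀ g ∈ G, ∀ x i, f i (sph g x) = g (vec f x) i

end

end Pool.Agent.MP48470b.An
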