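import Pool.Agent.MP_48470b_gt.An.Nr

/-! Mean-square domination with respect to a positive functional on an algebra of functions. -/

namespace Pool.Agent.MP48470b.An

open Finset

/-- An algebra with point evaluations and a positive functional. -/
structure IS (K : Type*) [CommRing K] [Algebra ℝ K] (X : Type*) where
  ev : X → K →ₐ[ℝ] ℝ
  I : K →ₗ[ℝ] ℝ
  pos : ∀ a, (∀ x, 0 ≤ ev x a) → 0 ≤ I a

namespace IS

variable {K : Type*} [CommRing K] [Algebra ℝ K] {X : Type*} (S : IS K X)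
variable {ι : Type*} [Fintype ι]

lemma mono {a b : K} (h : ∀ x, S.ev x a ≤ S.ev x b) : S.I a ≤ S.I b := by
  have := S.pos (b - a) fun x => by rw [map_sub]; linarith [h x]
  rw [map_sub] at this; linarith

/-- The mean square of `φ` is at most `t ^ 2`. -/
def Dom (φ : X → ℝ) (t : ℝ) : Prop :=
  0 ≤ t ∧ ∀ ε > 0, ∃ s : K, (∀ x, φ x ^ 2 ≤ S.ev x s) ∧ S.I s ≤ (t + ε) ^ 2

/-- Value of a scalar. -/
def v0 (a : K) : X → ℝ := fun x => S.ev x a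

/-- Pointwise size of a family. -/
noncomputable def vn (v : ι → K) : X → ℝ := fun x => nr fun i => S.ev x (v i)

lemma vn_nonneg (v : ι → K) (x : X) : 0 ≤ S.vn v x := nr_nonneg _

lemma vn_sq (v : ι → K) (x : X) : S.vn v x ^ 2 = S.ev x (∑ i, v i ^ 2) := by
  simp [vn, nr_sq]

variable {S}

lemma Dom.of_le {φ : X → ℝ} {t : ℝ} (s : K) (ht : 0 ≤ t) (h : ∀ x, φ x ^ 2 ≤ S.ev x s)
    (hs : S.I s ≤ t ^ 2) : S.Dom φ t :=
  ⟨ht, fun ε hε => ⟨s, h, hs.trans (by nlinarith)⟩⟩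

lemma Dom.mono' {φ ψ : X → ℝ} {t t' : ℝ} (h : S.Dom φ t) (hψ : ∀ x, ψ x ^ 2 ≤ φ x ^ 2)
    (ht : t ≤ t') : S.Dom ψ t' := by
  refine ⟨h.1.trans ht, fun ε hε => ?_⟩
  obtain ⟨s, h1, h2⟩ := h.2 ε hε
  refine ⟨s, fun x => (hψ x).trans (h1 x), h2.trans ?_⟩
  have := h.1
  gcongr

lemma Dom.mono {φ ψ : X → ℝ} {t t' : ℝ} (h : S.Dom φ t) (hψ : ∀ x, |ψ x| ≤ φ x)
    (ht : t ≤ t') : S.Dom ψ t' :=
  h.mono' (fun x => by
    have := hψ x
    rw [← sq_abs (ψ x)]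
    gcongr) ht

lemma Dom.le {φ : X → ℝ} {t t' : ℝ} (h : S.Dom φ t) (ht : t ≤ t') : S.Dom φ t' :=
  h.mono' (fun _ => le_rfl) ht

lemma Dom.abs {φ : X → ℝ} {t : ℝ} (h : S.Dom φ t) : S.Dom (fun x => |φ x|) t :=
  h.mono' (fun x => by rw [sq_abs]) le_rfl

lemma Dom.add {φ ψ : X → ℝ} {t t' : ℝ} (h : S.Dom φ t) (h' : S.Dom ψ t') :
    S.Dom (fun x => φ x + ψ x) (t + t') := by
  refine ⟨add_nonneg h.1 h'.1, fun ε hε => ?_⟩
  obtain ⟨s, h1, h2⟩ := h.2 (ε / 2) (by linarith)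
  obtain ⟨s', h1', h2'⟩ := h'.2 (ε / 2) (by linarith)
  have ha : 0 < t + ε / 2 := by linarith [h.1]
  have hb : 0 < t' + ε / 2 := by linarith [h'.1]
  set a := t + ε / 2 with ha'
  set b := t' + ε / 2 with hb'
  refine ⟨((a + b) / a) • s + ((a + b) / b) • s', fun x => ?_, ?_⟩
  · simp only [map_add, map_smul, smul_eq_mul]
    have e : (a + b) / a * φ x ^ 2 + (a + b) / b * ψ x ^ 2 - (φ x + ψ x) ^ 2
        = (b * φ x - a * ψ x) ^ 2 / (a * b) := by field_simp; ring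
    have e2 : 0 ≤ (b * φ x - a * ψ x) ^ 2 / (a * b) := by positivity
    have e3 : (a + b) / a * φ x ^ 2 ≤ (a + b) / a * S.ev x s := by gcongr; exact h1 x
    have e4 : (a + b) / b * ψ x ^ 2 ≤ (a + b) / b * S.ev x s' := by gcongr; exact h1' x
    linarith
  · simp only [map_add, map_smul, smul_eq_mul]
    calc _ ≤ (a + b) / a * a ^ 2 + (a + b) / b * b ^ 2 := by gcongr
      _ = (a + b) ^ 2 := by field_simp
      _ = _ := by rw [ha', hb']; ring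

lemma Dom.cmul {φ : X → ℝ} {t c : ℝ} (hc : 0 ≤ c) (h : S.Dom φ t) :
    S.Dom (fun x => c * φ x) (c * t) := by
  refine ⟨mul_nonneg hc h.1, fun ε hε => ?_⟩
  obtain ⟨s, h1, h2⟩ := h.2 (ε / (c + 1)) (by positivity)
  refine ⟨(c ^ 2) • s, fun x => ?_, ?_⟩
  · rw [map_smul, smul_eq_mul, mul_pow]; gcongr; exact h1 x
  · rw [map_smul, smul_eq_mul]
    have h3 : c * (ε / (c + 1)) ≤ ε := by
      rw [← mul_div_assoc, div_le_iff₀ (by positivity)]; nlinarith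
    have := h.1
    calc _ ≤ c ^ 2 * (t + ε / (c + 1)) ^ 2 := by gcongr
      _ = (c * t + c * (ε / (c + 1))) ^ 2 := by ring
      _ ≤ _ := by gcongr

lemma Dom.zero : S.Dom (fun _ => 0) 0 := Dom.of_le 0 le_rfl (by simp) (by simp)

/-- A bounded factor. -/
lemma Dom.bmul {φ ψ : X → ℝ} {t c : ℝ} (hc : ∀ x, |ψ x| ≤ c) (hc0 : 0 ≤ c) (h : S.Dom φ t) :
    S.Dom (fun x => ψ x * φ x) (c * t) :=
  (h.cmul hc0).mono' (fun x => by
    rw [mul_pow, mul_pow, ← sq_abs (ψ x)]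
    have := hc x
    gcongr) le_rfl

lemma le_of_forall_eps {r a b : ℝ} (ha : 0 ≤ a) (hb : 0 ≤ b)
    (h : ∀ ε > 0, r ≤ (a + ε) * (b + ε)) : r ≤ a * b := by
  apply le_of_forall_pos_le_add
  intro δ hδ
  have h1 := h (min 1 (δ / (a + b + 1))) (by positivity)
  set e := min 1 (δ / (a + b + 1))
  have e1 : e ≤ 1 := min_le_left _ _
  have e2 : e * (a + b + 1) ≤ δ := by
    rw [← le_div_iff₀ (by positivity)]; exact min_le_right _ _
  have e3 : 0 < e := by positivity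
  nlinarith

lemma am_gm {p q a b : ℝ} (ha : 0 < a) (hb : 0 < b) :
    p * q ≤ b / (2 * a) * p ^ 2 + a / (2 * b) * q ^ 2 := by
  have e : b / (2 * a) * p ^ 2 + a / (2 * b) * q ^ 2 - p * q = (b * p - a * q) ^ 2 / (2 * a * b) := by
    field_simp; ring
  have e2 : 0 ≤ (b * p - a * q) ^ 2 / (2 * a * b) := by positivity
  linarith

lemma Dom.pair_aux {φ ψ : X → ℝ} {t t' : ℝ} (h : S.Dom φ t) (h' : S.Dom ψ t') (ε : ℝ)
    (hε : 0 < ε) : ∃ s : K, (∀ x, φ x * ψ x ≤ S.ev x s) ∧ S.I s ≤ (t + ε) * (t' + ε) := by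
  obtain ⟨s, h1, h2⟩ := h.2 ε hε
  obtain ⟨s', h1', h2'⟩ := h'.2 ε hε
  have ha : 0 < t + ε := by linarith [h.1]
  have hb : 0 < t' + ε := by linarith [h'.1]
  set a := t + ε
  set b := t' + ε
  refine ⟨(b / (2 * a)) • s + (a / (2 * b)) • s', fun x => ?_, ?_⟩
  · simp only [map_add, map_smul, smul_eq_mul]
    refine (am_gm ha hb).trans ?_
    gcongr
    exacts [h1 x, h1' x]
  · simp only [map_add, map_smul, smul_eq_mul]
    calc _ ≤ b / (2 * a) * a ^ 2 + a / (2 * b) * b ^ 2 := by gcongr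
      _ = a * b := by field_simp; ring

/-- Cauchy-Schwarz. -/
lemma Dom.I_le {φ ψ : X → ℝ} {t t' : ℝ} (h : S.Dom φ t) (h' : S.Dom ψ t') {a : K}
    (ha : ∀ x, S.ev x a ≤ φ x * ψ x) : S.I a ≤ t * t' :=
  le_of_forall_eps h.1 h'.1 fun ε hε => by
    obtain ⟨s, h1, h2⟩ := h.pair_aux h' ε hε
    exact (S.mono fun x => (ha x).trans (h1 x)).trans h2

/-- Hoelder with two fourth powers. -/
lemma Dom.mul4 {φ ψ : X → ℝ} {t t' c : ℝ} (h : S.Dom (fun x => φ x ^ 2) t)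
    (h' : S.Dom (fun x => ψ x ^ 2) t') (hc : 0 ≤ c) (hcc : t * t' ≤ c ^ 2) :
    S.Dom (fun x => φ x * ψ x) c := by
  refine ⟨hc, fun ε hε => ?_⟩
  have h0 := h.1
  have h0' := h'.1
  obtain ⟨s, h1, h2⟩ := h.pair_aux h' (min 1 (ε ^ 2 / (t + t' + 1))) (by positivity)
  refine ⟨s, fun x => by rw [mul_pow]; exact h1 x, h2.trans ?_⟩
  set e := min 1 (ε ^ 2 / (t + t' + 1))
  have e1 : e ≤ 1 := min_le_left _ _
  have e2 : e * (t + t' + 1) ≤ ε ^ 2 := by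
    rw [← le_div_iff₀ (by positivity)]; exact min_le_right _ _
  have e3 : 0 < e := by positivity
  nlinarith [mul_nonneg hc hε.le]

lemma Dom.I_sq {φ : X → ℝ} {t : ℝ} (h : S.Dom φ t) {a : K} (ha : ∀ x, S.ev x a ≤ φ x ^ 2) :
    S.I a ≤ t ^ 2 := by
  rw [sq]; exact h.I_le h fun x => by rw [← sq]; exact ha x

lemma dom_v0 {a : K} {t : ℝ} : S.Dom (S.v0 a) t ↔ 0 ≤ t ∧ S.I (a ^ 2) ≤ t ^ 2 :=
  ⟨fun h => ⟨h.1, h.I_sq fun x => by simp [v0]⟩,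
    fun h => Dom.of_le (a ^ 2) h.1 (fun x => by simp [v0]) h.2⟩

lemma dom_vn {v : ι → K} {t : ℝ} : S.Dom (S.vn v) t ↔ 0 ≤ t ∧ S.I (∑ i, v i ^ 2) ≤ t ^ 2 :=
  ⟨fun h => ⟨h.1, h.I_sq fun x => (S.vn_sq v x).ge⟩,
    fun h => Dom.of_le _ h.1 (fun x => (S.vn_sq v x).le) h.2⟩

lemma dom_v0_self (a : K) : S.Dom (S.v0 a) √(S.I (a ^ 2)) :=
  dom_v0.2 ⟨Real.sqrt_nonneg _, (Real.sq_sqrt (S.pos _ fun x => by
    rw [map_pow]; exact sq_nonneg _)).ge⟩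

/-- Absorption. -/
lemma dom_of_sq_le {a : K} {t : ℝ} (ht : 0 ≤ t)
    (h : ∀ r, S.Dom (S.v0 a) r → S.I (a ^ 2) ≤ t * r) : S.Dom (S.v0 a) t := by
  have h1 := dom_v0_self (S := S) a
  have h2 := h _ h1
  have h0 : 0 ≤ S.I (a ^ 2) := S.pos _ fun x => by rw [map_pow]; exact sq_nonneg _
  refine h1.le ?_
  have h3 := Real.sq_sqrt h0
  have h4 := Real.sqrt_nonneg (S.I (a ^ 2))
  by_contra hc
  push Not at hc
  nlinarith

end IS

end Pool.Agent.MP48470b.An
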