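import Pool.Agent.MP_48470b_gt.An.QB
import Pool.Agent.MP_48470b_gt.An.Dom

/-! The tangential calculus of a hypersurface in four-space, as algebra. -/

namespace Pool.Agent.MP48470b.An

open Finset Matrix

/-- Tangential derivatives along a hypersurface with position `f` and unit normal `ν`. -/
structure DC (K : Type*) [CommRing K] [Algebra ℝ K] where
  d : I4 → Derivation ℝ K K
  f : I4 → K
  ν : I4 → K
  nn : ∑ i, ν i * ν i = 1
  nd : ∀ w, ∑ i, ν i * d i w = 0
  df : ∀ i j, d i (f j) = (1 : Matrix I4 I4 K) i j - ν i * ν j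
  sym : ∀ i j, d i (ν j) = d j (ν i)
  comm : ∀ i j w, d i (d j w) - d j (d i w) = ∑ k, (ν i * d j (ν k) - ν j * d i (ν k)) * d k w

/-- One half. -/
noncomputable def hf (K : Type*) [CommRing K] [Algebra ℝ K] : K := algebraMap ℝ K (1 / 2)

lemma two_hf (K : Type*) [CommRing K] [Algebra ℝ K] : 2 * hf K = 1 := by
  have : (2 : K) = algebraMap ℝ K 2 := (map_ofNat (algebraMap ℝ K) 2).symm
  rw [hf, this, ← map_mul]; norm_num

@[simp] lemma der_hf {K : Type*} [CommRing K] [Algebra ℝ K] (d : Derivation ℝ K K) :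
    d (hf K) = 0 := d.map_algebraMap _

@[simp] lemma ev_hf {K : Type*} [CommRing K] [Algebra ℝ K] (φ : K →ₐ[ℝ] ℝ) :
    φ (hf K) = 1 / 2 := φ.commutes _

namespace DC

noncomputable section

variable {K : Type*} [CommRing K] [Algebra ℝ K] (D : DC K)

lemma dmul (i : I4) (a b : K) : D.d i (a * b) = D.d i a * b + a * D.d i b := by
  rw [Derivation.leibniz, smul_eq_mul, smul_eq_mul]; ring

/-- Gradient of a family. -/
def dT {ι : Type*} (v : ι → K) : I4 × ι → K := fun p => D.d p.1 (v p.2)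
/-- Gradient. -/
def gr (w : K) : I4 → K := fun i => D.d i w
/-- Gradient of a vector, as a matrix. -/
def dM (v : I4 → K) : Matrix I4 I4 K := Matrix.of fun i j => D.d i (v j)
/-- Shape operator. -/
def A : Matrix I4 I4 K := D.dM D.ν
/-- Gradient of the shape operator. -/
def A' : I4 → Matrix I4 I4 K := fun l => Matrix.of fun i j => D.d l (D.A i j)
/-- Mean curvature. -/
def H : K := ∑ i, D.d i (D.ν i)
/-- Support function. -/
def lam : K := ∑ i, D.f i * D.ν i
/-- Residual of the shrinker equation. -/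
def R : K := D.H - hf K * D.lam
/-- Potential of the stability operator. -/
def V : K := fp D.A D.A + hf K
/-- Laplace operator. -/
def lap (w : K) : K := ∑ i, D.d i (D.d i w)
/-- Drift Laplace operator. -/
def lf (w : K) : K := D.lap w - hf K * ∑ i, D.f i * D.d i w
/-- Stability operator. -/
def L (w : K) : K := D.lf w + D.V * w
/-- Shape operator applied to the gradient. -/
def ap (w : K) : I4 → K := fun i => ∑ j, D.d i (D.ν j) * D.d j w
/-- Tangential Hessian. -/
def hs (w : K) : Matrix I4 I4 K := Matrix.of fun i j => D.d i (D.d j w) + D.ap w i * D.ν j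

lemma A_apply (i j : I4) : D.A i j = D.d i (D.ν j) := rfl

lemma A_n (i : I4) : ∑ j, D.d i (D.ν j) * D.ν j = 0 := by
  rw [← D.nd (D.ν i)]
  exact sum_congr rfl fun j _ => by rw [D.sym i j, mul_comm]

lemma n_r (i : I4) (w : K) : ∑ j, D.ν j * D.d i (D.d j w) = - D.ap w i := by
  have h := congrArg (D.d i) (D.nd w)
  simp only [map_sum, dmul, map_zero, sum_add_distrib] at h
  unfold ap
  linear_combination h

lemma swap (i k : I4) (w : K) :
    D.d i (D.d k w) = D.d k (D.d i w) + D.ν i * D.ap w k - D.ν k * D.ap w i := by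
  have h := D.comm i k w
  simp only [ap, Fin.sum_univ_four] at h ⊢
  linear_combination h

lemma n_ap (w : K) : ∑ i, D.ν i * D.ap w i = 0 := by
  have h := fun j => D.nd (D.ν j)
  simp only [ap, Fin.sum_univ_four] at h ⊢
  linear_combination D.d 0 w * h 0 + D.d 1 w * h 1 + D.d 2 w * h 2 + D.d 3 w * h 3

omit [Algebra ℝ K] in
lemma fp_eq (M N : Matrix I4 I4 K) : fp M N = ∑ i, ∑ j, M i j * N i j := by
  simp [fp, uc, Fintype.sum_prod_type]

lemma codazzi (j : I4) : ∑ i, D.d i (D.d i (D.ν j)) = D.d j D.H - D.ν j * fp D.A D.A := by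
  have h1 : ∑ i, D.d i (D.d i (D.ν j)) = ∑ i, D.d i (D.d j (D.ν i)) :=
    sum_congr rfl fun i _ => by rw [D.sym i j]
  have h2 : ∑ i, D.d i (D.d j (D.ν i)) = ∑ i, (D.d j (D.d i (D.ν i)) + D.ν i * D.ap (D.ν i) j
      - D.ν j * D.ap (D.ν i) i) := sum_congr rfl fun i _ => D.swap i j _
  have h3 := D.A_n
  have s10 := D.sym 1 0
  have s20 := D.sym 2 0
  have s30 := D.sym 3 0
  have s21 := D.sym 2 1
  have s31 := D.sym 3 1
  have s32 := D.sym 3 2
  rw [h1, h2, fp_eq]
  simp only [H, ap, A_apply, Fin.sum_univ_four, map_add] at h3 ⊢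
  have g0 := h3 0
  have g1 := h3 1
  have g2 := h3 2
  have g3 := h3 3
  simp only [s10, s20, s30, s21, s31, s32] at g0 g1 g2 g3 ⊢
  linear_combination D.d j (D.ν 0) * g0 + D.d j (D.ν 1) * g1 + D.d j (D.ν 2) * g2
    + D.d j (D.ν 3) * g3

lemma d_lam (i : I4) : D.d i D.lam = ∑ j, D.d i (D.ν j) * D.f j := by
  have h1 : ∑ j, D.d i (D.f j) * D.ν j = 0 := by
    have h2 : ∑ j, (1 : Matrix I4 I4 K) i j * D.ν j = D.ν i := by simp [Matrix.one_apply]
    have h3 := D.nn
    simp only [D.df, sub_mul, sum_sub_distrib, h2]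
    simp only [Fin.sum_univ_four] at h3 ⊢
    linear_combination (-D.ν i) * h3
  simp only [lam, map_sum, dmul, sum_add_distrib, h1, zero_add]
  exact sum_congr rfl fun j _ => mul_comm _ _

lemma div_ap (w : K) : ∑ i, D.d i (D.ap w i) =
    ∑ j, D.d j D.H * D.d j w + fp D.A (D.dM (D.gr w)) := by
  have h := D.codazzi
  have h1 := D.nd w
  rw [fp_eq]
  simp only [ap, Fin.sum_univ_four, map_add, dmul, A_apply, dM, gr, Matrix.of_apply] at h h1 ⊢
  linear_combination D.d 0 w * h 0 + D.d 1 w * h 1 + D.d 2 w * h 2 + D.d 3 w * h 3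
    - fp D.A D.A * h1

lemma lap_d (k : I4) (w : K) : D.lap (D.d k w) = D.d k (D.lap w) + D.H * D.ap w k
    - 2 * ∑ l, D.d k (D.ν l) * D.ap w l
    - D.ν k * (∑ j, D.d j D.H * D.d j w + 2 * fp D.A (D.dM (D.gr w))) := by
  have h1 : D.lap (D.d k w) = ∑ i, D.d i (D.d k (D.d i w) + D.ν i * D.ap w k - D.ν k * D.ap w i) :=
    sum_congr rfl fun i _ => by rw [← D.swap i k w]
  have h2 : ∑ i, D.d i (D.d k (D.d i w)) = ∑ i, (D.d k (D.d i (D.d i w))
      + D.ν i * D.ap (D.d i w) k - D.ν k * D.ap (D.d i w) i) :=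
    sum_congr rfl fun i _ => D.swap i k _
  have h3 := D.nd (D.ap w k)
  have h4 := D.div_ap w
  have h5 : ∑ i, D.ν i * D.ap (D.d i w) k = - ∑ l, D.d k (D.ν l) * D.ap w l := by
    have h := fun l => D.n_r l w
    simp only [Fin.sum_univ_four] at h ⊢
    have e : ∀ i, D.ap (D.d i w) k = ∑ j, D.d k (D.ν j) * D.d j (D.d i w) := fun i => rfl
    simp only [e, Fin.sum_univ_four]
    linear_combination D.d k (D.ν 0) * h 0 + D.d k (D.ν 1) * h 1 + D.d k (D.ν 2) * h 2
      + D.d k (D.ν 3) * h 3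
  have h6 : ∑ i, D.ap (D.d i w) i = fp D.A (D.dM (D.gr w)) := by
    rw [fp_eq, sum_comm]
    exact sum_congr rfl fun i _ => sum_congr rfl fun j _ => by
      rw [A_apply, D.sym j i]; rfl
  have h7 : ∑ i, D.d i (D.ν k) * D.ap w i = ∑ l, D.d k (D.ν l) * D.ap w l :=
    sum_congr rfl fun i _ => by rw [D.sym i k]
  rw [h1]
  simp only [map_sub, map_add, dmul, sum_add_distrib, sum_sub_distrib, ← mul_sum, ← sum_mul, h2,
    h3, h4, h5, h6, h7, lap, map_sum, H]
  ring

lemma f_d (k : I4) (w : K) : ∑ i, D.f i * D.d i (D.d k w) =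
    D.d k (∑ i, D.f i * D.d i w) - D.d k w + D.lam * D.ap w k
      - D.ν k * ∑ i, D.f i * D.ap w i := by
  have h1 : ∑ i, D.f i * D.d i (D.d k w) =
      ∑ i, D.f i * (D.d k (D.d i w) + D.ν i * D.ap w k - D.ν k * D.ap w i) :=
    sum_congr rfl fun i _ => by rw [← D.swap i k w]
  have h2 : ∑ i, D.d k (D.f i) * D.d i w = D.d k w := by
    have h3 : ∑ j, (1 : Matrix I4 I4 K) k j * D.d j w = D.d k w := by simp [Matrix.one_apply]
    have h4 := D.nd w
    simp only [D.df, sub_mul, sum_sub_distrib, h3]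
    simp only [Fin.sum_univ_four] at h4 ⊢
    linear_combination (-D.ν k) * h4
  rw [h1]
  simp only [map_sum, dmul, sum_add_distrib, h2]
  simp only [lam, Fin.sum_univ_four]
  ring

lemma d_R (j : I4) : D.d j D.R = D.d j D.H - hf K * ∑ i, D.d j (D.ν i) * D.f i := by
  simp [R, d_lam]

/-- Commuting the drift Laplace operator with the gradient. -/
lemma lf_d (k : I4) (w : K) : D.lf (D.d k w) = D.d k (D.lf w) + hf K * D.d k w + D.R * D.ap w k
    - 2 * ∑ l, D.d k (D.ν l) * D.ap w l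
    - D.ν k * (∑ j, D.d j D.R * D.d j w + 2 * fp D.A (D.dM (D.gr w))) := by
  have h : ∑ i, D.f i * D.ap w i = ∑ j, (∑ i, D.d j (D.ν i) * D.f i) * D.d j w := by
    simp only [ap, mul_sum, sum_mul]
    rw [sum_comm]
    exact sum_congr rfl fun j _ => sum_congr rfl fun i _ => by rw [D.sym j i]; ring
  simp only [lf, lap_d, f_d, h, d_R, map_sub, dmul, der_hf]
  simp only [R, Fin.sum_univ_four]
  ring

/-- The full second derivative splits. -/
lemma r_sq (w : K) : ∑ p, D.dT (D.gr w) p ^ 2 = ∑ p, uc (D.hs w) p ^ 2 + ∑ i, D.ap w i ^ 2 := by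
  have h := fun i => D.n_r i w
  have h1 := D.nn
  simp only [Fintype.sum_prod_type, dT, gr, uc, hs, Matrix.of_apply, Fin.sum_univ_four] at h h1 ⊢
  linear_combination (-2 * D.ap w 0) * h 0 + (-2 * D.ap w 1) * h 1 + (-2 * D.ap w 2) * h 2
    + (-2 * D.ap w 3) * h 3 - (D.ap w 0 ^ 2 + D.ap w 1 ^ 2 + D.ap w 2 ^ 2 + D.ap w 3 ^ 2) * h1

end

end DC

end Pool.Agent.MP48470b.An
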