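import Pool.Agent.MP_48470b_gt.An.DC

/-! The shrinker equation of a normal graph. -/

namespace Pool.Agent.MP48470b.An

open Finset Matrix

section fp
variable {K : Type*} [CommRing K]

lemma fp_trace (M N : Matrix I4 I4 K) : fp M N = trace (M * Nᵀ) := by
  rw [DC.fp_eq]; rfl

lemma fp_comm (M N : Matrix I4 I4 K) : fp M N = fp N M :=
  sum_congr rfl fun _ _ => mul_comm _ _

lemma fp_add (M N P : Matrix I4 I4 K) : fp M (N + P) = fp M N + fp M P := by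
  simp [fp_trace, mul_add]

lemma fp_sub (M N P : Matrix I4 I4 K) : fp M (N - P) = fp M N - fp M P := by
  simp [fp_trace, mul_sub]

lemma fp_smul (M N : Matrix I4 I4 K) (c : K) : fp M (c • N) = c * fp M N := by
  simp [fp_trace]

lemma add_fp (M N P : Matrix I4 I4 K) : fp (M + N) P = fp M P + fp N P := by
  simp [fp_trace, add_mul]

lemma one_fp (M : Matrix I4 I4 K) : fp 1 M = trace M := by simp [fp_trace]

lemma fp_out (M : Matrix I4 I4 K) (a b : I4 → K) : fp M (vecMulVec a b) = a ⬝ᵥ (M *ᵥ b) := by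
  simp only [DC.fp_eq, vecMulVec_apply, dotProduct, mulVec, mul_sum]
  exact sum_congr rfl fun i _ => sum_congr rfl fun j _ => by ring

lemma dot_sym {M : Matrix I4 I4 K} (h : Mᵀ = M) (a b : I4 → K) :
    a ⬝ᵥ (M *ᵥ b) = (M *ᵥ a) ⬝ᵥ b := by
  rw [dotProduct_mulVec, ← mulVec_transpose, h]

lemma out_mulVec (a b c : I4 → K) : vecMulVec a b *ᵥ c = (b ⬝ᵥ c) • a := by
  ext i
  simp only [mulVec, dotProduct, vecMulVec_apply, Pi.smul_apply, smul_eq_mul, sum_mul]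
  exact sum_congr rfl fun j _ => by ring

lemma mul_out (M : Matrix I4 I4 K) (a b : I4 → K) :
    M * vecMulVec a b = vecMulVec (M *ᵥ a) b := by
  ext i j
  simp only [Matrix.mul_apply, mulVec, dotProduct, vecMulVec_apply, sum_mul]
  exact sum_congr rfl fun j _ => by ring

lemma qq_eq (C : Matrix I4 I4 K) (p : I4 → K) : qq C p = (1 + C) *ᵥ p := by
  rw [add_mulVec, one_mulVec]; rfl

lemma bb_eq (C : Matrix I4 I4 K) (p : I4 → K) (ω : K) : 1 + bb C p ω =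
    (1 + C) * (1 + C) - ω • vecMulVec (qq C (qq C p)) (qq C (qq C p)) := by
  unfold bb; noncomm_ring

end fp

namespace DC

noncomputable section

variable {K : Type*} [CommRing K] [Algebra ℝ K] (D : DC K)

/-- The normal graph. -/
def FF (u : K) : I4 → K := fun i => D.f i + u * D.ν i
/-- A normal vector of the graph. -/
def n1 (u : K) (C : Matrix I4 I4 K) : I4 → K := D.ν - qq C (D.gr u)
/-- The shrinker operator of the graph. -/
def Eg (u ω : K) (C : Matrix I4 I4 K) : K :=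
  fp (1 + bb C (D.gr u) ω) (D.dM (D.n1 u C) * (D.dM (D.FF u))ᵀ) - hf K * (D.FF u ⬝ᵥ D.n1 u C)
/-- The nonlinear remainder. -/
def Q (u ω : K) (C : Matrix I4 I4 K) : K :=
  Qf u ω (D.gr u) (D.gr D.R) (D.hs u) D.A C D.A'
/-- The auxiliary inverses. -/
def Aux (u ω : K) (C : Matrix I4 I4 K) : Prop :=
  C = -(u • D.A) - (u • D.A) * C ∧ ω * (1 + qq C (D.gr u) ⬝ᵥ qq C (D.gr u)) = 1

lemma A_symm : D.Aᵀ = D.A := by ext i j; exact D.sym j i

lemma A_ν : D.A *ᵥ D.ν = 0 := by ext i; exact D.A_n i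

lemma ν_gr (u : K) : D.ν ⬝ᵥ D.gr u = 0 := D.nd u

lemma dM_FF (u : K) :
    (D.dM (D.FF u))ᵀ = 1 + u • D.A - vecMulVec D.ν D.ν + vecMulVec D.ν (D.gr u) := by
  ext i j
  simp only [transpose_apply, dM, FF, Matrix.of_apply, map_add, dmul, D.df, Matrix.add_apply,
    Matrix.sub_apply, Matrix.smul_apply, smul_eq_mul, vecMulVec_apply, gr, A_apply, D.sym i j,
    Matrix.one_apply, eq_comm (a := j) (b := i)]
  ring

variable {D} {u ω : K} {C : Matrix I4 I4 K}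

lemma Aux.NP (h : D.Aux u ω C) : (1 + u • D.A) * (1 + C) = 1 := by
  have := h.1
  calc _ = 1 + (C - (-(u • D.A) - (u • D.A) * C)) := by noncomm_ring
    _ = 1 := by rw [← this, sub_self, add_zero]

lemma Aux.PN (h : D.Aux u ω C) : (1 + C) * (1 + u • D.A) = 1 := mul_eq_one_comm.1 h.NP

lemma N_symm (D : DC K) (u : K) : (1 + u • D.A)ᵀ = 1 + u • D.A := by simp [D.A_symm]

lemma Aux.P_symm (h : D.Aux u ω C) : (1 + C)ᵀ = 1 + C := by
  calc (1 + C)ᵀ = (1 + C)ᵀ * ((1 + u • D.A)ᵀ * (1 + C)) := by rw [N_symm, h.NP, mul_one]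
    _ = ((1 + u • D.A) * (1 + C))ᵀ * (1 + C) := by rw [transpose_mul, mul_assoc]
    _ = 1 + C := by rw [h.NP, transpose_one, one_mul]

lemma N_ν (D : DC K) (u : K) : (1 + u • D.A) *ᵥ D.ν = D.ν := by
  simp [add_mulVec, smul_mulVec, D.A_ν]

lemma Aux.P_ν (h : D.Aux u ω C) : (1 + C) *ᵥ D.ν = D.ν := by
  nth_rewrite 1 [← N_ν D u]
  rw [mulVec_mulVec, h.PN, one_mulVec]

lemma Aux.ν_qq (h : D.Aux u ω C) (v : I4 → K) : D.ν ⬝ᵥ qq C v = D.ν ⬝ᵥ v := by
  rw [qq_eq, dot_sym h.P_symm, h.P_ν]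

lemma Aux.N_qq (h : D.Aux u ω C) (v : I4 → K) : (1 + u • D.A) *ᵥ qq C v = v := by
  rw [qq_eq, mulVec_mulVec, h.NP, one_mulVec]

lemma Aux.Γ_symm (h : D.Aux u ω C) : (1 + bb C (D.gr u) ω)ᵀ = 1 + bb C (D.gr u) ω := by
  rw [bb_eq, transpose_sub, transpose_mul, h.P_symm, transpose_smul, transpose_vecMulVec]

lemma Aux.Γ_ν (h : D.Aux u ω C) : (1 + bb C (D.gr u) ω) *ᵥ D.ν = D.ν := by
  rw [bb_eq, sub_mulVec, ← mulVec_mulVec, h.P_ν, h.P_ν, smul_mulVec, out_mulVec, dotProduct_comm,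
    h.ν_qq, h.ν_qq, D.ν_gr, zero_smul, smul_zero, sub_zero]

lemma Aux.y_p (h : D.Aux u ω C) :
    qq C (qq C (D.gr u)) ⬝ᵥ D.gr u = qq C (D.gr u) ⬝ᵥ qq C (D.gr u) := by
  rw [qq_eq C (qq C _), ← dot_sym h.P_symm, ← qq_eq]

lemma Aux.Γ_p (h : D.Aux u ω C) :
    (1 + bb C (D.gr u) ω) *ᵥ D.gr u = ω • qq C (qq C (D.gr u)) := by
  rw [bb_eq, sub_mulVec, ← mulVec_mulVec, ← qq_eq, ← qq_eq, smul_mulVec, out_mulVec, h.y_p,
    smul_smul]
  have := h.2
  nth_rewrite 1 [← one_smul K (qq C (qq C (D.gr u)))]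
  rw [← sub_smul]
  congr 1
  linear_combination -this

lemma Aux.dq_N (h : D.Aux u ω C) : D.dM (qq C (D.gr u)) * (1 + u • D.A) = D.dM (D.gr u)
    - vecMulVec (D.gr u) (D.A *ᵥ qq C (D.gr u)) - u • tv D.A' (qq C (D.gr u)) := by
  ext l k
  have h1 := congrArg (D.d l) (congrFun (h.N_qq (D.gr u)) k)
  generalize qq C (D.gr u) = q at h1 ⊢
  rw [add_mulVec, one_mulVec, smul_mulVec] at h1
  rw [mul_add, mul_one, Matrix.mul_smul]
  simp only [Pi.add_apply, Pi.smul_apply, smul_eq_mul, mulVec, dotProduct, map_add, dmul,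
    Matrix.add_apply, Matrix.sub_apply, Matrix.smul_apply, Matrix.mul_apply, vecMulVec_apply, dM,
    tv, A', Matrix.of_apply, gr, A_apply, Fin.sum_univ_four, D.sym _ k] at h1 ⊢
  linear_combination h1

lemma Aux.dq_ν (h : D.Aux u ω C) :
    D.dM (qq C (D.gr u)) *ᵥ D.ν = -(D.A *ᵥ qq C (D.gr u)) := by
  ext l
  have h1 := congrArg (D.d l) ((h.ν_qq (D.gr u)).trans (D.ν_gr u))
  generalize qq C (D.gr u) = q at h1 ⊢
  simp only [Pi.neg_apply, mulVec, dotProduct, map_add, dmul, dM, Matrix.of_apply, A_apply,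
    Fin.sum_univ_four, map_zero] at h1 ⊢
  linear_combination h1

lemma Aux.M_eq (h : D.Aux u ω C) : D.dM (D.n1 u C) * (D.dM (D.FF u))ᵀ =
    D.A * (1 + u • D.A) - D.dM (D.gr u) + vecMulVec (D.gr u) (D.A *ᵥ qq C (D.gr u))
      + u • tv D.A' (qq C (D.gr u)) - vecMulVec (D.A *ᵥ qq C (D.gr u)) D.ν
      + vecMulVec (D.A *ᵥ qq C (D.gr u)) (D.gr u) := by
  have e : D.dM (D.n1 u C) = D.A - D.dM (qq C (D.gr u)) := by
    ext i j; simp [dM, n1, A]
  rw [e, dM_FF, sub_mul, mul_add D.A, mul_sub D.A, mul_add (D.dM _), mul_sub (D.dM _), h.dq_N]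
  simp only [mul_out, D.A_ν, h.dq_ν, zero_vecMulVec, neg_vecMulVec]
  abel

lemma Aux.trPA (h : D.Aux u ω C) : fp (1 + bb C (D.gr u) ω) (D.A * (1 + u • D.A)) =
    D.H - u * fp D.A D.A + fp ((u • D.A) * (u • D.A)) (D.A + D.A * C)
      - ω * (qq C (qq C (D.gr u)) ⬝ᵥ (D.A *ᵥ qq C (D.gr u))) := by
  have e1 : fp ((1 + C) * (1 + C)) (D.A * (1 + u • D.A)) = trace ((1 + C) * D.A) := by
    rw [fp_trace, transpose_mul, N_symm, D.A_symm, mul_assoc, ← mul_assoc (1 + C) (1 + u • D.A),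
      h.PN, one_mul]
  have e2 : 1 + C = 1 - u • D.A + (u • D.A) * (u • D.A) * (1 + C) := by
    have h1 := h.1
    calc 1 + C = 1 - u • D.A - (u • D.A) * C := by nth_rewrite 1 [h1]; noncomm_ring
      _ = _ := by nth_rewrite 1 [h1]; noncomm_ring
  have e3 : fp ((u • D.A) * (u • D.A)) (D.A + D.A * C) =
      trace ((u • D.A) * (u • D.A) * (1 + C) * D.A) := by
    rw [fp_trace, ← mul_one_add, transpose_mul, h.P_symm, D.A_symm, ← mul_assoc]
  have e4 : trace ((1 + C) * D.A) = D.H - u * fp D.A D.A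
      + fp ((u • D.A) * (u • D.A)) (D.A + D.A * C) := by
    rw [e3, fp_trace, D.A_symm]
    nth_rewrite 1 [e2]
    rw [add_mul, sub_mul, one_mul, trace_add, trace_sub, Matrix.smul_mul, trace_smul, smul_eq_mul]
    rfl
  rw [bb_eq, fp_comm, fp_sub, fp_smul, fp_out, fp_comm, e1, e4, ← mulVec_mulVec, h.N_qq]

theorem Aux.Eg_eq (h : D.Aux u ω C) : D.Eg u ω C = D.R - D.L u + D.Q u ω C := by
  have e1 : D.dM (D.gr u) = D.hs u - vecMulVec (D.ap u) D.ν := by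
    ext i j; simp [dM, gr, hs, vecMulVec_apply]
  have e2 : D.ap u ⬝ᵥ D.ν = 0 := by rw [dotProduct_comm]; exact D.n_ap u
  have e3 : trace (D.hs u) = D.lap u := by
    have := e2
    simp only [trace, Matrix.diag, hs, Matrix.of_apply, lap, sum_add_distrib, dotProduct] at this ⊢
    rw [this, add_zero]
  have e4 : (D.A *ᵥ qq C (D.gr u)) ⬝ᵥ D.ν = 0 := by
    rw [← dot_sym D.A_symm, D.A_ν, dotProduct_zero]
  have e0 : D.ν ⬝ᵥ qq C (D.gr u) = 0 := (h.ν_qq _).trans (D.ν_gr u)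
  have e5 : trace (tv D.A' (qq C (D.gr u))) =
      D.gr D.R ⬝ᵥ qq C (D.gr u) + hf K * (D.f ⬝ᵥ (D.A *ᵥ qq C (D.gr u))) := by
    have c := D.codazzi
    rw [dot_sym D.A_symm]
    generalize qq C (D.gr u) = q at e0 ⊢
    simp only [trace, Matrix.diag, tv, A', Matrix.of_apply, mulVec, dotProduct, gr, d_R, A_apply,
      Fin.sum_univ_four] at c e0 ⊢
    linear_combination q 0 * c 0 + q 1 * c 1 + q 2 * c 2 + q 3 * c 3 - fp D.A D.A * e0
  have e6 : D.f ⬝ᵥ qq C (D.gr u) = D.f ⬝ᵥ D.gr u - u * (D.f ⬝ᵥ (D.A *ᵥ qq C (D.gr u))) := by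
    nth_rewrite 2 [← h.N_qq (D.gr u)]
    rw [add_mulVec, one_mulVec, smul_mulVec, dotProduct_add, dotProduct_smul, smul_eq_mul]
    ring
  have e7 : D.FF u ⬝ᵥ D.n1 u C = D.lam + u - D.f ⬝ᵥ qq C (D.gr u) := by
    have n := D.nn
    unfold n1
    generalize qq C (D.gr u) = q at e0 ⊢
    simp only [FF, lam, dotProduct, Pi.sub_apply, Fin.sum_univ_four] at n e0 ⊢
    linear_combination u * n - u * e0
  unfold Eg
  rw [h.M_eq, e1]
  simp only [fp_add, fp_sub, fp_smul, fp_out]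
  rw [h.trPA, h.Γ_ν, h.Γ_p, dot_sym h.Γ_symm, h.Γ_p, e2, e4, add_fp, add_fp, one_fp, one_fp, e3,
    e5, e7, e6, smul_dotProduct, dotProduct_smul, dotProduct_comm (D.A *ᵥ _) (qq C (qq C _))]
  simp only [Q, Qf, R, L, lf, V, smul_eq_mul]
  have e8 : D.f ⬝ᵥ D.gr u = ∑ i, D.f i * D.d i u := rfl
  rw [e8]
  ring

end

end DC

end Pool.Agent.MP48470b.An
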