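import Pool.Agent.MP_48470b_gt.An.Vol

/-! Linear estimates with respect to the unweighted volume. -/

namespace Pool.Agent.MP48470b.An

open Finset Matrix

variable {K : Type*} [CommRing K] [Algebra ℝ K] {X : Type*}
variable {D : DC K} {S : IS K X} {φ ψ : K} {sE rm : ℝ}

lemma AA_ev (D : DC K) (S : IS K X) (x : X) : S.ev x (fp D.A D.A) = S.vn (uc D.A) x ^ 2 := by
  rw [S.vn_sq]; simp [fp, sq]

lemma H_le (D : DC K) (S : IS K X) (x : X) : |S.ev x D.H| ≤ 2 * S.vn (uc D.A) x := by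
  have h := abs_dot_le (fun _ : I4 => (1 : ℝ)) fun i => S.ev x (D.A i i)
  have h1 : nr (fun _ : I4 => (1 : ℝ)) ≤ 2 := nr_le_of_sq zero_le_two (by norm_num)
  have h2 : nr (fun i => S.ev x (D.A i i)) ≤ S.vn (uc D.A) x := nr_le_nr (by
    rw [Fintype.sum_prod_type]
    exact sum_le_sum fun i _ => single_le_sum (f := fun j => S.ev x (D.A i j) ^ 2)
      (fun _ _ => sq_nonneg _) (mem_univ i))
  simp only [one_mul] at h
  rw [DC.H, map_sum]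
  exact h.trans (mul_le_mul h1 h2 (nr_nonneg _) zero_le_two)

lemma ap_pt (D : DC K) (S : IS K X) (w : K) (x : X) :
    S.ev x (∑ i, D.ap w i ^ 2) ≤ S.ev x (fp D.A D.A * ∑ i, D.gr w i ^ 2) ∧
    -S.ev x (D.H * ∑ i, D.d i w * D.ap w i) ≤ 2 * S.ev x (fp D.A D.A * ∑ i, D.gr w i ^ 2) := by
  have h1 : S.vn (D.ap w) x ≤ S.vn (uc D.A) x * S.vn (D.gr w) x := by
    simp only [IS.vn, DC.ap, map_sum, map_mul]
    exact nr_mv (fun p => S.ev x (uc D.A p)) _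
  have h2 : |S.ev x (∑ i, D.d i w * D.ap w i)| ≤ S.vn (D.gr w) x * S.vn (D.ap w) x := by
    simp only [map_sum, map_mul]
    exact abs_dot_le _ _
  have n1 := S.vn_nonneg (D.ap w) x
  have n2 := S.vn_nonneg (D.gr w) x
  have n3 := S.vn_nonneg (uc D.A) x
  rw [map_mul, map_mul, AA_ev, ← S.vn_sq, ← S.vn_sq, ← mul_pow]
  refine ⟨by gcongr, (neg_le_abs _).trans ?_⟩
  rw [abs_mul]
  refine (mul_le_mul (H_le D S x) (h2.trans (mul_le_mul_of_nonneg_left h1 n2)) (abs_nonneg _)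
    (by positivity)).trans (le_of_eq (by ring))

lemma Wt.E2r (W : Wt D S φ ψ sE rm) (hI : IBP D S) (w : K) :
    S.I (φ ^ 2 * ∑ p, D.dT (D.gr w) p ^ 2) ≤ S.I (φ ^ 2 * D.lap w ^ 2)
      + 4 * S.I (φ ^ 2 * (fp D.A D.A * ∑ i, D.gr w i ^ 2)) := by
  rw [W.E2 hI, ← smul_eq_mul 4, ← map_smul]
  refine add_le_add le_rfl (S.mono fun x => ?_)
  obtain ⟨h1, h2⟩ := ap_pt D S w x
  rw [map_smul, map_mul _ (φ ^ 2), map_mul _ (φ ^ 2), map_sub, map_mul _ 2, map_ofNat, map_pow,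
    smul_eq_mul]
  nlinarith [sq_nonneg (S.ev x φ)]

lemma Wt.E2h (W : Wt D S φ ψ sE rm) (hI : IBP D S) (w : K) :
    S.I (φ ^ 2 * ∑ p, uc (D.hs w) p ^ 2) ≤ S.I (φ ^ 2 * D.lap w ^ 2)
      + 3 * S.I (φ ^ 2 * (fp D.A D.A * ∑ i, D.gr w i ^ 2)) := by
  have h := W.E2 hI w
  rw [D.r_sq, mul_add, map_add, ← eq_sub_iff_add_eq, add_sub_assoc, ← map_sub] at h
  rw [h, ← smul_eq_mul 3, ← map_smul]
  refine add_le_add le_rfl (S.mono fun x => ?_)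
  obtain ⟨h1, h2⟩ := ap_pt D S w x
  rw [map_smul, map_sub, map_mul _ (φ ^ 2), map_mul _ (φ ^ 2), map_mul _ (φ ^ 2), map_sub,
    map_mul _ 2, map_ofNat, map_pow, smul_eq_mul]
  nlinarith [sq_nonneg (S.ev x φ)]

lemma Wt.lin1 (W : Wt D S φ ψ sE rm) (hI : IBP D S) (hE : 0 ≤ sE) {v₂ : ℝ} (hv : 0 ≤ v₂)
    (hW : ∀ x, S.ev x D.Wv ≤ v₂ * S.ev x ψ ^ 2) {w : K} {ρ t₀ P : ℝ}
    (hL : S.Dom (S.v0 (D.L w)) ρ) (h0 : S.Dom (S.v0 w) t₀) (hP : 0 ≤ P)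
    (hc : v₂ * t₀ ^ 2 + sE ^ 2 * t₀ * ρ ≤ P ^ 2) : (S.wt φ).Dom (S.vn (D.gr w)) P := by
  refine (IS.dom_vn (S := S.wt φ)).2 ⟨hP, le_trans ?_ hc⟩
  rw [IS.wt_I, W.E1 hI]
  refine add_le_add ((S.mono (b := v₂ • w ^ 2) fun x => ?_).trans ?_) ?_
  · have h1 := mul_le_mul_of_nonneg_left (hW x) (sq_nonneg (S.ev x φ))
    have h2 : S.ev x φ ^ 2 * (v₂ * S.ev x ψ ^ 2) = v₂ := by
      rw [mul_left_comm, ← mul_pow, W.ev_inv]; simp
    simp only [map_mul, map_pow, map_smul, smul_eq_mul]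
    exact mul_le_mul_of_nonneg_right (h1.trans_eq h2) (sq_nonneg _)
  · rw [map_smul, smul_eq_mul]
    exact mul_le_mul_of_nonneg_left (IS.dom_v0.1 h0).2 hv
  · refine ((h0.bmul W.hφ hE).abs.I_le (hL.bmul W.hφ hE).abs fun x => ?_).trans (le_of_eq (by ring))
    rw [← abs_mul, map_neg]
    refine (neg_le_abs _).trans (le_of_eq (congrArg _ ?_))
    simp only [map_mul, map_pow, IS.v0]
    ring

lemma Wt.rm0 (W : Wt D S φ ψ sE rm) (x : X) : 0 ≤ rm := (S.vn_nonneg _ x).trans (W.hr x)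

lemma Wt.lap (W : Wt D S φ ψ sE rm) (hE : 0 ≤ sE) (hr : 0 ≤ rm) {v₁ : ℝ} (hv : 0 ≤ v₁)
    (hV : ∀ x, |S.ev x φ * S.ev x D.V| ≤ v₁) {w : K} {ρ t₀ P : ℝ}
    (hL : S.Dom (S.v0 (D.L w)) ρ) (h0 : S.Dom (S.v0 w) t₀) (h1 : (S.wt φ).Dom (S.vn (D.gr w)) P) :
    (S.wt φ).Dom (S.v0 (D.lap w)) (sE * ρ + v₁ * t₀ + rm / 2 * P) := by
  refine (((W.toV1 hE hL).abs.add (W.toV h0 hv hV).abs).add
    (h1.cmul (c := rm / 2) (by positivity))).mono (fun x => ?_) le_rfl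
  have e : S.v0 (D.lap w) x = S.v0 (D.L w) x - S.ev x D.V * S.v0 w x
      + 1 / 2 * ∑ i, S.ev x (D.f i) * S.ev x (D.gr w i) := by
    simp [IS.v0, DC.L, DC.lf, DC.gr]
  have b := (abs_dot_le (fun i => S.ev x (D.f i)) fun i => S.ev x (D.gr w i)).trans
    (mul_le_mul_of_nonneg_right (W.hr x) (nr_nonneg _))
  rw [e]
  refine (abs_add_le _ _).trans (add_le_add (abs_sub _ _) ?_)
  rw [abs_mul, abs_of_pos one_half_pos]
  unfold IS.vn
  linarith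

lemma Wt.AAp (W : Wt D S φ ψ sE rm) {x₁ x₂ : ℝ} (p1 : 0 ≤ x₁) (p2 : 0 ≤ x₂)
    (hx : ∀ x, S.vn (uc D.A) x ^ 2 ≤ x₁ + x₂ * S.ev x ψ ^ 2) {w : K} {P t : ℝ}
    (h1 : (S.wt φ).Dom (S.vn (D.gr w)) P) (h2 : S.Dom (S.vn (D.gr w)) t) :
    S.I (φ ^ 2 * (fp D.A D.A * ∑ i, D.gr w i ^ 2)) ≤ x₁ * P ^ 2 + x₂ * t ^ 2 := by
  refine (S.mono (b := x₁ • (φ ^ 2 * ∑ i, D.gr w i ^ 2) + x₂ • ∑ i, D.gr w i ^ 2)
    fun x => ?_).trans ?_
  · rw [map_add, map_smul, map_smul, map_mul, map_mul, map_mul, AA_ev, ← S.vn_sq, map_pow,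
      smul_eq_mul, smul_eq_mul]
    have h3 := mul_le_mul_of_nonneg_left (hx x)
      (mul_nonneg (sq_nonneg (S.ev x φ)) (sq_nonneg (S.vn (D.gr w) x)))
    have h4 : S.ev x φ ^ 2 * S.ev x ψ ^ 2 = 1 := by rw [← mul_pow, W.ev_inv, one_pow]
    linear_combination h3 + x₂ * S.vn (D.gr w) x ^ 2 * h4
  · rw [map_add, map_smul, map_smul, smul_eq_mul, smul_eq_mul]
    exact add_le_add (mul_le_mul_of_nonneg_left ((IS.dom_vn (S := S.wt φ)).1 h1).2 p1)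
      (mul_le_mul_of_nonneg_left (IS.dom_vn.1 h2).2 p2)

lemma Wt.lin3 (W : Wt D S φ ψ sE rm) (hI : IBP D S) {α : ℝ} (hα : 0 ≤ α)
    (hA : ∀ x, S.vn (uc D.A) x ≤ α) {w : K} {tΔ t₂ : ℝ}
    (hΔ : (S.wt φ).Dom (S.vn fun k => D.lap (D.d k w)) tΔ)
    (h2 : (S.wt φ).Dom (S.vn (D.dT (D.gr w))) t₂) :
    (S.wt φ).Dom (S.vn (D.dT (D.dT (D.gr w)))) (tΔ + 2 * α * t₂) := by
  have hΔ0 := hΔ.1
  have h20 := h2.1
  refine (IS.dom_vn (S := S.wt φ)).2 ⟨by positivity, ?_⟩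
  have e1 : ∑ p, D.dT (D.dT (D.gr w)) p ^ 2 = ∑ k, ∑ p, D.dT (D.gr (D.d k w)) p ^ 2 := by
    simp only [Fintype.sum_prod_type, DC.dT, DC.gr]
    rw [sum_comm (γ := I4) (s := univ) (t := univ)
      (f := fun k i => ∑ j, D.d i (D.d j (D.d k w)) ^ 2)]
    exact sum_congr rfl fun i _ => sum_comm
  have e2 : (S.wt φ).I (∑ k, fp D.A D.A * ∑ i, D.gr (D.d k w) i ^ 2) ≤ (α * t₂) ^ 2 :=
    (h2.cmul hα).I_sq fun x => by
      have e : ∑ k, ∑ i, D.gr (D.d k w) i ^ 2 = ∑ p, D.dT (D.gr w) p ^ 2 := by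
        rw [Fintype.sum_prod_type_right]; rfl
      rw [← mul_sum, e]
      refine (map_mul (S.ev x) _ _).trans_le ?_
      rw [AA_ev, ← S.vn_sq, mul_pow]
      have := hA x
      have := S.vn_nonneg (uc D.A) x
      gcongr
  have e3 := ((IS.dom_vn (S := S.wt φ)).1 hΔ).2
  have e4 : (S.wt φ).I (∑ k, ∑ p, D.dT (D.gr (D.d k w)) p ^ 2) ≤
      (S.wt φ).I (∑ k, D.lap (D.d k w) ^ 2)
        + 4 * (S.wt φ).I (∑ k, fp D.A D.A * ∑ i, D.gr (D.d k w) i ^ 2) := by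
    rw [map_sum, map_sum, map_sum (S.wt φ).I, mul_sum, ← sum_add_distrib]
    exact sum_le_sum fun k _ => W.E2r hI (D.d k w)
  rw [e1]
  nlinarith [mul_nonneg hΔ0 (mul_nonneg hα h20), sq_nonneg (α * t₂)]

lemma Wt.lap3 (W : Wt D S φ ψ sE rm) (w : K) (x : X) : S.vn (fun k => D.lap (D.d k w)) x ≤
    S.vn (fun k => D.lf (D.d k w)) x + rm / 2 * S.vn (D.dT (D.gr w)) x := by
  have e : ∀ k, S.ev x (D.lap (D.d k w)) = S.ev x (D.lf (D.d k w))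
      + 1 / 2 * ∑ i, S.ev x (D.f i) * S.ev x (D.dT (D.gr w) (i, k)) := fun k => by
    simp [DC.lf, DC.gr, DC.dT]
  have b := (nr_vm (fun i => S.ev x (D.f i)) fun p => S.ev x (D.dT (D.gr w) p)).trans
    (mul_le_mul_of_nonneg_right (W.hr x) (nr_nonneg _))
  unfold IS.vn
  simp only [e]
  refine (nr_add_le _ _).trans (add_le_add le_rfl ?_)
  rw [nr_smul, abs_of_pos one_half_pos]
  linarith

lemma Wt.gr_ψ (W : Wt D S φ ψ sE rm) (w : K) (x : X) : S.vn (D.gr (ψ * w)) x ≤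
    S.ev x ψ * (S.vn (D.gr w) x + rm / 4 * |S.ev x w|) := by
  have e : ∀ i, S.ev x (D.gr (ψ * w) i) = S.ev x ψ * (S.ev x (D.gr w i)
      + (-1 / 4 * S.ev x w) * S.ev x (D.ft i)) := fun i => by
    simp only [DC.gr, D.dmul, W.dψ, map_add, map_mul, map_neg, ev_hf]; ring
  have b := mul_le_mul_of_nonneg_left (W.ft_le x) (abs_nonneg (S.ev x w))
  unfold IS.vn at *
  simp only [e]
  rw [nr_smul, abs_of_nonneg (W.p0 x)]
  refine mul_le_mul_of_nonneg_left ((nr_add_le _ _).trans (add_le_add le_rfl ?_)) (W.p0 x)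
  rw [nr_smul, abs_mul, abs_of_neg (by norm_num : (-1 / 4 : ℝ) < 0)]
  linarith

lemma df_le (D : DC K) (S : IS K X) (x : X) : S.vn (D.dT D.f) x ≤ 2 := by
  refine nr_le_of_sq zero_le_two ?_
  have h := congrArg (S.ev x) D.nn
  simp only [map_add, map_mul, map_one, Fin.sum_univ_four] at h
  simp [Fintype.sum_prod_type, DC.dT, D.df, Fin.sum_univ_four, Matrix.one_apply]
  nlinarith [h]

lemma Wt.hs_ψ (W : Wt D S φ ψ sE rm) {α : ℝ} (w : K) (x : X) (hA : S.vn (uc D.A) x ≤ α) :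
    S.vn (uc (D.hs (ψ * w))) x ≤ S.ev x ψ * (S.vn (uc (D.hs w)) x + rm / 2 * S.vn (D.gr w) x
      + (rm ^ 2 / 16 + 1 / 2 + rm * α / 4) * |S.ev x w|) := by
  have e0 : ∀ p, uc (D.hs (ψ * w)) p = ψ * (uc (D.hs w) p
      + (-(hf K * hf K)) * (D.ft p.1 * D.gr w p.2 + D.gr w p.1 * D.ft p.2)
      + (hf K * hf K * w) * (hf K * hf K * (D.ft p.1 * D.ft p.2) - D.dT D.f p
        + D.lam * uc D.A p)) := fun p => by
    have h := D.ap_lam p.1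
    simp only [uc, DC.hs, DC.ap, DC.gr, DC.dT, DC.A_apply, Matrix.of_apply, D.dmul, W.dψ, map_add,
      map_neg, der_hf, D.d_ft, Fin.sum_univ_four] at h ⊢
    linear_combination (-(hf K * hf K) * ψ * w * D.ν p.2) * h
  have r0 := W.rm0 x
  have b1 := W.ft_le x
  have n1 := S.vn_nonneg D.ft x
  have n2 := S.vn_nonneg (D.gr w) x
  have b2 : |S.ev x D.lam| ≤ rm := by
    have := abs_dot_le (fun i => S.ev x (D.f i)) fun i => S.ev x (D.ν i)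
    have h1 : nr (fun i => S.ev x (D.ν i)) = 1 := vn_ν D S x
    rw [h1, mul_one] at this
    simp only [DC.lam, map_sum, map_mul]
    exact this.trans (W.hr x)
  have b3 := df_le D S x
  have c1 := nr_out (fun i => S.ev x (D.ft i)) fun i => S.ev x (D.gr w i)
  have c2 := nr_out (fun i => S.ev x (D.gr w i)) fun i => S.ev x (D.ft i)
  have c3 := nr_out (fun i => S.ev x (D.ft i)) fun i => S.ev x (D.ft i)
  have c4 := mul_le_mul b2 hA (S.vn_nonneg _ _) r0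
  have c5 := mul_le_mul b1 b1 n1 r0
  have c6 := mul_le_mul_of_nonneg_right b1 n2
  unfold IS.vn at *
  simp only [e0, map_add, map_mul, map_sub, map_neg, ev_hf]
  rw [nr_smul, abs_of_nonneg (W.p0 x)]
  refine mul_le_mul_of_nonneg_left ((nr_add_le _ _).trans (add_le_add ((nr_add_le _ _).trans
    (add_le_add le_rfl ?_)) ?_)) (W.p0 x)
  · rw [nr_smul, abs_neg, abs_of_pos (by norm_num)]
    linarith [nr_add_le (fun p : I4 × I4 => S.ev x (D.ft p.1) * S.ev x (D.gr w p.2))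
      fun p => S.ev x (D.gr w p.1) * S.ev x (D.ft p.2)]
  · rw [nr_smul, abs_mul, abs_of_pos (by norm_num), mul_comm (1 / 2 * (1 / 2) : ℝ), mul_assoc,
      mul_comm _ |S.ev x w|]
    refine mul_le_mul_of_nonneg_left ?_ (abs_nonneg _)
    have := (nr_add_le _ _).trans (add_le_add (nr_sub_le
      (fun p : I4 × I4 => 1 / 2 * (1 / 2) * (S.ev x (D.ft p.1) * S.ev x (D.ft p.2)))
      fun p => S.ev x (D.dT D.f p)) (nr_smul (S.ev x D.lam) fun p => S.ev x (uc D.A p)).le)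
    rw [nr_smul, abs_of_pos (by norm_num)] at this
    nlinarith

lemma IBP.gnχ (hI : IBP D S) {w Ξ : K} {χ : X → ℝ} {m c tΔ t₁ t₂ : ℝ} (hm0 : 0 ≤ m) (hc : 0 ≤ c)
    (χ0 : ∀ x, 0 ≤ χ x) (hχ : ∀ x, S.ev x Ξ = χ x ^ 2) (dχ : ∀ x, S.vn (D.gr Ξ) x ≤ c * χ x ^ 2)
    (hm : ∀ x, χ x * |S.ev x w| ≤ m) (hΔ : S.Dom (S.v0 (D.lf w)) tΔ)
    (h1 : S.Dom (S.vn (D.gr w)) t₁) (h2 : S.Dom (S.vn (uc (D.hs w))) t₂) :
    S.Dom (fun x => χ x * S.vn (D.gr w) x ^ 2) (m * (tΔ + 2 * t₂ + c * t₁)) := by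
  have hd := (((hΔ.abs.add (h2.cmul zero_le_two)).add (h1.cmul hc)).cmul hm0)
  refine IS.dom_abs (s := Ξ * (∑ i, D.gr w i ^ 2) ^ 2) hd.1
    (fun x => by rw [map_mul, map_pow, ← S.vn_sq, hχ, mul_pow]) fun r hr => ?_
  have h0 := D.nd w
  have h1 := hI.divf (fun i => w * D.d i w * Ξ * ∑ j, D.d j w ^ 2) (by
    generalize (∑ j, D.d j w ^ 2) = s
    simp only [Fin.sum_univ_four] at h0 ⊢
    linear_combination w * s * Ξ * h0)
  have e : S.I (Ξ * (∑ i, D.gr w i ^ 2) ^ 2) = S.I (-(w * (Ξ * (D.lf w * ∑ i, D.gr w i ^ 2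
      + 2 * ∑ i, D.gr w i * ∑ j, uc (D.hs w) (i, j) * D.gr w j)
      + (∑ i, D.gr Ξ i * D.gr w i) * ∑ i, D.gr w i ^ 2))) := by
    rw [map_neg, eq_neg_iff_add_eq_zero, ← map_add, ← h1]
    congr 1
    simp only [DC.gr, uc, DC.hs, Matrix.of_apply, DC.lf, DC.lap, Fin.sum_univ_four, sq, map_add,
      D.dmul] at h0 ⊢
    linear_combination 2 * w * Ξ * (D.d 0 w * D.ap w 0 + D.d 1 w * D.ap w 1 + D.d 2 w * D.ap w 2
      + D.d 3 w * D.ap w 3) * h0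
  rw [e]
  refine hd.I_le hr fun x => ?_
  have b1 : |S.ev x (∑ i, D.gr w i * ∑ j, uc (D.hs w) (i, j) * D.gr w j)| ≤
      S.vn (D.gr w) x * (S.vn (uc (D.hs w)) x * S.vn (D.gr w) x) := by
    simp only [map_sum, map_mul]
    exact (abs_dot_le _ _).trans (mul_le_mul_of_nonneg_left
      (nr_mv (fun p => S.ev x (uc (D.hs w) p)) _) (nr_nonneg _))
  have b2 : |S.ev x (∑ i, D.gr Ξ i * D.gr w i)| ≤ c * χ x ^ 2 * S.vn (D.gr w) x := by
    simp only [map_sum, map_mul]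
    exact (abs_dot_le _ _).trans (mul_le_mul_of_nonneg_right (dχ x) (nr_nonneg _))
  rw [map_neg, map_mul, map_add, map_mul, map_mul, map_add, map_mul, map_mul, map_ofNat, ← S.vn_sq,
    hχ]
  unfold IS.v0
  generalize S.ev x (∑ i, D.gr w i * ∑ j, uc (D.hs w) (i, j) * D.gr w j) = a at *
  generalize S.ev x (∑ i, D.gr Ξ i * D.gr w i) = b at *
  have n1 := S.vn_nonneg (D.gr w) x
  have n2 := S.vn_nonneg (uc (D.hs w)) x
  have n3 := χ0 x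
  have n4 := hm x
  generalize S.vn (D.gr w) x = p at *
  generalize S.vn (uc (D.hs w)) x = q at *
  generalize χ x = y at *
  have b3 : |y ^ 2 * (S.ev x (D.lf w) * p ^ 2 + 2 * a) + b * p ^ 2| ≤
      y * ((|S.ev x (D.lf w)| + 2 * q + c * p) * (y * p ^ 2)) := by
    refine (abs_add_le _ _).trans ?_
    rw [abs_mul, abs_mul, abs_sq, abs_sq]
    have b4 := abs_add_le (S.ev x (D.lf w) * p ^ 2) (2 * a)
    rw [abs_mul, abs_mul, abs_sq, abs_two] at b4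
    have b5 := mul_le_mul_of_nonneg_left (b4.trans (add_le_add le_rfl
      (mul_le_mul_of_nonneg_left b1 zero_le_two))) (sq_nonneg y)
    have b6 := mul_le_mul_of_nonneg_right b2 (sq_nonneg p)
    linarith
  refine (neg_le_abs _).trans ?_
  rw [abs_mul, mul_assoc]
  refine (mul_le_mul_of_nonneg_left b3 (abs_nonneg _)).trans ?_
  rw [← mul_assoc, mul_comm _ y]
  exact mul_le_mul_of_nonneg_right n4 (by positivity)

end Pool.Agent.MP48470b.An
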