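import Pool.Agent.MP_48470b_gt.An.Pic2
import Pool.Agent.MP_48470b_gt.An.Vol2

/-! Pointwise and mean-square bounds of the remainder with explicit hypotheses. -/

namespace Pool.Agent.MP48470b.An

open Finset Matrix

/-- Constant. -/
def ckN2 (α e₁ g m₀ m η μ : ℝ) : ℝ :=
  2 * η * α * g + η ^ 2 * α * g ^ 2 + 2 * α * g ^ 6 * m ^ 4 + 3 * α * g ^ 4 * m ^ 2
    + μ * g * m * cbN g m + μ * cβ g m * g ^ 2 * m + m₀ * e₁ * g ^ 2 * m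
/-- Constant. -/
def ckp2 (α e₁ g m₀ m μ : ℝ) : ℝ :=
  2 * α * g ^ 5 * m ^ 3 + μ * g * m * cbp g m + μ * cβ g m * g + m₀ * e₁ * g

lemma cb_pos {g m : ℝ} (hg : 1 ≤ g) (hm : 0 ≤ m) : 0 ≤ cβ g m ∧ 0 ≤ cbN g m ∧ 0 ≤ cbp g m := by
  have hg0 : 0 ≤ g := zero_le_one.trans hg
  refine ⟨?_, by unfold cbN; positivity, by unfold cbp; positivity⟩
  unfold cβ; nlinarith [mul_nonneg (pow_nonneg hg0 4) (sq_nonneg m)]

variable {K : Type*} [CommRing K] [Algebra ℝ K] {X : Type*} {D : DC K} {S : IS K X}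
variable {α a₁ a₂ e₁ e₂ : ℝ}

lemma PB.pt (pb : PB D S α a₁ a₂ e₁ e₂) (x : X) :
    PB D (S.pt x) (S.vn (uc D.A) x) (S.vn (uc3 D.A') x) a₂ e₁ e₂ :=
  ⟨fun _ => le_rfl, fun _ => le_rfl, fun _ => pb.hA'' x,
    fun _ => (mul_le_mul_of_nonneg_left (pb.hA x) (abs_nonneg _)).trans (pb.hR x),
    fun _ => pb.hz x, fun _ => pb.hz' x⟩

lemma Q_sub_pt {g m₀ m η μ : ℝ} (pb : PB D S α a₁ a₂ e₁ e₂) (hg1 : 1 ≤ g)
    (hg : 1 + η * g ≤ g) {u v ω ω' : K} {C C' : Matrix I4 I4 K} (hu : D.Aux u ω C)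
    (hv : D.Aux v ω' C') (x : X) (hu0 : |S.ev x u| ≤ m₀) (hv0 : |S.ev x v| ≤ m₀)
    (au : S.vn (uc D.A) x * |S.ev x u| ≤ η) (av : S.vn (uc D.A) x * |S.ev x v| ≤ η)
    (bu : S.vn (uc3 D.A') x * |S.ev x u| ≤ μ) (bv : S.vn (uc3 D.A') x * |S.ev x v| ≤ μ)
    (hu1 : S.vn (D.gr u) x ≤ m) (hv1 : S.vn (D.gr v) x ≤ m) :
    |S.ev x (D.Q u ω C - D.Q v ω' C')| ≤ cβ g m * S.vn (uc (D.hs (u - v))) x
      + cbN g m * (S.vn (uc D.A) x * |S.ev x (u - v)| * S.vn (uc (D.hs v)) x)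
      + cbp g m * (S.vn (D.gr (u - v)) x * S.vn (uc (D.hs v)) x)
      + g ^ 3 * (S.vn (uc D.A) x * (S.vn (D.gr (u - v)) x * S.vn (D.gr u) x))
      + g ^ 3 * (S.vn (uc D.A) x * (S.vn (D.gr (u - v)) x * S.vn (D.gr v) x))
      + (ckN2 α e₁ g m₀ m η μ * α + cku a₁ e₁ g m) * |S.ev x (u - v)|
      + ckp2 α e₁ g m₀ m μ * S.vn (D.gr (u - v)) x := by
  have a0 := S.vn_nonneg (uc D.A) x
  have b0 := S.vn_nonneg (uc3 D.A') x
  have a1 := pb.hA x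
  have b1 := pb.hA' x
  have e0 : 0 ≤ e₁ := (S.vn_nonneg _ x).trans (pb.hz x)
  have hm : 0 ≤ m := (S.vn_nonneg _ x).trans hu1
  have hg0 : 0 ≤ g := zero_le_one.trans hg1
  obtain ⟨p1, p2, p3⟩ := cb_pos hg1 hm
  obtain ⟨n, hn⟩ : ∃ n, n = max |S.ev x u| |S.ev x v| := ⟨_, rfl⟩
  have n0 : 0 ≤ n := hn ▸ le_max_of_le_left (abs_nonneg _)
  have n1 : n ≤ m₀ := hn ▸ max_le hu0 hv0
  have n2 : S.vn (uc D.A) x * n ≤ η := by rw [hn, mul_max_of_nonneg _ _ a0]; exact max_le au av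
  have n3 : n * S.vn (uc3 D.A') x ≤ μ := by
    rw [mul_comm, hn, mul_max_of_nonneg _ _ b0]; exact max_le bu bv
  have h := Q_sub_le (pb.pt x) hg1 (m₀ := n) (m := m)
    ((add_le_add le_rfl (mul_le_mul_of_nonneg_right n2 hg0)).trans hg) hu hv ()
    (hn ▸ le_max_left _ _) (hn ▸ le_max_right _ _) hu1 hv1
  have η0 : 0 ≤ η := (mul_nonneg a0 n0).trans n2
  have μ0 : 0 ≤ μ := (mul_nonneg n0 b0).trans n3
  have α0 : 0 ≤ α := a0.trans a1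
  have m0 : 0 ≤ m₀ := n0.trans n1
  generalize S.vn (uc D.A) x = a at *
  generalize S.vn (uc3 D.A') x = b at *
  have e : n * cβ g m * b = n * b * cβ g m := by ring
  have k1 : ckN a b e₁ g n m ≤ ckN2 α e₁ g m₀ m η μ := by
    unfold ckN ckN2; rw [e]; gcongr
  have k0 : 0 ≤ ckN2 α e₁ g m₀ m η μ := by unfold ckN2; positivity
  have k2 : ckp a b e₁ g n m ≤ ckp2 α e₁ g m₀ m μ := by
    unfold ckp ckp2; rw [e]; gcongr
  have k3 : cku b e₁ g m ≤ cku a₁ e₁ g m := by unfold cku; gcongr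
  have k4 := mul_le_mul_of_nonneg_right (add_le_add (mul_le_mul k1 a1 a0 k0) k3)
    (abs_nonneg (S.ev x (u - v)))
  have k5 := mul_le_mul_of_nonneg_right k2 (S.vn_nonneg (D.gr (u - v)) x)
  refine h.trans (add_le_add (add_le_add (le_of_eq ?_) k4) k5)
  simp only [IS.vn, IS.pt]
  ring

/-- Bound for the gradient of the remainder. -/
def cH (α a₁ a₂ e₁ e₂ g m₀ m t₀ t₁ th tr t₃ G₂ : ℝ) : ℝ :=
  cβ g m * (t₃ + (a₁ + α ^ 2) * t₁ + α * tr) + cbN g m * (m * α + m₀ * a₁) * th + cbp g m * G₂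
  + (2 * α * g ^ 3 * m + ckp α a₁ e₁ g m₀ m) * tr
  + (ckN α a₁ e₁ g m₀ m * α + cku a₁ e₁ g m
    + (g ^ 3 * m * a₁ + m₀ * cβ g m * g * a₂ + m₀ * g * e₂)) * t₁
  + (ckN α a₁ e₁ g m₀ m * a₁ + α * m₀ * α * g * a₁) * t₀

lemma grow1g {g m₀ m t₀ t₁ th tr t₃ G₂ : ℝ} (pb : PB D S α a₁ a₂ e₁ e₂) (hα : 0 ≤ α)
    (q1 : 0 ≤ a₁) (q2 : 0 ≤ a₂) (q3 : 0 ≤ e₁) (q4 : 0 ≤ e₂) (q5 : 0 ≤ m₀) (q6 : 0 ≤ m)
    (hg1 : 1 ≤ g) (hg' : 1 + α * m₀ * g ≤ g) {u ω : K} {C : Matrix I4 I4 K} (hu : D.Aux u ω C)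
    (s0 : ∀ x, |S.ev x u| ≤ m₀) (s1 : ∀ x, S.vn (D.gr u) x ≤ m) (d0 : S.Dom (S.v0 u) t₀)
    (d1 : S.Dom (S.vn (D.gr u)) t₁) (dh : S.Dom (S.vn (uc (D.hs u))) th)
    (dr : S.Dom (S.vn (D.dT (D.gr u))) tr) (d3 : S.Dom (S.vn (D.dT (D.dT (D.gr u)))) t₃)
    (d4 : S.Dom (fun x => S.vn (D.dT (D.gr u)) x ^ 2) G₂) :
    S.Dom (S.vn (D.gr (D.Q u ω C))) (cH α a₁ a₂ e₁ e₂ g m₀ m t₀ t₁ th tr t₃ G₂) := by
  obtain ⟨p1, p2, p3⟩ := cb_pos hg1 q6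
  have hg : 0 ≤ g := zero_le_one.trans hg1
  have p4 : 0 ≤ ckN α a₁ e₁ g m₀ m := by unfold ckN; positivity
  have p5 : 0 ≤ ckp α a₁ e₁ g m₀ m := by unfold ckp; positivity
  have p6 : 0 ≤ cku a₁ e₁ g m := by unfold cku; positivity
  refine ((((((((d3.add (d1.cmul (c := a₁ + α ^ 2) (by positivity))).add
    (dr.cmul hα)).cmul p1).add
    (dh.cmul (c := cbN g m * (m * α + m₀ * a₁)) (by positivity))).add
    (d4.cmul p3)).add (dr.cmul (c := 2 * α * g ^ 3 * m + ckp α a₁ e₁ g m₀ m) (by positivity))).add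
    (d1.cmul (c := ckN α a₁ e₁ g m₀ m * α + cku a₁ e₁ g m + (g ^ 3 * m * a₁
      + m₀ * cβ g m * g * a₂ + m₀ * g * e₂)) (by positivity))).add
    (d0.abs.cmul (c := ckN α a₁ e₁ g m₀ m * a₁ + α * m₀ * α * g * a₁) (by positivity))).mono
    (fun x => ?_) le_rfl
  rw [abs_of_nonneg (S.vn_nonneg _ _)]
  have n1 := S.vn_nonneg (D.gr u) x
  have n2 := S.vn_nonneg (D.dT (D.gr u)) x
  have n3 := S.vn_nonneg (D.dT (D.dT (D.gr u))) x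
  have n4 := S.vn_nonneg (uc (D.hs u)) x
  have n0 := abs_nonneg (S.v0 u x)
  refine nr_le_of_dot (by positivity) fun ξ hξ => ?_
  have bu0 : (tdx D S x ξ).B0 u |S.ev x u| m₀ (S.vn (D.gr u) x) :=
    ⟨le_rfl, s0 x, (abs_dot_le ξ (fun m => S.ev x (D.d m u))).trans
      (mul_le_of_le_one_left (nr_nonneg _) hξ)⟩
  have bp := tdx_Bd (D := D) (S := S) x hξ (D.gr u)
  have bA : (tdx D S x ξ).Bd (uc D.A) α α a₁ :=
    (tdx_Bd x hξ (uc D.A)).mono (pb.hA x) (pb.hA x) (pb.hA' x)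
  have bA' : (tdx D S x ξ).Bd (uc3 D.A') a₁ a₁ a₂ :=
    (tdx_Bd x hξ (uc3 D.A')).mono (pb.hA' x) (pb.hA' x) (pb.hA'' x)
  have bz : (tdx D S x ξ).Bd (D.gr D.R) e₁ e₁ e₂ :=
    (tdx_Bd x hξ (D.gr D.R)).mono (pb.hz x) (pb.hz x) (pb.hz' x)
  have bν : (tdx D S x ξ).Bd D.ν 1 1 α :=
    (tdx_Bd x hξ D.ν).mono (vn_ν D S x).le (vn_ν D S x).le (pb.hA x)
  have bh0 := (tdx_Bd (D := D) (S := S) x hξ (D.dT (D.gr u))).add ((bA.mulV bp).outM bν)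
  have bh : (tdx D S x ξ).Bd (uc (D.hs u)) (S.vn (uc (D.hs u)) x) (S.vn (uc (D.hs u)) x) _ :=
    ⟨le_rfl, le_rfl, bh0.2.2⟩
  have key := TD.Q_bound hu.1 hu.2 hg1 hg' bu0 (s0 x) bp (s1 x) (s1 x) bh bA bA' bz
  refine le_trans (le_of_eq rfl) (key.trans ?_)
  have s0 := s0 x
  have s1 := s1 x
  have s2 := hs_le D S u x
  have i1 : cbN g m * ((S.vn (D.gr u) x * α + |S.ev x u| * a₁) * S.vn (uc (D.hs u)) x) ≤
      cbN g m * ((m * α + m₀ * a₁) * S.vn (uc (D.hs u)) x) := by gcongr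
  have i2 : cbp g m * (S.vn (D.dT (D.gr u)) x * S.vn (uc (D.hs u)) x) ≤
      cbp g m * (S.vn (D.dT (D.gr u)) x * S.vn (D.dT (D.gr u)) x) := by gcongr
  have i3 : α * g ^ 3 * (S.vn (D.dT (D.gr u)) x * S.vn (D.gr u) x) ≤
      α * g ^ 3 * (S.vn (D.dT (D.gr u)) x * m) := by gcongr
  unfold IS.v0
  linarith

lemma aux_of {m₀ : ℝ} (unit : ∀ a : K, (∀ x, S.ev x a ≠ 0) → IsUnit a)
    (hA : ∀ x, S.vn (uc D.A) x ≤ α) (h3 : α * m₀ < 1) {u : K} (hu : ∀ x, |S.ev x u| ≤ m₀) :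
    ∃ ω C, D.Aux u ω C := by
  have h1 : IsUnit (1 + u • D.A).det := unit _ fun x hx => by
    rw [AlgHom.map_det] at hx
    obtain ⟨v, hv0, hv⟩ := Matrix.exists_mulVec_eq_zero_iff.2 hx
    have e : v = fun i => (- S.ev x u) * ∑ j, S.ev x (uc D.A (i, j)) * v j := by
      ext i
      have := congrFun hv i
      simp only [map_add, map_one, add_mulVec, one_mulVec, Pi.add_apply, Pi.zero_apply] at this
      simp only [mulVec, dotProduct, AlgHom.mapMatrix_apply, map_apply, Matrix.smul_apply,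
        smul_eq_mul, map_mul, mul_assoc, ← mul_sum] at this
      simp only [uc]
      linarith
    have h2 : nr v ≤ m₀ * (α * nr v) := by
      nth_rewrite 1 [e]
      rw [nr_smul, abs_neg]
      exact mul_le_mul (hu x) ((nr_mv (fun p => S.ev x (uc D.A p)) v).trans
        (mul_le_mul_of_nonneg_right (hA x) (nr_nonneg _))) (nr_nonneg _)
        ((abs_nonneg _).trans (hu x))
    have h4 : nr v ≤ 0 := by nlinarith [nr_nonneg v]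
    exact hv0 (funext fun i => abs_nonpos_iff.1 ((abs_le_nr v i).trans h4))
  have h2 := Matrix.mul_nonsing_inv _ h1
  obtain ⟨C, hC⟩ : ∃ C, (1 + u • D.A)⁻¹ = 1 + C := ⟨(1 + u • D.A)⁻¹ - 1, by abel⟩
  rw [hC] at h2
  have h3 : IsUnit (1 + qq C (D.gr u) ⬝ᵥ qq C (D.gr u)) := unit _ fun x => by
    simp only [dotProduct, map_add, map_one, map_sum, map_mul]
    have := sum_nonneg fun i (_ : i ∈ univ) => mul_self_nonneg (S.ev x (qq C (D.gr u) i))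
    linarith
  obtain ⟨ω, hω⟩ := h3.exists_left_inv
  refine ⟨ω, C, ?_, hω⟩
  calc C = (1 + u • D.A) * (1 + C) - 1 + (-(u • D.A) - (u • D.A) * C) := by noncomm_ring
    _ = _ := by rw [h2, sub_self, zero_add]

/-- A sup bound by weighted mean-square norms of two derivatives. -/
def SupG (D : DC K) (S : IS K X) (θ₀ θ₁ θ₂ : X → ℝ) (C s : ℝ) : Prop :=
  ∀ w t₀ t₁ t₂, S.Dom (fun x => θ₀ x * S.v0 w x) t₀ → S.Dom (fun x => θ₁ x * S.vn (D.gr w) x) t₁ →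
    S.Dom (fun x => θ₂ x * S.vn (uc (D.hs w)) x) t₂ → ∀ x, |S.ev x w| ≤ C * (s * t₀ + t₁ + t₂)

lemma SupG.grad {θ₀ θ₁ θ₂ : X → ℝ} {C s m : ℝ} (h : SupG D S θ₀ θ₁ θ₂ C s) (hm0 : 0 ≤ m) {u : K}
    {t₀ t₁ t₂ : ℝ} (d0 : S.Dom (fun x => θ₀ x * S.vn (D.gr u) x) t₀)
    (d1 : S.Dom (fun x => θ₁ x * S.vn (D.dT (D.gr u)) x) t₁)
    (d2 : S.Dom (fun x => θ₂ x * S.vn (D.dT (D.dT (D.gr u))) x) t₂)
    (hm : C * (s * t₀ + t₁ + t₂) ≤ m) (x : X) : S.vn (D.gr u) x ≤ m := by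
  refine nr_le_of_dot hm0 fun ξ hξ => ?_
  have e : ∑ i, ξ i * S.ev x (D.gr u i) = S.ev x (∑ k, ξ k • D.d k u) := by simp [DC.gr]
  have k : ∀ {θ a b : ℝ}, |a| ≤ b → (θ * a) ^ 2 ≤ (θ * b) ^ 2 := fun {θ a b} hab => by
    rw [mul_pow, mul_pow, ← sq_abs a]; gcongr
  rw [e]
  refine (h _ _ _ _ (d0.mono' (fun y => k ?_) le_rfl) (d1.mono' (fun y => k ?_) le_rfl)
    (d2.mono' (fun y => k ?_) le_rfl) x).trans hm
  · simp only [IS.v0, map_sum, map_smul, smul_eq_mul]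
    exact (abs_dot_le _ _).trans (mul_le_of_le_one_left (nr_nonneg _) hξ)
  · rw [abs_of_nonneg (S.vn_nonneg _ _)]
    simp only [IS.vn, DC.gr, map_sum, Derivation.map_smul, map_smul, smul_eq_mul, mul_comm (ξ _)]
    exact (nr_mv (fun p => S.ev y (D.dT (D.gr u) p)) ξ).trans
      (mul_le_of_le_one_right (nr_nonneg _) hξ)
  · rw [abs_of_nonneg (S.vn_nonneg _ _)]
    refine (hs_le D S _ y).trans ?_
    simp only [IS.vn, DC.gr, DC.dT, map_sum, Derivation.map_smul, map_smul, smul_eq_mul,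
      mul_comm (ξ _)]
    exact (nr_tv (fun p => S.ev y (D.dT (D.dT (D.gr u)) p)) ξ).trans
      (mul_le_of_le_one_right (nr_nonneg _) hξ)

end Pool.Agent.MP48470b.An
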