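import Pool.Agent.MP_48470b_gt.An.Main
import Pool.Agent.MP_48470b_gt.An.Pic3

/-! Passing to the limit under explicit hypotheses. -/

namespace Pool.Agent.MP48470b.An

open Finset Matrix Pool.Agent.MP_48470b_gt.Sph Filter Topology

variable {f : I4 → R}

/-- The bounds of a sequence of Picard iterates. -/
structure Run (h : Imm f) (α a₁ a₂ e₁ e₂ g m₀ m : ℝ) (u ω : ℕ → R) (C : ℕ → Matrix I4 I4 R) :
    Prop where
  pb : PB (dc h) (wi h) α a₁ a₂ e₁ e₂
  p0 : 0 ≤ α * m₀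
  p1 : 0 ≤ m
  g1 : 1 ≤ g
  hg : 1 + α * m₀ * g ≤ g
  hβ : cβ g m < 1
  ha : ∀ n, (dc h).Aux (u n) (ω n) (C n)
  he : ∀ n, (dc h).L (u (n + 1)) = (dc h).R + (dc h).Q (u n) (ω n) (C n)
  s0 : ∀ n x, |(wi h).ev x (u n)| ≤ m₀
  s1 : ∀ n x, (wi h).vn ((dc h).gr (u n)) x ≤ m
  n0 : ∃ t, ∀ n, (wi h).Dom ((wi h).v0 (u n)) t
  n1 : ∃ t, ∀ n, (wi h).Dom ((wi h).vn ((dc h).gr (u n))) t
  n2 : ∃ t, ∀ n, (wi h).Dom ((wi h).vn ((dc h).dT ((dc h).gr (u n)))) t
  n3 : ∃ t, ∀ n, (wi h).Dom ((wi h).vn ((dc h).dT ((dc h).dT ((dc h).gr (u n))))) t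
  hd : ∃ B κ : ℝ, 0 ≤ κ ∧ κ < 1 ∧ ∀ n, (wi h).Dom ((wi h).v0 (u (n + 1) - u n)) (B * κ ^ n)

variable {h : Imm f} {α a₁ a₂ e₁ e₂ g m₀ m : ℝ} {u ω : ℕ → R} {C : ℕ → Matrix I4 I4 R}

theorem Run.limit (H : Run h α a₁ a₂ e₁ e₂ g m₀ m u ω C) : ∃ w : R, ∀ J : List I3,
    TendstoUniformly (fun n => (W J (u n) : S3 → ℝ)) (W J w : S3 → ℝ) atTop := by
  have ha := H.ha
  have he := H.he
  obtain ⟨t1, n1⟩ := H.n1
  obtain ⟨t2, n2⟩ := H.n2
  obtain ⟨t3, n3⟩ := H.n3
  obtain ⟨B, κ, κ0, κ1, hd⟩ := H.hd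
  have z0 : nr (fun _ : I4 => (0 : ℝ)) ≤ 1 := by rw [nr_zero]; exact zero_le_one
  have bC := fun n x => TD.C_bound (T := tdx (dc h) (wi h) x fun _ => 0) (ha n).1 H.g1 H.hg
    ((TD.Bd.smulM ⟨H.s0 n x, H.s0 n x, le_rfl⟩ ((tdx_Bd x z0 (uc (dc h).A)).mono
      (H.pb.hA x) (H.pb.hA x) le_rfl)).mono (le_of_eq (mul_comm _ _)) (le_of_eq (mul_comm _ _))
      le_rfl)
  have bp := fun n x => (tdx_Bd (D := dc h) (S := wi h) x z0 ((dc h).gr (u n))).mono
    (H.s1 n x) (H.s1 n x) le_rfl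
  have hcl : S5.Cl u (PS u ω C) := ⟨PS_c, fun z hz => PS_bdd ⟨_, H.s0⟩
    (fun a => by
      obtain ⟨M, M0, hM⟩ := exists_bound (∑ k, E a (f k) ^ 2)
      refine ⟨√M * m, fun n x => ?_⟩
      rw [dc_E h a]
      simp only [R.sum_apply, R.mul_apply]
      refine (abs_dot_le _ _).trans (mul_le_mul (Real.sqrt_le_sqrt ?_) (H.s1 n x)
        (nr_nonneg _) (Real.sqrt_nonneg _))
      simpa using (le_abs_self _).trans (hM x))
    (fun i j => ⟨_, fun n x => (abs_le_nr (fun p => uc (C n) p x) (i, j)).trans (bC n x).1⟩)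
    ⟨1, fun n x => (TD.ω_bound (ha n).2 (TD.qq_bound (bC n x) (bp n x))).1⟩ hz,
    fun z hz c => PS_diff h ha hz c⟩
  have it : S5.Iter u (PS u ω C) (fr h).gi
      (fun a b n => -∑ i, ∑ j, bb (C n) ((dc h).gr (u n)) (ω n) i j * ((fr h).Q i a * (fr h).Q j b))
      (fun n => (dc h).R + Qf (u n) (ω n) ((dc h).gr (u n)) ((dc h).gr (dc h).R)
        ((fr h).hs0 (u n)) (dc h).A (C n) (dc h).A')
      (fun n => ∑ b, (fr h).be b * E b (u n) + (dc h).V * u n) (cβ g m) :=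
    { cl := hcl
      symm := fun i j => congrFun (congrFun (fr h).gi_symm j) i
      pos := gi_pos h
      hb := fun a b => PS_neg (PS_sum fun i => PS_sum fun j => PS_mul (PS_bb h i j) (PS_c _))
      hc := PS_add (PS_c _) (PS_Qf h)
      hc1 := PS_add (PS_sum fun b => PS_mul (PS_c _) (PS_E b)) (PS_mul (PS_c _) PS_u)
      eqn := fun n => by
        have e1 := (fr h).L_eq (u (n + 1))
        have e2 := (fr h).Q_eq (u n) (ω n) (C n)
        have e3 := he n
        unfold dc at *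
        rw [e1, e2] at e3
        exact e3.trans (add_left_comm _ _ _)
      th0 := (cb_pos H.g1 H.p1).1
      th1 := H.hβ
      small := fun n x ξ => by
        have b1 := (TD.bb_bound (ha n).2 (bC n x) (bp n x)).1
        have b2 := (abs_dot_le (fun p => uc (bb (C n) ((dc h).gr (u n)) (ω n)) p x)
          (fun p : I4 × I4 => ∑ a, ∑ b, (fr h).Q p.1 a x * (fr h).Q p.2 b x * ξ a b)).trans
          (mul_le_mul_of_nonneg_right b1 (nr_nonneg _))
        have b3 := pow_le_pow_left₀ (abs_nonneg _) b2 2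
        rw [sq_abs, mul_pow, nr_sq] at b3
        refine le_of_eq_of_le ?_ (b3.trans (le_of_eq ?_))
        · rw [← neg_sq]
          congr 1
          generalize bb (C n) ((dc h).gr (u n)) (ω n) = B
          simp only [Fintype.sum_prod_type, uc, R.neg_apply, R.add_apply, R.mul_apply,
            Fin.sum_univ_three, Fin.sum_univ_four]
          ring
        · congr 1
          simp only [Fintype.sum_prod_type, FR.gi_eq, R.add_apply, R.mul_apply,
            Fin.sum_univ_three, Fin.sum_univ_four]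
          ring }
  have c0 : UB h 0 u := H.n0
  have c1 : ∀ i, UB h 0 fun n => (dc h).d i (u n) := fun i => ⟨_, fun n => (n1 n).mono
    (fun x => abs_le_nr (fun i => (dc h).gr (u n) i x) i) le_rfl⟩
  have c2 : ∀ i j, UB h 0 fun n => (dc h).d i ((dc h).d j (u n)) := fun i j =>
    ⟨_, fun n => (n2 n).mono
      (fun x => abs_le_nr (fun p => (dc h).dT ((dc h).gr (u n)) p x) (i, j)) le_rfl⟩
  have c3 : ∀ i j k, UB h 0 fun n => (dc h).d i ((dc h).d j ((dc h).d k (u n))) := fun i j k =>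
    ⟨_, fun n => (n3 n).mono
      (fun x => abs_le_nr (fun p => (dc h).dT ((dc h).dT ((dc h).gr (u n))) p x) (i, j, k)) le_rfl⟩
  have u3 : UB h 3 u := ⟨⟨⟨c0, c1⟩, fun i => ⟨c1 i, fun j => c2 j i⟩⟩, fun i =>
    ⟨⟨c1 i, fun j => c2 j i⟩, fun j => ⟨c2 j i, fun k => c3 k j i⟩⟩⟩
  obtain ⟨M, hM⟩ := UB.norm (z := fun n => u (n + 1) - u n) hd
  exact it.limit' u3.P3 (S5.cauchy_of_sq (C := M * B ^ 2) (κ := κ ^ 2) (sq_nonneg _)
    (pow_lt_one₀ κ0 κ1 two_ne_zero) fun n => (hM n).trans (le_of_eq (by ring)))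

theorem Run.sol {G : Set (E4 ≃ₗᵢ[ℝ] E4)} (H : Run h α a₁ a₂ e₁ e₂ g m₀ m u ω C)
    (hi : ∀ n, u n ∈ invSub G) : ∃ u ω C, u ∈ invSub G ∧ (dc h).Aux u ω C ∧
      (dc h).Eg u ω C = 0 ∧ (∀ x, |u x| ≤ m₀) ∧ ∀ x, (wi h).vn ((dc h).gr u) x ≤ m := by
  obtain ⟨w, hw⟩ := H.limit
  have t0 : ∀ x, Tendsto (fun n => u n x) atTop (𝓝 (w x)) := (hw []).tendsto_at
  have t1 : ∀ a x, Tendsto (fun n => E a (u n) x) atTop (𝓝 (E a w x)) := fun a =>
    (hw [a]).tendsto_at
  have t2 : ∀ a b x, Tendsto (fun n => E a (E b (u n)) x) atTop (𝓝 (E a (E b w) x)) := fun a b =>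
    (hw [a, b]).tendsto_at
  have tg : ∀ x i, Tendsto (fun n => (dc h).gr (u n) i x) atTop (𝓝 ((dc h).gr w i x)) := by
    intro x i
    have e : ∀ v, (dc h).gr v i = ∑ a, (fr h).Q i a * E a v := (fr h).d_apply i
    simp only [e, R.sum_apply, R.mul_apply]
    exact tendsto_finsetSum _ fun a _ => (t1 a x).const_mul _
  have th : ∀ x p, Tendsto (fun n => uc ((dc h).hs (u n)) p x) atTop (𝓝 (uc ((dc h).hs w) p x)) := by
    intro x p
    have e : ∀ v, uc ((dc h).hs v) p = _ := fun v => (fr h).hs_eq v p.1 p.2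
    simp only [e, FR.hs0, Matrix.of_apply, R.sum_apply, R.mul_apply, R.add_apply]
    exact (tendsto_finsetSum _ fun a _ => tendsto_finsetSum _ fun b _ =>
      (t2 a b x).const_mul _).add ((tendsto_finsetSum _ fun a _ => (t1 a x).const_mul _).add
      ((tendsto_finsetSum _ fun k _ => (tendsto_finsetSum _ fun a _ =>
        (t1 a x).const_mul _).const_mul _).mul_const _))
  have tL : ∀ x, Tendsto (fun n => (dc h).L (u n) x) atTop (𝓝 ((dc h).L w x)) := by
    intro x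
    have e : ∀ v, (dc h).L v = _ := (fr h).L_eq
    simp only [e, R.sum_apply, R.mul_apply, R.add_apply]
    exact (tendsto_finsetSum _ fun a _ => tendsto_finsetSum _ fun b _ =>
      (t2 a b x).const_mul _).add ((tendsto_finsetSum _ fun a _ => (t1 a x).const_mul _).add
      ((t0 x).const_mul _))
  have w0 : ∀ x, |w x| ≤ m₀ := fun x => le_of_tendsto' (t0 x).abs fun n => H.s0 n x
  have w1 : ∀ x, (wi h).vn ((dc h).gr w) x ≤ m := fun x =>
    le_of_tendsto' (tendsto_nr (tg x)) fun n => H.s1 n x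
  have wi' : w ∈ invSub G := fun g hg => R.ext fun x => by
    have a1 := t0 (sph g x)
    have a3 : ∀ n, u n (sph g x) = u n x := fun n => by rw [← act_apply, hi n g hg]
    simp only [a3] at a1
    rw [act_apply]
    exact tendsto_nhds_unique a1 (t0 x)
  obtain ⟨ω', C', ha⟩ := aux_of (S := wi h) (fun a ha => let ⟨b, hb⟩ := exists_inv a ha; IsUnit.of_mul_eq_one b hb)
    H.pb.hA (by nlinarith [H.hg, H.g1, H.p0]) w0
  refine ⟨w, ω', C', wi', ha, R.ext fun x => ?_, w0, w1⟩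
  have z0 : Tendsto (fun n => |(wi h).ev x (u n - w)|) atTop (𝓝 0) := by
    simpa using ((t0 x).sub_const (w x)).abs
  have z1 : Tendsto (fun n => (wi h).vn ((dc h).gr (u n - w)) x) atTop (𝓝 0) := by
    have := tendsto_nr fun i => (tg x i).sub_const ((dc h).gr w i x)
    simp only [sub_self, nr_zero] at this
    simp only [← gr_sub]
    exact this
  have z2 : Tendsto (fun n => (wi h).vn (uc ((dc h).hs (u n - w))) x) atTop (𝓝 0) := by
    have := tendsto_nr fun i => (th x i).sub_const (uc ((dc h).hs w) i x)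
    simp only [sub_self, nr_zero] at this
    simp only [← hs_sub]
    exact this
  have tn : Tendsto (fun n => (wi h).vn ((dc h).gr (u n)) x) atTop
      (𝓝 ((wi h).vn ((dc h).gr w) x)) := tendsto_nr (tg x)
  have tQ : Tendsto (fun n => (dc h).Q (u n) (ω n) (C n) x) atTop (𝓝 ((dc h).Q w ω' C' x)) := by
    rw [tendsto_iff_norm_sub_tendsto_zero]
    refine squeeze_zero (fun _ => norm_nonneg _) (fun n => Q_sub_le H.pb H.g1 H.hg (H.ha n) ha x
      (H.s0 n x) (w0 x) (H.s1 n x) (w1 x)) ?_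
    simpa using ((((((z2.const_mul _).add ((z0.mul_const _).const_mul _)).add
      ((z1.mul_const _).const_mul _)).add ((z1.mul tn).const_mul _)).add
      ((z1.mul_const _).const_mul _)).add (z0.const_mul _)).add (z1.const_mul _)
  have e1 := (tL x).comp (tendsto_add_atTop_nat 1)
  have e2 : ∀ n, (dc h).L (u (n + 1)) x = (dc h).R x + (dc h).Q (u n) (ω n) (C n) x := fun n => by
    rw [H.he n]; rfl
  have e3 := tendsto_nhds_unique (e1.congr e2) (tQ.const_add _)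
  rw [ha.Eg_eq, R.add_apply, R.sub_apply, e3, R.zero_apply]
  ring

end Pool.Agent.MP48470b.An
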