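import Pool.Agent.MP_48470b_gt.An.Pic3

/-! The Picard iteration with sharper constants. -/

namespace Pool.Agent.MP48470b.An

open Finset Matrix
open scoped NNReal

/-- The numerical data. -/
structure Cs2 where
  (α a₁ a₂ e₁ e₂ ε₀ ε₁ K₀ K₁ KΔ Kh Kr sE rm v₁ v₂ x₁ x₂ y₁ y₂ z₁ z₂ d₁ d₂ c₁ c₂ ζ δ γ
    C s C' s' C'' s'' P Dv Hv Rv T₀ T₁ T₂ Cs Cw M N Y tΔ t3 t3v U₀ U₁ U₂ m₀ m η μ g g'
    ρ₀ ρ₁ G εv ρv : ℝ≥0)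

namespace Cs2
variable (c : Cs2)
/-- Constant. -/
def G1 : ℝ := c.Cs * (c.KΔ + 2 * c.Kh)
/-- Constant. -/
noncomputable def Gχ : ℝ := c.M * (c.KΔ + 2 * c.Kh + c.rm / 2 * c.K₁)
/-- Constant. -/
def G2 : ℝ := c.m * (c.tΔ + 2 * c.t3)
/-- Constant. -/
def kN : ℝ := ckN2 c.α c.e₁ c.g c.m₀ c.m c.η c.μ * c.α + cku c.a₁ c.e₁ c.g c.m
/-- Constant. -/
def kp : ℝ := ckp2 c.α c.e₁ c.g c.m₀ c.m c.μ
/-- Growth constant. -/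
noncomputable def κ₀ : ℝ :=
  cβ c.g c.m * c.Kh + c.g ^ 3 * c.Gχ * c.ρ₀ + c.kN * c.K₀ + c.kp * c.K₁
/-- Contraction constant. -/
noncomputable def κ : ℝ :=
  c.κ₀ + cbN c.g c.m * c.M * c.Kh * c.ρ₀ + cbp c.g c.m * c.G + c.g ^ 3 * c.Gχ * c.ρ₀

/-- Bound for the gradient of the remainder. -/
def H1 : ℝ := cH c.α c.a₁ c.a₂ c.e₁ c.e₂ c.g' c.m₀ c.m (c.K₀ * c.ρ₀) (c.K₁ * c.ρ₀)
  (c.Kh * c.ρ₀) (c.Kr * c.ρ₀) c.t3 c.G2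

/-- The closing inequalities. -/
structure Close : Prop where
  hK₁ : ((c.α : ℝ) ^ 2 + 1 / 2) * c.K₀ ^ 2 + c.K₀ ≤ c.K₁ ^ 2
  hKΔ : 1 + ((c.α : ℝ) ^ 2 + 1 / 2) * c.K₀ ≤ c.KΔ
  hKh : (c.KΔ : ℝ) ^ 2 + (c.α * c.K₁) ^ 2 ≤ c.Kh ^ 2
  hKr : (c.KΔ : ℝ) ^ 2 + 2 * (c.α * c.K₁) ^ 2 ≤ c.Kr ^ 2
  hP : (c.v₂ : ℝ) * c.K₀ ^ 2 + c.sE ^ 2 * c.K₀ ≤ c.P ^ 2
  hDv : (c.sE : ℝ) + c.v₁ * c.K₀ + c.rm / 2 * c.P ≤ c.Dv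
  hHv : (c.Dv : ℝ) ^ 2 + 3 * (c.x₁ * c.P ^ 2 + c.x₂ * c.K₁ ^ 2) ≤ c.Hv ^ 2
  hRv : (c.Dv : ℝ) ^ 2 + 4 * (c.x₁ * c.P ^ 2 + c.x₂ * c.K₁ ^ 2) ≤ c.Rv ^ 2
  hT₀ : (c.z₁ : ℝ) * (c.sE * c.K₀) ^ 2 + c.z₂ * c.K₀ ^ 2 ≤ c.T₀ ^ 2
  hT₁ : (c.d₁ : ℝ) * c.P ^ 2 + c.d₂ * c.K₁ ^ 2 ≤ c.T₁ ^ 2
  hT₂ : (c.c₁ : ℝ) * c.Hv ^ 2 + c.c₂ * c.Kh ^ 2 ≤ c.T₂ ^ 2
  hCs : (c.C : ℝ) * (c.s * c.T₀ + c.T₁ + c.T₂) ≤ c.Cs
  hCw : (c.C' : ℝ) * (c.s' * (c.ζ * c.K₀) + c.δ * (c.K₁ + c.rm / 4 * c.K₀) + c.γ * (c.Kh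
    + c.rm / 2 * c.K₁ + (c.rm ^ 2 / 16 + 1 / 2 + c.rm * c.α / 4) * c.K₀)) ≤ c.Cw
  hM : (c.x₁ : ℝ) * c.Cs ^ 2 + c.x₂ * c.Cw ^ 2 ≤ c.M ^ 2
  hN : (c.y₁ : ℝ) * c.Cs ^ 2 + c.y₂ * c.Cw ^ 2 ≤ c.N ^ 2
  hY : (c.x₁ : ℝ) * c.y₁ * c.sE ^ 2 + c.x₁ * c.y₂ + c.x₂ * c.y₁ + c.x₂ * c.y₂ ≤ c.Y ^ 2
  htΔ : (c.ρ₁ : ℝ) + (3 * c.α ^ 2 + 3 / 2 + c.e₁) * (c.K₁ * c.ρ₀)
    + 2 * c.α * c.a₁ * (c.K₀ * c.ρ₀) + 2 * c.α * (c.Kr * c.ρ₀) ≤ c.tΔ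
  ht3 : (c.tΔ : ℝ) + 2 * c.α * (c.Kr * c.ρ₀) ≤ c.t3
  ht3v : (c.ρv : ℝ) + (3 * c.α ^ 2 + 3 / 2 + c.e₁) * (c.P * c.ρ₀)
    + 2 * (c.Y * (c.K₀ * c.ρ₀)) + (2 * c.α + c.rm / 2) * (c.Rv * c.ρ₀)
    + 2 * c.α * (c.Rv * c.ρ₀) ≤ c.t3v
  hU₀ : (c.z₁ : ℝ) * (c.P * c.ρ₀) ^ 2 + c.z₂ * (c.K₁ * c.ρ₀) ^ 2 ≤ c.U₀ ^ 2
  hU₁ : (c.d₁ : ℝ) * (c.Rv * c.ρ₀) ^ 2 + c.d₂ * (c.Kr * c.ρ₀) ^ 2 ≤ c.U₁ ^ 2
  hU₂ : (c.c₁ : ℝ) * c.t3v ^ 2 + c.c₂ * c.t3 ^ 2 ≤ c.U₂ ^ 2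
  hm : (c.C'' : ℝ) * (c.s'' * c.U₀ + c.U₁ + c.U₂) ≤ c.m
  hm₀ : (c.Cs : ℝ) * c.ρ₀ ≤ c.m₀
  hη : (c.M : ℝ) * c.ρ₀ ≤ c.η
  hμ : (c.N : ℝ) * c.ρ₀ ≤ c.μ
  g1 : 1 ≤ (c.g : ℝ)
  hg : 1 + (c.η : ℝ) * c.g ≤ c.g
  g1' : 1 ≤ (c.g' : ℝ)
  hg' : 1 + (c.α : ℝ) * c.m₀ * c.g' ≤ c.g'
  hG : c.G1 * c.G2 ≤ c.G ^ 2
  self0 : c.ε₀ + c.κ₀ * c.ρ₀ ≤ c.ρ₀
  self1 : c.ε₁ + c.H1 ≤ c.ρ₁
  selfv : c.εv + c.sE * c.H1 ≤ c.ρv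
  contr : c.κ < 1
  hβ : cβ c.g' c.m < 1

end Cs2

variable {K : Type*} [CommRing K] [Algebra ℝ K] {X : Type*}

/-- All hypotheses of the iteration. -/
structure Hyp2 (D : DC K) (S : IS K X) (Inv : Set K) (c : Cs2) (φ ψ : K) (θ₀ θ₁ θ₂ : X → ℝ) :
    Prop where
  ibp : IBP D S
  pb : PB D S c.α c.a₁ c.a₂ c.e₁ c.e₂
  cl : c.Close
  wt : Wt D S φ ψ c.sE c.rm
  hV : ∀ x, |S.ev x φ * S.ev x D.V| ≤ c.v₁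
  hW : ∀ x, S.ev x D.Wv ≤ c.v₂ * S.ev x ψ ^ 2
  hx : ∀ x, S.vn (uc D.A) x ^ 2 ≤ c.x₁ + c.x₂ * S.ev x ψ ^ 2
  hy : ∀ x, S.vn (uc3 D.A') x ^ 2 ≤ c.y₁ + c.y₂ * S.ev x ψ ^ 2
  s0 : ∀ x, θ₀ x ^ 2 ≤ c.z₁ * S.ev x φ ^ 2 + c.z₂
  s1 : ∀ x, θ₁ x ^ 2 ≤ c.d₁ * S.ev x φ ^ 2 + c.d₂
  s2 : ∀ x, θ₂ x ^ 2 ≤ c.c₁ * S.ev x φ ^ 2 + c.c₂
  t0 : ∀ x, |θ₀ x * S.ev x ψ| ≤ c.ζ
  t1 : ∀ x, |θ₁ x * S.ev x ψ| ≤ c.δ
  t2 : ∀ x, |θ₂ x * S.ev x ψ| ≤ c.γ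
  res0 : S.Dom (S.v0 D.R) c.ε₀
  res1 : S.Dom (S.vn (D.gr D.R)) c.ε₁
  resv : (S.wt φ).Dom (S.vn (D.gr D.R)) c.εv
  sup : SupG D S θ₀ θ₁ θ₂ c.C c.s
  sup' : SupG D S θ₀ θ₁ θ₂ c.C' c.s'
  sup'' : SupG D S θ₀ θ₁ θ₂ c.C'' c.s''
  gap : ∀ w ∈ Inv, S.I (w ^ 2) ≤ c.K₀ ^ 2 * S.I (D.L w ^ 2)
  solve : ∀ h ∈ Inv, ∃ w ∈ Inv, D.L w = h
  unit : ∀ a : K, (∀ x, S.ev x a ≠ 0) → IsUnit a
  inv0 : (0 : K) ∈ Inv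
  invs : ∀ a ∈ Inv, ∀ b ∈ Inv, a - b ∈ Inv
  invQ : ∀ u ∈ Inv, ∀ ω C, D.Aux u ω C → D.R + D.Q u ω C ∈ Inv

variable {D : DC K} {S : IS K X} {Inv : Set K} {c : Cs2} {φ ψ : K} {θ₀ θ₁ θ₂ : X → ℝ}

/-- Majorant of the size of the shape operator. -/
noncomputable def chi (S : IS K X) (c : Cs2) (ψ : K) (x : X) : ℝ := √(c.x₁ + c.x₂ * S.ev x ψ ^ 2)

lemma chi_sq (x : X) : chi S c ψ x ^ 2 = c.x₁ + c.x₂ * S.ev x ψ ^ 2 :=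
  Real.sq_sqrt (by positivity)

/-- Consequences of a bound on `L w`. -/
structure Lin2 (D : DC K) (S : IS K X) (c : Cs2) (φ ψ w : K) (ρ : ℝ) : Prop where
  n0 : S.Dom (S.v0 w) (c.K₀ * ρ)
  n1 : S.Dom (S.vn (D.gr w)) (c.K₁ * ρ)
  nh : S.Dom (S.vn (uc (D.hs w))) (c.Kh * ρ)
  nr : S.Dom (S.vn (D.dT (D.gr w))) (c.Kr * ρ)
  v1 : (S.wt φ).Dom (S.vn (D.gr w)) (c.P * ρ)
  vr : (S.wt φ).Dom (S.vn (D.dT (D.gr w))) (c.Rv * ρ)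
  sup : ∀ x, |S.ev x w| ≤ c.Cs * ρ
  supA : ∀ x, S.vn (uc D.A) x * |S.ev x w| ≤ c.M * ρ
  supA' : ∀ x, S.vn (uc3 D.A') x * |S.ev x w| ≤ c.N * ρ
  n4 : S.Dom (fun x => S.vn (D.gr w) x ^ 2) (c.G1 * ρ ^ 2)
  n4χ : S.Dom (fun x => chi S c ψ x * S.vn (D.gr w) x ^ 2) (c.Gχ * ρ ^ 2)

lemma sq_sc {a b ρ : ℝ} (h : a ≤ b ^ 2) {a' : ℝ} (e : a' = a * ρ ^ 2) : a' ≤ (b * ρ) ^ 2 := by
  rw [e, mul_pow]; exact mul_le_mul_of_nonneg_right h (sq_nonneg ρ)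

lemma mix_le {a w p x₁ x₂ A B M : ℝ} (p1 : 0 ≤ x₁) (p2 : 0 ≤ x₂) (hM : 0 ≤ M)
    (ha : a ^ 2 ≤ x₁ + x₂ * p ^ 2) (hw : |w| ≤ A) (hp : |p * w| ≤ B)
    (h : x₁ * A ^ 2 + x₂ * B ^ 2 ≤ M ^ 2) : a * |w| ≤ M := by
  refine (abs_le_of_sq_le_sq' (le_trans ?_ h) hM).2
  have h1 := pow_le_pow_left₀ (abs_nonneg _) hw 2
  have h2 := pow_le_pow_left₀ (abs_nonneg _) hp 2
  rw [sq_abs] at h1 h2
  rw [mul_pow, sq_abs]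
  nlinarith [mul_le_mul_of_nonneg_right ha (sq_nonneg w), mul_le_mul_of_nonneg_left h1 p1,
    mul_le_mul_of_nonneg_left h2 p2]

lemma Hyp2.A_chi (h : Hyp2 D S Inv c φ ψ θ₀ θ₁ θ₂) (x : X) : S.vn (uc D.A) x ≤ chi S c ψ x :=
  Real.le_sqrt_of_sq_le (h.hx x)

lemma Hyp2.lin0 (h : Hyp2 D S Inv c φ ψ θ₀ θ₁ θ₂) {w : K} (hw : w ∈ Inv) {ρ : ℝ}
    (hL : S.Dom (S.v0 (D.L w)) ρ) : Lin2 D S c φ ψ w ρ := by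
  have cl := h.cl
  have W := h.wt
  have hρ := hL.1
  have n0 : S.Dom (S.v0 w) (c.K₀ * ρ) := IS.dom_v0.2 ⟨by positivity, (h.gap w hw).trans (by
    rw [mul_pow]; exact mul_le_mul_of_nonneg_left (IS.dom_v0.1 hL).2 (sq_nonneg _))⟩
  have n1 : S.Dom (S.vn (D.gr w)) (c.K₁ * ρ) := h.pb.lin1 h.ibp hL n0 (by positivity)
    (sq_sc cl.hK₁ (by ring))
  have nΔ : S.Dom (S.v0 (D.lf w)) (c.KΔ * ρ) :=
    (h.pb.linΔ hL n0).le (by linarith [mul_le_mul_of_nonneg_right cl.hKΔ hρ])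
  have nh : S.Dom (S.vn (uc (D.hs w))) (c.Kh * ρ) := h.pb.lin2h h.ibp c.α.coe_nonneg nΔ n1 (by positivity)
    (sq_sc cl.hKh (by ring))
  have nr : S.Dom (S.vn (D.dT (D.gr w))) (c.Kr * ρ) := h.pb.lin2r h.ibp c.α.coe_nonneg nΔ n1
    (by positivity) (sq_sc cl.hKr (by ring))
  have v1 : (S.wt φ).Dom (S.vn (D.gr w)) (c.P * ρ) := W.lin1 h.ibp c.sE.coe_nonneg c.v₂.coe_nonneg h.hW hL n0
    (by positivity) (sq_sc cl.hP (by ring))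
  have vΔ : (S.wt φ).Dom (S.v0 (D.lap w)) (c.Dv * ρ) :=
    (W.lap c.sE.coe_nonneg c.rm.coe_nonneg c.v₁.coe_nonneg h.hV hL n0 v1).le
      (by linarith [mul_le_mul_of_nonneg_right cl.hDv hρ])
  have b1 : S.I (φ ^ 2 * D.lap w ^ 2) ≤ _ := ((IS.dom_v0 (S := S.wt φ)).1 vΔ).2
  have b2 := W.AAp c.x₁.coe_nonneg c.x₂.coe_nonneg h.hx v1 n1
  have vh : (S.wt φ).Dom (S.vn (uc (D.hs w))) (c.Hv * ρ) :=
    (IS.dom_vn (S := S.wt φ)).2 ⟨by positivity, (W.E2h h.ibp w).trans ((add_le_add b1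
      (mul_le_mul_of_nonneg_left b2 (by norm_num))).trans (sq_sc cl.hHv (by ring)))⟩
  have vr : (S.wt φ).Dom (S.vn (D.dT (D.gr w))) (c.Rv * ρ) :=
    (IS.dom_vn (S := S.wt φ)).2 ⟨by positivity, (W.E2r h.ibp w).trans ((add_le_add b1
      (mul_le_mul_of_nonneg_left b2 (by norm_num))).trans (sq_sc cl.hRv (by ring)))⟩
  have sup : ∀ x, |S.ev x w| ≤ c.Cs * ρ := fun x =>
    (h.sup w (c.T₀ * ρ) (c.T₁ * ρ) (c.T₂ * ρ)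
      ((W.toV1 c.sE.coe_nonneg n0).mixv n0 c.z₁.coe_nonneg c.z₂.coe_nonneg h.s0 (by positivity) (sq_sc cl.hT₀ (by ring)))
      (v1.mixv n1 c.d₁.coe_nonneg c.d₂.coe_nonneg h.s1 (by positivity) (sq_sc cl.hT₁ (by ring)))
      (vh.mixv nh c.c₁.coe_nonneg c.c₂.coe_nonneg h.s2 (by positivity) (sq_sc cl.hT₂ (by ring))) x).trans
      (by linarith [mul_le_mul_of_nonneg_right cl.hCs hρ])
  have k : ∀ {θ p a b : ℝ}, 0 ≤ a → a ≤ p * b → (θ * a) ^ 2 ≤ (θ * p * b) ^ 2 :=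
    fun {θ p a b} h0 hab => by rw [mul_assoc, mul_pow, mul_pow θ]; gcongr
  have supψ : ∀ x, |S.ev x ψ * S.ev x w| ≤ c.Cw * ρ := fun x => by
    rw [← map_mul]
    exact (h.sup' (ψ * w) _ _ _
      ((n0.bmul h.t0 c.ζ.coe_nonneg).mono' (fun y => le_of_eq (by simp [IS.v0, mul_assoc])) le_rfl)
      (((n1.add (n0.abs.cmul (c := c.rm / 4) (by positivity))).bmul h.t1 c.δ.coe_nonneg).mono'
        (fun y => k (S.vn_nonneg _ _) (W.gr_ψ w y)) le_rfl)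
      ((((nh.add (n1.cmul (c := c.rm / 2) (by positivity))).add (n0.abs.cmul
        (c := c.rm ^ 2 / 16 + 1 / 2 + c.rm * c.α / 4) (by positivity))).bmul h.t2 c.γ.coe_nonneg).mono'
        (fun y => k (S.vn_nonneg _ _) (W.hs_ψ w y (h.pb.hA y))) le_rfl) x).trans
      (by linarith [mul_le_mul_of_nonneg_right cl.hCw hρ])
  have supχ : ∀ x, chi S c ψ x * |S.ev x w| ≤ c.M * ρ := fun x =>
    mix_le c.x₁.coe_nonneg c.x₂.coe_nonneg (by positivity) (chi_sq x).le (sup x) (supψ x) (sq_sc cl.hM (by ring))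
  refine ⟨n0, n1, nh, nr, v1, vr, sup, fun x => (mul_le_mul_of_nonneg_right (h.A_chi x)
    (abs_nonneg _)).trans (supχ x), fun x => mix_le c.y₁.coe_nonneg c.y₂.coe_nonneg (by positivity) (h.hy x) (sup x)
    (supψ x) (sq_sc cl.hN (by ring)), (h.ibp.gn1 (by positivity) sup nΔ nh).le
    (le_of_eq (by unfold Cs2.G1; ring)), (h.ibp.gnχ (c := c.rm / 2) (χ := chi S c ψ)
    (Ξ := algebraMap ℝ K c.x₁ + (c.x₂ : ℝ) • (ψ * ψ)) (by positivity) (by positivity)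
    (fun _ => Real.sqrt_nonneg _) (fun x => ?_) (fun x => ?_) supχ nΔ n1 nh).le
    (le_of_eq (by unfold Cs2.Gχ; ring))⟩
  · rw [chi_sq]; simp [sq]
  · have e : ∀ i, S.ev x (D.gr (algebraMap ℝ K c.x₁ + (c.x₂ : ℝ) • (ψ * ψ)) i) =
        (-(c.x₂ * S.ev x ψ ^ 2 / 2)) * S.ev x (D.ft i) := fun i => by
      simp only [DC.gr, map_add, Derivation.map_algebraMap, Derivation.map_smul, D.dmul, W.dψ,
        map_smul, map_mul, map_neg, ev_hf, map_zero, smul_eq_mul]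
      ring
    have b := W.ft_le x
    unfold IS.vn at b ⊢
    simp only [e]
    rw [nr_smul, abs_neg, abs_of_nonneg (by positivity), chi_sq]
    have q : 0 ≤ c.x₂ * S.ev x ψ ^ 2 := by positivity
    nlinarith [mul_le_mul_of_nonneg_left b q, mul_nonneg c.rm.coe_nonneg c.x₁.coe_nonneg]

/-- The ball of the iteration. -/
def Ball2 (D : DC K) (S : IS K X) (Inv : Set K) (c : Cs2) (φ u : K) : Prop :=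
  u ∈ Inv ∧ S.Dom (S.v0 (D.L u)) c.ρ₀ ∧ S.Dom (S.vn (D.gr (D.L u))) c.ρ₁ ∧
    (S.wt φ).Dom (S.vn (D.gr (D.L u))) c.ρv

/-- Third order consequences. -/
structure Lin3 (D : DC K) (S : IS K X) (c : Cs2) (u : K) : Prop where
  n3 : S.Dom (S.vn (D.dT (D.dT (D.gr u)))) c.t3
  sup : ∀ x, S.vn (D.gr u) x ≤ c.m
  n4 : S.Dom (fun x => S.vn (D.dT (D.gr u)) x ^ 2) c.G2
  s0 : ∀ x, |S.ev x u| ≤ c.m₀
  sA : ∀ x, S.vn (uc D.A) x * |S.ev x u| ≤ c.η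
  sA' : ∀ x, S.vn (uc3 D.A') x * |S.ev x u| ≤ c.μ

lemma Hyp2.lin1 (h : Hyp2 D S Inv c φ ψ θ₀ θ₁ θ₂) {u : K} (hu : Ball2 D S Inv c φ u) :
    Lin3 D S c u := by
  have cl := h.cl
  have W := h.wt
  have l0 := h.lin0 hu.1 hu.2.1
  have nΔ : S.Dom (S.vn fun k => D.lf (D.d k u)) c.tΔ :=
    (((hu.2.2.1.add (l0.n1.cmul (c := 3 * c.α ^ 2 + 3 / 2 + c.e₁) (by positivity))).add
      (l0.n0.abs.cmul (c := 2 * c.α * c.a₁) (by positivity))).add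
      (l0.nr.cmul (c := 2 * c.α) (by positivity))).mono
      (fun x => by rw [abs_of_nonneg (S.vn_nonneg _ _)]; exact h.pb.lf3_le u x) cl.htΔ
  have n3 : S.Dom (S.vn (D.dT (D.dT (D.gr u)))) c.t3 :=
    (h.pb.lin3 h.ibp c.α.coe_nonneg nΔ l0.nr).le cl.ht3
  have hY : ∀ x, |S.ev x φ * (S.vn (uc D.A) x * S.vn (uc3 D.A') x)| ≤ c.Y := fun x => by
    refine abs_le.2 (abs_le_of_sq_le_sq' (le_trans ?_ cl.hY) c.Y.coe_nonneg)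
    have e := W.ev_inv x
    have b1 := mul_le_mul (h.hx x) (h.hy x) (sq_nonneg _) (by positivity)
    have b2 := pow_le_pow_left₀ (abs_nonneg _) (W.hφ x) 2
    have b3 := pow_le_one₀ (n := 2) (W.p0 x) (W.p1 x)
    rw [sq_abs] at b2
    rw [mul_pow, mul_pow]
    refine (mul_le_mul_of_nonneg_left b1 (sq_nonneg _)).trans ?_
    have e2 : S.ev x φ ^ 2 * ((c.x₁ + c.x₂ * S.ev x ψ ^ 2) * (c.y₁ + c.y₂ * S.ev x ψ ^ 2)) =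
        c.x₁ * c.y₁ * S.ev x φ ^ 2 + c.x₁ * c.y₂ + c.x₂ * c.y₁ + c.x₂ * c.y₂ * S.ev x ψ ^ 2 := by
      linear_combination (c.x₁ * c.y₂ + c.x₂ * c.y₁ + c.x₂ * c.y₂ * S.ev x ψ ^ 2)
        * (S.ev x φ * S.ev x ψ + 1) * e
    rw [e2]
    exact add_le_add (add_le_add (add_le_add (mul_le_mul_of_nonneg_left b2 (by positivity)) le_rfl)
      le_rfl) (mul_le_of_le_one_right (by positivity) b3)
  have vΔ := (((hu.2.2.2.add (l0.v1.cmul (c := 3 * c.α ^ 2 + 3 / 2 + c.e₁)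
    (by positivity))).add ((W.toV l0.n0.abs c.Y.coe_nonneg hY).cmul zero_le_two)).add
    (l0.vr.cmul (c := 2 * c.α + c.rm / 2) (by positivity))).mono
    (ψ := S.vn fun k => D.lap (D.d k u)) (fun x => by
      rw [abs_of_nonneg (S.vn_nonneg _ _)]
      have b : S.vn (fun k => D.lf (D.d k u)) x ≤ S.vn (D.gr (D.L u)) x
          + (3 * S.vn (uc D.A) x ^ 2 + 3 / 2 + c.e₁) * S.vn (D.gr u) x
          + 2 * S.vn (uc D.A) x * S.vn (uc3 D.A') x * |S.ev x u|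
          + 2 * S.vn (uc D.A) x * S.vn (D.dT (D.gr u)) x := (h.pb.pt x).lf3_le u ()
      have b1 := mul_le_mul_of_nonneg_right (pow_le_pow_left₀ (S.vn_nonneg _ _) (h.pb.hA x) 2)
        (S.vn_nonneg (D.gr u) x)
      have b2 := mul_le_mul_of_nonneg_right (h.pb.hA x) (S.vn_nonneg (D.dT (D.gr u)) x)
      have b3 := W.lap3 u x
      unfold IS.v0
      linarith) le_rfl
  have v3 : (S.wt φ).Dom (S.vn (D.dT (D.dT (D.gr u)))) c.t3v :=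
    (W.lin3 h.ibp c.α.coe_nonneg h.pb.hA vΔ l0.vr).le cl.ht3v
  have sup := h.sup''.grad c.m.coe_nonneg (l0.v1.mixv l0.n1 c.z₁.coe_nonneg c.z₂.coe_nonneg h.s0 c.U₀.coe_nonneg cl.hU₀)
    (l0.vr.mixv l0.nr c.d₁.coe_nonneg c.d₂.coe_nonneg h.s1 c.U₁.coe_nonneg cl.hU₁)
    (v3.mixv n3 c.c₁.coe_nonneg c.c₂.coe_nonneg h.s2 c.U₂.coe_nonneg cl.hU₂) cl.hm
  exact ⟨n3, sup, h.ibp.gn2 c.m.coe_nonneg sup nΔ n3, fun x => (l0.sup x).trans cl.hm₀,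
    fun x => (l0.supA x).trans cl.hη, fun x => (l0.supA' x).trans cl.hμ⟩

lemma Cs2.Close.pos (cl : c.Close) : 0 ≤ cβ c.g c.m ∧ 0 ≤ cbN c.g c.m ∧ 0 ≤ cbp c.g c.m ∧
    0 ≤ c.kN ∧ 0 ≤ c.kp ∧ 0 ≤ c.Gχ := by
  obtain ⟨h1, h2, h3⟩ := cb_pos cl.g1 c.m.coe_nonneg
  refine ⟨h1, h2, h3, ?_, ?_, ?_⟩
  · unfold Cs2.kN ckN2 cku; positivity
  · unfold Cs2.kp ckp2; positivity
  · unfold Cs2.Gχ; positivity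

lemma Hyp2.gm (h : Hyp2 D S Inv c φ ψ θ₀ θ₁ θ₂) {u v : K} {ρ ρ' : ℝ} (lu : Lin2 D S c φ ψ u ρ)
    (lv : Lin2 D S c φ ψ v ρ') (p : 0 ≤ ρ) (p' : 0 ≤ ρ') : S.Dom (fun x => S.vn (uc D.A) x *
      (S.vn (D.gr u) x * S.vn (D.gr v) x)) (c.Gχ * ρ * ρ') := by
  have := h.cl.pos.2.2.2.2.2
  refine lu.n4χ.gm lv.n4χ (fun x => ?_) (by positivity) (le_of_eq (by ring))
  have := mul_le_mul_of_nonneg_right (pow_le_pow_left₀ (S.vn_nonneg _ _) (h.A_chi x) 2)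
    (sq_nonneg (S.vn (D.gr u) x * S.vn (D.gr v) x))
  rw [mul_pow]
  linarith

lemma Hyp2.lip (h : Hyp2 D S Inv c φ ψ θ₀ θ₁ θ₂) {u v ω ω' : K} {C C' : Matrix I4 I4 K}
    (bu : Ball2 D S Inv c φ u) (bv : Ball2 D S Inv c φ v) (hu : D.Aux u ω C) (hv : D.Aux v ω' C')
    {ρ : ℝ} (hρ : S.Dom (S.v0 (D.L (u - v))) ρ) :
    S.Dom (S.v0 (D.Q u ω C - D.Q v ω' C')) (c.κ * ρ) := by
  have cl := h.cl
  obtain ⟨p1, p2, p3, p4, p5, p6⟩ := cl.pos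
  have lu := h.lin0 bu.1 bu.2.1
  have lv := h.lin0 bv.1 bv.2.1
  have lw := h.lin0 (h.invs u bu.1 v bv.1) hρ
  have ku := h.lin1 bu
  have kv := h.lin1 bv
  have := hρ.1
  have hv4 : S.Dom (fun x => S.vn (uc (D.hs v)) x ^ 2) c.G2 := kv.n4.mono (fun x => by
    rw [abs_of_nonneg (sq_nonneg _)]
    exact pow_le_pow_left₀ (S.vn_nonneg _ _) (hs_le D S v x) 2) le_rfl
  refine (((((((lw.nh.cmul p1).add ((lv.nh.bmul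
    (ψ := fun x => S.vn (uc D.A) x * |S.ev x (u - v)|) (c := c.M * ρ)
    (fun x => (abs_of_nonneg (mul_nonneg (S.vn_nonneg _ _) (abs_nonneg _))).trans_le (lw.supA x))
    (by positivity)).cmul p2)).add ((lw.n4.mul4 hv4 (c := c.G * ρ) (by positivity)
    (sq_sc cl.hG (by ring))).cmul p3)).add
    ((h.gm lw lu this c.ρ₀.coe_nonneg).cmul (c := c.g ^ 3) (by positivity))).add
    ((h.gm lw lv this c.ρ₀.coe_nonneg).cmul (c := c.g ^ 3) (by positivity))).add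
    (lw.n0.abs.cmul p4)).add (lw.n1.cmul p5)).mono
    (fun x => Q_sub_pt h.pb cl.g1 cl.hg hu hv x (ku.s0 x) (kv.s0 x) (ku.sA x) (kv.sA x) (ku.sA' x)
      (kv.sA' x) (ku.sup x) (kv.sup x)) (le_of_eq ?_)
  unfold Cs2.κ Cs2.κ₀
  ring

lemma Hyp2.grow (h : Hyp2 D S Inv c φ ψ θ₀ θ₁ θ₂) {u ω : K} {C : Matrix I4 I4 K}
    (bu : Ball2 D S Inv c φ u) (hu : D.Aux u ω C) : S.Dom (S.v0 (D.Q u ω C)) (c.κ₀ * c.ρ₀) := by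
  have cl := h.cl
  obtain ⟨p1, p2, p3, p4, p5, p6⟩ := cl.pos
  have lu := h.lin0 bu.1 bu.2.1
  have ku := h.lin1 bu
  refine ((((lu.nh.cmul p1).add ((h.gm lu lu c.ρ₀.coe_nonneg c.ρ₀.coe_nonneg).cmul (c := c.g ^ 3)
    (by positivity))).add (lu.n0.abs.cmul p4)).add (lu.n1.cmul p5)).mono (fun x => ?_)
    (le_of_eq ?_)
  · have g0 : S.vn (D.gr 0) x = 0 := by simp [IS.vn, DC.gr, nr_zero]
    have g1 : S.vn (uc (D.hs 0)) x = 0 := by simp [IS.vn, DC.hs, DC.ap, uc, nr_zero]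
    have := Q_sub_pt h.pb cl.g1 cl.hg hu (aux_zero D) x (ku.s0 x) (by simp) (ku.sA x) (by simp)
      (ku.sA' x) (by simp) (ku.sup x) (by rw [g0]; exact c.m.coe_nonneg)
    rw [Q_zero, sub_zero, sub_zero, g0, g1] at this
    refine this.trans (le_of_eq ?_)
    unfold Cs2.kN Cs2.kp IS.v0
    ring
  · unfold Cs2.κ₀
    ring

lemma Cs2.Close.small (cl : c.Close) : (c.α : ℝ) * c.m₀ < 1 := by
  nlinarith [cl.hg', cl.g1', mul_nonneg c.α.coe_nonneg c.m₀.coe_nonneg]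

lemma Hyp2.step (h : Hyp2 D S Inv c φ ψ θ₀ θ₁ θ₂) {u : K} (bu : Ball2 D S Inv c φ u) :
    ∃ ω C w, D.Aux u ω C ∧ Ball2 D S Inv c φ w ∧ D.L w = D.R + D.Q u ω C := by
  have lu := h.lin0 bu.1 bu.2.1
  have ku := h.lin1 bu
  obtain ⟨ω, C, hu⟩ := aux_of h.unit h.pb.hA h.cl.small ku.s0
  obtain ⟨w, hw, hL⟩ := h.solve _ (h.invQ u bu.1 ω C hu)
  have g : S.Dom (S.vn (D.gr (D.Q u ω C))) c.H1 :=
    grow1g h.pb c.α.coe_nonneg c.a₁.coe_nonneg c.a₂.coe_nonneg c.e₁.coe_nonneg c.e₂.coe_nonneg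
      c.m₀.coe_nonneg c.m.coe_nonneg h.cl.g1' h.cl.hg' hu ku.s0 ku.sup lu.n0 lu.n1 lu.nh lu.nr ku.n3
      ku.n4
  have b : ∀ x, |S.vn (D.gr (D.R + D.Q u ω C)) x| ≤
      S.vn (D.gr D.R) x + S.vn (D.gr (D.Q u ω C)) x := fun x => by
    rw [abs_of_nonneg (S.vn_nonneg _ _)]
    simp only [IS.vn, DC.gr, map_add]
    exact nr_add_le _ _
  refine ⟨ω, C, w, hu, ⟨hw, ?_, ?_, ?_⟩, hL⟩ <;> rw [hL]
  · exact (h.res0.add (h.grow bu hu)).mono' (fun x => le_of_eq (by simp [IS.v0])) h.cl.self0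
  · exact (h.res1.add g).mono b h.cl.self1
  · exact (h.resv.add (h.wt.toV1 c.sE.coe_nonneg g)).mono b h.cl.selfv

theorem Hyp2.picard (h : Hyp2 D S Inv c φ ψ θ₀ θ₁ θ₂) :
    ∃ (u ω : ℕ → K) (C : ℕ → Matrix I4 I4 K),
    ∀ n, Ball2 D S Inv c φ (u n) ∧ D.Aux (u n) (ω n) (C n) ∧
      D.L (u (n + 1)) = D.R + D.Q (u n) (ω n) (C n) ∧
      S.Dom (S.v0 (D.L (u (n + 1) - u n))) (c.ρ₀ * c.κ ^ n) := by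
  have b0 : Ball2 D S Inv c φ 0 := by
    have e : D.L 0 = 0 := by simp [DC.L, DC.lf, DC.lap]
    refine ⟨h.inv0, ?_, ?_, ?_⟩ <;> rw [e]
    · exact IS.Dom.zero.mono' (fun x => by simp [IS.v0]) c.ρ₀.coe_nonneg
    · exact IS.Dom.zero.mono' (fun x => by simp [IS.vn, DC.gr, nr_zero]) c.ρ₁.coe_nonneg
    · exact IS.Dom.zero.mono' (fun x => by simp [IS.vn, DC.gr, nr_zero]) c.ρv.coe_nonneg
  choose ω C w h1 h2 h3 using fun u : {u // Ball2 D S Inv c φ u} => h.step u.2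
  obtain ⟨s, s0, s1⟩ : ∃ s : ℕ → {u // Ball2 D S Inv c φ u}, (s 0).1 = 0 ∧
      ∀ n, (s (n + 1)).1 = w (s n) :=
    ⟨fun n => Nat.rec ⟨0, b0⟩ (fun _ u => ⟨w u, h2 u⟩) n, rfl, fun _ => rfl⟩
  refine ⟨fun n => (s n).1, fun n => ω (s n), fun n => C (s n), fun n =>
    ⟨(s n).2, h1 _, (congrArg D.L (s1 n)).trans (h3 _), ?_⟩⟩
  induction n with
  | zero =>
    simp only [s0, sub_zero, pow_zero, mul_one]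
    exact (s (0 + 1)).2.2.1
  | succ n ih =>
    have e1 := (congrArg D.L (s1 (n + 1))).trans (h3 _)
    have e2 := (congrArg D.L (s1 n)).trans (h3 _)
    rw [L_sub, e1, e2, add_sub_add_left_eq_sub]
    exact (h.lip (s (n + 1)).2 (s n).2 (h1 _) (h1 _) ih).le (le_of_eq (by ring))

end Pool.Agent.MP48470b.An
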