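import Pool.Agent.MP_48470b_gt.An.Final
import Pool.Agent.MP_48470b_gt.An.Gen
import Pool.Agent.MP_48470b_gt.An.Pic4

/-! The analysis layer with sharper constants. -/

namespace Pool.Agent.MP48470b.An

open Finset Matrix Pool.Agent.MP_48470b_gt Pool.Agent.MP_48470b_gt.Sph

lemma DC.d_ff {K : Type*} [CommRing K] [Algebra ℝ K] (D : DC K) (i : I4) :
    D.d i (∑ k, D.f k ^ 2) = 2 * D.ft i := by
  have h : ∑ j, (1 : Matrix I4 I4 K) i j * D.f j = D.f i := by simp [Matrix.one_apply]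
  simp only [sq, DC.ft, DC.lam, Fin.sum_univ_four, map_add, D.dmul, D.df] at h ⊢
  linear_combination 2 * h

variable {f : I4 → R}

/-- A power of the Gaussian factor. -/
noncomputable def gw (f : I4 → R) (t : ℝ) : R :=
  R.comp Real.exp (t • ∑ k, f k ^ 2) fun _ => Real.contDiff_exp.contDiffAt

lemma gw_apply (t : ℝ) (x : S3) : gw f t x = Real.exp (t * ∑ k, f k x ^ 2) := by simp [gw]

lemma gw_d (h : Imm f) (t : ℝ) (i : I4) :
    (dc h).d i (gw f t) = gw f t * (dc h).d i (t • ∑ k, f k ^ 2) := by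
  have e : ∀ a, E a (gw f t) = gw f t * E a (t • ∑ k, f k ^ 2) := fun a => R.ext fun x => by
    rw [gw, E, D_comp]
    simp only [Real.deriv_exp, R.mul_apply, R.comp_apply]
  have e2 : ∀ v, (dc h).d i v = ∑ a, (fr h).Q i a * E a v := (fr h).d_apply i
  simp only [e2, e, Fin.sum_univ_three]
  ring

lemma wt_gw (h : Imm f) {sE rm : ℝ} (r0 : 0 ≤ rm) (hr : ∀ x, ∑ k, f k x ^ 2 ≤ rm ^ 2)
    (hE : Real.exp (rm ^ 2 / 8) ≤ sE) : Wt (dc h) (wi h) (gw f (1 / 8)) (gw f (-1 / 8)) sE rm where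
  inv := R.ext fun x => by
    rw [R.mul_apply, gw_apply, gw_apply, ← Real.exp_add, ← add_mul]; norm_num
  dφ i := by
    rw [gw_d, Derivation.map_smul, show (dc h).d i (∑ k, f k ^ 2) = _ from (dc h).d_ff i]
    refine R.ext fun x => ?_
    have e2 : (2 : R) x = 2 := map_ofNat (ev x) 2
    simp only [R.mul_apply, R.smul_apply, hf, R.algebraMap_apply, e2]
    ring
  p0 x := by rw [wi_ev, gw_apply]; exact (Real.exp_pos _).le
  p1 x := by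
    rw [wi_ev, gw_apply, Real.exp_le_one_iff]
    have : 0 ≤ ∑ k, f k x ^ 2 := sum_nonneg fun _ _ => sq_nonneg _
    linarith
  hφ x := by
    rw [wi_ev, gw_apply, abs_of_pos (Real.exp_pos _)]
    exact (Real.exp_le_exp.2 (by linarith [hr x])).trans hE
  hr x := nr_le_of_sq r0 (hr x)

theorem supG (h : Imm f) {s C : ℝ} (hs : 0 < s) (hC0 : 0 ≤ C)
    (hC : ∀ N, ∑ k ∈ Finset.range (N + 1), ((k : ℝ) + 1) ^ 2 / (s + k * (k + 2)) ^ 2 ≤ C ^ 2) :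
    SupG (dc h) (wi h) (fun x => (√(rho h x))⁻¹ * 1)
      (fun x => (√(rho h x))⁻¹ * (wi h).vn (fr h).lt x)
      (fun x => (√(rho h x))⁻¹ * (wi h).vn (uc ((fr h).T * (fr h).Tᵀ)) x) C s := by
  intro w t₀ t₁ t₂ d0 d1 d2 x
  have hd := ((d0.abs.cmul hs.le).add d1).add d2
  have key := I_le_of_dom h (z := s • w - Lap w) hd fun y => by
    have hρ := Real.sqrt_pos.2 (rho_pos h y)
    have e : Lap w = _ := (Lap_apply w).trans ((fr h).lapE w)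
    have c1 : |(∑ k, (fr h).lt k * (dc h).gr w k) y| ≤
        (wi h).vn (fr h).lt y * (wi h).vn ((dc h).gr w) y := by
      simp only [R.sum_apply, R.mul_apply]
      exact abs_dot_le _ _
    have c2 : |(fp ((fr h).T * (fr h).Tᵀ) ((dc h).hs w)) y| ≤
        (wi h).vn (uc ((fr h).T * (fr h).Tᵀ)) y * (wi h).vn (uc ((dc h).hs w)) y := by
      simp only [fp, R.sum_apply, R.mul_apply]
      exact abs_dot_le _ _
    rw [e, R.sub_apply, R.add_apply, R.smul_apply]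
    refine (abs_sub _ _).trans ((add_le_add le_rfl ((abs_add_le _ _).trans
      (add_le_add c1 c2))).trans (le_of_eq ?_))
    simp only [IS.v0, wi_ev, abs_mul, abs_of_pos hs, abs_inv, abs_of_pos hρ, abs_one]
    field_simp
    ring
  have h3 := (sup_s hs hC w x).trans (mul_le_mul_of_nonneg_left key (sq_nonneg C))
  rw [← mul_pow] at h3
  exact abs_le.2 (abs_le_of_sq_le_sq' h3 (mul_nonneg hC0 hd.1))

/-- The Gaussian factor. -/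
noncomputable def ee (f : I4 → R) (x : S3) : ℝ := Real.exp (-1 / 4 * ∑ k, f k x ^ 2)

lemma rho_ee (h : Imm f) (x : S3) : rho h x = √(gram f x) * ee f x := rho_apply h x

lemma ψ_sq (x : S3) : gw f (-1 / 8) x ^ 2 = ee f x := by
  rw [gw_apply, sq, ← Real.exp_add, ee]; congr 1; ring

lemma φ_sq (x : S3) : gw f (1 / 8) x ^ 2 = (ee f x)⁻¹ := by
  rw [gw_apply, sq, ← Real.exp_add, ee, ← Real.exp_neg]; congr 1; ring

lemma th_s (h : Imm f) {q a b : ℝ} (x : S3) (hq : q ^ 2 ≤ √(gram f x) * (a + b * ee f x)) :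
    ((√(rho h x))⁻¹ * q) ^ 2 ≤ a * gw f (1 / 8) x ^ 2 + b := by
  have J0 := Real.sqrt_pos.2 (h x)
  have e0 : 0 < ee f x := Real.exp_pos _
  rw [mul_pow, inv_pow, Real.sq_sqrt (rho_pos h x).le, φ_sq, rho_ee]
  refine (mul_le_mul_of_nonneg_left hq (by positivity)).trans (le_of_eq ?_)
  field_simp

lemma th_t (h : Imm f) {q a : ℝ} (ha : 0 ≤ a) (x : S3) (hq : q ^ 2 ≤ a ^ 2 * √(gram f x)) :
    |(√(rho h x))⁻¹ * q * gw f (-1 / 8) x| ≤ a := by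
  have J0 := Real.sqrt_pos.2 (h x)
  have e0 : 0 < ee f x := Real.exp_pos _
  refine abs_le.2 (abs_le_of_sq_le_sq' ?_ ha)
  rw [mul_pow, mul_pow, inv_pow, Real.sq_sqrt (rho_pos h x).le, ψ_sq, rho_ee]
  refine (mul_le_mul_of_nonneg_right (mul_le_mul_of_nonneg_left hq (by positivity)) e0.le).trans
    (le_of_eq ?_)
  field_simp

/-- Further closing inequalities. -/
structure Cs2.Close2 (c : Cs2) : Prop where
  hE : Real.exp (c.rm ^ 2 / 8) ≤ c.sE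
  s0 : 0 < (c.s : ℝ) ∧ 0 < (c.s' : ℝ) ∧ 0 < (c.s'' : ℝ)
  hC : ∀ N, ∑ k ∈ Finset.range (N + 1), ((k : ℝ) + 1) ^ 2 / ((c.s : ℝ) + k * (k + 2)) ^ 2 ≤ (c.C : ℝ) ^ 2
  hC' : ∀ N, ∑ k ∈ Finset.range (N + 1), ((k : ℝ) + 1) ^ 2 / ((c.s' : ℝ) + k * (k + 2)) ^ 2 ≤ (c.C' : ℝ) ^ 2
  hC'' : ∀ N, ∑ k ∈ Finset.range (N + 1), ((k : ℝ) + 1) ^ 2 / ((c.s'' : ℝ) + k * (k + 2)) ^ 2 ≤ (c.C'' : ℝ) ^ 2
  r0 : ((c.z₁ : ℝ) * c.sE ^ 2 + c.z₂) * c.ε₀ ^ 2 ≤ (1 / 10 ^ 6) ^ 2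
  r1 : (c.ζ : ℝ) ^ 2 * c.εv ^ 2 ≤ c.e₁ ^ 2
  r2 : 1 / 10 ^ 6 * (c.α : ℝ) ≤ 1 / 2
  r3 : 1 / 10 ^ 6 * (c.rm : ℝ) * c.sE ^ 2 ≤ 4
  c0 : (c.m₀ : ℝ) ≤ 1 / 2000
  c1 : (c.m : ℝ) + c.m₀ * c.α ≤ 1 / 100

/-- **Analysis layer, sharper version.** -/
theorem not_uniq2 (h : Imm f) (he : Eqv f {g | Gap.SP g}) (c : Cs2) (cl : c.Close)
    (cl2 : c.Close2)
    (hA : ∀ x, (wi h).vn (uc (dc h).A) x ≤ c.α)
    (hA' : ∀ x, (wi h).vn (uc3 (dc h).A') x ≤ c.a₁)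
    (hA'' : ∀ x, (wi h).vn ((dc h).dT (uc3 (dc h).A')) x ≤ c.a₂)
    (r0 : ∀ x, rho h x * (dc h).R x ^ 2 ≤ c.ε₀ ^ 2)
    (r1 : ∀ x, rho h x * (wi h).vn ((dc h).gr (dc h).R) x ^ 2 ≤ c.ε₁ ^ 2)
    (rv' : ∀ x, rho h x * (wi h).vn ((dc h).gr (dc h).R) x ^ 2 ≤ c.εv ^ 2 * ee f x)
    (r2 : ∀ x, (wi h).vn ((dc h).dT ((dc h).gr (dc h).R)) x ≤ c.e₂)
    (rm : ∀ x, ∑ k, f k x ^ 2 ≤ c.rm ^ 2)
    (hx : ∀ x, (wi h).vn (uc (dc h).A) x ^ 2 ≤ c.x₁ + c.x₂ * ee f x)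
    (hy : ∀ x, (wi h).vn (uc3 (dc h).A') x ^ 2 ≤ c.y₁ + c.y₂ * ee f x)
    (v1 : ∀ x, ((wi h).vn (uc (dc h).A) x ^ 2 + 1 / 2) ^ 2 ≤ c.v₁ ^ 2 * ee f x)
    (v2 : ∀ x, (wi h).vn (uc (dc h).A) x ^ 2 + 5 / 4 - (dc h).lam x ^ 2 / 8 ≤ (c.v₂ - 1) * ee f x)
    (s0 : ∀ x, 1 ≤ √(gram f x) * (c.z₁ + c.z₂ * ee f x))
    (s1 : ∀ x, ∑ k, Lap (f k) x ^ 2 - (∑ k, (dc h).ν k x * Lap (f k) x) ^ 2 ≤
      √(gram f x) * (c.d₁ + c.d₂ * ee f x))
    (s2 : ∀ x, ∑ a, ∑ b, (∑ k, E a (f k) x * E b (f k) x) ^ 2 ≤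
      √(gram f x) * (c.c₁ + c.c₂ * ee f x))
    (t0 : ∀ x, 1 ≤ c.ζ ^ 2 * √(gram f x))
    (t1 : ∀ x, ∑ k, Lap (f k) x ^ 2 - (∑ k, (dc h).ν k x * Lap (f k) x) ^ 2 ≤
      c.δ ^ 2 * √(gram f x))
    (t2 : ∀ x, ∑ a, ∑ b, (∑ k, E a (f k) x * E b (f k) x) ^ 2 ≤ c.γ ^ 2 * √(gram f x))
    (gap : ∀ w ∈ invSub {g | Gap.SP g},
      I (rho h * w ^ 2) ≤ c.K₀ ^ 2 * I (rho h * (dc h).L w ^ 2))
    (chk : ∀ x : S3, Emb.Ch x → ∃ N : Fin 4 → ℝ, Emb.Chk (fun j => f j x) N ∧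
      ∀ i, ∑ j, E i (f j) x * N j = 0)
    (hr : ∃ x y, nr (fun k => f k x) + 1 / 1000 < nr fun k => f k y) : ¬ Geo.Uniq := by
  have W := wt_gw h c.rm.coe_nonneg rm cl2.hE
  have rv : ∀ x, √(gram f x) * (wi h).vn ((dc h).gr (dc h).R) x ^ 2 ≤ c.εv ^ 2 := fun x =>
    le_of_mul_le_mul_right ((mul_right_comm _ _ _).trans_le (rho_ee h x ▸ rv' x)) (Real.exp_pos _)
  have q1 : ∀ x, (wi h).vn (fr h).lt x ^ 2 =
      ∑ k, Lap (f k) x ^ 2 - (∑ k, (dc h).ν k x * Lap (f k) x) ^ 2 := fun x => by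
    rw [IS.vn_sq, FR.lt_sq]; simp [Lap_apply, fr, dc, FR.toDC]
  have q2 : ∀ x, (wi h).vn (uc ((fr h).T * (fr h).Tᵀ)) x ^ 2 =
      ∑ a, ∑ b, (∑ k, E a (f k) x * E b (f k) x) ^ 2 := fun x => by
    rw [IS.vn_sq, FR.TT_sq]; simp [fr, FR.T]
  have a0 := fun x => th_s h (q := 1) x (by simpa using s0 x)
  have φ2 : ∀ x, gw f (1 / 8) x ^ 2 ≤ c.sE ^ 2 := fun x => by
    rw [← sq_abs]; exact pow_le_pow_left₀ (abs_nonneg _) (W.hφ x) 2
  have lo : ∀ x {a b t : ℝ}, rho h x * a ^ 2 ≤ b ^ 2 → 0 ≤ t →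
      ((c.z₁ : ℝ) * c.sE ^ 2 + c.z₂) * b ^ 2 ≤ t ^ 2 → |a| ≤ t := fun x a b t h1 h2 h3 => by
    have h4 := (a0 x).trans (add_le_add (mul_le_mul_of_nonneg_left (φ2 x) c.z₁.coe_nonneg) le_rfl)
    rw [mul_one, inv_pow, Real.sq_sqrt (rho_pos h x).le] at h4
    refine abs_le.2 (abs_le_of_sq_le_sq' (le_trans ?_ h3) h2)
    rw [← le_inv_mul_iff₀ (rho_pos h x)] at h1
    exact h1.trans (mul_le_mul_of_nonneg_right h4 (sq_nonneg _))
  have hR : ∀ x, |(dc h).R x| ≤ 1 / 10 ^ 6 := fun x => lo x (r0 x) (by positivity) cl2.r0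
  have hV : ∀ x, (dc h).V x = (wi h).vn (uc (dc h).A) x ^ 2 + 1 / 2 := fun x => by
    rw [← AA_ev, DC.V, R.add_apply]; exact congrArg _ (ev_hf (ev x))
  have pb : PB (dc h) (wi h) c.α c.a₁ c.a₂ c.e₁ c.e₂ := ⟨hA, hA', hA'',
    fun x => (mul_le_mul_of_nonneg_right (hR x) c.α.coe_nonneg).trans cl2.r2,
    fun x => (abs_le_of_sq_le_sq' (by
      nlinarith [mul_le_mul_of_nonneg_right (t0 x) (sq_nonneg ((wi h).vn ((dc h).gr (dc h).R) x)),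
        mul_le_mul_of_nonneg_left (rv x) (sq_nonneg (c.ζ : ℝ)), cl2.r1]) c.e₁.coe_nonneg).2, r2⟩
  have H : Hyp2 (dc h) (wi h) (invSub {g | Gap.SP g} : Set R) c _ _ _ _ _ :=
    ⟨dc_ibp h, pb, cl, W, fun x => ?_, fun x => ?_, fun x => (hx x).trans_eq (by rw [← ψ_sq]; rfl),
      fun x => (hy x).trans_eq (by rw [← ψ_sq]; rfl), a0, fun x => th_s h x ((q1 x).trans_le (s1 x)),
      fun x => th_s h x ((q2 x).trans_le (s2 x)),
      fun x => th_t h c.ζ.coe_nonneg x (by simpa using t0 x),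
      fun x => th_t h c.δ.coe_nonneg x ((q1 x).trans_le (t1 x)),
      fun x => th_t h c.γ.coe_nonneg x ((q2 x).trans_le (t2 x)),
      dom_of_pt h (s := (dc h).R ^ 2) c.ε₀.coe_nonneg (fun x => by simp [IS.v0])
        fun x => by simpa using r0 x,
      dom_of_pt h (s := ∑ i, (dc h).gr (dc h).R i ^ 2) c.ε₁.coe_nonneg
        (fun x => ((wi h).vn_sq _ x).le)
        fun x => ((congrArg _ ((wi h).vn_sq _ x).symm).trans_le (r1 x)),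
      IS.Dom.to_wt W.inv (dom_of_pt h (s := gw f (1 / 8) ^ 2 * ∑ i, (dc h).gr (dc h).R i ^ 2)
        c.εv.coe_nonneg (fun x => by rw [mul_pow, (wi h).vn_sq]; rfl) fun x => by
          refine le_of_eq_of_le ?_ (rv x)
          rw [R.mul_apply, R.pow_apply, φ_sq, rho_ee, (wi h).vn_sq, ← mul_assoc,
            mul_inv_cancel_right₀ (show 0 < ee f x from Real.exp_pos _).ne']
          rfl),
      supG h cl2.s0.1 c.C.coe_nonneg cl2.hC, supG h cl2.s0.2.1 c.C'.coe_nonneg cl2.hC',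
      supG h cl2.s0.2.2 c.C''.coe_nonneg cl2.hC'', gap, fun z hz => solve_L h he gap hz,
      fun a ha => let ⟨b, hb⟩ := exists_inv a ha; IsUnit.of_mul_eq_one b hb,
      (invSub _).zero_mem, fun a ha b hb => (invSub _).sub_mem ha hb,
      fun u hu ω C ha => Q_inv h he hu ha⟩
  · obtain ⟨u, ω, C, hP⟩ := H.picard
    have l0 := fun n => H.lin0 (hP n).1.1 (hP n).1.2.1
    have l1 := fun n => H.lin1 (hP n).1
    have κ0 : 0 ≤ c.κ := by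
      obtain ⟨p1, p2, p3, p4, p5, p6⟩ := cl.pos
      unfold Cs2.κ Cs2.κ₀; positivity
    have run : Run h c.α c.a₁ c.a₂ c.e₁ c.e₂ c.g' c.m₀ c.m u ω C :=
      ⟨pb, by positivity, c.m.coe_nonneg, cl.g1', cl.hg', cl.hβ, fun n => (hP n).2.1,
        fun n => (hP n).2.2.1, fun n => (l1 n).s0, fun n => (l1 n).sup, ⟨_, fun n => (l0 n).n0⟩,
        ⟨_, fun n => (l0 n).n1⟩, ⟨_, fun n => (l0 n).nr⟩, ⟨_, fun n => (l1 n).n3⟩,
        ⟨c.K₀ * c.ρ₀, c.κ, κ0, cl.contr, fun n => (H.lin0 (H.invs _ (hP (n + 1)).1.1 _ (hP n).1.1)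
          (hP n).2.2.2).n0.le (mul_assoc _ _ _).ge⟩⟩
    obtain ⟨w, ω', C', hu, ha, h0, b0, b1⟩ := run.sol fun n => (hP n).1.1
    exact not_uniq_of_sol h he hu ha h0 hA b0 b1 cl2.c0 cl2.c1 chk hr
  · refine abs_le.2 (abs_le_of_sq_le_sq' ?_ c.v₁.coe_nonneg)
    rw [mul_pow, wi_ev, wi_ev, φ_sq, hV, inv_mul_le_iff₀ (show 0 < ee f x from Real.exp_pos _), mul_comm]
    exact v1 x
  · have e : (dc h).Wv x = (wi h).vn (uc (dc h).A) x ^ 2 + 5 / 4 - (dc h).lam x ^ 2 / 8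
        - (dc h).R x * (dc h).lam x / 4 := by
      have e1 : ev x (dc h).Wv = ev x (dc h).V + 1 / 2 * (1 / 2) *
          (3 - ev x (dc h).H * ev x (dc h).lam) := by
        simp only [DC.Wv, map_add, map_mul, map_sub, ev_hf, map_ofNat]
      have e2 : ev x (dc h).R = ev x (dc h).H - 1 / 2 * ev x (dc h).lam := by
        simp only [DC.R, map_mul, map_sub, ev_hf]
      simp only [ev_apply] at e1 e2
      rw [e1, e2, hV]; ring
    have b1 : |(dc h).lam x| ≤ c.rm := by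
      have := abs_dot_le (fun i => f i x) fun i => (dc h).ν i x
      have h1 : nr (fun i => (dc h).ν i x) = 1 := vn_ν (dc h) (wi h) x
      rw [h1, mul_one] at this
      simp only [DC.lam, R.sum_apply, R.mul_apply]
      exact this.trans (W.hr x)
    have b2 := mul_le_mul (hR x) b1 (abs_nonneg _) (by positivity)
    have b3 := neg_le_abs ((dc h).R x * (dc h).lam x)
    have b4 := φ2 x
    have e0 : 0 < ee f x := Real.exp_pos _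
    rw [φ_sq, inv_le_iff_one_le_mul₀ e0] at b4
    rw [abs_mul] at b3
    rw [wi_ev, wi_ev, ψ_sq, e]
    nlinarith [v2 x, mul_le_mul_of_nonneg_right cl2.r3 e0.le,
      mul_le_mul_of_nonneg_left b4 (show 0 ≤ 1 / 10 ^ 6 * (c.rm : ℝ) by positivity)]

end Pool.Agent.MP48470b.An
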