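import Pool.Agent.MP_48470b_gt.An.Frame
import Pool.Agent.MP_48470b_gt.An.Eqn

/-! The equation of the graph in the frame. -/

namespace Pool.Agent.MP48470b.An

open Finset Matrix

lemma out_mul {K : Type*} [CommRing K] {m : Type*} (a b : I4 → K) (M : Matrix I4 m K) :
    vecMulVec a b * M = vecMulVec a (b ᵥ* M) := by
  ext i j
  simp only [Matrix.mul_apply, vecMul, dotProduct, vecMulVec_apply, mul_sum]
  exact sum_congr rfl fun j _ => by ring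

namespace DC

variable {K : Type*} [CommRing K] [Algebra ℝ K] {D : DC K} {u ω : K} {C : Matrix I4 I4 K}

lemma ν_ν (D : DC K) : D.ν ⬝ᵥ D.ν = 1 := D.nn

lemma dM_FF' (D : DC K) (u : K) :
    D.dM (D.FF u) = 1 + u • D.A - vecMulVec D.ν D.ν + vecMulVec (D.gr u) D.ν := by
  rw [← transpose_transpose (D.dM (D.FF u)), dM_FF, transpose_add, transpose_sub, N_symm,
    transpose_vecMulVec, transpose_vecMulVec]

lemma ν_N (D : DC K) (u : K) : D.ν ᵥ* (1 + u • D.A) = D.ν := by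
  rw [← N_symm, vecMul_transpose, N_ν]

lemma MM (D : DC K) (u : K) : D.dM (D.FF u) * (D.dM (D.FF u))ᵀ =
    (1 + u • D.A) * (1 + u • D.A) + vecMulVec (D.gr u) (D.gr u) - vecMulVec D.ν D.ν := by
  rw [dM_FF, dM_FF']
  simp only [add_mul (1 + u • D.A - vecMulVec D.ν D.ν), sub_mul, mul_add _ (_ - _), mul_sub,
    mul_out, out_mul _ _ (1 + u • D.A), N_ν, ν_N, out_mulVec, ν_ν, one_smul]
  abel

lemma Aux.GΓ (h : D.Aux u ω C) : ((1 + u • D.A) * (1 + u • D.A) + vecMulVec (D.gr u) (D.gr u))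
    * (1 + bb C (D.gr u) ω) = 1 := by
  rw [add_mul, out_mul, ← h.Γ_symm, vecMul_transpose, h.Γ_p, h.Γ_symm, bb_eq, mul_sub,
    Matrix.mul_smul, mul_out, ← mulVec_mulVec, h.N_qq, h.N_qq, mul_assoc,
    ← mul_assoc (1 + u • D.A) (1 + C), h.NP, one_mul, h.NP, vecMulVec_smul, sub_add_cancel]

lemma Aux.M_n1 (h : D.Aux u ω C) : D.dM (D.FF u) *ᵥ D.n1 u C = 0 := by
  have e0 : D.ν ⬝ᵥ qq C (D.gr u) = 0 := (h.ν_qq _).trans (D.ν_gr u)
  rw [dM_FF', n1, add_mulVec, sub_mulVec, mulVec_sub, N_ν, h.N_qq, out_mulVec, out_mulVec,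
    dotProduct_sub, e0, ν_ν, sub_zero, one_smul, one_smul]
  abel

lemma Aux.ν_n1 (h : D.Aux u ω C) : D.ν ⬝ᵥ D.n1 u C = 1 := by
  rw [n1, dotProduct_sub, h.ν_qq, D.ν_gr, ν_ν, sub_zero]

lemma ν_dM (D : DC K) (v : I4 → K) : D.ν ᵥ* D.dM v = 0 := by
  ext j; exact D.nd (v j)

end DC

namespace FR

variable {K : Type*} [CommRing K] [Algebra ℝ K] {F : FR K} {u ω : K} {C : Matrix I4 I4 K}

lemma E_eq (F : FR K) (v : I4 → K) :
    (Matrix.of fun a k => F.E a (v k)) = F.Tᵀ * F.toDC.dM v := by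
  ext a k; exact F.hE a (v k)

lemma QTt (F : FR K) : F.Q * F.Tᵀ = 1 - vecMulVec F.toDC.ν F.toDC.ν := by
  ext i j; exact F.proj i j

lemma TQt (F : FR K) : F.T * F.Qᵀ = 1 - vecMulVec F.toDC.ν F.toDC.ν := by
  rw [← transpose_transpose (F.T * F.Qᵀ), transpose_mul, transpose_transpose, QTt, transpose_sub,
    transpose_one, transpose_vecMulVec]

lemma ν_T (F : FR K) : F.toDC.ν ᵥ* F.T = 0 := by ext a; exact F.νT a

lemma ν_Q (F : FR K) : F.toDC.ν ᵥ* F.Q = 0 := by ext a; exact F.νQ a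

lemma g1_inv (h : F.toDC.Aux u ω C) :
    (Matrix.of fun a b => ∑ k, F.E a (F.toDC.FF u k) * F.E b (F.toDC.FF u k)) *
      (F.Qᵀ * (1 + bb C (F.toDC.gr u) ω) * F.Q) = 1 := by
  have e : (Matrix.of fun a b => ∑ k, F.E a (F.toDC.FF u k) * F.E b (F.toDC.FF u k)) =
      (F.Tᵀ * F.toDC.dM (F.toDC.FF u)) * (F.Tᵀ * F.toDC.dM (F.toDC.FF u))ᵀ := by
    rw [← E_eq]; rfl
  have e1 : vecMulVec F.toDC.ν F.toDC.ν * ((1 + bb C (F.toDC.gr u) ω) * F.Q) = 0 := by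
    rw [out_mul, ← vecMul_vecMul, ← h.Γ_symm, vecMul_transpose, h.Γ_ν, ν_Q]
    ext i j; simp [vecMulVec_apply]
  rw [e, transpose_mul, transpose_transpose, Matrix.mul_assoc, Matrix.mul_assoc, Matrix.mul_assoc,
    Matrix.mul_assoc, ← Matrix.mul_assoc F.T, TQt, Matrix.sub_mul,
    Matrix.one_mul, e1, sub_zero, ← Matrix.mul_assoc (F.toDC.dM _), DC.MM, Matrix.sub_mul, e1,
    sub_zero, ← Matrix.mul_assoc _ (1 + bb _ _ _), h.GΓ, Matrix.one_mul, F.TQ]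

lemma E_n1 (h : F.toDC.Aux u ω C) (a : I3) :
    ∑ k, F.E a (F.toDC.FF u k) * F.toDC.n1 u C k = 0 := by
  have e : (Matrix.of fun a k => F.E a (F.toDC.FF u k)) *ᵥ F.toDC.n1 u C = 0 := by
    rw [E_eq, ← mulVec_mulVec, h.M_n1, mulVec_zero]
  exact congrFun e a

lemma frame_eq (h : F.toDC.Aux u ω C) :
    ∑ a, ∑ b, (F.Qᵀ * (1 + bb C (F.toDC.gr u) ω) * F.Q : Matrix I3 I3 K) a b *
      ∑ k, F.E a (F.E b (F.toDC.FF u k)) * F.toDC.n1 u C k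
      + hf K * ∑ k, F.toDC.FF u k * F.toDC.n1 u C k = -F.toDC.Eg u ω C := by
  have e1 : ∀ a b, ∑ k, F.E a (F.E b (F.toDC.FF u k)) * F.toDC.n1 u C k =
      -(F.Tᵀ * (F.toDC.dM (F.toDC.n1 u C) * (F.toDC.dM (F.toDC.FF u))ᵀ) * F.T) a b := fun a b => by
    have h1 := congrArg (F.E a) (E_n1 h b)
    have h2 : F.Tᵀ * (F.toDC.dM (F.toDC.n1 u C) * (F.toDC.dM (F.toDC.FF u))ᵀ) * F.T =
        (F.Tᵀ * F.toDC.dM (F.toDC.n1 u C)) * (F.Tᵀ * F.toDC.dM (F.toDC.FF u))ᵀ := by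
      simp only [transpose_mul, transpose_transpose, Matrix.mul_assoc]
    rw [h2, ← E_eq, ← E_eq]
    simp only [map_add, F.Emul, map_zero, Matrix.mul_apply, transpose_apply, Matrix.of_apply,
      Fin.sum_univ_four] at h1 ⊢
    linear_combination h1
  obtain ⟨W, hW⟩ : ∃ W, W = F.toDC.dM (F.toDC.n1 u C) * (F.toDC.dM (F.toDC.FF u))ᵀ := ⟨_, rfl⟩
  obtain ⟨Γ, hΓ⟩ : ∃ Γ, Γ = 1 + bb C (F.toDC.gr u) ω := ⟨_, rfl⟩
  have w0 : F.toDC.ν ᵥ* W = 0 := by rw [hW, ← vecMul_vecMul, DC.ν_dM, zero_vecMul]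
  have g0 : Γ *ᵥ F.toDC.ν = F.toDC.ν := by rw [hΓ, h.Γ_ν]
  have g1 : Γᵀ = Γ := by rw [hΓ, h.Γ_symm]
  have e2 : ∑ a, ∑ b, (F.Qᵀ * Γ * F.Q) a b * (F.Tᵀ * W * F.T) a b = fp Γ W := by
    have e3 : ∑ a, ∑ b, (F.Qᵀ * Γ * F.Q) a b * (F.Tᵀ * W * F.T) a b =
        trace ((F.Qᵀ * Γ * F.Q)ᵀ * (F.Tᵀ * W * F.T)) := by
      rw [sum_comm]; rfl
    have e4 : (F.Qᵀ * Γ * F.Q)ᵀ * (F.Tᵀ * W * F.T) = F.Qᵀ * (Γ * (F.Q * F.Tᵀ * W) * F.T) := by
      simp only [transpose_mul, transpose_transpose, g1, Matrix.mul_assoc]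
    rw [e3, e4, QTt, Matrix.sub_mul, out_mul, w0, vecMulVec_zero, sub_zero, one_mul,
      trace_mul_comm, Matrix.mul_assoc, TQt, mul_sub, mul_one, trace_sub, trace_mul_comm _
      (vecMulVec _ _), out_mul, ← vecMul_vecMul, ← g1, vecMul_transpose, g0, w0, vecMulVec_zero,
      trace_zero, sub_zero, fp_comm, fp_trace, transpose_transpose, g1, trace_mul_comm]
  simp only [e1, DC.Eg, ← hW, ← hΓ, mul_neg, sum_neg_distrib, e2]
  rw [neg_sub, sub_eq_neg_add]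
  rfl

end FR

end Pool.Agent.MP48470b.An
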