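import Pool.Agent.MP_48470b_gt.An.Main
import Pool.Agent.MP_48470b_gt.An.Frq
import Pool.Agent.MP_48470b_gt.Geo.Main
import Pool.Agent.MP_48470b_gt.Emb.Fin
import Pool.Agent.MP_48470b_gt.Gap.G1a

/-! From the certified inputs to a non-round embedded critical sphere. -/

namespace Pool.Agent.MP48470b.An

open Finset Matrix Pool.Agent.MP_48470b_gt Pool.Agent.MP_48470b_gt.Sph

variable {f : I4 → R}

lemma norm_toLp (v : I4 → ℝ) : ‖(WithLp.toLp 2 v : E4)‖ = nr v := by
  simp [EuclideanSpace.norm_eq, nr]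

theorem not_uniq_of_sol (h : Imm f) (he : Eqv f {g | Gap.SP g}) {u ω : R} {C : Matrix I4 I4 R}
    {α m₀ m₁ : ℝ} (hu : u ∈ invSub {g | Gap.SP g}) (ha : (dc h).Aux u ω C)
    (h0 : (dc h).Eg u ω C = 0) (hA : ∀ x, (wi h).vn (uc (dc h).A) x ≤ α) (b0 : ∀ x, |u x| ≤ m₀)
    (b1 : ∀ x, (wi h).vn ((dc h).gr u) x ≤ m₁) (c0 : m₀ ≤ 1 / 2000) (c1 : m₁ + m₀ * α ≤ 1 / 100)
    (chk : ∀ x : S3, Emb.Ch x → ∃ N : Fin 4 → ℝ, Emb.Chk (fun j => f j x) N ∧
      ∀ i, ∑ j, E i (f j) x * N j = 0)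
    (hr : ∃ x y, nr (fun k => f k x) + 1 / 1000 < nr fun k => f k y) : ¬ Geo.Uniq := by
  have hν := vn_ν (dc h) (wi h)
  have n1 : ∀ x, nr (fun j => (u * (dc h).ν j) x) ≤ 1 / 2000 := fun x => by
    simp only [R.mul_apply]
    rw [nr_smul]
    exact (mul_le_mul (b0 x) (hν x).le (nr_nonneg _) ((abs_nonneg _).trans (b0 x))).trans
      (by linarith)
  have inj := Emb.emb_pert f (fun i => u * (dc h).ν i) (fun σ ε hε x y hxy i => by
      obtain ⟨g, hg, hg'⟩ := Gap.ex_SP σ ε hε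
      have e : y = sph g x := Subtype.ext (PiLp.ext fun i => (hxy i).trans (hg' x i).symm)
      have e1 := he g hg x i
      have e2 := ν_eqv h he g hg x i
      have e3 : u (sph g x) = u x := by rw [← act_apply, hu g hg]
      rw [hg', vec_apply] at e1 e2
      simp only [e, R.add_apply, R.mul_apply, e1, e2, e3]
      ring)
    fun x hx => ⟨chk x hx, fun c hc => ?_, (norm_toLp _).trans_le (n1 x), fun c => ?_⟩
  · refine Geo.not_uniq_R ((dc h).FF u) (fun x y hxy => inj (PiLp.ext hxy)) (fun x => ?_) ?_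
    · refine ⟨((fr h).Qᵀ * (1 + bb C ((dc h).gr u) ω) * (fr h).Q).map (ev x),
        fun k => (dc h).n1 u C k x, ?_, fun hn => ?_, fun a => ?_, ?_⟩
      · have := congrArg (ev x).mapMatrix (FR.g1_inv (F := fr h) ha)
        rw [map_mul, map_one] at this
        rw [← this]
        congr 1
      · have := congrArg (ev x) ha.ν_n1
        simp only [dotProduct, map_sum, map_mul, ev_apply, map_one] at this
        have h2 : ∀ k, (dc h).n1 u C k x = 0 := congrFun hn
        simp [h2] at this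
      · have := congrArg (ev x) (FR.E_n1 (F := fr h) ha a)
        simp only [map_sum, map_mul, map_zero] at this
        exact this
      · have h1 : (fr h).toDC.Eg u ω C = 0 := h0
        have := congrArg (ev x) (FR.frame_eq (F := fr h) ha)
        rw [h1] at this
        simp only [map_sum, map_mul, map_add, neg_zero, map_zero, ev_hf] at this
        rw [← this, div_eq_inv_mul, one_div]
        rfl
    · obtain ⟨x, y, hxy⟩ := hr
      refine ⟨x, y, fun e => ?_⟩
      have e1 : nr (fun k => (dc h).FF u k x) = nr (fun k => (dc h).FF u k y) := congrArg Real.sqrt e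
      have e2 : nr (fun k => (dc h).FF u k x) ≤ nr (fun k => f k x) + 1 / 2000 :=
        (nr_add_le (fun k => f k x) _).trans (add_le_add le_rfl (n1 x))
      have e3 := (nr_sub_le (fun k => (dc h).FF u k y) (fun j => (u * (dc h).ν j) y)).trans
        (add_le_add le_rfl (n1 y))
      have e4 : (fun k => (dc h).FF u k y - (u * (dc h).ν k) y) = fun k => f k y := by
        ext k; simp [DC.FF, dc_f]
      rw [e4] at e3
      linarith
  · ext b
    have h1 : ∀ a, ∑ k, E a (f k) x * (fr h).Q k b x = (1 : Matrix I3 I3 ℝ) a b := fun a => by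
      have := congrArg (fun w : R => w x) ((fr h).TQ' a b)
      simp only [R.sum_apply, R.mul_apply, Matrix.one_apply] at this ⊢
      refine Eq.trans this ?_
      split_ifs <;> rfl
    have h2 : ∑ a, c a * (1 : Matrix I3 I3 ℝ) a b = c b := by simp [Matrix.one_apply]
    have h3 : ∀ k, ∑ i, c i * E i (f k) x = 0 := fun k => congrArg (fun v : E4 => v k) hc
    rw [← h2]
    simp only [← h1, Pi.zero_apply, Fin.sum_univ_three, Fin.sum_univ_four] at h3 ⊢
    linear_combination (fr h).Q 0 b x * h3 0 + (fr h).Q 1 b x * h3 1 + (fr h).Q 2 b x * h3 2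
      + (fr h).Q 3 b x * h3 3
  · unfold Emb.dr
    rw [norm_toLp, norm_toLp]
    obtain ⟨τ, hτ⟩ : ∃ τ, τ = fun j => ∑ i, c i * E i (f j) x := ⟨_, rfl⟩
    have e : ∀ j, ∑ i, c i * E i (u * (dc h).ν j) x = (∑ k, τ k * (dc h).gr u k x) * (dc h).ν j x
        + u x * ∑ k, τ k * uc (dc h).A (k, j) x := fun j => by
      simp only [dc_E h _ (u * _), hτ, DC.dmul, DC.gr, uc, DC.A_apply, Fin.sum_univ_three,
        Fin.sum_univ_four, R.add_apply, R.mul_apply]
      ring
    simp only [e]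
    rw [← hτ]
    refine (nr_add_le _ _).trans ?_
    rw [nr_smul, nr_smul]
    have t0 := nr_nonneg τ
    have t1 : |∑ k, τ k * (dc h).gr u k x| ≤ nr τ * m₁ :=
      (abs_dot_le _ _).trans (mul_le_mul_of_nonneg_left (b1 x) t0)
    have t2 : nr (fun j => ∑ k, τ k * uc (dc h).A (k, j) x) ≤ nr τ * α :=
      (nr_vm τ fun p => uc (dc h).A p x).trans (mul_le_mul_of_nonneg_left (hA x) t0)
    have t3 : nr (fun j => (dc h).ν j x) = 1 := hν x
    have t4 := mul_le_mul (b0 x) t2 (nr_nonneg _) ((abs_nonneg _).trans (b0 x))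
    rw [t3]
    nlinarith

/-- **Analysis layer.** -/
theorem not_uniq (h : Imm f) (he : Eqv f {g | Gap.SP g}) (c : Cst) (cl : c.Close)
    (pb : PB (dc h) (wi h) c.α c.a₁ c.a₂ c.e₁ c.e₂)
    (res0 : (wi h).Dom ((wi h).v0 (dc h).R) c.ε₀)
    (res1 : (wi h).Dom ((wi h).vn ((dc h).gr (dc h).R)) c.ε₁)
    (sup : SupB (dc h) (wi h) c.c₀ c.c₁ c.c₂) (sup' : SupB (dc h) (wi h) c.b₀ c.b₁ c.b₂)
    (gap : ∀ w ∈ invSub {g | Gap.SP g},
      I (rho h * w ^ 2) ≤ c.K₀ ^ 2 * I (rho h * (dc h).L w ^ 2))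
    (c0 : c.m₀ ≤ 1 / 2000) (c1 : c.m₁ + c.m₀ * c.α ≤ 1 / 100)
    (chk : ∀ x : S3, Emb.Ch x → ∃ N : Fin 4 → ℝ, Emb.Chk (fun j => f j x) N ∧
      ∀ i, ∑ j, E i (f j) x * N j = 0)
    (hr : ∃ x y, nr (fun k => f k x) + 1 / 1000 < nr fun k => f k y) : ¬ Geo.Uniq := by
  obtain ⟨u, ω, C, hu, ha, h0, b0, b1⟩ := exists_sol h he c cl pb res0 res1 sup sup' gap
  exact not_uniq_of_sol h he hu ha h0 pb.hA b0 b1 c0 c1 chk hr

/-- A weighted pointwise bound gives a mean-square bound. -/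
lemma dom_of_pt (h : Imm f) {φ : S3 → ℝ} {s : R} {t : ℝ} (ht : 0 ≤ t) (hs : ∀ x, φ x ^ 2 ≤ s x)
    (hb : ∀ x, rho h x * s x ≤ t ^ 2) : (wi h).Dom φ t :=
  IS.Dom.of_le s ht hs ((I_mono (v := (t ^ 2) • 1) fun x => by simpa using hb x).trans
    (by simp))

end Pool.Agent.MP48470b.An
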