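import Pool.Agent.MP_48470b_gt.An.Lin

/-! The tangential calculus of an immersion that is given in a frame. -/

namespace Pool.Agent.MP48470b.An

open Finset Matrix

/-- Frame index. -/
abbrev I3 := Fin 3

section cross
variable {K : Type*} [CommRing K]

/-- A minor. -/
def mn (T : Matrix I4 I3 K) (p q r : I4) : K :=
  T p 0 * (T q 1 * T r 2 - T r 1 * T q 2) - T q 0 * (T p 1 * T r 2 - T r 1 * T p 2)
    + T r 0 * (T p 1 * T q 2 - T q 1 * T p 2)

/-- Cross product of the three columns. -/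
def crs (T : Matrix I4 I3 K) : I4 → K := ![mn T 1 2 3, -mn T 0 2 3, mn T 0 1 3, -mn T 0 1 2]

lemma crs_perp (T : Matrix I4 I3 K) (a : I3) : ∑ k, crs T k * T k a = 0 := by
  fin_cases a <;> simp [crs, mn, Fin.sum_univ_four] <;> ring

lemma crs_sq (T : Matrix I4 I3 K) : ∑ k, crs T k * crs T k = (Tᵀ * T).det := by
  simp [crs, mn, Fin.sum_univ_four, det_fin_three, Matrix.mul_apply]; ring

lemma crs_proj (T : Matrix I4 I3 K) (i j : I4) :
    (T * adjugate (Tᵀ * T) * Tᵀ) i j + crs T i * crs T j = (Tᵀ * T).det * (1 : Matrix I4 I4 K) i j := by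
  rw [← crs_sq, adjugate_fin_three]
  fin_cases i <;> fin_cases j <;>
    simp [crs, mn, Fin.sum_univ_four, Fin.sum_univ_three, Matrix.mul_apply] <;> ring

end cross

/-- An immersion in a frame with the bracket relations of the three-sphere. -/
structure FR (K : Type*) [CommRing K] [Algebra ℝ K] where
  E : I3 → Derivation ℝ K K
  b01 : ∀ w, E 0 (E 1 w) - E 1 (E 0 w) = 2 * E 2 w
  b12 : ∀ w, E 1 (E 2 w) - E 2 (E 1 w) = 2 * E 0 w
  b20 : ∀ w, E 2 (E 0 w) - E 0 (E 2 w) = 2 * E 1 w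
  f : I4 → K
  J : K
  Ji : K
  e : K
  hJ : J * J = ((Matrix.of fun k a => E a (f k))ᵀ * (Matrix.of fun k a => E a (f k))).det
  hJi : J * Ji = 1
  he : ∀ a, E a e = -(hf K * e * ∑ k, f k * E a (f k))

namespace FR

noncomputable section

variable {K : Type*} [CommRing K] [Algebra ℝ K] (F : FR K)

lemma Emul (a : I3) (x y : K) : F.E a (x * y) = F.E a x * y + x * F.E a y := by
  rw [Derivation.leibniz, smul_eq_mul, smul_eq_mul]; ring

/-- Tangent vectors. -/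
def T : Matrix I4 I3 K := Matrix.of fun k a => F.E a (F.f k)
/-- Metric. -/
def g : Matrix I3 I3 K := F.Tᵀ * F.T
/-- Inverse metric. -/
def gi : Matrix I3 I3 K := (F.Ji * F.Ji) • adjugate F.g
/-- Dual vectors. -/
def Q : Matrix I4 I3 K := F.T * F.gi
/-- Unit normal. -/
def ν : I4 → K := fun i => F.Ji * crs F.T i
/-- Tangential derivative. -/
def d (i : I4) : Derivation ℝ K K := ∑ a, F.Q i a • F.E a
/-- Weight. -/
def ρ : K := F.J * F.e

lemma T_apply (k : I4) (a : I3) : F.T k a = F.E a (F.f k) := rfl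

lemma d_apply (i : I4) (w : K) : F.d i w = ∑ a, F.Q i a * F.E a w := by
  simp [d, Fin.sum_univ_three]

lemma hJ' : F.Ji * F.Ji * F.g.det = 1 := by
  have h : F.J * F.J = F.g.det := F.hJ
  have h1 := F.hJi
  rw [← h]; linear_combination (F.J * F.Ji + 1) * h1

lemma g_gi : F.g * F.gi = 1 := by
  rw [gi, Matrix.mul_smul, mul_adjugate, smul_smul, F.hJ', one_smul]

lemma gi_g : F.gi * F.g = 1 := mul_eq_one_comm.1 F.g_gi

lemma g_symm : F.gᵀ = F.g := by simp [g]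

lemma gi_symm : F.giᵀ = F.gi := by rw [gi, transpose_smul, adjugate_transpose, g_symm]

lemma QT : F.Qᵀ * F.T = 1 := by
  rw [Q, transpose_mul, gi_symm, Matrix.mul_assoc]; exact F.gi_g

lemma TQ : F.Tᵀ * F.Q = 1 := by
  rw [Q, ← Matrix.mul_assoc]; exact F.g_gi

lemma QQ : F.Qᵀ * F.Q = F.gi := by
  nth_rewrite 2 [Q]; rw [← Matrix.mul_assoc, QT, one_mul]

lemma proj (i j : I4) : ∑ a, F.Q i a * F.T j a = (1 : Matrix I4 I4 K) i j - F.ν i * F.ν j := by
  have h := crs_proj F.T i j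
  have h1 : (F.Q * F.Tᵀ) i j = F.Ji * F.Ji * (F.T * adjugate (F.Tᵀ * F.T) * F.Tᵀ) i j := by
    rw [Q, gi, Matrix.mul_smul, Matrix.smul_mul]; rfl
  have h2 : F.Ji * F.Ji * (F.Tᵀ * F.T).det = 1 := F.hJ'
  have h3 : ∑ a, F.Q i a * F.T j a = (F.Q * F.Tᵀ) i j := rfl
  rw [h3, h1]
  unfold ν
  linear_combination F.Ji * F.Ji * h + (1 : Matrix I4 I4 K) i j * h2

lemma nn : ∑ i, F.ν i * F.ν i = 1 := by
  have h := crs_sq F.T
  have h2 : F.Ji * F.Ji * (F.Tᵀ * F.T).det = 1 := F.hJ'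
  simp only [ν, Fin.sum_univ_four] at h ⊢
  linear_combination F.Ji * F.Ji * h + h2

lemma νT (a : I3) : ∑ k, F.ν k * F.T k a = 0 := by
  simp only [ν, mul_assoc, ← mul_sum, crs_perp, mul_zero]

lemma νQ (a : I3) : ∑ k, F.ν k * F.Q k a = 0 := by
  have h := F.νT
  simp only [Q, Matrix.mul_apply, Fin.sum_univ_four, Fin.sum_univ_three] at h ⊢
  linear_combination F.gi 0 a * h 0 + F.gi 1 a * h 1 + F.gi 2 a * h 2

lemma nd (w : K) : ∑ i, F.ν i * F.d i w = 0 := by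
  have h := F.νQ
  simp only [d_apply, Fin.sum_univ_four, Fin.sum_univ_three] at h ⊢
  linear_combination F.E 0 w * h 0 + F.E 1 w * h 1 + F.E 2 w * h 2

lemma df (i j : I4) : F.d i (F.f j) = (1 : Matrix I4 I4 K) i j - F.ν i * F.ν j := by
  rw [d_apply]; exact F.proj i j

lemma TQ' (a b : I3) : ∑ k, F.T k a * F.Q k b = (1 : Matrix I3 I3 K) a b :=
  congrFun (congrFun F.TQ a) b

/-- The frame in terms of tangential derivatives. -/
lemma hE (a : I3) (w : K) : F.E a w = ∑ k, F.T k a * F.d k w := by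
  have h : ∑ b, (1 : Matrix I3 I3 K) a b * F.E b w = F.E a w := by simp [Matrix.one_apply]
  rw [← h]
  simp only [← F.TQ', d_apply, Fin.sum_univ_four, Fin.sum_univ_three]
  ring

/-- A vector is the sum of its normal and tangential parts. -/
lemma split (v : I4 → K) (i : I4) :
    v i = F.ν i * ∑ k, F.ν k * v k + ∑ a, F.Q i a * ∑ k, F.T k a * v k := by
  have h : ∑ k, (1 : Matrix I4 I4 K) i k * v k = v i := by simp [Matrix.one_apply]
  have h1 := F.proj i
  rw [← h]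
  simp only [Fin.sum_univ_four, Fin.sum_univ_three] at h1 ⊢
  linear_combination -v 0 * h1 0 - v 1 * h1 1 - v 2 * h1 2 - v 3 * h1 3

lemma νEν (a : I3) : ∑ k, F.ν k * F.E a (F.ν k) = 0 := by
  have h := congrArg (F.E a) F.nn
  have h2 := two_hf K
  simp only [map_add, Emul, Fin.sum_univ_four, Derivation.map_one_eq_zero] at h ⊢
  linear_combination hf K * h - (F.ν 0 * F.E a (F.ν 0) + F.ν 1 * F.E a (F.ν 1)
    + F.ν 2 * F.E a (F.ν 2) + F.ν 3 * F.E a (F.ν 3)) * h2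

lemma TEν (a b : I3) :
    ∑ k, F.T k b * F.E a (F.ν k) = -∑ k, F.ν k * F.E a (F.E b (F.f k)) := by
  have h := congrArg (F.E a) (F.νT b)
  simp only [map_add, Emul, Fin.sum_univ_four, map_zero, T_apply] at h ⊢
  linear_combination h

lemma sym (i j : I4) : F.d i (F.ν j) = F.d j (F.ν i) := by
  have h : ∀ a l, F.E a (F.ν l) = -∑ b, F.Q l b * ∑ k, F.ν k * F.E a (F.E b (F.f k)) := by
    intro a l
    rw [F.split (fun k => F.E a (F.ν k)) l]
    simp only [νEν, TEν, mul_zero, zero_add, mul_neg, sum_neg_distrib]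
  have s : ∀ (a b c : I3), (∀ w, F.E a (F.E b w) - F.E b (F.E a w) = 2 * F.E c w) →
      ∑ k, F.ν k * F.E b (F.E a (F.f k)) = ∑ k, F.ν k * F.E a (F.E b (F.f k)) := by
    intro a b c hb
    have h1 := F.νT c
    simp only [Fin.sum_univ_four, T_apply] at h1 ⊢
    linear_combination -F.ν 0 * hb (F.f 0) - F.ν 1 * hb (F.f 1) - F.ν 2 * hb (F.f 2)
      - F.ν 3 * hb (F.f 3) - 2 * h1
  simp only [d_apply, h, Fin.sum_univ_three, s 0 1 2 F.b01, s 1 2 0 F.b12, s 2 0 1 F.b20]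
  ring

lemma dmul (i : I4) (a b : K) : F.d i (a * b) = F.d i a * b + a * F.d i b := by
  rw [Derivation.leibniz, smul_eq_mul, smul_eq_mul]; ring

lemma dd (i j : I4) (w : K) : F.d i (F.d j w) =
    ∑ a, ∑ b, F.Q i a * F.Q j b * F.E a (F.E b w) + ∑ b, F.d i (F.Q j b) * F.E b w := by
  rw [d_apply F j w]
  simp only [map_add, dmul, d_apply F i (F.E _ w), Fin.sum_univ_three]
  ring

lemma comm (i j : I4) (w : K) : F.d i (F.d j w) - F.d j (F.d i w) =
    ∑ k, (F.ν i * F.d j (F.ν k) - F.ν j * F.d i (F.ν k)) * F.d k w := by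
  obtain ⟨c, hc⟩ : ∃ c : I3 → K, ∀ w, F.d i (F.d j w) - F.d j (F.d i w) = ∑ a, c a * F.E a w := by
    refine ⟨fun a => F.d i (F.Q j a) - F.d j (F.Q i a) + 2 * ![F.Q i 1 * F.Q j 2 - F.Q i 2 * F.Q j 1,
      F.Q i 2 * F.Q j 0 - F.Q i 0 * F.Q j 2, F.Q i 0 * F.Q j 1 - F.Q i 1 * F.Q j 0] a, fun w => ?_⟩
    simp only [dd, Fin.sum_univ_three, Matrix.cons_val_zero, Matrix.cons_val_one,
      Matrix.cons_val_two, Matrix.head_cons, Matrix.tail_cons]
    linear_combination (F.Q i 0 * F.Q j 1 - F.Q i 1 * F.Q j 0) * F.b01 w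
      + (F.Q i 1 * F.Q j 2 - F.Q i 2 * F.Q j 1) * F.b12 w
      + (F.Q i 2 * F.Q j 0 - F.Q i 0 * F.Q j 2) * F.b20 w
  have h1 : ∀ k, F.ν i * F.d j (F.ν k) - F.ν j * F.d i (F.ν k) = ∑ a, c a * F.T k a := by
    intro k
    have h2 : ∀ l p q, F.d l ((1 : Matrix I4 I4 K) p q) = 0 := fun l p q => by
      rw [Matrix.one_apply]; split_ifs <;> simp
    simp only [T_apply]
    rw [← hc, df, df, map_sub, map_sub, h2, h2, dmul, dmul, F.sym i j]
    ring
  rw [hc]
  simp only [h1, F.hE _ w, Fin.sum_univ_three, Fin.sum_univ_four]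
  ring

/-- The tangential calculus of the immersion. -/
def toDC : DC K := ⟨F.d, F.f, F.ν, F.nn, F.nd, F.df, F.sym, F.comm⟩

lemma jacobi (c : I3) : F.E c F.J = F.J * ∑ k, ∑ b, F.Q k b * F.E c (F.T k b) := by
  have h : F.J * F.J = F.g.det := F.hJ
  have h1 := congrArg (F.E c) h
  have h2 : F.E c F.g.det = ∑ a, ∑ b, adjugate F.g a b * F.E c (F.g b a) := by
    simp [det_fin_three, adjugate_fin_three, Fin.sum_univ_three]; ring
  have h3 : ∑ a, ∑ b, F.gi a b * F.E c (F.g b a) = 2 * ∑ k, ∑ b, F.Q k b * F.E c (F.T k b) := by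
    have s := fun a b => congrFun (congrFun F.gi_symm a) b
    simp only [transpose_apply] at s
    simp only [g, Q, Matrix.mul_apply, transpose_apply, map_add, Emul, Fin.sum_univ_three,
      Fin.sum_univ_four, s 0 1, s 0 2, s 1 2]
    ring
  have h4 : ∑ a, ∑ b, F.gi a b * F.E c (F.g b a) =
      F.Ji * F.Ji * ∑ a, ∑ b, adjugate F.g a b * F.E c (F.g b a) := by
    simp only [gi, Matrix.smul_apply, smul_eq_mul, mul_sum, mul_assoc]
  rw [Emul, h2] at h1
  rw [h4, ← h1] at h3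
  have h5 := F.hJi
  have h6 := two_hf K
  generalize (∑ k, ∑ b, F.Q k b * F.E c (F.T k b)) = t at *
  linear_combination F.J * hf K * h3 + (F.J * t - F.E c F.J * F.J * F.J * F.Ji * F.Ji) * h6
    - F.E c F.J * (F.J * F.Ji + 1) * h5

lemma piola (i : I4) : ∑ b, F.E b (F.ρ * F.Q i b) =
    -(F.ρ * (hf K * F.f i + F.toDC.R * F.ν i)) := by
  have h1 : ∑ k, F.ν k * ∑ b, F.E b (F.Q k b) = -F.toDC.H := by
    have h := fun b => congrArg (F.E b) (F.νQ b)
    simp only [DC.H, toDC, d_apply, map_add, Emul, map_zero, Fin.sum_univ_three,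
      Fin.sum_univ_four] at h ⊢
    linear_combination h 0 + h 1 + h 2
  have h2 : ∀ c, ∑ k, F.T k c * ∑ b, F.E b (F.Q k b) =
      -∑ k, ∑ b, F.Q k b * F.E c (F.T k b) := by
    intro c
    have h := fun b => congrArg (F.E b) (F.TQ' c b)
    have h0 : ∀ l p q, F.E l ((1 : Matrix I3 I3 K) p q) = 0 := fun l p q => by
      rw [Matrix.one_apply]; split_ifs <;> simp
    have t := F.TQ'
    have b01 := fun k => F.b01 (F.f k)
    have b12 := fun k => F.b12 (F.f k)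
    have b20 := fun k => F.b20 (F.f k)
    simp only [h0, map_add, Emul, Fin.sum_univ_three, Fin.sum_univ_four, T_apply] at h t ⊢
    have t01 := t 0 1
    have t02 := t 0 2
    have t10 := t 1 0
    have t12 := t 1 2
    have t20 := t 2 0
    have t21 := t 2 1
    rw [Matrix.one_apply_ne (by decide)] at t01 t02 t10 t12 t20 t21
    fin_cases c <;> simp only [Fin.zero_eta, Fin.mk_one, Fin.reduceFinMk] at h ⊢
    · linear_combination h 0 + h 1 + h 2 + (F.Q 0 1 * b01 0 + F.Q 1 1 * b01 1 + F.Q 2 1 * b01 2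
        + F.Q 3 1 * b01 3) - (F.Q 0 2 * b20 0 + F.Q 1 2 * b20 1 + F.Q 2 2 * b20 2
        + F.Q 3 2 * b20 3) + 2 * t21 - 2 * t12
    · linear_combination h 0 + h 1 + h 2 + (F.Q 0 2 * b12 0 + F.Q 1 2 * b12 1 + F.Q 2 2 * b12 2
        + F.Q 3 2 * b12 3) - (F.Q 0 0 * b01 0 + F.Q 1 0 * b01 1 + F.Q 2 0 * b01 2
        + F.Q 3 0 * b01 3) + 2 * t02 - 2 * t20
    · linear_combination h 0 + h 1 + h 2 + (F.Q 0 0 * b20 0 + F.Q 1 0 * b20 1 + F.Q 2 0 * b20 2
        + F.Q 3 0 * b20 3) - (F.Q 0 1 * b12 0 + F.Q 1 1 * b12 1 + F.Q 2 1 * b12 2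
        + F.Q 3 1 * b12 3) + 2 * t10 - 2 * t01
  have h3 := F.split (fun k => ∑ b, F.E b (F.Q k b)) i
  simp only [h1, h2] at h3
  have h4 := F.split F.f i
  have h5 : F.toDC.lam = ∑ k, F.f k * F.ν k := rfl
  simp only [ρ, Emul, jacobi, F.he, DC.R, h5]
  generalize F.toDC.H = H at *
  generalize (fun c => ∑ k, ∑ b, F.Q k b * F.E c (F.T k b)) = τ at *
  simp only [Fin.sum_univ_three, Fin.sum_univ_four, T_apply] at h3 h4 ⊢
  linear_combination F.J * F.e * h3 + F.J * F.e * hf K * h4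

lemma ibp {X : Type*} (S : IS K X) (I₀ : K →ₗ[ℝ] ℝ) (h0 : ∀ a w, I₀ (F.E a w) = 0)
    (hS : ∀ w, S.I w = I₀ (F.ρ * w)) : IBP F.toDC S := by
  intro i w
  have h1 : I₀ (∑ b, F.E b (F.ρ * F.Q i b * w)) = 0 := by simp only [map_sum, h0, sum_const_zero]
  rw [hS, hS, ← sub_eq_zero, ← map_sub, ← h1]
  congr 1
  have h2 := F.piola i
  have h3 : F.toDC.d i w = ∑ a, F.Q i a * F.E a w := F.d_apply i w
  have h4 : F.toDC.f = F.f := rfl
  have h5 : F.toDC.ν = F.ν := rfl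
  simp only [h3, h4, h5, F.Emul _ _ w, Fin.sum_univ_three] at h2 ⊢
  linear_combination -w * h2

end

end FR

end Pool.Agent.MP48470b.An
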