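import Pool.Agent.MP_48470b_gt.An.Conc
import Pool.Agent.MP_48470b_gt.Sph.S4

/-! Equivariance of the tangential calculus. -/

namespace Pool.Agent.MP48470b.An

open Finset Matrix Pool.Agent.MP_48470b_gt.Sph
open scoped RealInnerProductSpace

section alg
variable {K : Type*} [CommRing K]

lemma crs_mul_right (T : Matrix I4 I3 K) (n : Matrix I3 I3 K) : crs (T * n) = n.det • crs T := by
  ext i
  fin_cases i <;> simp [crs, mn, Matrix.mul_apply, Fin.sum_univ_three, det_fin_three] <;> ring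

lemma crs_dot (T : Matrix I4 I3 K) (γ : Matrix I4 I4 K) : γᵀ *ᵥ crs (γ * T) = γ.det • crs T := by
  ext i
  fin_cases i <;> simp [crs, mn, Matrix.mul_apply, mulVec, dotProduct,
    det_succ_row_zero, Fin.sum_univ_succ, Fin.succAbove] <;> ring

lemma crs_map {K' : Type*} [CommRing K'] (φ : K →+* K') (T : Matrix I4 I3 K) :
    φ ∘ crs T = crs (T.map φ) := by
  ext i
  fin_cases i <;> simp [crs, mn]

variable [Algebra ℝ K]

/-- A symmetry of the tangential calculus. -/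
structure Sym (D : DC K) (φ : K →ₐ[ℝ] K) (γ : Matrix I4 I4 K) : Prop where
  orth : γᵀ * γ = 1
  cst : ∀ i j k, D.d i (γ j k) = 0
  f : φ ∘ D.f = γ *ᵥ D.f
  ν : φ ∘ D.ν = γ *ᵥ D.ν
  d : ∀ w, φ ∘ D.gr w = γ *ᵥ D.gr (φ w)

/-- Equivariant vectors. -/
def EV (φ : K →ₐ[ℝ] K) (γ : Matrix I4 I4 K) (v : I4 → K) : Prop := φ ∘ v = γ *ᵥ v

/-- Equivariant matrices. -/
def EM (φ : K →ₐ[ℝ] K) (γ : Matrix I4 I4 K) (M : Matrix I4 I4 K) : Prop := M.map φ = γ * M * γᵀ

variable {D : DC K} {φ : K →ₐ[ℝ] K} {γ M N : Matrix I4 I4 K} {v w : I4 → K} {u ω : K}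

omit [Algebra ℝ K] in
lemma orth_dot (h : γᵀ * γ = 1) (v w : I4 → K) : (γ *ᵥ v) ⬝ᵥ (γ *ᵥ w) = v ⬝ᵥ w := by
  rw [dotProduct_mulVec, ← mulVec_transpose, mulVec_mulVec, h, one_mulVec]

lemma EV.dot (h : γᵀ * γ = 1) (hv : EV φ γ v) (hw : EV φ γ w) : φ (v ⬝ᵥ w) = v ⬝ᵥ w := by
  have : φ (v ⬝ᵥ w) = (φ ∘ v) ⬝ᵥ (φ ∘ w) := by simp [dotProduct]
  rw [this, hv, hw, orth_dot h v w]

lemma EV.add (hv : EV φ γ v) (hw : EV φ γ w) : EV φ γ (v + w) := by
  unfold EV at *
  rw [mulVec_add, ← hv, ← hw]; ext i; simp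

lemma EV.sub (hv : EV φ γ v) (hw : EV φ γ w) : EV φ γ (v - w) := by
  unfold EV at *
  rw [mulVec_sub, ← hv, ← hw]; ext i; simp

lemma EV.smul (hu : φ u = u) (hv : EV φ γ v) : EV φ γ (u • v) := by
  unfold EV at *
  rw [mulVec_smul, ← hv]; ext i; simp [hu]

lemma EM.mulVec (h : γᵀ * γ = 1) (hM : EM φ γ M) (hv : EV φ γ v) : EV φ γ (M *ᵥ v) := by
  unfold EV EM at *
  have : φ ∘ (M *ᵥ v) = M.map φ *ᵥ (φ ∘ v) := by ext i; simp [Matrix.mulVec, dotProduct]
  rw [this, hM, hv, mulVec_mulVec, mulVec_mulVec, Matrix.mul_assoc, h, Matrix.mul_one]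

lemma EM.one (h : γᵀ * γ = 1) : EM φ γ 1 := by
  unfold EM
  rw [Matrix.mul_one, mul_eq_one_comm.1 h, Matrix.map_one _ (map_zero φ) (map_one φ)]

lemma EM.add (hM : EM φ γ M) (hN : EM φ γ N) : EM φ γ (M + N) := by
  unfold EM at *
  rw [Matrix.mul_add, Matrix.add_mul, ← hM, ← hN]; ext i j; simp

lemma EM.sub (hM : EM φ γ M) (hN : EM φ γ N) : EM φ γ (M - N) := by
  unfold EM at *
  rw [Matrix.mul_sub, Matrix.sub_mul, ← hM, ← hN]; ext i j; simp

lemma EM.smul (hu : φ u = u) (hM : EM φ γ M) : EM φ γ (u • M) := by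
  unfold EM at *
  rw [Matrix.mul_smul, Matrix.smul_mul, ← hM]; ext i j; simp [hu]

lemma map_mul' (φ : K →ₐ[ℝ] K) (M N : Matrix I4 I4 K) : (M * N).map φ = M.map φ * N.map φ := by
  ext i j; simp [Matrix.mul_apply]

omit [Algebra ℝ K] in
lemma conj_mul (h : γᵀ * γ = 1) (M N : Matrix I4 I4 K) :
    γ * M * γᵀ * (γ * N * γᵀ) = γ * (M * N) * γᵀ := by
  calc _ = γ * M * (γᵀ * γ) * N * γᵀ := by simp only [Matrix.mul_assoc]
    _ = _ := by rw [h]; simp only [Matrix.mul_assoc, Matrix.one_mul]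

lemma EM.mul (h : γᵀ * γ = 1) (hM : EM φ γ M) (hN : EM φ γ N) : EM φ γ (M * N) := by
  unfold EM at *
  rw [map_mul', hM, hN, conj_mul h]

lemma EM.tr (hM : EM φ γ M) : EM φ γ Mᵀ := by
  unfold EM at *
  rw [transpose_map, hM, transpose_mul, transpose_mul, transpose_transpose, Matrix.mul_assoc]

lemma EM.trace (h : γᵀ * γ = 1) (hM : EM φ γ M) : φ (trace M) = trace M := by
  have : φ (Matrix.trace M) = Matrix.trace (M.map φ) := by simp [Matrix.trace]
  rw [this, hM, trace_mul_cycle, h, Matrix.one_mul]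

lemma EM.fp (h : γᵀ * γ = 1) (hM : EM φ γ M) (hN : EM φ γ N) : φ (fp M N) = fp M N := by
  rw [fp_trace]; exact (hM.mul h hN.tr).trace h

lemma EV.out (hv : EV φ γ v) (hw : EV φ γ w) : EM φ γ (vecMulVec v w) := by
  unfold EV EM at *
  rw [mul_out, vecMulVec_mul, vecMul_transpose, ← hv, ← hw]
  ext i j; simp [vecMulVec_apply]

lemma EM.inv (h : γᵀ * γ = 1) (hM : EM φ γ M) (h1 : M * N = 1) : EM φ γ N := by
  have h2 : M.map φ * N.map φ = 1 := by
    rw [← map_mul', h1, Matrix.map_one _ (map_zero φ) (map_one φ)]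
  have h3 : γ * N * γᵀ * M.map φ = 1 := by
    rw [hM, conj_mul h, mul_eq_one_comm.1 h1, Matrix.mul_one, mul_eq_one_comm.1 h]
  exact (left_inv_eq_right_inv h3 h2).symm

lemma EM.qq (h : γᵀ * γ = 1) (hM : EM φ γ M) (hv : EV φ γ v) : EV φ γ (qq M v) :=
  hv.add (hM.mulVec h hv)

lemma φ_hf (φ : K →ₐ[ℝ] K) : φ (hf K) = hf K := φ.commutes _

namespace Sym

lemma gr (h : Sym D φ γ) (hu : φ u = u) : EV φ γ (D.gr u) := by
  have := h.d u
  rwa [hu] at this

lemma dM (h : Sym D φ γ) (hv : EV φ γ v) : EM φ γ (D.dM v) := by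
  ext i j
  have h1 := congrFun (h.d (v j)) i
  have h2 := congrFun hv j
  simp only [Function.comp_apply] at h2
  rw [h2] at h1
  simp only [Function.comp_apply, DC.gr, mulVec, dotProduct, map_sum, D.dmul, h.cst, zero_mul,
    zero_add] at h1
  simp only [map_apply, DC.dM, of_apply, h1, Matrix.mul_apply, transpose_apply,
    Fin.sum_univ_four]
  ring

lemma A (h : Sym D φ γ) : EM φ γ D.A := h.dM h.ν

lemma R (h : Sym D φ γ) : φ D.R = D.R := by
  have h1 : φ D.H = D.H := h.A.trace h.orth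
  have h2 : φ D.lam = D.lam := EV.dot h.orth h.f h.ν
  rw [DC.R, map_sub, map_mul, h1, h2, φ_hf]

lemma L (h : Sym D φ γ) (hu : φ u = u) : φ (D.L u) = D.L u := by
  have h1 : φ (D.lap u) = D.lap u := (h.dM (h.gr hu)).trace h.orth
  have h2 : φ (∑ i, D.f i * D.d i u) = ∑ i, D.f i * D.d i u := EV.dot h.orth h.f (h.gr hu)
  rw [DC.L, DC.lf, DC.V, map_add, map_sub, map_mul, map_mul, map_add, h1, h2, φ_hf, hu,
    h.A.fp h.orth h.A]

lemma Q (h : Sym D φ γ) (hu : φ u = u) {C : Matrix I4 I4 K} (ha : D.Aux u ω C) :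
    φ (D.R + D.Q u ω C) = D.R + D.Q u ω C := by
  have o := h.orth
  have hC : EM φ γ C := by
    have := (((EM.one o).add (h.A.smul hu)).inv o ha.NP).sub (EM.one o)
    rwa [add_sub_cancel_left] at this
  have hq := hC.qq o (h.gr hu)
  have hω : φ ω = ω := by
    have h1 := congrArg φ ha.2
    rw [map_mul, map_add, map_one, hq.dot o hq] at h1
    have h2 := ha.2
    linear_combination ω * h1 - φ ω * h2
  have hb : EM φ γ (bb C (D.gr u) ω) :=
    ((hC.add hC).add (hC.mul o hC)).sub (((hC.qq o hq).out (hC.qq o hq)).smul hω)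
  have hF : EV φ γ (D.FF u) := EV.add h.f (EV.smul hu h.ν)
  have hn : EV φ γ (D.n1 u C) := EV.sub h.ν hq
  have hE : φ (D.Eg u ω C) = D.Eg u ω C := by
    rw [DC.Eg, map_sub, map_mul, φ_hf, hF.dot o hn,
      ((EM.one o).add hb).fp o ((h.dM hn).mul o (h.dM hF).tr)]
  have e : D.R + D.Q u ω C = D.Eg u ω C + D.L u := by rw [ha.Eg_eq]; ring
  rw [e, map_add, hE, h.L hu]

end Sym

lemma FR.sym_of (F : FR K) {n : Matrix I3 I3 K} (o : γᵀ * γ = 1)
    (hE : ∀ a w, φ (F.E a w) = ∑ b, n b a * F.E b (φ w)) (hc : ∀ a j k, F.E a (γ j k) = 0)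
    (hf : EV φ γ F.f) (hT : F.T.map φ = γ * F.T * n) (hν : EV φ γ F.ν) : Sym F.toDC φ γ := by
  refine ⟨o, fun i j k => ?_, hf, hν, fun w => ?_⟩
  · change F.d i _ = 0
    simp [F.d_apply, hc]
  · have key : ∀ z : I4 → K, (φ ∘ F.ν) ⬝ᵥ z = 0 → (F.T.map φ)ᵀ *ᵥ z = 0 → z = 0 := by
      intro z h1 h2
      ext i
      have h3 := fun j => congrArg φ (F.proj i j)
      have h4 := fun a => congrFun h2 a
      have h5 : ∑ j, φ ((1 : Matrix I4 I4 K) i j) * z j = z i := by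
        simp [Matrix.one_apply, apply_ite φ]
      rw [← h5]
      simp only [mulVec, dotProduct, transpose_apply, map_apply, Function.comp_apply, map_add,
        map_sub, map_mul, Fin.sum_univ_three, Fin.sum_univ_four, Pi.zero_apply] at h1 h3 h4 ⊢
      linear_combination φ (F.ν i) * h1 + φ (F.Q i 0) * h4 0 + φ (F.Q i 1) * h4 1
        + φ (F.Q i 2) * h4 2 - z 0 * h3 0 - z 1 * h3 1 - z 2 * h3 2 - z 3 * h3 3
    have e : ∀ w, F.Tᵀ *ᵥ F.toDC.gr w = fun a => F.E a w := fun w =>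
      funext fun a => (F.hE a w).symm
    refine sub_eq_zero.1 (key _ ?_ ?_)
    · have h1 : (φ ∘ F.ν) ⬝ᵥ (φ ∘ F.toDC.gr w) = φ (F.ν ⬝ᵥ F.toDC.gr w) := by simp [dotProduct]
      have h2 : ∀ w, F.ν ⬝ᵥ F.toDC.gr w = 0 := F.nd
      rw [dotProduct_sub, h1, hν, orth_dot o, h2, h2, map_zero, sub_zero]
    · have h1 : (F.T.map φ)ᵀ *ᵥ (φ ∘ F.toDC.gr w) = φ ∘ (F.Tᵀ *ᵥ F.toDC.gr w) := by
        ext a; simp [mulVec, dotProduct]
      rw [mulVec_sub, h1, hT, transpose_mul, transpose_mul, mulVec_mulVec, Matrix.mul_assoc,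
        Matrix.mul_assoc, o, Matrix.mul_one, ← mulVec_mulVec, e, e]
      ext a
      simp [hE, mulVec, dotProduct]

end alg

noncomputable section

/-- The matrix of an isometry. -/
def gM (g : E4 ≃ₗᵢ[ℝ] E4) : Matrix I4 I4 R :=
  Matrix.of fun i j => algebraMap ℝ R (g (EuclideanSpace.single j 1) i)

/-- The rotation of the frame. -/
def nM (g : E4 ≃ₗᵢ[ℝ] E4) : Matrix I3 I3 R :=
  Matrix.of fun b a => ∑ k, E b (X k) * D (conj g (mat (eM a))) (X k)

lemma gM_mulVec (g : E4 ≃ₗᵢ[ℝ] E4) (v : I4 → R) (i : I4) (x : S3) :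
    (gM g *ᵥ v) i x = g (vec v x) i := by
  have : vec v x = ∑ b, v b x • EuclideanSpace.single b (1 : ℝ) := by
    ext c; simp [Pi.single_apply]
  rw [this]
  simp [gM, mulVec, dotProduct, mul_comm]

lemma gM_orth (g : E4 ≃ₗᵢ[ℝ] E4) : (gM g)ᵀ * gM g = 1 := by
  ext i j x
  have := g.inner_map_map (EuclideanSpace.single i 1) (EuclideanSpace.single j 1)
  rw [inner4, EuclideanSpace.inner_single_left] at this
  simp only [Matrix.mul_apply, gM, transpose_apply, of_apply, Fin.sum_univ_four, R.add_apply,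
    R.mul_apply, R.algebraMap_apply, this, Matrix.one_apply]
  by_cases h : i = j <;> simp [h]

lemma ev_iff {g : E4 ≃ₗᵢ[ℝ] E4} {v : I4 → R} :
    EV (act g) (gM g) v ↔ ∀ x i, v i (sph g x) = g (vec v x) i := by
  constructor
  · intro h x i
    rw [← gM_mulVec, ← h, Function.comp_apply, act_apply]
  · intro h
    ext i x
    rw [gM_mulVec, ← h, Function.comp_apply, act_apply]

lemma skew_conj (g : E4 ≃ₗᵢ[ℝ] E4) {A : E4 →L[ℝ] E4} (h : Skew A) : Skew (conj g A) := by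
  intro x
  rw [← g.inner_map_map, conj_apply, g.apply_symm_apply]
  exact h _

lemma act_E (g : E4 ≃ₗᵢ[ℝ] E4) (a : I3) (w : R) :
    act g (E a w) = ∑ b, nM g b a * E b (act g w) := by
  ext x
  rw [E, act_D, D_frame]
  simp only [R.sum_apply, R.mul_apply, nM, of_apply, E, D_X (skew_e _),
    D_X (skew_conj g (skew_e _)), inner4, Fin.sum_univ_four, R.add_apply]

lemma E_gM (g : E4 ≃ₗᵢ[ℝ] E4) (a : I3) (j k : I4) : E a (gM g j k) = 0 :=
  (E a).map_algebraMap _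

lemma act_T {g : E4 ≃ₗᵢ[ℝ] E4} {f : I4 → R} (h : EV (act g) (gM g) f) :
    (Matrix.of fun k a => E a (f k)).map (act g) =
      gM g * (Matrix.of fun k a => E a (f k)) * nM g := by
  ext k a : 2
  have h2 := congrFun h k
  simp only [Function.comp_apply] at h2
  simp only [map_apply, of_apply, act_E, h2, mulVec, dotProduct, Matrix.mul_apply, map_add,
    Derivation.leibniz, smul_eq_mul, E_gM, Fin.sum_univ_four, Fin.sum_univ_three]
  ring

lemma act_crs' {g : E4 ≃ₗᵢ[ℝ] E4} {f : I4 → R} (h : EV (act g) (gM g) f) :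
    act g ∘ crs (Matrix.of fun k a => E a (f k)) =
      ((nM g).det * (gM g).det) • gM g *ᵥ crs (Matrix.of fun k a => E a (f k)) := by
  have h1 := crs_map (act g : R →+* R) (Matrix.of fun k a => E a (f k))
  have h2 := congrArg (gM g *ᵥ ·) (crs_dot (Matrix.of fun k a => E a (f k)) (gM g))
  simp only [mulVec_mulVec, mul_eq_one_comm.1 (gM_orth g), one_mulVec, mulVec_smul] at h2
  refine h1.trans ?_
  change crs (Matrix.map _ (act g)) = _
  rw [act_T h, crs_mul_right, h2, smul_smul]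

lemma crs_X : crs (Matrix.of fun k a => E a (X k)) = X := by
  ext i x
  have h := normsq4 (x : E4)
  rw [S3.norm] at h
  have e : ∀ a k, E a (X k) x = ∑ j, eM a k j * (x : E4) j := fun a k => D_X (skew_e a) k x
  fin_cases i <;> simp [crs, mn, e, eM, Fin.sum_univ_four]
  · linear_combination -(x : E4) 0 * h
  · linear_combination -(x : E4) 1 * h
  · linear_combination -(x : E4) 2 * h
  · linear_combination -(x : E4) 3 * h

lemma det_one (g : E4 ≃ₗᵢ[ℝ] E4) : (nM g).det * (gM g).det = 1 := by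
  have h : EV (act g) (gM g) X := ev_iff.2 fun x i => rfl
  have h1 := act_crs' h
  rw [crs_X, h] at h1
  have h3 := congrArg (· ⬝ᵥ gM g *ᵥ X) h1
  have h4 : X ⬝ᵥ X = 1 := by simpa [dotProduct, sq] using sum_X_sq'
  simp only [smul_dotProduct, orth_dot (gM_orth g), h4, smul_eq_mul, mul_one] at h3
  exact h3.symm

lemma act_crs {g : E4 ≃ₗᵢ[ℝ] E4} {f : I4 → R} (h : EV (act g) (gM g) f) :
    EV (act g) (gM g) (crs (Matrix.of fun k a => E a (f k))) := by
  have := act_crs' h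
  rwa [det_one, one_smul] at this

lemma act_gram {g : E4 ≃ₗᵢ[ℝ] E4} {f : I4 → R} (h : EV (act g) (gM g) f) (x : S3) :
    gram f (sph g x) = gram f x := by
  have := (act_crs h).dot (gM_orth g) (act_crs h)
  rw [dotProduct, crs_sq] at this
  rw [← act_apply, gram, this]

variable {f : I4 → R} {G : Set (E4 ≃ₗᵢ[ℝ] E4)}

lemma act_ν (h : Imm f) {g : E4 ≃ₗᵢ[ℝ] E4} (he : EV (act g) (gM g) f) :
    EV (act g) (gM g) (fr h).ν := by
  have h1 : act g (fr h).Ji = (fr h).Ji := by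
    ext x
    rw [act_apply]
    change (√(gram f (sph g x)))⁻¹ = (√(gram f x))⁻¹
    rw [act_gram he]
  exact EV.smul h1 (act_crs he)

lemma dc_sym (h : Imm f) (he : Eqv f G) {g : E4 ≃ₗᵢ[ℝ] E4} (hg : g ∈ G) :
    Sym (dc h) (act g) (gM g) :=
  (fr h).sym_of (gM_orth g) (act_E g) (E_gM g) (ev_iff.2 (he g hg)) (act_T (ev_iff.2 (he g hg)))
    (act_ν h (ev_iff.2 (he g hg)))

theorem ν_eqv (h : Imm f) (he : Eqv f G) : Eqv (dc h).ν G := fun _ hg =>
  ev_iff.1 (dc_sym h he hg).ν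

theorem gr_eqv (h : Imm f) (he : Eqv f G) {g : E4 ≃ₗᵢ[ℝ] E4} (hg : g ∈ G) (w : R) (x : S3)
    (i : I4) : (dc h).d i w (sph g x) = g (vec ((dc h).gr (act g w)) x) i := by
  rw [← gM_mulVec, ← (dc_sym h he hg).d w, Function.comp_apply, act_apply]
  rfl

theorem rho_inv (h : Imm f) (he : Eqv f G) : rho h ∈ invSub G := by
  intro g hg
  have h1 := ev_iff.2 (he g hg)
  ext x
  have h2 := congrArg (fun u : R => u x) (h1.dot (gM_orth g) h1)
  simp only [act_apply, dotProduct, R.sum_apply, R.pow_apply, ← sq] at h2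
  rw [act_apply, rho_apply, rho_apply, act_gram h1, h2]

theorem R_inv (h : Imm f) (he : Eqv f G) : (dc h).R ∈ invSub G := fun _ hg =>
  (dc_sym h he hg).R

theorem L_inv (h : Imm f) (he : Eqv f G) {u : R} (hu : u ∈ invSub G) : (dc h).L u ∈ invSub G :=
  fun g hg => (dc_sym h he hg).L (hu g hg)

theorem Q_inv (h : Imm f) (he : Eqv f G) {u ω : R} {C : Matrix I4 I4 R} (hu : u ∈ invSub G)
    (ha : (dc h).Aux u ω C) : (dc h).R + (dc h).Q u ω C ∈ invSub G :=
  fun g hg => (dc_sym h he hg).Q (hu g hg) ha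

end

end Pool.Agent.MP48470b.An
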