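import Pool.Agent.MP_48470b_gt.An.DC

/-! Integral identities and linear estimates in the tangential calculus. -/

namespace Pool.Agent.MP48470b.An

open Finset Matrix

variable {K : Type*} [CommRing K] [Algebra ℝ K] {X : Type*}

/-- Integration by parts with the Gaussian weight. -/
def IBP (D : DC K) (S : IS K X) : Prop :=
  ∀ i w, S.I (D.d i w) = S.I ((hf K * D.f i + D.R * D.ν i) * w)

/-- Pointwise bounds on the geometry. -/
structure PB (D : DC K) (S : IS K X) (α a₁ a₂ e₁ e₂ : ℝ) : Prop where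
  hA : ∀ x, S.vn (uc D.A) x ≤ α
  hA' : ∀ x, S.vn (uc3 D.A') x ≤ a₁
  hA'' : ∀ x, S.vn (D.dT (uc3 D.A')) x ≤ a₂
  hR : ∀ x, |S.ev x D.R| * α ≤ 1 / 2
  hz : ∀ x, S.vn (D.gr D.R) x ≤ e₁
  hz' : ∀ x, S.vn (D.dT (D.gr D.R)) x ≤ e₂

variable {D : DC K} {S : IS K X}

lemma IBP.divf (h : IBP D S) (v : I4 → K) (hv : ∑ i, D.ν i * v i = 0) :
    S.I (∑ i, D.d i (v i) - hf K * ∑ i, D.f i * v i) = 0 := by
  have h1 : S.I (∑ i, D.d i (v i)) = S.I (∑ i, (hf K * D.f i + D.R * D.ν i) * v i) := by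
    simp only [map_sum]; exact sum_congr rfl fun i _ => h i _
  rw [map_sub, h1, ← map_sub]
  have : ∑ i, (hf K * D.f i + D.R * D.ν i) * v i - hf K * ∑ i, D.f i * v i = 0 := by
    simp only [Fin.sum_univ_four] at hv ⊢
    linear_combination D.R * hv
  rw [this, map_zero]

lemma IBP.green (h : IBP D S) (a b : K) :
    S.I (∑ i, D.d i a * D.d i b) = - S.I (a * D.lf b) := by
  have h1 := h.divf (fun i => a * D.d i b) (by
    have := D.nd b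
    simp only [Fin.sum_univ_four] at this ⊢
    linear_combination a * this)
  rw [eq_neg_iff_add_eq_zero, ← map_add, ← h1]
  congr 1
  simp only [DC.lf, DC.lap, DC.dmul, Fin.sum_univ_four]
  ring

lemma IBP.E2 (h : IBP D S) (w : K) : S.I (∑ p, D.dT (D.gr w) p ^ 2) = S.I (D.lf w ^ 2)
    + S.I (2 * ∑ i, D.ap w i ^ 2 - (hf K * ∑ i, D.d i w ^ 2 + D.R * ∑ i, D.d i w * D.ap w i)) := by
  have h1 : S.I (∑ p, D.dT (D.gr w) p ^ 2) = - S.I (∑ k, D.d k w * D.lf (D.d k w)) := by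
    rw [Fintype.sum_prod_type_right, map_sum, map_sum, ← sum_neg_distrib]
    refine sum_congr rfl fun k _ => ?_
    rw [← h.green]
    simp only [DC.dT, DC.gr, sq]
  have h2 := h.green (D.lf w) w
  rw [h1, sq, ← neg_neg (S.I (D.lf w * D.lf w)), ← h2, ← map_neg, ← map_neg, ← map_add]
  congr 1
  have h3 := D.nd w
  have h4 : ∑ k, D.d k w * ∑ l, D.d k (D.ν l) * D.ap w l = ∑ i, D.ap w i ^ 2 := by
    simp only [mul_sum]
    rw [sum_comm]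
    refine sum_congr rfl fun l _ => ?_
    rw [sq]
    nth_rewrite 2 [DC.ap]
    rw [sum_mul]
    exact sum_congr rfl fun k _ => by rw [D.sym k l]; ring
  simp only [D.lf_d]
  generalize (∑ j, D.d j D.R * D.d j w + 2 * fp D.A (D.dM (D.gr w))) = t
  simp only [Fin.sum_univ_four] at h3 h4 ⊢
  linear_combination 2 * h4 + t * h3

variable {α a₁ a₂ e₁ e₂ : ℝ}

lemma vn_ν (D : DC K) (S : IS K X) (x : X) : S.vn D.ν x = 1 := by
  have h := congrArg (S.ev x) D.nn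
  simp only [map_sum, map_pow, map_one, ← sq] at h
  simp [IS.vn, nr, h]

lemma PB.α0 (h : PB D S α a₁ a₂ e₁ e₂) (x : X) : 0 ≤ α := (S.vn_nonneg _ x).trans (h.hA x)

lemma PB.Av (h : PB D S α a₁ a₂ e₁ e₂) (v : I4 → K) (x : X) :
    S.vn (fun i => ∑ j, D.d i (D.ν j) * v j) x ≤ α * S.vn v x := by
  simp only [IS.vn, map_sum, map_mul]
  exact (nr_mv (fun p => S.ev x (uc D.A p)) _).trans
    (mul_le_mul_of_nonneg_right (h.hA x) (nr_nonneg _))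

lemma PB.ap_le (h : PB D S α a₁ a₂ e₁ e₂) (w : K) (x : X) :
    S.vn (D.ap w) x ≤ α * S.vn (D.gr w) x := h.Av (D.gr w) x

lemma PB.V_le (h : PB D S α a₁ a₂ e₁ e₂) (x : X) : |S.ev x D.V| ≤ α ^ 2 + 1 / 2 := by
  have h1 : S.ev x D.V = S.vn (uc D.A) x ^ 2 + 1 / 2 := by
    rw [S.vn_sq]; simp [DC.V, fp, sq]
  have h2 := h.hA x
  have h3 := S.vn_nonneg (uc D.A) x
  rw [h1, abs_of_nonneg (by positivity)]
  gcongr

lemma hs_le (D : DC K) (S : IS K X) (w : K) (x : X) :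
    S.vn (uc (D.hs w)) x ≤ S.vn (D.dT (D.gr w)) x := by
  apply nr_le_nr
  have h := congrArg (S.ev x) (D.r_sq w)
  simp only [map_sum, map_add, map_pow] at h
  rw [h]
  exact le_add_of_nonneg_right (sum_nonneg fun _ _ => sq_nonneg _)

lemma PB.lin1 (h : PB D S α a₁ a₂ e₁ e₂) (hI : IBP D S) {w : K} {ρ t₀ t₁ : ℝ}
    (hL : S.Dom (S.v0 (D.L w)) ρ) (h0 : S.Dom (S.v0 w) t₀) (ht : 0 ≤ t₁)
    (hc : (α ^ 2 + 1 / 2) * t₀ ^ 2 + t₀ * ρ ≤ t₁ ^ 2) : S.Dom (S.vn (D.gr w)) t₁ := by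
  refine IS.dom_vn.2 ⟨ht, le_trans ?_ hc⟩
  have h1 := hI.green w w
  have h2 : S.I (∑ i, D.gr w i ^ 2) = S.I (D.V * w ^ 2) + S.I (-(w * D.L w)) := by
    simp only [sq, DC.gr]
    rw [h1, ← map_neg, ← map_add]; congr 1; unfold DC.L; ring
  have h3 : S.I (D.V * w ^ 2) ≤ ((α ^ 2 + 1 / 2) * t₀) * t₀ :=
    (h0.bmul h.V_le (by positivity)).I_le h0 fun x => by simp [IS.v0, sq, mul_assoc]
  have h4 : S.I (-(w * D.L w)) ≤ t₀ * ρ := h0.abs.I_le hL.abs fun x => by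
    rw [← abs_mul, map_neg, map_mul]; exact neg_le_abs _
  rw [h2]; nlinarith

lemma PB.linΔ (h : PB D S α a₁ a₂ e₁ e₂) {w : K} {ρ t₀ : ℝ}
    (hL : S.Dom (S.v0 (D.L w)) ρ) (h0 : S.Dom (S.v0 w) t₀) :
    S.Dom (S.v0 (D.lf w)) (ρ + (α ^ 2 + 1 / 2) * t₀) :=
  (hL.add (h0.bmul (ψ := fun x => - S.ev x D.V) (fun x => by rw [abs_neg]; exact h.V_le x)
    (by positivity))).mono' (fun x => le_of_eq (by simp [IS.v0, DC.L])) le_rfl

lemma PB.neg_part (h : PB D S α a₁ a₂ e₁ e₂) (w : K) (x : X) :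
    0 ≤ S.ev x (hf K * ∑ i, D.d i w ^ 2 + D.R * ∑ i, D.d i w * D.ap w i) := by
  have h1 := S.vn_sq (D.gr w) x
  have h2 : |S.ev x (∑ i, D.d i w * D.ap w i)| ≤ S.vn (D.gr w) x * (α * S.vn (D.gr w) x) := by
    simp only [map_sum, map_mul]
    exact (abs_dot_le _ _).trans (mul_le_mul_of_nonneg_left (h.ap_le w x) (nr_nonneg _))
  have h3 := h.hR x
  have h4 := neg_abs_le (S.ev x D.R * S.ev x (∑ i, D.d i w * D.ap w i))
  rw [abs_mul] at h4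
  have h5 := mul_le_mul_of_nonneg_left h2 (abs_nonneg (S.ev x D.R))
  have h6 := mul_le_mul_of_nonneg_right h3 (sq_nonneg (S.vn (D.gr w) x))
  rw [map_add, map_mul, map_mul, ev_hf]
  have h7 : S.ev x (∑ i, D.d i w ^ 2) = S.vn (D.gr w) x ^ 2 := h1.symm
  rw [h7]
  nlinarith

lemma PB.E2le (h : PB D S α a₁ a₂ e₁ e₂) (hI : IBP D S) (w : K) :
    S.I (∑ p, uc (D.hs w) p ^ 2) ≤ S.I (D.lf w ^ 2) + S.I (∑ i, D.ap w i ^ 2) := by
  have h1 := hI.E2 w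
  have h2 := S.pos _ (h.neg_part w)
  rw [D.r_sq, map_add, map_sub, two_mul, map_add] at h1
  linarith

lemma PB.ap_dom (h : PB D S α a₁ a₂ e₁ e₂) (hα : 0 ≤ α) {w : K} {t₁ : ℝ}
    (h1 : S.Dom (S.vn (D.gr w)) t₁) : S.Dom (S.vn (D.ap w)) (α * t₁) :=
  (h1.cmul hα).mono (fun x => by rw [abs_of_nonneg (S.vn_nonneg _ _)]; exact h.ap_le w x) le_rfl

lemma PB.lin2h (h : PB D S α a₁ a₂ e₁ e₂) (hI : IBP D S) (hα : 0 ≤ α) {w : K} {tΔ t₁ t : ℝ}
    (hΔ : S.Dom (S.v0 (D.lf w)) tΔ) (h1 : S.Dom (S.vn (D.gr w)) t₁) (ht : 0 ≤ t)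
    (hc : tΔ ^ 2 + (α * t₁) ^ 2 ≤ t ^ 2) : S.Dom (S.vn (uc (D.hs w))) t :=
  IS.dom_vn.2 ⟨ht, (h.E2le hI w).trans ((add_le_add (IS.dom_v0.1 hΔ).2
    (IS.dom_vn.1 (h.ap_dom hα h1)).2).trans hc)⟩

lemma PB.lin2r (h : PB D S α a₁ a₂ e₁ e₂) (hI : IBP D S) (hα : 0 ≤ α) {w : K} {tΔ t₁ t : ℝ}
    (hΔ : S.Dom (S.v0 (D.lf w)) tΔ) (h1 : S.Dom (S.vn (D.gr w)) t₁) (ht : 0 ≤ t)
    (hc : tΔ ^ 2 + 2 * (α * t₁) ^ 2 ≤ t ^ 2) : S.Dom (S.vn (D.dT (D.gr w))) t := by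
  refine IS.dom_vn.2 ⟨ht, ?_⟩
  have h2 := h.E2le hI w
  have h3 := (IS.dom_v0.1 hΔ).2
  have h4 := (IS.dom_vn.1 (h.ap_dom hα h1)).2
  rw [D.r_sq, map_add]
  linarith

lemma PB.lin3 (h : PB D S α a₁ a₂ e₁ e₂) (hI : IBP D S) (hα : 0 ≤ α) {w : K} {tΔ t₂ : ℝ}
    (hΔ : S.Dom (S.vn fun k => D.lf (D.d k w)) tΔ) (h2 : S.Dom (S.vn (D.dT (D.gr w))) t₂) :
    S.Dom (S.vn (D.dT (D.dT (D.gr w)))) (tΔ + 2 * α * t₂) := by
  have hΔ0 := hΔ.1
  have h20 := h2.1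
  refine IS.dom_vn.2 ⟨by positivity, ?_⟩
  have e1 : ∑ p, D.dT (D.dT (D.gr w)) p ^ 2 = ∑ k, ∑ p, D.dT (D.gr (D.d k w)) p ^ 2 := by
    simp only [Fintype.sum_prod_type, DC.dT, DC.gr]
    rw [sum_comm (γ := I4) (s := univ) (t := univ)
      (f := fun k i => ∑ j, D.d i (D.d j (D.d k w)) ^ 2)]
    exact sum_congr rfl fun i _ => sum_comm
  have e2 : S.I (∑ k, ∑ i, D.ap (D.d k w) i ^ 2) ≤ (α * t₂) ^ 2 :=
    (h2.cmul hα).I_sq fun x => by
      have e : α ^ 2 * S.vn (D.dT (D.gr w)) x ^ 2 = ∑ k, (α * S.vn (D.gr (D.d k w)) x) ^ 2 := by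
        simp only [mul_pow, ← mul_sum, S.vn_sq, ← map_sum, Fintype.sum_prod_type_right]
        rfl
      rw [mul_pow, e, map_sum]
      refine sum_le_sum fun k _ => ?_
      rw [← S.vn_sq]
      have := h.ap_le (D.d k w) x
      have := S.vn_nonneg (D.ap (D.d k w)) x
      gcongr
  have e3 := (IS.dom_vn.1 hΔ).2
  have e4 : S.I (∑ k, ∑ p, D.dT (D.gr (D.d k w)) p ^ 2) ≤
      S.I (∑ k, D.lf (D.d k w) ^ 2) + 2 * S.I (∑ k, ∑ i, D.ap (D.d k w) i ^ 2) := by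
    rw [map_sum, map_sum, map_sum S.I, mul_sum, ← sum_add_distrib]
    refine sum_le_sum fun k _ => ?_
    have := h.E2le hI (D.d k w)
    rw [D.r_sq, map_add]
    linarith
  rw [e1]
  nlinarith [mul_nonneg hΔ0 (mul_nonneg hα h20), sq_nonneg (α * t₂)]

lemma PB.lf3_le (h : PB D S α a₁ a₂ e₁ e₂) (w : K) (x : X) :
    S.vn (fun k => D.lf (D.d k w)) x ≤ S.vn (D.gr (D.L w)) x
      + (3 * α ^ 2 + 3 / 2 + e₁) * S.vn (D.gr w) x + 2 * α * a₁ * |S.ev x w|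
      + 2 * α * S.vn (D.dT (D.gr w)) x := by
  have hα := h.α0 x
  have e : ∀ k, S.ev x (D.lf (D.d k w)) = S.ev x (D.gr (D.L w) k)
      + (1 / 2 - S.ev x D.V) * S.ev x (D.gr w k)
      + (-2 * S.ev x w) * (∑ q, S.ev x (uc3 D.A' (k, q)) * S.ev x (uc D.A q))
      + S.ev x D.R * S.ev x (D.ap w k) + (-2) * S.ev x (∑ l, D.d k (D.ν l) * D.ap w l)
      + (- S.ev x (∑ j, D.d j D.R * D.d j w + 2 * fp D.A (D.dM (D.gr w)))) * S.ev x (D.ν k) := by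
    intro k
    have e1 : D.d k D.V = 2 * ∑ q, uc3 D.A' (k, q) * uc D.A q := by
      simp only [DC.V, fp, map_add, der_hf, map_sum, D.dmul, add_zero, mul_sum]
      exact sum_congr rfl fun q _ => by simp only [uc, uc3, DC.A', Matrix.of_apply]; ring
    rw [D.lf_d]
    simp only [DC.gr, DC.L, map_add (D.d k), D.dmul, e1]
    simp only [map_add, map_sub, map_mul, ev_hf, map_ofNat, map_sum]
    ring
  have hP := S.vn_nonneg (D.gr w) x
  have hr := S.vn_nonneg (D.dT (D.gr w)) x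
  have b1 : |1 / 2 - S.ev x D.V| ≤ α ^ 2 + 1 := by
    have := abs_le.1 (h.V_le x)
    rw [abs_le]; constructor <;> linarith
  have b2 : nr (fun k => ∑ q, S.ev x (uc3 D.A' (k, q)) * S.ev x (uc D.A q)) ≤ a₁ * α :=
    (nr_mv (fun p => S.ev x (uc3 D.A' p)) _).trans
      (mul_le_mul (h.hA' x) (h.hA x) (nr_nonneg _) ((nr_nonneg _).trans (h.hA' x)))
  have b3 := h.ap_le w x
  have b4 := (h.Av (D.ap w) x).trans (mul_le_mul_of_nonneg_left b3 hα)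
  have b5 : |S.ev x (∑ j, D.d j D.R * D.d j w + 2 * fp D.A (D.dM (D.gr w)))| ≤
      e₁ * S.vn (D.gr w) x + 2 * (α * S.vn (D.dT (D.gr w)) x) := by
    rw [map_add, map_mul, map_ofNat]
    refine (abs_add_le _ _).trans (add_le_add ?_ ?_)
    · simp only [map_sum, map_mul]
      exact (abs_dot_le _ _).trans (mul_le_mul_of_nonneg_right (h.hz x) (nr_nonneg _))
    · rw [abs_mul, abs_two]
      refine mul_le_mul_of_nonneg_left ?_ zero_le_two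
      simp only [fp, map_sum, map_mul]
      exact (abs_dot_le _ _).trans (mul_le_mul_of_nonneg_right (h.hA x) (nr_nonneg _))
  have b6 := vn_ν D S x
  have b7 := h.hR x
  unfold IS.vn at *
  simp only [e]
  refine (nr_add_le _ _).trans ((add_le_add ((nr_add_le _ _).trans (add_le_add
    ((nr_add_le _ _).trans (add_le_add ((nr_add_le _ _).trans (add_le_add (nr_add_le _ _) le_rfl))
    le_rfl)) le_rfl)) le_rfl).trans ?_)
  simp only [nr_smul, abs_neg, abs_mul, abs_two, b6, mul_one]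
  have c1 := mul_le_mul_of_nonneg_right b1 hP
  have c2 := mul_le_mul_of_nonneg_left b2 (abs_nonneg (S.ev x w))
  have c3 := mul_le_mul_of_nonneg_left b3 (abs_nonneg (S.ev x D.R))
  have c4 := mul_le_mul_of_nonneg_right b7 hP
  nlinarith

lemma IBP.gn1 (hI : IBP D S) {w : K} {m tΔ t₂ : ℝ} (hm0 : 0 ≤ m) (hm : ∀ x, |S.ev x w| ≤ m)
    (hΔ : S.Dom (S.v0 (D.lf w)) tΔ) (h2 : S.Dom (S.vn (uc (D.hs w))) t₂) :
    S.Dom (fun x => S.vn (D.gr w) x ^ 2) (m * (tΔ + 2 * t₂)) := by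
  have hd := ((hΔ.abs.add (h2.cmul zero_le_two)).cmul hm0)
  refine (IS.dom_of_sq_le (a := ∑ i, D.gr w i ^ 2) hd.1 fun r hr => ?_).mono'
    (fun x => le_of_eq (by rw [S.vn_sq]; rfl)) le_rfl
  have h0 := D.nd w
  have h1 := hI.divf (fun i => w * D.d i w * ∑ j, D.d j w ^ 2) (by
    generalize (∑ j, D.d j w ^ 2) = s
    simp only [Fin.sum_univ_four] at h0 ⊢
    linear_combination w * s * h0)
  have e : S.I ((∑ i, D.gr w i ^ 2) ^ 2) = S.I (-(w * (D.lf w * ∑ i, D.gr w i ^ 2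
      + 2 * ∑ i, D.gr w i * ∑ j, uc (D.hs w) (i, j) * D.gr w j))) := by
    rw [map_neg, eq_neg_iff_add_eq_zero, ← map_add, ← h1]
    congr 1
    simp only [DC.gr, uc, DC.hs, Matrix.of_apply, DC.lf, DC.lap, Fin.sum_univ_four, sq, map_add,
      D.dmul] at h0 ⊢
    linear_combination 2 * w * (D.d 0 w * D.ap w 0 + D.d 1 w * D.ap w 1 + D.d 2 w * D.ap w 2
      + D.d 3 w * D.ap w 3) * h0
  rw [e]
  refine hd.I_le hr fun x => ?_
  have b1 : |S.ev x (∑ i, D.gr w i * ∑ j, uc (D.hs w) (i, j) * D.gr w j)| ≤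
      S.vn (D.gr w) x * (S.vn (uc (D.hs w)) x * S.vn (D.gr w) x) := by
    simp only [map_sum, map_mul]
    exact (abs_dot_le _ _).trans (mul_le_mul_of_nonneg_left
      (nr_mv (fun p => S.ev x (uc (D.hs w) p)) _) (nr_nonneg _))
  have b2 : S.v0 (∑ i, D.gr w i ^ 2) x = S.vn (D.gr w) x ^ 2 := (S.vn_sq _ x).symm
  rw [map_neg, map_mul, map_add, map_mul, map_mul, map_ofNat, ← S.vn_sq, b2]
  refine (neg_le_abs _).trans ?_
  rw [abs_mul, mul_assoc]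
  refine mul_le_mul (hm x) ((abs_add_le _ _).trans ?_) (abs_nonneg _) hm0
  rw [abs_mul, abs_mul, abs_two, abs_of_nonneg (sq_nonneg (S.vn (D.gr w) x))]
  unfold IS.v0
  nlinarith

lemma IBP.gn2 (hI : IBP D S) {v : I4 → K} {m tΔ t₂ : ℝ} (hm0 : 0 ≤ m) (hm : ∀ x, S.vn v x ≤ m)
    (hΔ : S.Dom (S.vn fun k => D.lf (v k)) tΔ) (h2 : S.Dom (S.vn (D.dT (D.dT v))) t₂) :
    S.Dom (fun x => S.vn (D.dT v) x ^ 2) (m * (tΔ + 2 * t₂)) := by
  have hd := ((hΔ.add (h2.cmul zero_le_two)).cmul hm0)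
  refine (IS.dom_of_sq_le (a := ∑ p, D.dT v p ^ 2) hd.1 fun r hr => ?_).mono'
    (fun x => le_of_eq (by rw [S.vn_sq]; rfl)) le_rfl
  obtain ⟨s, hs⟩ : ∃ s, s = ∑ p, D.dT v p ^ 2 := ⟨_, rfl⟩
  have h0 := fun k => D.nd (v k)
  have h1 := hI.divf (fun i => (∑ k, D.d i (v k) * v k) * s) (by
    simp only [Fin.sum_univ_four] at h0 ⊢
    linear_combination s * v 0 * h0 0 + s * v 1 * h0 1 + s * v 2 * h0 2 + s * v 3 * h0 3)
  have hds : ∀ i, D.d i s = 2 * ∑ q, D.dT (D.dT v) (i, q) * D.dT v q := fun i => by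
    rw [hs, map_sum, mul_sum]
    exact sum_congr rfl fun q _ => by rw [sq, D.dmul]; simp only [DC.dT]; ring
  have e : S.I (s ^ 2) = S.I (-((∑ k, v k * D.lf (v k)) * s
      + 2 * ∑ i, (∑ k, D.dT v (i, k) * v k) * ∑ q, D.dT (D.dT v) (i, q) * D.dT v q)) := by
    rw [map_neg, eq_neg_iff_add_eq_zero, ← map_add, ← h1]
    congr 1
    simp only [D.dmul, hds]
    generalize (fun i => ∑ q, D.dT (D.dT v) (i, q) * D.dT v q) = t at *
    simp only [Fintype.sum_prod_type] at hs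
    simp only [DC.dT, DC.lf, DC.lap, Fin.sum_univ_four, map_add, D.dmul] at hs ⊢
    linear_combination s * hs
  rw [← hs] at hr ⊢
  rw [e]
  refine hd.I_le hr fun x => ?_
  have b0 : |S.ev x (∑ k, v k * D.lf (v k))| ≤ m * S.vn (fun k => D.lf (v k)) x := by
    simp only [map_sum, map_mul]
    exact (abs_dot_le _ _).trans (mul_le_mul_of_nonneg_right (hm x) (nr_nonneg _))
  have b1 : |S.ev x (∑ i, (∑ k, D.dT v (i, k) * v k) * ∑ q, D.dT (D.dT v) (i, q) * D.dT v q)| ≤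
      (S.vn (D.dT v) x * m) * (S.vn (D.dT (D.dT v)) x * S.vn (D.dT v) x) := by
    simp only [map_sum, map_mul]
    refine (abs_dot_le _ _).trans (mul_le_mul ?_ (nr_mv (fun p => S.ev x (D.dT (D.dT v) p)) _)
      (nr_nonneg _) (mul_nonneg (nr_nonneg _) hm0))
    exact (nr_mv (fun p => S.ev x (D.dT v p)) _).trans
      (mul_le_mul_of_nonneg_left (hm x) (nr_nonneg _))
  have b2 : S.ev x s = S.vn (D.dT v) x ^ 2 := by rw [hs]; exact (S.vn_sq _ x).symm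
  rw [map_neg, map_add, map_mul, map_mul, map_ofNat]
  unfold IS.v0
  rw [b2]
  have c0 := mul_le_mul_of_nonneg_right ((neg_le_abs _).trans b0) (sq_nonneg (S.vn (D.dT v) x))
  have c1 := (neg_le_abs _).trans b1
  nlinarith

end Pool.Agent.MP48470b.An
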