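import Pool.Agent.MP_48470b_gt.An.Boot
import Pool.Agent.MP_48470b_gt.An.Inv

/-! Existence of an exact solution near an approximate one. -/

namespace Pool.Agent.MP48470b.An

open Finset Matrix Pool.Agent.MP_48470b_gt.Sph Filter Topology

variable {f : I4 → R} {G : Set (E4 ≃ₗᵢ[ℝ] E4)}

/-- The stability operator as a linear map. -/
noncomputable def DC.Lm {K : Type*} [CommRing K] [Algebra ℝ K] (D : DC K) : K →ₗ[ℝ] K where
  toFun := D.L
  map_add' u v := by
    simp only [DC.L, DC.lf, DC.lap, map_add, Fin.sum_univ_four]; ring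
  map_smul' c u := by
    simp only [DC.L, DC.lf, DC.lap, Derivation.map_smul, Fin.sum_univ_four, RingHom.id_apply]
    simp only [Algebra.smul_def]
    ring

theorem solve_L (h : Imm f) (he : Eqv f G) {K₀ : ℝ}
    (gap : ∀ w ∈ invSub G, I (rho h * w ^ 2) ≤ K₀ ^ 2 * I (rho h * (dc h).L w ^ 2))
    {z : R} (hz : z ∈ invSub G) : ∃ w ∈ invSub G, (dc h).L w = z := by
  obtain ⟨lam, l0, hl⟩ := exists_lam (gi_pos h)
  refine solve_weak G (dc h).Lm l0 hl (fr h).L_eq (fun u hu => L_inv h he hu) (fun u hu h0 => ?_) hz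
  have h1 := gap u hu
  have h2 : (dc h).L u = 0 := h0
  have h3 : ∀ x, 0 ≤ (rho h * u ^ 2) x := fun x => by
    rw [R.mul_apply, R.pow_apply]; exact mul_nonneg (rho_pos h x).le (sq_nonneg _)
  rw [h2, zero_pow two_ne_zero, mul_zero, map_zero, mul_zero] at h1
  have h4 := eq_zero_of_I h3 (le_antisymm h1 (I_nonneg h3))
  refine R.ext fun x => ?_
  have h5 := congrArg (fun w : R => w x) h4
  simpa [(rho_pos h x).ne'] using h5

lemma tendsto_nr {ι : Type*} [Fintype ι] {v : ℕ → ι → ℝ} {w : ι → ℝ}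
    (h : ∀ i, Tendsto (fun n => v n i) atTop (𝓝 (w i))) :
    Tendsto (fun n => nr (v n)) atTop (𝓝 (nr w)) :=
  (tendsto_finsetSum _ fun i _ => (h i).pow 2).sqrt

theorem exists_sol (h : Imm f) (he : Eqv f G) (c : Cst) (cl : c.Close)
    (pb : PB (dc h) (wi h) c.α c.a₁ c.a₂ c.e₁ c.e₂)
    (res0 : (wi h).Dom ((wi h).v0 (dc h).R) c.ε₀)
    (res1 : (wi h).Dom ((wi h).vn ((dc h).gr (dc h).R)) c.ε₁)
    (sup : SupB (dc h) (wi h) c.c₀ c.c₁ c.c₂) (sup' : SupB (dc h) (wi h) c.b₀ c.b₁ c.b₂)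
    (gap : ∀ w ∈ invSub G, I (rho h * w ^ 2) ≤ c.K₀ ^ 2 * I (rho h * (dc h).L w ^ 2)) :
    ∃ u ω C, u ∈ invSub G ∧ (dc h).Aux u ω C ∧ (dc h).Eg u ω C = 0 ∧ (∀ x, |u x| ≤ c.m₀) ∧
      ∀ x, (wi h).vn ((dc h).gr u) x ≤ c.m₁ := by
  have H : Hyp (dc h) (wi h) (invSub G : Set R) c :=
    ⟨dc_ibp h, pb, cl, res0, res1, sup, sup', gap, fun z hz => solve_L h he gap hz,
      fun a ha => let ⟨b, hb⟩ := exists_inv a ha; IsUnit.of_mul_eq_one b hb,
      (invSub G).zero_mem, fun a ha b hb => (invSub G).sub_mem ha hb,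
      fun u hu ω C ha => Q_inv h he hu ha⟩
  obtain ⟨u, ω, C, hP⟩ := H.picard
  obtain ⟨w, hw⟩ := H.limit (fun n => (hP n).1) (fun n => (hP n).2.1) (fun n => (hP n).2.2.1)
    (fun n => (hP n).2.2.2)
  have l0 := fun n => H.lin0 (hP n).1.1 (hP n).1.2.1
  have l1 := fun n => H.lin1 (hP n).1
  have t0 : ∀ x, Tendsto (fun n => u n x) atTop (𝓝 (w x)) := (hw []).tendsto_at
  have t1 : ∀ a x, Tendsto (fun n => E a (u n) x) atTop (𝓝 (E a w x)) := fun a =>
    (hw [a]).tendsto_at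
  have t2 : ∀ a b x, Tendsto (fun n => E a (E b (u n)) x) atTop (𝓝 (E a (E b w) x)) := fun a b =>
    (hw [a, b]).tendsto_at
  have tg : ∀ x i, Tendsto (fun n => (dc h).gr (u n) i x) atTop (𝓝 ((dc h).gr w i x)) := by
    intro x i
    have e : ∀ v, (dc h).gr v i = ∑ a, (fr h).Q i a * E a v := (fr h).d_apply i
    simp only [e, R.sum_apply, R.mul_apply]
    exact tendsto_finsetSum _ fun a _ => (t1 a x).const_mul _
  have th : ∀ x p, Tendsto (fun n => uc ((dc h).hs (u n)) p x) atTop (𝓝 (uc ((dc h).hs w) p x)) := by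
    intro x p
    have e : ∀ v, uc ((dc h).hs v) p = _ := fun v => (fr h).hs_eq v p.1 p.2
    simp only [e, FR.hs0, Matrix.of_apply, R.sum_apply, R.mul_apply, R.add_apply]
    exact (tendsto_finsetSum _ fun a _ => tendsto_finsetSum _ fun b _ =>
      (t2 a b x).const_mul _).add ((tendsto_finsetSum _ fun a _ => (t1 a x).const_mul _).add
      ((tendsto_finsetSum _ fun k _ => (tendsto_finsetSum _ fun a _ =>
        (t1 a x).const_mul _).const_mul _).mul_const _))
  have tL : ∀ x, Tendsto (fun n => (dc h).L (u n) x) atTop (𝓝 ((dc h).L w x)) := by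
    intro x
    have e : ∀ v, (dc h).L v = _ := (fr h).L_eq
    simp only [e, R.sum_apply, R.mul_apply, R.add_apply]
    exact (tendsto_finsetSum _ fun a _ => tendsto_finsetSum _ fun b _ =>
      (t2 a b x).const_mul _).add ((tendsto_finsetSum _ fun a _ => (t1 a x).const_mul _).add
      ((t0 x).const_mul _))
  have w0 : ∀ x, |w x| ≤ c.m₀ := fun x => le_of_tendsto' (t0 x).abs fun n => (l0 n).sup x
  have w1 : ∀ x, (wi h).vn ((dc h).gr w) x ≤ c.m₁ := fun x =>
    le_of_tendsto' (tendsto_nr (tg x)) fun n => (l1 n).sup x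
  have wi' : w ∈ invSub G := fun g hg => R.ext fun x => by
    have a1 := t0 (sph g x)
    have a3 : ∀ n, u n (sph g x) = u n x := fun n => by rw [← act_apply, (hP n).1.1 g hg]
    simp only [a3] at a1
    rw [act_apply]
    exact tendsto_nhds_unique a1 (t0 x)
  obtain ⟨ω', C', ha⟩ := H.aux w0
  refine ⟨w, ω', C', wi', ha, R.ext fun x => ?_, w0, w1⟩
  have z0 : Tendsto (fun n => |(wi h).ev x (u n - w)|) atTop (𝓝 0) := by
    simpa using ((t0 x).sub_const (w x)).abs
  have z1 : Tendsto (fun n => (wi h).vn ((dc h).gr (u n - w)) x) atTop (𝓝 0) := by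
    have := tendsto_nr fun i => (tg x i).sub_const ((dc h).gr w i x)
    simp only [sub_self, nr_zero] at this
    simp only [← gr_sub]
    exact this
  have z2 : Tendsto (fun n => (wi h).vn (uc ((dc h).hs (u n - w))) x) atTop (𝓝 0) := by
    have := tendsto_nr fun i => (th x i).sub_const (uc ((dc h).hs w) i x)
    simp only [sub_self, nr_zero] at this
    simp only [← hs_sub]
    exact this
  have tn : Tendsto (fun n => (wi h).vn ((dc h).gr (u n)) x) atTop
      (𝓝 ((wi h).vn ((dc h).gr w) x)) := tendsto_nr (tg x)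
  have tQ : Tendsto (fun n => (dc h).Q (u n) (ω n) (C n) x) atTop (𝓝 ((dc h).Q w ω' C' x)) := by
    rw [tendsto_iff_norm_sub_tendsto_zero]
    refine squeeze_zero (fun _ => norm_nonneg _) (fun n => Q_sub_le pb cl.g1 cl.hg (hP n).2.1 ha x
      ((l0 n).sup x) (w0 x) ((l1 n).sup x) (w1 x)) ?_
    simpa using ((((((z2.const_mul _).add ((z0.mul_const _).const_mul _)).add
      ((z1.mul_const _).const_mul _)).add ((z1.mul tn).const_mul _)).add
      ((z1.mul_const _).const_mul _)).add (z0.const_mul _)).add (z1.const_mul _)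
  have e1 := (tL x).comp (tendsto_add_atTop_nat 1)
  have e2 : ∀ n, (dc h).L (u (n + 1)) x = (dc h).R x + (dc h).Q (u n) (ω n) (C n) x := fun n => by
    rw [(hP n).2.2.1]; rfl
  have e3 := tendsto_nhds_unique (e1.congr e2) (tQ.const_add _)
  rw [ha.Eg_eq, R.add_apply, R.sub_apply, e3, R.zero_apply]
  ring

end Pool.Agent.MP48470b.An
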