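import Mathlib

/-! Euclidean (Frobenius) size of a finite family of reals. -/

namespace Pool.Agent.MP48470b.An

open Finset

/-- Euclidean size of a finite family. -/
noncomputable def nr {ι : Type*} [Fintype ι] (v : ι → ℝ) : ℝ := √(∑ i, v i ^ 2)

variable {ι κ η : Type*} [Fintype ι] [Fintype κ] [Fintype η]

lemma nr_nonneg (v : ι → ℝ) : 0 ≤ nr v := Real.sqrt_nonneg _

lemma nr_sq (v : ι → ℝ) : nr v ^ 2 = ∑ i, v i ^ 2 :=
  Real.sq_sqrt (sum_nonneg fun _ _ => sq_nonneg _)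

lemma nr_le_of_sq {v : ι → ℝ} {c : ℝ} (hc : 0 ≤ c) (h : ∑ i, v i ^ 2 ≤ c ^ 2) : nr v ≤ c :=
  Real.sqrt_le_iff.2 ⟨hc, h⟩

lemma nr_le_nr {v : ι → ℝ} {w : κ → ℝ} (h : ∑ i, v i ^ 2 ≤ ∑ j, w j ^ 2) : nr v ≤ nr w :=
  Real.sqrt_le_sqrt h

lemma abs_dot_le (u v : ι → ℝ) : |∑ i, u i * v i| ≤ nr u * nr v := by
  apply abs_le_of_sq_le_sq' _ (mul_nonneg (nr_nonneg _) (nr_nonneg _)) |> abs_le.2
  rw [mul_pow, nr_sq, nr_sq]
  exact sum_mul_sq_le_sq_mul_sq _ _ _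

lemma dot_le (u v : ι → ℝ) : ∑ i, u i * v i ≤ nr u * nr v :=
  (le_abs_self _).trans (abs_dot_le u v)

lemma nr_add_le (u v : ι → ℝ) : nr (fun i => u i + v i) ≤ nr u + nr v := by
  apply nr_le_of_sq (add_nonneg (nr_nonneg _) (nr_nonneg _))
  have h : ∑ i, (u i + v i) ^ 2 = ∑ i, u i ^ 2 + 2 * ∑ i, u i * v i + ∑ i, v i ^ 2 := by
    rw [mul_sum, ← sum_add_distrib, ← sum_add_distrib]
    exact sum_congr rfl fun i _ => by ring
  rw [h, ← nr_sq, ← nr_sq]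
  nlinarith [dot_le u v]

lemma nr_smul (c : ℝ) (v : ι → ℝ) : nr (fun i => c * v i) = |c| * nr v := by
  unfold nr
  have h : ∑ i, (c * v i) ^ 2 = c ^ 2 * ∑ i, v i ^ 2 := by
    rw [mul_sum]; exact sum_congr rfl fun i _ => by ring
  rw [h, Real.sqrt_mul (sq_nonneg c), Real.sqrt_sq_eq_abs]

lemma nr_neg (v : ι → ℝ) : nr (fun i => - v i) = nr v := by
  unfold nr; congr 1; exact sum_congr rfl fun i _ => by ring

lemma nr_sub_le (u v : ι → ℝ) : nr (fun i => u i - v i) ≤ nr u + nr v := by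
  have := nr_add_le u (fun i => - v i)
  rw [nr_neg] at this
  simpa [sub_eq_add_neg] using this

lemma nr_zero : nr (fun _ : ι => (0 : ℝ)) = 0 := by simp [nr]

lemma abs_le_nr (v : ι → ℝ) (i : ι) : |v i| ≤ nr v := by
  apply abs_le_of_sq_le_sq' _ (nr_nonneg _) |> abs_le.2
  rw [nr_sq]
  exact single_le_sum (f := fun i => v i ^ 2) (fun _ _ => sq_nonneg _) (mem_univ i)

lemma nr_mv (a : ι × κ → ℝ) (v : κ → ℝ) :
    nr (fun i => ∑ j, a (i, j) * v j) ≤ nr a * nr v := by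
  apply nr_le_of_sq (mul_nonneg (nr_nonneg _) (nr_nonneg _))
  rw [mul_pow, nr_sq, nr_sq, Fintype.sum_prod_type, sum_mul]
  exact sum_le_sum fun i _ => sum_mul_sq_le_sq_mul_sq _ _ _

lemma nr_vm (v : ι → ℝ) (a : ι × κ → ℝ) :
    nr (fun j => ∑ i, v i * a (i, j)) ≤ nr v * nr a := by
  apply nr_le_of_sq (mul_nonneg (nr_nonneg _) (nr_nonneg _))
  rw [mul_pow, nr_sq, nr_sq, Fintype.sum_prod_type_right, mul_sum]
  exact sum_le_sum fun i _ => sum_mul_sq_le_sq_mul_sq _ _ _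

lemma nr_mm (a : ι × κ → ℝ) (b : κ × η → ℝ) :
    nr (fun p : ι × η => ∑ j, a (p.1, j) * b (j, p.2)) ≤ nr a * nr b := by
  apply nr_le_of_sq (mul_nonneg (nr_nonneg _) (nr_nonneg _))
  rw [mul_pow, nr_sq, nr_sq, Fintype.sum_prod_type, Fintype.sum_prod_type,
    Fintype.sum_prod_type_right, sum_mul]
  refine sum_le_sum fun i _ => ?_
  rw [mul_sum]
  exact sum_le_sum fun k _ => sum_mul_sq_le_sq_mul_sq _ _ _

lemma nr_out (u : ι → ℝ) (v : κ → ℝ) : nr (fun p : ι × κ => u p.1 * v p.2) ≤ nr u * nr v := by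
  apply nr_le_of_sq (mul_nonneg (nr_nonneg _) (nr_nonneg _))
  rw [mul_pow, nr_sq, nr_sq, Fintype.sum_prod_type, sum_mul_sum]
  exact le_of_eq (sum_congr rfl fun i _ => sum_congr rfl fun j _ => by ring)

lemma nr_equiv (e : κ ≃ ι) (v : ι → ℝ) : nr (fun k => v (e k)) = nr v := by
  unfold nr; congr 1; exact Equiv.sum_comp e (fun i => v i ^ 2)

lemma nr_tv (a : ι × (κ × η) → ℝ) (v : η → ℝ) :
    nr (fun p : ι × κ => ∑ j, a (p.1, (p.2, j)) * v j) ≤ nr a * nr v := by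
  have h := nr_mv (fun q : (ι × κ) × η => a (Equiv.prodAssoc ι κ η q)) v
  rw [nr_equiv] at h
  exact h

/-- Duality. -/
lemma nr_le_of_dot {a : ι → ℝ} {B : ℝ} (hB : 0 ≤ B)
    (h : ∀ ξ : ι → ℝ, nr ξ ≤ 1 → |∑ i, ξ i * a i| ≤ B) : nr a ≤ B := by
  rcases (nr_nonneg a).eq_or_lt with h0 | h0
  · rw [← h0]; exact hB
  · have h1 := h (fun i => (nr a)⁻¹ * a i) (by
      rw [nr_smul, abs_of_pos (inv_pos.2 h0), inv_mul_cancel₀ h0.ne'])
    have h2 : ∑ i, (nr a)⁻¹ * a i * a i = nr a := by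
      have : ∑ i, (nr a)⁻¹ * a i * a i = (nr a)⁻¹ * ∑ i, a i ^ 2 := by
        rw [mul_sum]; exact sum_congr rfl fun i _ => by ring
      rw [this, ← nr_sq]; field_simp
    rw [h2] at h1
    exact (le_abs_self _).trans h1

end Pool.Agent.MP48470b.An
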