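import Pool.Agent.MP_48470b_gt.An.Final

/-! A numerical instance of the closing inequalities. -/

namespace Pool.Agent.MP48470b.An

open Finset Matrix Pool.Agent.MP_48470b_gt Pool.Agent.MP_48470b_gt.Sph

/-- The constants. -/
noncomputable def c1 : Cst where
  α := 19 / 2
  a₁ := 4000
  a₂ := 10 ^ 8
  e₁ := 1 / 1000
  e₂ := 10 ^ 4
  ε₀ := 2 / 10 ^ 11
  ε₁ := 2 / 10 ^ 5
  K₀ := 20 / 3
  K₁ := 64
  Kh := 860
  Kr := 1055
  c₀ := 0.097 * (85 ^ 2 + 1) * 9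
  c₁ := 0.097 * 1400
  c₂ := 0.097 * 1500
  b₀ := 0.0281 * (1000 ^ 2 + 1) * 9
  b₁ := 0.0281 * 1400
  b₂ := 0.0281 * 1500
  g := 1.00007
  ρ₀ := 4 / 10 ^ 11
  ρ₁ := 22 / 10 ^ 6
  G := 12

theorem c1_close : c1.Close := by
  constructor <;>
    norm_num [c1, Cst.KΔ, Cst.Cs, Cst.m₀, Cst.tΔ, Cst.t3, Cst.m₁, Cst.G1, Cst.G2, Cst.β, Cst.kN,
      Cst.kp, Cst.ku, Cst.κ₀, Cst.κ, Cst.H1, cβ, cbN, cbp, ckN, ckp, cku]

variable {f : I4 → R}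

/-- **Analysis layer with numbers.** -/
theorem not_uniq_num (h : Imm f) (he : Eqv f {g | Gap.SP g})
    (hA : ∀ x, (wi h).vn (uc (dc h).A) x ≤ 19 / 2)
    (hA' : ∀ x, (wi h).vn (uc3 (dc h).A') x ≤ 4000)
    (hA'' : ∀ x, (wi h).vn ((dc h).dT (uc3 (dc h).A')) x ≤ 10 ^ 8)
    (r0 : ∀ x, rho h x * (dc h).R x ^ 2 ≤ (2 / 10 ^ 11) ^ 2)
    (r1 : ∀ x, rho h x * (wi h).vn ((dc h).gr (dc h).R) x ^ 2 ≤ (2 / 10 ^ 5) ^ 2)
    (r2 : ∀ x, (wi h).vn ((dc h).dT ((dc h).gr (dc h).R)) x ≤ 10 ^ 4)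
    (s0 : ∀ x, 1 ≤ 9 ^ 2 * rho h x)
    (s1 : ∀ x, ∑ k, Lap (f k) x ^ 2 - (∑ k, (dc h).ν k x * Lap (f k) x) ^ 2 ≤ 1400 ^ 2 * rho h x)
    (s2 : ∀ x, ∑ a, ∑ b, (∑ k, E a (f k) x * E b (f k) x) ^ 2 ≤ 1500 ^ 2 * rho h x)
    (gap : ∀ w ∈ invSub {g | Gap.SP g},
      I (rho h * w ^ 2) ≤ (20 / 3) ^ 2 * I (rho h * (dc h).L w ^ 2))
    (chk : ∀ x : S3, Emb.Ch x → ∃ N : Fin 4 → ℝ, Emb.Chk (fun j => f j x) N ∧
      ∀ i, ∑ j, E i (f j) x * N j = 0)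
    (hr : ∃ x y, nr (fun k => f k x) + 1 / 1000 < nr fun k => f k y) : ¬ Geo.Uniq := by
  refine not_uniq h he c1 c1_close ⟨hA, hA', hA'', fun x => ?_, fun x => ?_, r2⟩
    (dom_of_pt h (s := (dc h).R ^ 2) (by norm_num [c1]) (fun x => by simp [IS.v0])
      fun x => by simpa [c1] using r0 x)
    (dom_of_pt h (s := ∑ i, (dc h).gr (dc h).R i ^ 2) (by norm_num [c1])
      (fun x => ((wi h).vn_sq _ x).le) fun x => ((congrArg _ ((wi h).vn_sq _ x).symm).trans_le (r1 x)))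
    (supB h (by norm_num) (by norm_num)
      (fun N => (sum_le (a := 85) (by norm_num) N).trans (by norm_num)) (by norm_num) (by norm_num)
      (by norm_num) s0 s1 s2)
    (supB h (by norm_num) (by norm_num)
      (fun N => (sum_le (a := 1000) (by norm_num) N).trans (by norm_num)) (by norm_num)
      (by norm_num) (by norm_num) s0 s1 s2)
    gap (by norm_num [c1, Cst.m₀, Cst.Cs]) (by norm_num [c1, Cst.m₀, Cst.Cs, Cst.m₁, Cst.t3, Cst.tΔ])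
    chk hr
  · have h1 : (dc h).R x ^ 2 ≤ (1 / 19) ^ 2 := by
      nlinarith [r0 x, mul_le_mul_of_nonneg_right (s0 x) (sq_nonneg ((dc h).R x))]
    have h2 := abs_le.2 (abs_le_of_sq_le_sq' h1 (by norm_num))
    show |(dc h).R x| * (19 / 2) ≤ 1 / 2
    linarith
  · have h1 : (wi h).vn ((dc h).gr (dc h).R) x ^ 2 ≤ (1 / 1000) ^ 2 := by
      nlinarith [r1 x, mul_le_mul_of_nonneg_right (s0 x)
        (sq_nonneg ((wi h).vn ((dc h).gr (dc h).R) x))]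
    exact (abs_le_of_sq_le_sq' h1 (by norm_num)).2

end Pool.Agent.MP48470b.An
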