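import Pool.Agent.MP_48470b_gt.An.Fin2

/-! A numerical instance of the sharper closing inequalities. -/

namespace Pool.Agent.MP48470b.An

open Finset Matrix Pool.Agent.MP_48470b_gt Pool.Agent.MP_48470b_gt.Sph

/-- The constants. -/
noncomputable def c2 : Cs2 where
  α := 17 / 2
  a₁ := 4000
  a₂ := 100000000
  e₁ := 1 / 200
  e₂ := 1000000
  K₀ := 20 / 3
  sE := 1018 / 5
  rm := 163 / 25
  v₁ := 900
  v₂ := 16501
  x₁ := 26 / 5
  x₂ := 92
  y₁ := 100000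
  y₂ := 16000000
  z₁ := 27 / 20000
  z₂ := 2
  d₁ := 36
  d₂ := 8000
  c₁ := 135
  c₂ := 3000
  ζ := 843 / 1000
  δ := 125 / 2
  γ := 28
  K₁ := 5693 / 100
  KΔ := 4861 / 10
  Kh := 6859 / 10
  Kr := 1679 / 2
  P := 1005
  Dv := 9480
  Hv := 10330
  Rv := 10590
  C := 1653 / 10000
  s := 901
  T₀ := 1269 / 25
  T₁ := 7893
  T₂ := 125800
  Cs := 29660
  C' := 339 / 2500
  s' := 1937
  Cw := 5791
  M := 87530
  N := 25000000
  Y := 152100
  ρ₀ := 901 / 1000000000000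
  ρ₁ := 513 / 1000000
  ρv := 583 / 100000
  tΔ := 591 / 625000
  t3 := 1917 / 2000000
  t3v := 8211 / 1000000
  C'' := 87 / 2500
  s'' := 422501
  U₀ := 7981 / 100000000000
  U₁ := 8863 / 100000000
  U₂ := 1089 / 10000
  m := 4967 / 1000000
  m₀ := 2673 / 100000000
  η := 7887 / 100000000
  μ := 2253 / 100000
  g := 6250493 / 6250000
  g' := 10002273 / 10000000
  G := 28
  ε₀ := 127 / 250000000000
  ε₁ := 509 / 1000000
  εv := 509 / 100000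

theorem c2_close : c2.Close := by
  constructor <;>
    norm_num [c2, Cs2.G1, Cs2.Gχ, Cs2.G2, Cs2.kN, Cs2.kp, Cs2.κ₀, Cs2.κ, Cs2.H1, cH, cβ, cbN, cbp, ckN, ckp,
      cku, ckN2, ckp2]

theorem c2_close2 : c2.Close2 := by
  refine ⟨?_, by norm_num [c2],
    fun N => le_of_eq_of_le (by norm_num [c2]) ((sum_le (a := 30) (by norm_num) N).trans ?_),
    fun N => le_of_eq_of_le (by norm_num [c2]) ((sum_le (a := 44) (by norm_num) N).trans ?_),
    fun N => le_of_eq_of_le (by norm_num [c2]) ((sum_le (a := 650) (by norm_num) N).trans ?_),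
    ?_, ?_, ?_, ?_, ?_, ?_⟩
  · refine le_of_pow_le_pow_left₀ (n := 19) (by norm_num) c2.sE.coe_nonneg ?_
    rw [← Real.exp_nat_mul]
    refine (Real.exp_le_exp.2 (show _ ≤ ((101 : ℕ) : ℝ) * 1 by norm_num [c2])).trans ?_
    rw [Real.exp_nat_mul]
    exact (pow_le_pow_left₀ (Real.exp_pos 1).le Real.exp_one_lt_d9.le 101).trans (by norm_num [c2])
  all_goals norm_num [c2]

variable {f : I4 → R}

/-- **Analysis layer with numbers, sharper version.** -/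
theorem not_uniq_num2 (h : Imm f) (he : Eqv f {g | Gap.SP g})
    (hA : ∀ x, (wi h).vn (uc (dc h).A) x ≤ 17 / 2)
    (hA' : ∀ x, (wi h).vn (uc3 (dc h).A') x ≤ 4000)
    (hA'' : ∀ x, (wi h).vn ((dc h).dT (uc3 (dc h).A')) x ≤ 100000000)
    (r0 : ∀ x, rho h x * (dc h).R x ^ 2 ≤ (127 / 250000000000) ^ 2)
    (r1 : ∀ x, rho h x * (wi h).vn ((dc h).gr (dc h).R) x ^ 2 ≤ (509 / 1000000) ^ 2)
    (rv : ∀ x, rho h x * (wi h).vn ((dc h).gr (dc h).R) x ^ 2 ≤ (509 / 100000) ^ 2 * ee f x)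
    (r2 : ∀ x, (wi h).vn ((dc h).dT ((dc h).gr (dc h).R)) x ≤ 1000000)
    (rm : ∀ x, ∑ k, f k x ^ 2 ≤ (163 / 25) ^ 2)
    (hx : ∀ x, (wi h).vn (uc (dc h).A) x ^ 2 ≤ 26 / 5 + 92 * ee f x)
    (hy : ∀ x, (wi h).vn (uc3 (dc h).A') x ^ 2 ≤ 100000 + 16000000 * ee f x)
    (v1 : ∀ x, ((wi h).vn (uc (dc h).A) x ^ 2 + 1 / 2) ^ 2 ≤ 900 ^ 2 * ee f x)
    (v2 : ∀ x, (wi h).vn (uc (dc h).A) x ^ 2 + 5 / 4 - (dc h).lam x ^ 2 / 8 ≤ 16500 * ee f x)
    (s0 : ∀ x, 1 ≤ √(gram f x) * (27 / 20000 + 2 * ee f x))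
    (s1 : ∀ x, ∑ k, Lap (f k) x ^ 2 - (∑ k, (dc h).ν k x * Lap (f k) x) ^ 2 ≤
      √(gram f x) * (36 + 8000 * ee f x))
    (s2 : ∀ x, ∑ a, ∑ b, (∑ k, E a (f k) x * E b (f k) x) ^ 2 ≤
      √(gram f x) * (135 + 3000 * ee f x))
    (t0 : ∀ x, 1 ≤ (843 / 1000) ^ 2 * √(gram f x))
    (t1 : ∀ x, ∑ k, Lap (f k) x ^ 2 - (∑ k, (dc h).ν k x * Lap (f k) x) ^ 2 ≤
      (125 / 2) ^ 2 * √(gram f x))
    (t2 : ∀ x, ∑ a, ∑ b, (∑ k, E a (f k) x * E b (f k) x) ^ 2 ≤ 28 ^ 2 * √(gram f x))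
    (gap : ∀ w ∈ invSub {g | Gap.SP g},
      I (rho h * w ^ 2) ≤ (20 / 3) ^ 2 * I (rho h * (dc h).L w ^ 2))
    (chk : ∀ x : S3, Emb.Ch x → ∃ N : Fin 4 → ℝ, Emb.Chk (fun j => f j x) N ∧
      ∀ i, ∑ j, E i (f j) x * N j = 0)
    (hr : ∃ x y, nr (fun k => f k x) + 1 / 1000 < nr fun k => f k y) : ¬ Geo.Uniq :=
  not_uniq2 h he c2 c2_close c2_close2
    (fun x => (hA x).trans_eq (by norm_num [c2]))
    (fun x => (hA' x).trans_eq (by norm_num [c2]))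
    (fun x => (hA'' x).trans_eq (by norm_num [c2]))
    (fun x => (r0 x).trans_eq (by norm_num [c2]))
    (fun x => (r1 x).trans_eq (by norm_num [c2]))
    (fun x => (rv x).trans_eq (by norm_num [c2]))
    (fun x => (r2 x).trans_eq (by norm_num [c2]))
    (fun x => (rm x).trans_eq (by norm_num [c2]))
    (fun x => (hx x).trans_eq (by norm_num [c2]))
    (fun x => (hy x).trans_eq (by norm_num [c2]))
    (fun x => (v1 x).trans_eq (by norm_num [c2]))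
    (fun x => (v2 x).trans_eq (by norm_num [c2]))
    (fun x => (s0 x).trans_eq (by norm_num [c2]))
    (fun x => (s1 x).trans_eq (by norm_num [c2]))
    (fun x => (s2 x).trans_eq (by norm_num [c2]))
    (fun x => (t0 x).trans_eq (by norm_num [c2]))
    (fun x => (t1 x).trans_eq (by norm_num [c2]))
    (fun x => (t2 x).trans_eq (by norm_num [c2]))
    (fun w hw => (gap w hw).trans_eq (by norm_num [c2])) chk hr

end Pool.Agent.MP48470b.An
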