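import Pool.Agent.MP_48470b_gt.An.Lin
import Pool.Agent.MP_48470b_gt.An.Eqn

/-! The Picard iteration with explicit constants. -/

namespace Pool.Agent.MP48470b.An

open Finset Matrix

variable {K : Type*} [CommRing K] [Algebra ℝ K] {X : Type*}

/-- A sup bound by mean-square norms of two derivatives. -/
def SupB (D : DC K) (S : IS K X) (c₀ c₁ c₂ : ℝ) : Prop :=
  ∀ w t₀ t₁ t₂, S.Dom (S.v0 w) t₀ → S.Dom (S.vn (D.gr w)) t₁ → S.Dom (S.vn (uc (D.hs w))) t₂ →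
    ∀ x, |S.ev x w| ≤ c₀ * t₀ + c₁ * t₁ + c₂ * t₂

/-- The numerical data. -/
structure Cst where
  (α a₁ a₂ e₁ e₂ ε₀ ε₁ K₀ K₁ Kh Kr c₀ c₁ c₂ b₀ b₁ b₂ g ρ₀ ρ₁ G : ℝ)

namespace Cst
variable (c : Cst)
/-- Constant. -/
noncomputable def KΔ : ℝ := 1 + (c.α ^ 2 + 1 / 2) * c.K₀
/-- Constant. -/
def Cs : ℝ := c.c₀ * c.K₀ + c.c₁ * c.K₁ + c.c₂ * c.Kh
/-- Bound for the function. -/
def m₀ : ℝ := c.Cs * c.ρ₀
/-- Constant. -/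
noncomputable def tΔ : ℝ :=
  c.ρ₁ + (3 * c.α ^ 2 + 3 / 2 + c.e₁) * (c.K₁ * c.ρ₀) + 2 * c.α * c.a₁ * (c.K₀ * c.ρ₀)
    + 2 * c.α * (c.Kr * c.ρ₀)
/-- Constant. -/
noncomputable def t3 : ℝ := c.tΔ + 2 * c.α * (c.Kr * c.ρ₀)
/-- Bound for the gradient. -/
noncomputable def m₁ : ℝ := c.b₀ * (c.K₁ * c.ρ₀) + c.b₁ * (c.Kr * c.ρ₀) + c.b₂ * c.t3
/-- Constant. -/
noncomputable def G1 : ℝ := c.Cs * (c.KΔ + 2 * c.Kh)
/-- Constant. -/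
noncomputable def G2 : ℝ := c.m₁ * (c.tΔ + 2 * c.t3)
/-- Constant. -/
noncomputable def β : ℝ := cβ c.g c.m₁
/-- Constant. -/
noncomputable def kN : ℝ := ckN c.α c.a₁ c.e₁ c.g c.m₀ c.m₁
/-- Constant. -/
noncomputable def kp : ℝ := ckp c.α c.a₁ c.e₁ c.g c.m₀ c.m₁
/-- Constant. -/
noncomputable def ku : ℝ := cku c.a₁ c.e₁ c.g c.m₁
/-- Growth constant. -/
noncomputable def κ₀ : ℝ := c.β * c.Kh + c.α * c.g ^ 3 * c.G1 * c.ρ₀ + c.kN * c.α * c.K₀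
  + c.kp * c.K₁ + c.ku * c.K₀
/-- Contraction constant. -/
noncomputable def κ : ℝ := c.κ₀ + cbN c.g c.m₁ * c.α * c.Cs * c.Kh * c.ρ₀ + cbp c.g c.m₁ * c.G
  + c.α * c.g ^ 3 * c.G1 * c.ρ₀
/-- Bound for the gradient of the remainder. -/
noncomputable def H1 : ℝ :=
  c.β * (c.t3 + (c.a₁ + c.α ^ 2) * (c.K₁ * c.ρ₀) + c.α * (c.Kr * c.ρ₀))
  + cbN c.g c.m₁ * (c.m₁ * c.α + c.m₀ * c.a₁) * (c.Kh * c.ρ₀) + cbp c.g c.m₁ * c.G2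
  + (2 * c.α * c.g ^ 3 * c.m₁ + c.kp) * (c.Kr * c.ρ₀)
  + (c.kN * c.α + c.ku + (c.g ^ 3 * c.m₁ * c.a₁ + c.m₀ * c.β * c.g * c.a₂ + c.m₀ * c.g * c.e₂))
    * (c.K₁ * c.ρ₀)
  + (c.kN * c.a₁ + c.α * c.m₀ * c.α * c.g * c.a₁) * (c.K₀ * c.ρ₀)

/-- The closing inequalities. -/
structure Close : Prop where
  α0 : 0 ≤ c.α
  a₁0 : 0 ≤ c.a₁
  a₂0 : 0 ≤ c.a₂
  e₁0 : 0 ≤ c.e₁
  e₂0 : 0 ≤ c.e₂
  K₀0 : 0 ≤ c.K₀
  K₁0 : 0 ≤ c.K₁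
  Kh0 : 0 ≤ c.Kh
  Kr0 : 0 ≤ c.Kr
  c₀0 : 0 ≤ c.c₀
  c₁0 : 0 ≤ c.c₁
  c₂0 : 0 ≤ c.c₂
  b₀0 : 0 ≤ c.b₀
  b₁0 : 0 ≤ c.b₁
  b₂0 : 0 ≤ c.b₂
  ρ₀0 : 0 ≤ c.ρ₀
  ρ₁0 : 0 ≤ c.ρ₁
  G0 : 0 ≤ c.G
  hK₁ : (c.α ^ 2 + 1 / 2) * c.K₀ ^ 2 + c.K₀ ≤ c.K₁ ^ 2
  hKh : c.KΔ ^ 2 + (c.α * c.K₁) ^ 2 ≤ c.Kh ^ 2
  hKr : c.KΔ ^ 2 + 2 * (c.α * c.K₁) ^ 2 ≤ c.Kr ^ 2
  g1 : 1 ≤ c.g
  hg : 1 + c.α * c.m₀ * c.g ≤ c.g
  hG : c.G1 * c.G2 ≤ c.G ^ 2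
  self0 : c.ε₀ + c.κ₀ * c.ρ₀ ≤ c.ρ₀
  self1 : c.ε₁ + c.H1 ≤ c.ρ₁
  contr : c.κ < 1
  hβ : c.β < 1

end Cst

/-- All hypotheses of the iteration. -/
structure Hyp (D : DC K) (S : IS K X) (Inv : Set K) (c : Cst) : Prop where
  ibp : IBP D S
  pb : PB D S c.α c.a₁ c.a₂ c.e₁ c.e₂
  cl : c.Close
  res0 : S.Dom (S.v0 D.R) c.ε₀
  res1 : S.Dom (S.vn (D.gr D.R)) c.ε₁
  sup : SupB D S c.c₀ c.c₁ c.c₂
  sup' : SupB D S c.b₀ c.b₁ c.b₂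
  gap : ∀ w ∈ Inv, S.I (w ^ 2) ≤ c.K₀ ^ 2 * S.I (D.L w ^ 2)
  solve : ∀ h ∈ Inv, ∃ w ∈ Inv, D.L w = h
  unit : ∀ a : K, (∀ x, S.ev x a ≠ 0) → IsUnit a
  inv0 : (0 : K) ∈ Inv
  invs : ∀ a ∈ Inv, ∀ b ∈ Inv, a - b ∈ Inv
  invQ : ∀ u ∈ Inv, ∀ ω C, D.Aux u ω C → D.R + D.Q u ω C ∈ Inv

variable {D : DC K} {S : IS K X} {Inv : Set K} {c : Cst}

/-- Consequences of a bound on `L w`. -/
structure Lin0 (D : DC K) (S : IS K X) (c : Cst) (w : K) (ρ : ℝ) : Prop where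
  n0 : S.Dom (S.v0 w) (c.K₀ * ρ)
  n1 : S.Dom (S.vn (D.gr w)) (c.K₁ * ρ)
  nh : S.Dom (S.vn (uc (D.hs w))) (c.Kh * ρ)
  nr : S.Dom (S.vn (D.dT (D.gr w))) (c.Kr * ρ)
  sup : ∀ x, |S.ev x w| ≤ c.Cs * ρ
  n4 : S.Dom (fun x => S.vn (D.gr w) x ^ 2) (c.G1 * ρ ^ 2)

lemma Hyp.lin0 (h : Hyp D S Inv c) {w : K} (hw : w ∈ Inv) {ρ : ℝ}
    (hL : S.Dom (S.v0 (D.L w)) ρ) : Lin0 D S c w ρ := by
  have cl := h.cl
  have hρ := hL.1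
  have := cl.K₀0; have := cl.K₁0; have := cl.Kh0; have := cl.Kr0
  have := cl.c₀0; have := cl.c₁0; have := cl.c₂0
  have n0 : S.Dom (S.v0 w) (c.K₀ * ρ) := IS.dom_v0.2 ⟨by positivity, (h.gap w hw).trans (by
    rw [mul_pow]; exact mul_le_mul_of_nonneg_left (IS.dom_v0.1 hL).2 (sq_nonneg _))⟩
  have n1 : S.Dom (S.vn (D.gr w)) (c.K₁ * ρ) := h.pb.lin1 h.ibp hL n0 (by positivity)
    (by nlinarith [mul_le_mul_of_nonneg_right cl.hK₁ (sq_nonneg ρ)])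
  have nΔ : S.Dom (S.v0 (D.lf w)) (c.KΔ * ρ) :=
    (h.pb.linΔ hL n0).le (le_of_eq (by unfold Cst.KΔ; ring))
  have nh : S.Dom (S.vn (uc (D.hs w))) (c.Kh * ρ) := h.pb.lin2h h.ibp cl.α0 nΔ n1 (by positivity)
    (by nlinarith [mul_le_mul_of_nonneg_right cl.hKh (sq_nonneg ρ)])
  have nr : S.Dom (S.vn (D.dT (D.gr w))) (c.Kr * ρ) := h.pb.lin2r h.ibp cl.α0 nΔ n1
    (by positivity) (by nlinarith [mul_le_mul_of_nonneg_right cl.hKr (sq_nonneg ρ)])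
  have sup : ∀ x, |S.ev x w| ≤ c.Cs * ρ := fun x =>
    (h.sup w _ _ _ n0 n1 nh x).trans (le_of_eq (by unfold Cst.Cs; ring))
  exact ⟨n0, n1, nh, nr, sup, (h.ibp.gn1 (by unfold Cst.Cs; positivity) sup nΔ nh).le
    (le_of_eq (by unfold Cst.G1; ring))⟩

/-- The ball of the iteration. -/
def Ball (D : DC K) (S : IS K X) (Inv : Set K) (c : Cst) (u : K) : Prop :=
  u ∈ Inv ∧ S.Dom (S.v0 (D.L u)) c.ρ₀ ∧ S.Dom (S.vn (D.gr (D.L u))) c.ρ₁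

/-- Third order consequences. -/
structure Lin1 (D : DC K) (S : IS K X) (c : Cst) (u : K) : Prop where
  n3 : S.Dom (S.vn (D.dT (D.dT (D.gr u)))) c.t3
  sup : ∀ x, S.vn (D.gr u) x ≤ c.m₁
  n4 : S.Dom (fun x => S.vn (D.dT (D.gr u)) x ^ 2) c.G2

lemma Cst.Close.m₀0 (cl : c.Close) : 0 ≤ c.m₀ := by
  have := cl.K₀0; have := cl.K₁0; have := cl.Kh0; have := cl.ρ₀0
  have := cl.c₀0; have := cl.c₁0; have := cl.c₂0
  unfold Cst.m₀ Cst.Cs; positivity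

lemma Cst.Close.m₁0 (cl : c.Close) : 0 ≤ c.m₁ := by
  have := cl.K₀0; have := cl.K₁0; have := cl.Kr0; have := cl.ρ₀0; have := cl.ρ₁0
  have := cl.b₀0; have := cl.b₁0; have := cl.b₂0; have := cl.α0; have := cl.a₁0; have := cl.e₁0
  unfold Cst.m₁ Cst.t3 Cst.tΔ; positivity

lemma Hyp.lin1 (h : Hyp D S Inv c) {u : K} (hu : Ball D S Inv c u) : Lin1 D S c u := by
  have cl := h.cl
  have l0 := h.lin0 hu.1 hu.2.1
  have := cl.α0; have := cl.a₁0; have := cl.e₁0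
  have nΔ : S.Dom (S.vn fun k => D.lf (D.d k u)) c.tΔ :=
    (((hu.2.2.add (l0.n1.cmul (c := 3 * c.α ^ 2 + 3 / 2 + c.e₁) (by positivity))).add
      (l0.n0.abs.cmul (c := 2 * c.α * c.a₁) (by positivity))).add
      (l0.nr.cmul (c := 2 * c.α) (by positivity))).mono
      (fun x => by rw [abs_of_nonneg (S.vn_nonneg _ _)]; exact h.pb.lf3_le u x) le_rfl
  have n3 : S.Dom (S.vn (D.dT (D.dT (D.gr u)))) c.t3 := h.pb.lin3 h.ibp cl.α0 nΔ l0.nr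
  have sup : ∀ x, S.vn (D.gr u) x ≤ c.m₁ := fun x => by
    refine nr_le_of_dot cl.m₁0 fun ξ hξ => ?_
    have e : ∑ i, ξ i * S.ev x (D.gr u i) = S.ev x (∑ k, ξ k • D.d k u) := by simp [DC.gr]
    rw [e]
    refine h.sup' _ _ _ _ (l0.n1.mono (fun y => ?_) le_rfl) (l0.nr.mono (fun y => ?_) le_rfl)
      (n3.mono (fun y => ?_) le_rfl) x
    · simp only [IS.v0, map_sum, map_smul, smul_eq_mul]
      exact (abs_dot_le _ _).trans (mul_le_of_le_one_left (nr_nonneg _) hξ)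
    · rw [abs_of_nonneg (S.vn_nonneg _ _)]
      simp only [IS.vn, DC.gr, map_sum, Derivation.map_smul, map_smul, smul_eq_mul, mul_comm (ξ _)]
      exact (nr_mv (fun p => S.ev y (D.dT (D.gr u) p)) ξ).trans
        (mul_le_of_le_one_right (nr_nonneg _) hξ)
    · rw [abs_of_nonneg (S.vn_nonneg _ _)]
      refine (hs_le D S _ y).trans ?_
      simp only [IS.vn, DC.gr, DC.dT, map_sum, Derivation.map_smul, map_smul, smul_eq_mul,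
        mul_comm (ξ _)]
      exact (nr_tv (fun p => S.ev y (D.dT (D.dT (D.gr u)) p)) ξ).trans
        (mul_le_of_le_one_right (nr_nonneg _) hξ)
  exact ⟨n3, sup, h.ibp.gn2 cl.m₁0 sup nΔ n3⟩

lemma Hyp.aux (h : Hyp D S Inv c) {u : K} (hu : ∀ x, |S.ev x u| ≤ c.m₀) :
    ∃ ω C, D.Aux u ω C := by
  have cl := h.cl
  have h1 : IsUnit (1 + u • D.A).det := h.unit _ fun x hx => by
    rw [AlgHom.map_det] at hx
    obtain ⟨v, hv0, hv⟩ := Matrix.exists_mulVec_eq_zero_iff.2 hx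
    have e : v = fun i => (- S.ev x u) * ∑ j, S.ev x (uc D.A (i, j)) * v j := by
      ext i
      have := congrFun hv i
      simp only [map_add, map_one, add_mulVec, one_mulVec, Pi.add_apply, Pi.zero_apply] at this
      simp only [mulVec, dotProduct, AlgHom.mapMatrix_apply, map_apply, Matrix.smul_apply,
        smul_eq_mul, map_mul, mul_assoc, ← mul_sum] at this
      simp only [uc]
      linarith
    have h2 : nr v ≤ c.m₀ * (c.α * nr v) := by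
      nth_rewrite 1 [e]
      rw [nr_smul, abs_neg]
      exact mul_le_mul (hu x) ((nr_mv (fun p => S.ev x (uc D.A p)) v).trans
        (mul_le_mul_of_nonneg_right (h.pb.hA x) (nr_nonneg _))) (nr_nonneg _) cl.m₀0
    have h3 : c.α * c.m₀ < 1 := by nlinarith [cl.hg, cl.g1, mul_nonneg cl.α0 cl.m₀0]
    have h4 : nr v ≤ 0 := by nlinarith [nr_nonneg v]
    exact hv0 (funext fun i => abs_nonpos_iff.1 ((abs_le_nr v i).trans h4))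
  have h2 := Matrix.mul_nonsing_inv _ h1
  obtain ⟨C, hC⟩ : ∃ C, (1 + u • D.A)⁻¹ = 1 + C := ⟨(1 + u • D.A)⁻¹ - 1, by abel⟩
  rw [hC] at h2
  have h3 : IsUnit (1 + qq C (D.gr u) ⬝ᵥ qq C (D.gr u)) := h.unit _ fun x => by
    simp only [dotProduct, map_add, map_one, map_sum, map_mul]
    have := sum_nonneg fun i (_ : i ∈ univ) => mul_self_nonneg (S.ev x (qq C (D.gr u) i))
    linarith
  obtain ⟨ω, hω⟩ := h3.exists_left_inv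
  refine ⟨ω, C, ?_, hω⟩
  calc C = (1 + u • D.A) * (1 + C) - 1 + (-(u • D.A) - (u • D.A) * C) := by noncomm_ring
    _ = _ := by rw [h2, sub_self, zero_add]

end Pool.Agent.MP48470b.An
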