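import Pool.Agent.MP_48470b_gt.An.TD

/-! The nonlinear remainder and its pointwise bound. -/

namespace Pool.Agent.MP48470b.An

open Finset Matrix

section defs
variable {K : Type*} [CommRing K]

/-- `(1 + C) p`. -/
def qq (C : Matrix I4 I4 K) (p : I4 → K) : I4 → K := p + C *ᵥ p

/-- Inverse metric of the graph minus the identity. -/
def bb (C : Matrix I4 I4 K) (p : I4 → K) (ω : K) : Matrix I4 I4 K :=
  C + C + C * C - ω • vecMulVec (qq C (qq C p)) (qq C (qq C p))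

/-- The nonlinear remainder. -/
def Qf (u ω : K) (p z : I4 → K) (h A C : Matrix I4 I4 K) (A' : I4 → Matrix I4 I4 K) : K :=
  fp ((u • A) * (u • A)) (A + A * C) - fp (bb C p ω) h
    + ω * (qq C (qq C p) ⬝ᵥ (A *ᵥ qq C p)) + u * fp (bb C p ω) (tv A' (qq C p))
    + u * (z ⬝ᵥ qq C p)

end defs

/-- Size of `bb`. -/
def cβ (g m : ℝ) : ℝ := g ^ 2 - 1 + g ^ 4 * m ^ 2
/-- Constant. -/
def cbN (g m : ℝ) : ℝ := 2 * g ^ 3 + 2 * g ^ 7 * m ^ 4 + 4 * g ^ 5 * m ^ 2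
/-- Constant. -/
def cbp (g m : ℝ) : ℝ := 2 * g ^ 6 * m ^ 3 + 2 * g ^ 4 * m
/-- Constant. -/
def ckN (α a₁ e₁ g m₀ m : ℝ) : ℝ :=
  2 * (α * m₀) * α * g + (α * m₀) ^ 2 * α * g ^ 2 + 2 * α * g ^ 6 * m ^ 4 + 3 * α * g ^ 4 * m ^ 2
    + m₀ * a₁ * g * m * cbN g m + m₀ * cβ g m * a₁ * g ^ 2 * m + m₀ * e₁ * g ^ 2 * m
/-- Constant. -/
def ckp (α a₁ e₁ g m₀ m : ℝ) : ℝ :=
  2 * α * g ^ 5 * m ^ 3 + m₀ * a₁ * g * m * cbp g m + m₀ * cβ g m * a₁ * g + m₀ * e₁ * g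
/-- Constant. -/
def cku (a₁ e₁ g m : ℝ) : ℝ := cβ g m * a₁ * g * m + e₁ * g * m

namespace TD

variable {K : Type*} [CommRing K] {T : TD K}

lemma C_bound {N C : Matrix I4 I4 K} {η g L : ℝ} (hC : C = -N - N * C) (hg1 : 1 ≤ g)
    (hg : 1 + η * g ≤ g) (hN : T.Bd (uc N) η η L) : T.Bd (uc C) (g - 1) (g - 1) (g ^ 2 * L) := by
  have h0 : T.Bd (uc C) _ _ _ := ⟨le_refl _, le_refl _, le_refl _⟩
  have hn : T.Bd (uc (-N)) η η L := by
    have e : uc (-N) = fun i => - uc N i := rfl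
    rw [e]
    refine ⟨?_, ?_, ?_⟩ <;> simp only [map_neg] <;> rw [nr_neg]
    exacts [hN.1, hN.2.1, hN.2.2]
  have h1 := hn.subM (hN.mulM h0)
  rw [← hC] at h1
  have hη := hN.n1
  have hL := hN.n3
  have hη1 : η < 1 := by nlinarith
  have key : ∀ x : ℝ, x ≤ η + η * x → x ≤ g - 1 := fun x hx => by
    by_contra hc
    push Not at hc
    nlinarith
  have a1 := key _ h1.1
  have a2 := key _ h1.2.1
  refine ⟨a1, a2, ?_⟩
  have a3 := h1.2.2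
  set z := nr fun i => T.d (uc C i)
  set y := nr fun i => T.t (uc C i)
  have a4 : z * (1 - η) ≤ g * L := by nlinarith
  have a5 : 1 ≤ g * (1 - η) := by linarith
  have hz : 0 ≤ z := nr_nonneg _
  calc z ≤ z * (g * (1 - η)) := le_mul_of_one_le_right hz a5
    _ = g * (z * (1 - η)) := by ring
    _ ≤ g * (g * L) := by gcongr
    _ = g ^ 2 * L := by ring

lemma ω_bound {ω : K} {q : I4 → K} {x y z : ℝ} (hω : ω * (1 + q ⬝ᵥ q) = 1) (hq : T.Bd q x y z) :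
    T.B0 ω 1 1 (z * y + x * z) := by
  have key : ∀ φ : K →+* ℝ, 0 ≤ φ (q ⬝ᵥ q) ∧ |φ ω| ≤ 1 := fun φ => by
    have h1 : 0 ≤ φ (q ⬝ᵥ q) := by
      simp only [dotProduct, map_sum, map_mul]
      exact sum_nonneg fun i _ => mul_self_nonneg _
    have h2 : φ ω * (1 + φ (q ⬝ᵥ q)) = 1 := by
      have := congrArg φ hω
      simpa using this
    refine ⟨h1, ?_⟩
    have h3 : 0 < φ ω := by
      by_contra hc
      push Not at hc
      nlinarith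
    rw [abs_of_pos h3]; nlinarith
  refine ⟨(key T.s).2, (key T.t).2, ?_⟩
  have h1 := congrArg T.d hω
  rw [T.mul, T.d_one, map_add, map_add, T.d_one, map_one, zero_add] at h1
  have h2 := (hq.dotV hq).2.2
  have h3 : |T.d ω| * (1 + T.t (q ⬝ᵥ q)) = |T.s ω| * |T.d (q ⬝ᵥ q)| := by
    have e : T.d ω * (1 + T.t (q ⬝ᵥ q)) = -(T.s ω * T.d (q ⬝ᵥ q)) := by linarith
    have := congrArg abs e
    rwa [abs_neg, abs_mul, abs_mul, abs_of_nonneg (a := 1 + _) (by linarith [(key T.t).1])] at this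
  have h4 := (key T.s).2
  have h5 := (key T.t).1
  have h6 := abs_nonneg (T.d ω)
  have h7 := abs_nonneg (T.d (q ⬝ᵥ q))
  nlinarith

lemma qq_bound {C : Matrix I4 I4 K} {p : I4 → K} {g L x y z : ℝ}
    (hC : T.Bd (uc C) (g - 1) (g - 1) L) (hp : T.Bd p x y z) :
    T.Bd (qq C p) (g * x) (g * y) (g * z + L * y) :=
  (hp.addV (hC.mulV hp)).mono (le_of_eq (by ring)) (le_of_eq (by ring)) (le_of_eq (by ring))

lemma bb_bound {ω : K} {C : Matrix I4 I4 K} {p : I4 → K} {g m LN Lp : ℝ}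
    (hω : ω * (1 + qq C p ⬝ᵥ qq C p) = 1) (hC : T.Bd (uc C) (g - 1) (g - 1) (g ^ 2 * LN))
    (hp : T.Bd p m m Lp) :
    T.Bd (uc (bb C p ω)) (cβ g m) (cβ g m) (cbN g m * LN + cbp g m * Lp) := by
  have hq := qq_bound hC hp
  have hy := qq_bound hC hq
  have hw := ω_bound hω hq
  refine (((hC.addM hC).addM (hC.mulM hC)).subM (Bd.smulM hw (hy.outM hy))).mono
    (le_of_eq ?_) (le_of_eq ?_) (le_of_eq ?_)
  · unfold cβ; ring
  · unfold cβ; ring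
  · unfold cbN cbp; ring

theorem Q_bound {u ω : K} {p z : I4 → K} {h A C : Matrix I4 I4 K} {A' : I4 → Matrix I4 I4 K}
    {α a₁ e₁ g m₀ m U Lu Ps Pt Lp Rs Rt Lr LA LA' Lz : ℝ}
    (hC : C = -(u • A) - (u • A) * C) (hω : ω * (1 + qq C p ⬝ᵥ qq C p) = 1)
    (hg1 : 1 ≤ g) (hg : 1 + α * m₀ * g ≤ g)
    (hu : T.B0 u U m₀ Lu) (hU : U ≤ m₀) (hp : T.Bd p Ps Pt Lp) (hPs : Ps ≤ m) (hPt : Pt ≤ m)
    (hh : T.Bd (uc h) Rs Rt Lr) (hA : T.Bd (uc A) α α LA) (hA' : T.Bd (uc3 A') a₁ a₁ LA')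
    (hz : T.Bd z e₁ e₁ Lz) :
    |T.d (Qf u ω p z h A C A')| ≤ cβ g m * Lr + cbN g m * ((Lu * α + U * LA) * Rt)
      + cbp g m * (Lp * Rt) + α * g ^ 3 * (Lp * Ps) + α * g ^ 3 * (Lp * Pt)
      + ckN α a₁ e₁ g m₀ m * (Lu * α + U * LA) + ckp α a₁ e₁ g m₀ m * Lp + cku a₁ e₁ g m * Lu
      + α * m₀ * α * g * LA * U
      + (g ^ 3 * m * LA + m₀ * cβ g m * g * LA' + m₀ * g * Lz) * Pt := by
  have hα := hA.n1
  have hLA := hA.n3
  have hU0 := hu.n1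
  have hm₀ := hu.n2
  have hLu := hu.n3
  have hPs0 := hp.n1
  have hPt0 := hp.n2
  have hLp := hp.n3
  have hm : 0 ≤ m := hPs0.trans hPs
  have hg0 : 0 ≤ g := by linarith
  have ha₁ := hA'.n1
  have he₁ := hz.n1
  have hLA' := hA'.n3
  have hLz := hz.n3
  have hN0 := Bd.smulM hu hA
  obtain ⟨LN, hLN⟩ : ∃ LN, LN = Lu * α + U * LA := ⟨_, rfl⟩
  rw [← hLN] at hN0 ⊢
  have hLN0 : 0 ≤ LN := hN0.n3
  have hN : T.Bd (uc (u • A)) (α * m₀) (α * m₀) LN :=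
    hN0.mono (by nlinarith) (le_of_eq (by ring)) le_rfl
  have hCb := C_bound hC hg1 hg hN
  have hpm : T.Bd p m m Lp := hp.mono hPs hPt le_rfl
  have hb := bb_bound hω hCb hpm
  have hβ := hb.n1
  have hq := qq_bound hCb hp
  have hy := qq_bound hCb hq
  have hqm := qq_bound hCb hpm
  have hw := ω_bound hω hqm
  have hq' : T.Bd (qq C p) (g * m) (g * Pt) (g * Lp + g ^ 2 * LN * m) :=
    hq.mono (by gcongr) le_rfl (by gcongr)
  have t1 := ((hN0.mulM hN).mono le_rfl le_rfl (show _ ≤ 2 * (α * m₀) * LN by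
    nlinarith [mul_le_mul_of_nonneg_right (mul_le_mul_of_nonneg_right hU hα) hLN0])).fp
      (hA.addM (hA.mulM hCb))
  have t1' : |T.d (An.fp ((u • A) * (u • A)) (A + A * C))| ≤
      (2 * (α * m₀) * α * g + (α * m₀) ^ 2 * α * g ^ 2) * LN + α * m₀ * α * g * LA * U := by
    refine t1.2.2.trans ?_
    have : U * (α * (α * m₀) * (α * (g ^ 2 * LN))) ≤ m₀ * (α * (α * m₀) * (α * (g ^ 2 * LN))) := by
      gcongr
    nlinarith
  have t2 := (hb.fp hh).2.2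
  have t3a : T.B0 (qq C (qq C p) ⬝ᵥ (A *ᵥ qq C p)) (α * g ^ 3 * m ^ 2) (α * g ^ 3 * m ^ 2)
      (α * g ^ 3 * (Lp * Ps) + α * g ^ 3 * (Lp * Pt) + 3 * α * g ^ 4 * m ^ 2 * LN
        + g ^ 3 * m * LA * Pt) := by
    refine (hy.dotV (hA.mulV hq)).mono ?_ ?_ ?_
    · calc _ = α * g ^ 3 * Ps ^ 2 := by ring
        _ ≤ _ := by gcongr
    · calc _ = α * g ^ 3 * Pt ^ 2 := by ring
        _ ≤ _ := by gcongr
    · calc _ = α * g ^ 3 * (Lp * Ps) + α * g ^ 3 * (Lp * Pt) + 2 * α * g ^ 4 * (Pt * Pt) * LN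
            + α * g ^ 4 * (Ps * Pt) * LN + g ^ 3 * Ps * LA * Pt := by ring
        _ ≤ α * g ^ 3 * (Lp * Ps) + α * g ^ 3 * (Lp * Pt) + 2 * α * g ^ 4 * (m * m) * LN
            + α * g ^ 4 * (m * m) * LN + g ^ 3 * m * LA * Pt := by gcongr
        _ = _ := by ring
  have t3 := (hw.mul t3a).2.2
  have hu' : T.B0 u m₀ m₀ Lu := hu.mono hU le_rfl le_rfl
  have ht : T.Bd (uc (An.tv A' (qq C p))) (a₁ * (g * m)) (a₁ * (g * m))
      (LA' * (g * Pt) + a₁ * (g * Lp + g ^ 2 * LN * m)) :=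
    (hA'.tv hq').mono le_rfl (by gcongr) le_rfl
  have t4 := (hu'.mul (hb.fp ht)).2.2
  have t5a : T.B0 (z ⬝ᵥ qq C p) (e₁ * (g * m)) (e₁ * (g * m))
      (Lz * (g * Pt) + e₁ * (g * Lp + g ^ 2 * LN * m)) :=
    (hz.dotV hq').mono le_rfl (by gcongr) le_rfl
  have t5 := (hu'.mul t5a).2.2
  unfold Qf
  rw [map_add, map_add, map_add, map_sub]
  refine ((abs_add_le _ _).trans (add_le_add ((abs_add_le _ _).trans (add_le_add
    ((abs_add_le _ _).trans (add_le_add ((abs_sub _ _).trans (add_le_add t1' t2)) t3)) t4))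
    t5)).trans (le_of_eq ?_)
  unfold ckN ckp cku
  ring

end TD

end Pool.Agent.MP48470b.An
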