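import Pool.Agent.MP_48470b_gt.An.Conc
import Pool.Agent.MP_48470b_gt.Sph.S3a

/-! The sup bound in the tangential calculus. -/

namespace Pool.Agent.MP48470b.An

open Finset Matrix Pool.Agent.MP_48470b_gt.Sph

namespace FR

variable {K : Type*} [CommRing K] [Algebra ℝ K] (F : FR K)

/-- Tangential part of the frame Laplace operator of the position. -/
noncomputable def lt : I4 → K := fun k =>
  ∑ a, F.E a (F.E a (F.f k)) - F.ν k * ∑ l, F.ν l * ∑ a, F.E a (F.E a (F.f l))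

lemma lapE (w : K) : ∑ a, F.E a (F.E a w) =
    ∑ k, F.lt k * F.toDC.gr w k + fp (F.T * F.Tᵀ) (F.toDC.hs w) := by
  have h1 : ∀ a, F.E a (F.E a w) = ∑ k, (F.E a (F.E a (F.f k)) * F.d k w
      + F.T k a * ∑ l, F.T l a * F.d l (F.d k w)) := fun a => by
    simp only [← F.hE]
    nth_rewrite 1 [F.hE a w]
    simp only [map_sum, F.Emul, T_apply]
  have h2 := F.nd w
  have h3 := F.νT
  have e1 : ∀ i v, F.toDC.d i v = F.d i v := fun _ _ => rfl
  have e2 : F.toDC.ν = F.ν := rfl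
  rw [DC.fp_eq]
  simp only [h1, lt, DC.gr, DC.hs, Matrix.of_apply, Matrix.mul_apply, transpose_apply, e1, e2]
  generalize (∑ l, F.ν l * ∑ a, F.E a (F.E a (F.f l))) = t
  generalize F.toDC.ap w = v
  simp only [Fin.sum_univ_three, Fin.sum_univ_four] at h2 h3 ⊢
  linear_combination t * h2
    - (F.T 0 0 * v 0 + F.T 1 0 * v 1 + F.T 2 0 * v 2 + F.T 3 0 * v 3) * h3 0
    - (F.T 0 1 * v 0 + F.T 1 1 * v 1 + F.T 2 1 * v 2 + F.T 3 1 * v 3) * h3 1
    - (F.T 0 2 * v 0 + F.T 1 2 * v 1 + F.T 2 2 * v 2 + F.T 3 2 * v 3) * h3 2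

lemma TT_sq : ∑ p, uc (F.T * F.Tᵀ) p ^ 2 = ∑ a, ∑ b, (∑ k, F.T k a * F.T k b) ^ 2 := by
  simp only [Fintype.sum_prod_type, uc, Matrix.mul_apply, transpose_apply, Fin.sum_univ_three,
    Fin.sum_univ_four]
  ring

lemma lt_sq : ∑ k, F.lt k ^ 2 = ∑ k, (∑ a, F.E a (F.E a (F.f k))) ^ 2
    - (∑ l, F.ν l * ∑ a, F.E a (F.E a (F.f l))) ^ 2 := by
  have h := F.nn
  unfold lt
  generalize (fun k => ∑ a, F.E a (F.E a (F.f k))) = v at *
  simp only [Fin.sum_univ_four] at h ⊢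
  linear_combination (F.ν 0 * ∑ a, F.E a (F.E a (F.f 0)) + F.ν 1 * ∑ a, F.E a (F.E a (F.f 1))
    + F.ν 2 * ∑ a, F.E a (F.E a (F.f 2)) + F.ν 3 * ∑ a, F.E a (F.E a (F.f 3))) ^ 2 * h

end FR

variable {f : I4 → R}

lemma I_le_of_dom (h : Imm f) {z : R} {φ : S3 → ℝ} {t : ℝ} (hd : (wi h).Dom φ t)
    (hz : ∀ x, |z x| ≤ √(rho h x) * φ x) : ‖z‖ ^ 2 ≤ t ^ 2 := by
  obtain ⟨r, hr⟩ := exists_inv (rho h) fun x => (rho_pos h x).ne'
  have e : ‖z‖ ^ 2 = (wi h).I (r * z ^ 2) := by rw [wi_I, ← mul_assoc, hr, one_mul, norm_sq]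
  rw [e]
  refine hd.I_sq fun x => ?_
  have h1 : rho h x * r x = 1 := congrArg (fun w : R => w x) hr
  have h2 := rho_pos h x
  have h3 : z x ^ 2 ≤ rho h x * φ x ^ 2 := by
    rw [← sq_abs, ← Real.sq_sqrt h2.le, ← mul_pow]
    exact pow_le_pow_left₀ (abs_nonneg _) (hz x) 2
  have h4 : 0 < r x := by
    by_contra hc
    push Not at hc
    nlinarith
  simp only [wi_ev, R.mul_apply, R.pow_apply]
  calc r x * z x ^ 2 ≤ r x * (rho h x * φ x ^ 2) := by gcongr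
    _ = (rho h x * r x) * φ x ^ 2 := by ring
    _ = _ := by rw [h1, one_mul]

theorem supB (h : Imm f) {s C s₀ s₁ s₂ : ℝ} (hs : 0 < s) (hC0 : 0 ≤ C)
    (hC : ∀ N, ∑ k ∈ Finset.range (N + 1), ((k : ℝ) + 1) ^ 2 / (s + k * (k + 2)) ^ 2 ≤ C ^ 2)
    (p0 : 0 ≤ s₀) (p1 : 0 ≤ s₁) (p2 : 0 ≤ s₂) (h0 : ∀ x, 1 ≤ s₀ ^ 2 * rho h x)
    (h1 : ∀ x, ∑ k, Lap (f k) x ^ 2 - (∑ k, (dc h).ν k x * Lap (f k) x) ^ 2 ≤ s₁ ^ 2 * rho h x)
    (h2 : ∀ x, ∑ a, ∑ b, (∑ k, E a (f k) x * E b (f k) x) ^ 2 ≤ s₂ ^ 2 * rho h x) :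
    SupB (dc h) (wi h) (C * s * s₀) (C * s₁) (C * s₂) := by
  intro w t₀ t₁ t₂ d0 d1 d2 x
  have hd := ((d0.abs.cmul (mul_nonneg hs.le p0)).add (d1.cmul p1)).add (d2.cmul p2)
  have key := I_le_of_dom h (z := s • w - Lap w) hd fun y => by
    have hρ := rho_pos h y
    have sq : ∀ {a b : ℝ}, 0 ≤ b → a ^ 2 ≤ b ^ 2 * rho h y → a ≤ √(rho h y) * b := fun hb hab =>
      le_trans (le_abs_self _) (abs_le_of_sq_le_sq' (by
        rw [mul_pow, Real.sq_sqrt hρ.le, mul_comm]; exact hab) (by positivity) |> abs_le.2)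
    have b0 : 1 ≤ √(rho h y) * s₀ := sq p0 (by simpa using h0 y)
    have b1 : (wi h).vn (fr h).lt y ≤ √(rho h y) * s₁ := sq p1 (by
      rw [IS.vn_sq, FR.lt_sq]
      simpa [Lap_apply, fr, dc, FR.toDC] using h1 y)
    have b2 : (wi h).vn (uc ((fr h).T * (fr h).Tᵀ)) y ≤ √(rho h y) * s₂ := sq p2 (by
      rw [IS.vn_sq, FR.TT_sq]
      simpa [fr, FR.T] using h2 y)
    have e : Lap w = _ := (Lap_apply w).trans ((fr h).lapE w)
    have c1 : |(∑ k, (fr h).lt k * (dc h).gr w k) y| ≤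
        √(rho h y) * s₁ * (wi h).vn ((dc h).gr w) y := by
      simp only [R.sum_apply, R.mul_apply]
      exact (abs_dot_le _ _).trans (mul_le_mul_of_nonneg_right b1 (nr_nonneg _))
    have c2 : |(fp ((fr h).T * (fr h).Tᵀ) ((dc h).hs w)) y| ≤
        √(rho h y) * s₂ * (wi h).vn (uc ((dc h).hs w)) y := by
      simp only [fp, R.sum_apply, R.mul_apply]
      exact (abs_dot_le _ _).trans (mul_le_mul_of_nonneg_right b2 (nr_nonneg _))
    have c0 : |s * w y| ≤ √(rho h y) * s₀ * (s * |w y|) := by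
      rw [abs_mul, abs_of_pos hs]
      exact le_mul_of_one_le_left (by positivity) b0
    rw [e, R.sub_apply, R.add_apply, R.smul_apply]
    refine (abs_sub _ _).trans ((add_le_add c0 ((abs_add_le _ _).trans (add_le_add c1 c2))).trans
      (le_of_eq ?_))
    simp only [IS.v0, wi_ev]
    ring
  have h3 := (sup_s hs hC w x).trans (mul_le_mul_of_nonneg_left key (sq_nonneg C))
  rw [← mul_pow] at h3
  refine (abs_le.2 (abs_le_of_sq_le_sq' h3 (mul_nonneg hC0 hd.1))).trans (le_of_eq ?_)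
  ring

theorem sum_le {a : ℝ} (ha : 1 ≤ a) (N : ℕ) :
    ∑ k ∈ Finset.range (N + 1), ((k : ℝ) + 1) ^ 2 / (a ^ 2 + 1 + k * (k + 2)) ^ 2 ≤
      0.7854 / a + 1 / a ^ 2 + 0.7854 / a ^ 3 := by
  have a0 : 0 < a := by linarith
  let G : ℝ → ℝ := fun x => (Real.arctan (x / a) / a - x / (a ^ 2 + x ^ 2)) / 2
    - 1 / (a ^ 2 + x ^ 2) + (x / (a ^ 2 + x ^ 2) + Real.arctan (x / a) / a) / (2 * a ^ 2)
  have hG : ∀ x, HasDerivAt G ((x + 1) ^ 2 / (a ^ 2 + x ^ 2) ^ 2) x := fun x => by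
    have n0 : a ^ 2 + x ^ 2 ≠ 0 := by positivity
    have d1 : HasDerivAt (fun x : ℝ => Real.arctan (x / a) / a) (1 / (a ^ 2 + x ^ 2)) x := by
      refine ((((hasDerivAt_id' x).div_const a).arctan).div_const a).congr_deriv ?_
      field_simp
    have d0 : HasDerivAt (fun x : ℝ => a ^ 2 + x ^ 2) (2 * x) x := by
      simpa using (hasDerivAt_pow 2 x).const_add (a ^ 2)
    have d2 := (hasDerivAt_id' x).fun_div d0 n0
    have d3 := (hasDerivAt_const x (1 : ℝ)).fun_div d0 n0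
    refine ((((d1.fun_sub d2).div_const 2).fun_sub d3).fun_add
      ((d2.fun_add d1).div_const (2 * a ^ 2))).congr_deriv ?_
    field_simp
    ring
  have step : ∀ k : ℕ, ((k : ℝ) + 1) ^ 2 / (a ^ 2 + 1 + k * (k + 2)) ^ 2 ≤
      G ((k + 1 : ℕ) : ℝ) - G k := fun k => by
    obtain ⟨ξ, hξ, e⟩ := exists_hasDerivAt_eq_slope G _ (a := k) (b := k + 1) (by linarith)
      (fun x _ => (hG x).continuousAt.continuousWithinAt) (fun x _ => hG x)
    rw [add_sub_cancel_left, div_one] at e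
    push_cast
    rw [← e]
    have k0 : (0 : ℝ) ≤ k := Nat.cast_nonneg k
    have h1 := hξ.1
    have h2 := hξ.2
    have h3 : a ^ 2 + ξ ^ 2 ≤ a ^ 2 + 1 + k * (k + 2) := by nlinarith
    gcongr
  refine (sum_le_sum fun k _ => step k).trans ?_
  rw [Finset.sum_range_sub (fun k : ℕ => G k)]
  obtain ⟨x, hx, x0⟩ : ∃ x : ℝ, ((N + 1 : ℕ) : ℝ) = x ∧ 0 ≤ x := ⟨_, rfl, Nat.cast_nonneg _⟩
  rw [hx]
  have h1 : Real.arctan (x / a) ≤ 1.5708 := by
    linarith [Real.arctan_lt_pi_div_two (x / a), Real.pi_lt_d4]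
  have h2 : Real.arctan (x / a) / a / 2 ≤ 0.7854 / a := by
    rw [div_div, div_le_div_iff₀ (by positivity) a0]; nlinarith
  have h3 : Real.arctan (x / a) / a / (2 * a ^ 2) ≤ 0.7854 / a ^ 3 := by
    rw [div_div, div_le_div_iff₀ (by positivity) (by positivity)]
    nlinarith [pow_pos a0 3]
  have h4 : x / (a ^ 2 + x ^ 2) / (2 * a ^ 2) ≤ x / (a ^ 2 + x ^ 2) / 2 := by
    gcongr; nlinarith
  have h5 : 0 ≤ 1 / (a ^ 2 + x ^ 2) := by positivity
  simp only [G, Nat.cast_zero, zero_div, Real.arctan_zero, sub_div, add_div]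
  have h6 : 1 / (a ^ 2 + 0 ^ 2) = 1 / a ^ 2 := by norm_num
  rw [h6]
  linarith

end Pool.Agent.MP48470b.An
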