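import Pool.Agent.MP_48470b_gt.An.Nr

/-! Twisted derivations: one calculus for difference bounds and derivative bounds. -/

namespace Pool.Agent.MP48470b.An

open Finset Matrix

/-- Two evaluations and a twisted derivation between them. -/
structure TD (K : Type*) [CommRing K] where
  s : K →+* ℝ
  t : K →+* ℝ
  d : K →+ ℝ
  mul : ∀ a b, d (a * b) = d a * t b + s a * d b

/-- Ambient index. -/
abbrev I4 := Fin 4

/-- A matrix as a family. -/
def uc {K : Type*} (M : Matrix I4 I4 K) : I4 × I4 → K := fun p => M p.1 p.2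

/-- A family of matrices as a family. -/
def uc3 {K : Type*} (M : I4 → Matrix I4 I4 K) : I4 × (I4 × I4) → K := fun p => M p.1 p.2.1 p.2.2

/-- Frobenius pairing. -/
def fp {K : Type*} [CommRing K] (M N : Matrix I4 I4 K) : K := ∑ p : I4 × I4, uc M p * uc N p

/-- Contraction of a family of matrices with a vector. -/
def tv {K : Type*} [CommRing K] (M : I4 → Matrix I4 I4 K) (q : I4 → K) : Matrix I4 I4 K :=
  Matrix.of fun l k => (M l *ᵥ q) k

namespace TD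

variable {K : Type*} [CommRing K] (T : TD K)
variable {ι κ η : Type*} [Fintype ι] [Fintype κ] [Fintype η]

lemma d_one : T.d 1 = 0 := by
  have := T.mul 1 1
  simp only [mul_one, map_one, one_mul] at this
  linarith

/-- Bounds for a scalar. -/
def B0 (a : K) (x y z : ℝ) : Prop := |T.s a| ≤ x ∧ |T.t a| ≤ y ∧ |T.d a| ≤ z

/-- Bounds for a family. -/
def Bd (v : ι → K) (x y z : ℝ) : Prop :=
  nr (fun i => T.s (v i)) ≤ x ∧ nr (fun i => T.t (v i)) ≤ y ∧ nr (fun i => T.d (v i)) ≤ z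

variable {T}

lemma B0.mono {a : K} {x y z x' y' z' : ℝ} (h : T.B0 a x y z) (hx : x ≤ x') (hy : y ≤ y')
    (hz : z ≤ z') : T.B0 a x' y' z' := ⟨h.1.trans hx, h.2.1.trans hy, h.2.2.trans hz⟩

lemma Bd.mono {v : ι → K} {x y z x' y' z' : ℝ} (h : T.Bd v x y z) (hx : x ≤ x') (hy : y ≤ y')
    (hz : z ≤ z') : T.Bd v x' y' z' := ⟨h.1.trans hx, h.2.1.trans hy, h.2.2.trans hz⟩

lemma B0.n1 {a : K} {x y z : ℝ} (h : T.B0 a x y z) : 0 ≤ x := (abs_nonneg _).trans h.1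
lemma B0.n2 {a : K} {x y z : ℝ} (h : T.B0 a x y z) : 0 ≤ y := (abs_nonneg _).trans h.2.1
lemma B0.n3 {a : K} {x y z : ℝ} (h : T.B0 a x y z) : 0 ≤ z := (abs_nonneg _).trans h.2.2
lemma Bd.n1 {v : ι → K} {x y z : ℝ} (h : T.Bd v x y z) : 0 ≤ x := (nr_nonneg _).trans h.1
lemma Bd.n2 {v : ι → K} {x y z : ℝ} (h : T.Bd v x y z) : 0 ≤ y := (nr_nonneg _).trans h.2.1
lemma Bd.n3 {v : ι → K} {x y z : ℝ} (h : T.Bd v x y z) : 0 ≤ z := (nr_nonneg _).trans h.2.2

lemma B0.add {a b : K} {x y z x' y' z' : ℝ} (h : T.B0 a x y z) (h' : T.B0 b x' y' z') :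
    T.B0 (a + b) (x + x') (y + y') (z + z') := by
  refine ⟨?_, ?_, ?_⟩ <;> rw [map_add] <;> refine (abs_add_le _ _).trans (add_le_add ?_ ?_)
  exacts [h.1, h'.1, h.2.1, h'.2.1, h.2.2, h'.2.2]

lemma B0.neg {a : K} {x y z : ℝ} (h : T.B0 a x y z) : T.B0 (-a) x y z := by
  refine ⟨?_, ?_, ?_⟩ <;> rw [map_neg, abs_neg]
  exacts [h.1, h.2.1, h.2.2]

lemma B0.sub {a b : K} {x y z x' y' z' : ℝ} (h : T.B0 a x y z) (h' : T.B0 b x' y' z') :
    T.B0 (a - b) (x + x') (y + y') (z + z') := by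
  rw [sub_eq_add_neg]; exact h.add h'.neg

lemma B0.mul {a b : K} {x y z x' y' z' : ℝ} (h : T.B0 a x y z) (h' : T.B0 b x' y' z') :
    T.B0 (a * b) (x * x') (y * y') (z * y' + x * z') := by
  refine ⟨?_, ?_, ?_⟩
  · rw [map_mul, abs_mul]; exact mul_le_mul h.1 h'.1 (abs_nonneg _) h.n1
  · rw [map_mul, abs_mul]; exact mul_le_mul h.2.1 h'.2.1 (abs_nonneg _) h.n2
  · rw [T.mul]
    refine (abs_add_le _ _).trans (add_le_add ?_ ?_) <;> rw [abs_mul]
    · exact mul_le_mul h.2.2 h'.2.1 (abs_nonneg _) h.n3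
    · exact mul_le_mul h.1 h'.2.2 (abs_nonneg _) h.n1

lemma Bd.add {u v : ι → K} {x y z x' y' z' : ℝ} (h : T.Bd u x y z) (h' : T.Bd v x' y' z') :
    T.Bd (fun i => u i + v i) (x + x') (y + y') (z + z') := by
  refine ⟨?_, ?_, ?_⟩ <;> simp only [map_add] <;> refine (nr_add_le _ _).trans (add_le_add ?_ ?_)
  exacts [h.1, h'.1, h.2.1, h'.2.1, h.2.2, h'.2.2]

lemma Bd.sub {u v : ι → K} {x y z x' y' z' : ℝ} (h : T.Bd u x y z) (h' : T.Bd v x' y' z') :
    T.Bd (fun i => u i - v i) (x + x') (y + y') (z + z') := by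
  refine ⟨?_, ?_, ?_⟩ <;> simp only [map_sub] <;> refine (nr_sub_le _ _).trans (add_le_add ?_ ?_)
  exacts [h.1, h'.1, h.2.1, h'.2.1, h.2.2, h'.2.2]

lemma Bd.smul {a : K} {v : ι → K} {x y z x' y' z' : ℝ} (h : T.B0 a x y z) (h' : T.Bd v x' y' z') :
    T.Bd (fun i => a * v i) (x * x') (y * y') (z * y' + x * z') := by
  refine ⟨?_, ?_, ?_⟩
  · simp only [map_mul]; rw [nr_smul]; exact mul_le_mul h.1 h'.1 (nr_nonneg _) h.n1
  · simp only [map_mul]; rw [nr_smul]; exact mul_le_mul h.2.1 h'.2.1 (nr_nonneg _) h.n2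
  · simp only [T.mul]
    refine (nr_add_le _ _).trans (add_le_add ?_ ?_) <;> rw [nr_smul]
    · exact mul_le_mul h.2.2 h'.2.1 (nr_nonneg _) h.n3
    · exact mul_le_mul h.1 h'.2.2 (nr_nonneg _) h.n1

lemma Bd.dot {u v : ι → K} {x y z x' y' z' : ℝ} (h : T.Bd u x y z) (h' : T.Bd v x' y' z') :
    T.B0 (∑ i, u i * v i) (x * x') (y * y') (z * y' + x * z') := by
  refine ⟨?_, ?_, ?_⟩
  · simp only [map_sum, map_mul]
    exact (abs_dot_le _ _).trans (mul_le_mul h.1 h'.1 (nr_nonneg _) h.n1)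
  · simp only [map_sum, map_mul]
    exact (abs_dot_le _ _).trans (mul_le_mul h.2.1 h'.2.1 (nr_nonneg _) h.n2)
  · simp only [map_sum, T.mul, sum_add_distrib]
    refine (abs_add_le _ _).trans (add_le_add ?_ ?_)
    · exact (abs_dot_le _ _).trans (mul_le_mul h.2.2 h'.2.1 (nr_nonneg _) h.n3)
    · exact (abs_dot_le _ _).trans (mul_le_mul h.1 h'.2.2 (nr_nonneg _) h.n1)

lemma Bd.mv {a : ι × κ → K} {v : κ → K} {x y z x' y' z' : ℝ} (h : T.Bd a x y z)
    (h' : T.Bd v x' y' z') :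
    T.Bd (fun i => ∑ j, a (i, j) * v j) (x * x') (y * y') (z * y' + x * z') := by
  refine ⟨?_, ?_, ?_⟩
  · simp only [map_sum, map_mul]
    exact (nr_mv (fun p => T.s (a p)) _).trans (mul_le_mul h.1 h'.1 (nr_nonneg _) h.n1)
  · simp only [map_sum, map_mul]
    exact (nr_mv (fun p => T.t (a p)) _).trans (mul_le_mul h.2.1 h'.2.1 (nr_nonneg _) h.n2)
  · simp only [map_sum, T.mul, sum_add_distrib]
    refine (nr_add_le _ _).trans (add_le_add ?_ ?_)
    · exact (nr_mv (fun p => T.d (a p)) _).trans (mul_le_mul h.2.2 h'.2.1 (nr_nonneg _) h.n3)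
    · exact (nr_mv (fun p => T.s (a p)) _).trans (mul_le_mul h.1 h'.2.2 (nr_nonneg _) h.n1)

lemma Bd.mm {a : ι × κ → K} {b : κ × η → K} {x y z x' y' z' : ℝ} (h : T.Bd a x y z)
    (h' : T.Bd b x' y' z') :
    T.Bd (fun p : ι × η => ∑ j, a (p.1, j) * b (j, p.2)) (x * x') (y * y') (z * y' + x * z') := by
  refine ⟨?_, ?_, ?_⟩
  · simp only [map_sum, map_mul]
    exact (nr_mm (fun p => T.s (a p)) (fun p => T.s (b p))).trans
      (mul_le_mul h.1 h'.1 (nr_nonneg _) h.n1)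
  · simp only [map_sum, map_mul]
    exact (nr_mm (fun p => T.t (a p)) (fun p => T.t (b p))).trans
      (mul_le_mul h.2.1 h'.2.1 (nr_nonneg _) h.n2)
  · simp only [map_sum, T.mul, sum_add_distrib]
    refine (nr_add_le _ _).trans (add_le_add ?_ ?_)
    · exact (nr_mm (fun p => T.d (a p)) (fun p => T.t (b p))).trans
        (mul_le_mul h.2.2 h'.2.1 (nr_nonneg _) h.n3)
    · exact (nr_mm (fun p => T.s (a p)) (fun p => T.d (b p))).trans
        (mul_le_mul h.1 h'.2.2 (nr_nonneg _) h.n1)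

lemma Bd.out {u : ι → K} {v : κ → K} {x y z x' y' z' : ℝ} (h : T.Bd u x y z)
    (h' : T.Bd v x' y' z') :
    T.Bd (fun p : ι × κ => u p.1 * v p.2) (x * x') (y * y') (z * y' + x * z') := by
  refine ⟨?_, ?_, ?_⟩
  · simp only [map_mul]
    exact (nr_out (fun p => T.s (u p)) (fun p => T.s (v p))).trans
      (mul_le_mul h.1 h'.1 (nr_nonneg _) h.n1)
  · simp only [map_mul]
    exact (nr_out (fun p => T.t (u p)) (fun p => T.t (v p))).trans
      (mul_le_mul h.2.1 h'.2.1 (nr_nonneg _) h.n2)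
  · simp only [T.mul]
    refine (nr_add_le _ _).trans (add_le_add ?_ ?_)
    · exact (nr_out (fun p => T.d (u p)) (fun p => T.t (v p))).trans
        (mul_le_mul h.2.2 h'.2.1 (nr_nonneg _) h.n3)
    · exact (nr_out (fun p => T.s (u p)) (fun p => T.d (v p))).trans
        (mul_le_mul h.1 h'.2.2 (nr_nonneg _) h.n1)

lemma Bd.tv {a : I4 → Matrix I4 I4 K} {v : I4 → K} {x y z x' y' z' : ℝ} (h : T.Bd (uc3 a) x y z)
    (h' : T.Bd v x' y' z') :
    T.Bd (uc (An.tv a v)) (x * x') (y * y') (z * y' + x * z') := by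
  have e : uc (An.tv a v) = fun p : I4 × I4 => ∑ j, uc3 a (p.1, (p.2, j)) * v j := rfl
  rw [e]
  refine ⟨?_, ?_, ?_⟩
  · simp only [map_sum, map_mul]
    exact (nr_tv (fun p => T.s (uc3 a p)) _).trans (mul_le_mul h.1 h'.1 (nr_nonneg _) h.n1)
  · simp only [map_sum, map_mul]
    exact (nr_tv (fun p => T.t (uc3 a p)) _).trans (mul_le_mul h.2.1 h'.2.1 (nr_nonneg _) h.n2)
  · simp only [map_sum, T.mul, sum_add_distrib]
    refine (nr_add_le _ _).trans (add_le_add ?_ ?_)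
    · exact (nr_tv (fun p => T.d (uc3 a p)) _).trans (mul_le_mul h.2.2 h'.2.1 (nr_nonneg _) h.n3)
    · exact (nr_tv (fun p => T.s (uc3 a p)) _).trans (mul_le_mul h.1 h'.2.2 (nr_nonneg _) h.n1)

lemma Bd.mulM {M N : Matrix I4 I4 K} {x y z x' y' z' : ℝ} (h : T.Bd (uc M) x y z)
    (h' : T.Bd (uc N) x' y' z') : T.Bd (uc (M * N)) (x * x') (y * y') (z * y' + x * z') :=
  h.mm h'

lemma Bd.mulV {M : Matrix I4 I4 K} {v : I4 → K} {x y z x' y' z' : ℝ} (h : T.Bd (uc M) x y z)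
    (h' : T.Bd v x' y' z') : T.Bd (M *ᵥ v) (x * x') (y * y') (z * y' + x * z') :=
  h.mv h'

lemma Bd.addM {M N : Matrix I4 I4 K} {x y z x' y' z' : ℝ} (h : T.Bd (uc M) x y z)
    (h' : T.Bd (uc N) x' y' z') : T.Bd (uc (M + N)) (x + x') (y + y') (z + z') := h.add h'

lemma Bd.subM {M N : Matrix I4 I4 K} {x y z x' y' z' : ℝ} (h : T.Bd (uc M) x y z)
    (h' : T.Bd (uc N) x' y' z') : T.Bd (uc (M - N)) (x + x') (y + y') (z + z') := h.sub h'

lemma Bd.addV {u v : I4 → K} {x y z x' y' z' : ℝ} (h : T.Bd u x y z)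
    (h' : T.Bd v x' y' z') : T.Bd (u + v) (x + x') (y + y') (z + z') := h.add h'

lemma Bd.smulM {a : K} {M : Matrix I4 I4 K} {x y z x' y' z' : ℝ} (h : T.B0 a x y z)
    (h' : T.Bd (uc M) x' y' z') : T.Bd (uc (a • M)) (x * x') (y * y') (z * y' + x * z') :=
  Bd.smul h h'

lemma Bd.outM {u v : I4 → K} {x y z x' y' z' : ℝ} (h : T.Bd u x y z)
    (h' : T.Bd v x' y' z') :
    T.Bd (uc (vecMulVec u v)) (x * x') (y * y') (z * y' + x * z') := h.out h'

lemma Bd.dotV {u v : I4 → K} {x y z x' y' z' : ℝ} (h : T.Bd u x y z)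
    (h' : T.Bd v x' y' z') : T.B0 (u ⬝ᵥ v) (x * x') (y * y') (z * y' + x * z') := h.dot h'

lemma Bd.fp {M N : Matrix I4 I4 K} {x y z x' y' z' : ℝ} (h : T.Bd (uc M) x y z)
    (h' : T.Bd (uc N) x' y' z') : T.B0 (An.fp M N) (x * x') (y * y') (z * y' + x * z') :=
  h.dot h'

end TD

end Pool.Agent.MP48470b.An
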