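import Pool.Agent.MP_48470b_gt.An.Lin

/-! Estimates with respect to the unweighted volume. -/

namespace Pool.Agent.MP48470b.An

open Finset Matrix

variable {K : Type*} [CommRing K] [Algebra ℝ K] {X : Type*}

namespace IS

/-- The functional with an extra weight. -/
def wt (S : IS K X) (φ : K) : IS K X where
  ev := S.ev
  I := S.I ∘ₗ LinearMap.mulLeft ℝ (φ ^ 2)
  pos a ha := S.pos _ fun x => by
    rw [LinearMap.mulLeft_apply, map_mul, map_pow]; exact mul_nonneg (sq_nonneg _) (ha x)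

/-- Restriction to one point. -/
def pt (S : IS K X) (x : X) : IS K Unit where
  ev _ := S.ev x
  I := 0
  pos _ _ := le_rfl

variable {S : IS K X}

lemma wt_I (φ a : K) : (S.wt φ).I a = S.I (φ ^ 2 * a) := rfl

lemma Dom.of_wt {φ : K} {g : X → ℝ} {t : ℝ} (h : (S.wt φ).Dom g t) :
    S.Dom (fun x => S.ev x φ * g x) t :=
  ⟨h.1, fun ε hε => by
    obtain ⟨s, h1, h2⟩ := h.2 ε hε
    refine ⟨φ ^ 2 * s, fun x => ?_, h2⟩
    rw [mul_pow, map_mul, map_pow]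
    exact mul_le_mul_of_nonneg_left (h1 x) (sq_nonneg _)⟩

lemma Dom.to_wt {φ ψ : K} (hi : φ * ψ = 1) {g : X → ℝ} {t : ℝ}
    (h : S.Dom (fun x => S.ev x φ * g x) t) : (S.wt φ).Dom g t :=
  ⟨h.1, fun ε hε => by
    obtain ⟨s, h1, h2⟩ := h.2 ε hε
    refine ⟨ψ ^ 2 * s, fun x => ?_, ?_⟩
    · have e := congrArg (S.ev x) hi
      rw [map_mul, map_one] at e
      have e2 : g x ^ 2 = S.ev x ψ ^ 2 * (S.ev x φ * g x) ^ 2 := by
        rw [← mul_pow, ← mul_assoc, mul_comm (S.ev x ψ), e, one_mul]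
      rw [e2]
      exact (mul_le_mul_of_nonneg_left (h1 x) (sq_nonneg _)).trans_eq (by simp [wt])
    · rw [wt_I, ← mul_assoc, ← mul_pow, hi, one_pow, one_mul]; exact h2⟩

lemma Dom.mix {g g' θ : X → ℝ} {P Q c c' T : ℝ} (h : S.Dom g P) (h' : S.Dom g' Q) (hc : 0 ≤ c)
    (hc' : 0 ≤ c') (hθ : ∀ x, θ x ^ 2 ≤ c * g x ^ 2 + c' * g' x ^ 2) (hT : 0 ≤ T)
    (hT' : c * P ^ 2 + c' * Q ^ 2 ≤ T ^ 2) : S.Dom θ T := by
  refine ⟨hT, fun ε hε => ?_⟩
  have h0 := h.1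
  have h0' := h'.1
  obtain ⟨B, hB⟩ : ∃ B, B = 2 * (c * P + c' * Q) + c + c' + 1 := ⟨_, rfl⟩
  have B0 : 0 < B := by rw [hB]; positivity
  have e3 : 0 < min 1 (ε ^ 2 / B) := by positivity
  obtain ⟨s, h1, h2⟩ := h.2 _ e3
  obtain ⟨s', h1', h2'⟩ := h'.2 _ e3
  refine ⟨c • s + c' • s', fun x => (hθ x).trans ?_, ?_⟩ <;>
    simp only [map_add, map_smul, smul_eq_mul]
  · gcongr
    exacts [h1 x, h1' x]
  · set e := min 1 (ε ^ 2 / B)
    have e1 : e ≤ 1 := min_le_left _ _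
    have e2 : e * B ≤ ε ^ 2 := by rw [← le_div_iff₀ B0]; exact min_le_right _ _
    have a1 := mul_le_mul_of_nonneg_left h2 hc
    have a2 := mul_le_mul_of_nonneg_left h2' hc'
    have a3 : e * e ≤ e := by nlinarith
    have a4 := mul_le_mul_of_nonneg_left a3 hc
    have a5 := mul_le_mul_of_nonneg_left a3 hc'
    rw [hB] at e2
    nlinarith [mul_nonneg hT hε.le]

/-- Mixing a weighted and an unweighted bound. -/
lemma Dom.mixv {φ : K} {g θ : X → ℝ} {P Q c c' T : ℝ} (h : (S.wt φ).Dom g P) (h' : S.Dom g Q)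
    (hc : 0 ≤ c) (hc' : 0 ≤ c') (hθ : ∀ x, θ x ^ 2 ≤ c * S.ev x φ ^ 2 + c') (hT : 0 ≤ T)
    (hT' : c * P ^ 2 + c' * Q ^ 2 ≤ T ^ 2) : S.Dom (fun x => θ x * g x) T :=
  h.of_wt.mix h' hc hc' (fun x => by
    have := mul_le_mul_of_nonneg_right (hθ x) (sq_nonneg (g x))
    rw [mul_pow, mul_pow]; linarith) hT hT'

lemma Dom.gm {φ ψ θ : X → ℝ} {t t' c : ℝ} (h : S.Dom φ t) (h' : S.Dom ψ t')
    (hθ : ∀ x, θ x ^ 2 ≤ φ x * ψ x) (hc : 0 ≤ c) (hcc : t * t' ≤ c ^ 2) : S.Dom θ c := by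
  refine ⟨hc, fun ε hε => ?_⟩
  have h0 := h.1
  have h0' := h'.1
  obtain ⟨s, h1, h2⟩ := h.pair_aux h' (min 1 (ε ^ 2 / (t + t' + 1))) (by positivity)
  refine ⟨s, fun x => (hθ x).trans (h1 x), h2.trans ?_⟩
  set e := min 1 (ε ^ 2 / (t + t' + 1))
  have e1 : e ≤ 1 := min_le_left _ _
  have e2 : e * (t + t' + 1) ≤ ε ^ 2 := by
    rw [← le_div_iff₀ (by positivity)]; exact min_le_right _ _
  have e3 : 0 < e := by positivity
  nlinarith [mul_nonneg hc hε.le]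

lemma dom_abs {φ : X → ℝ} {s : K} {t : ℝ} (ht : 0 ≤ t) (hs : ∀ x, φ x ^ 2 = S.ev x s)
    (h : ∀ r, S.Dom φ r → S.I s ≤ t * r) : S.Dom φ t := by
  have h0 : 0 ≤ S.I s := S.pos _ fun x => by rw [← hs]; exact sq_nonneg _
  have h3 := Real.sq_sqrt h0
  have h4 := Real.sqrt_nonneg (S.I s)
  have h1 : S.Dom φ √(S.I s) := Dom.of_le s h4 (fun x => (hs x).le) h3.ge
  have h2 := h _ h1
  refine h1.le ?_
  by_contra hc
  push Not at hc
  nlinarith

end IS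

namespace DC

variable (D : DC K)

/-- Tangential part of the position. -/
noncomputable def ft : I4 → K := fun i => D.f i - D.lam * D.ν i

/-- Potential for the volume estimate. -/
noncomputable def Wv : K := D.V + hf K * hf K * (3 - D.H * D.lam)

lemma ν_ft : ∑ i, D.ν i * D.ft i = 0 := by
  have := D.nn
  simp only [ft, lam, Fin.sum_univ_four] at this ⊢
  linear_combination (-(D.f 0 * D.ν 0 + D.f 1 * D.ν 1 + D.f 2 * D.ν 2 + D.f 3 * D.ν 3)) * this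

lemma ft_sq : ∑ i, D.ft i ^ 2 = ∑ i, D.f i ^ 2 - D.lam ^ 2 := by
  have := D.nn
  simp only [ft, lam, Fin.sum_univ_four] at this ⊢
  linear_combination (D.f 0 * D.ν 0 + D.f 1 * D.ν 1 + D.f 2 * D.ν 2 + D.f 3 * D.ν 3) ^ 2 * this

lemma ft_dot (v : I4 → K) (hv : ∑ i, D.ν i * v i = 0) :
    ∑ i, D.ft i * v i = ∑ i, D.f i * v i := by
  simp only [ft, Fin.sum_univ_four] at hv ⊢
  linear_combination (-D.lam) * hv

lemma ap_lam (i : I4) : ∑ j, D.d i (D.ν j) * D.ft j = D.d i D.lam := by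
  have := D.A_n i
  rw [d_lam]
  simp only [ft, Fin.sum_univ_four] at this ⊢
  linear_combination (-D.lam) * this

lemma d_ft (i j : I4) : D.d i (D.ft j) =
    D.d i (D.f j) - D.d i D.lam * D.ν j - D.lam * D.d i (D.ν j) := by
  rw [ft, map_sub, dmul]; ring

lemma div_ft : ∑ i, D.d i (D.ft i) = 3 - D.H * D.lam := by
  have h1 := D.nn
  have h2 := D.nd D.lam
  simp only [d_ft, D.df, H, Fin.sum_univ_four, Matrix.one_apply_eq] at h1 h2 ⊢
  linear_combination -h1 - h2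

end DC

/-- The square root `φ` of the inverse Gaussian factor, and its inverse. -/
structure Wt (D : DC K) (S : IS K X) (φ ψ : K) (sE rm : ℝ) : Prop where
  inv : φ * ψ = 1
  dφ : ∀ i, D.d i φ = hf K * hf K * φ * D.ft i
  p0 : ∀ x, 0 ≤ S.ev x ψ
  p1 : ∀ x, S.ev x ψ ≤ 1
  hφ : ∀ x, |S.ev x φ| ≤ sE
  hr : ∀ x, S.vn D.f x ≤ rm

variable {D : DC K} {S : IS K X} {φ ψ : K} {sE rm : ℝ}

lemma Wt.dψ (W : Wt D S φ ψ sE rm) (i : I4) : D.d i ψ = -(hf K * hf K) * ψ * D.ft i := by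
  have h := congrArg (D.d i) W.inv
  rw [D.dmul, W.dφ, Derivation.map_one_eq_zero] at h
  linear_combination ψ * h - (D.d i ψ + hf K * hf K * ψ * D.ft i) * W.inv

lemma Wt.ev_inv (W : Wt D S φ ψ sE rm) (x : X) : S.ev x φ * S.ev x ψ = 1 := by
  rw [← map_mul, W.inv, map_one]

lemma Wt.ft_le (W : Wt D S φ ψ sE rm) (x : X) : S.vn D.ft x ≤ rm := by
  refine le_trans (nr_le_nr ?_) (W.hr x)
  have h := congrArg (S.ev x) D.ft_sq
  simp only [map_sum, map_sub, map_pow] at h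
  rw [h]
  exact sub_le_self _ (sq_nonneg _)

lemma Wt.toV (W : Wt D S φ ψ sE rm) {g θ : X → ℝ} {t c : ℝ} (h : S.Dom g t) (hc : 0 ≤ c)
    (hθ : ∀ x, |S.ev x φ * θ x| ≤ c) : (S.wt φ).Dom (fun x => θ x * g x) (c * t) :=
  IS.Dom.to_wt W.inv ((h.bmul hθ hc).mono' (fun x => le_of_eq (by ring)) le_rfl)

lemma Wt.toV1 (W : Wt D S φ ψ sE rm) (hE : 0 ≤ sE) {g : X → ℝ} {t : ℝ} (h : S.Dom g t) :
    (S.wt φ).Dom g (sE * t) := IS.Dom.to_wt W.inv (h.bmul W.hφ hE)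

lemma Wt.divv (W : Wt D S φ ψ sE rm) (hI : IBP D S) (v : I4 → K) (hv : ∑ i, D.ν i * v i = 0) :
    S.I (φ ^ 2 * ∑ i, D.d i (v i)) = 0 := by
  rw [← hI.divf (fun i => φ ^ 2 * v i) (by
    simp only [Fin.sum_univ_four] at hv ⊢
    linear_combination φ ^ 2 * hv)]
  congr 1
  have h1 := D.ft_dot v hv
  have h2 := two_hf K
  simp only [sq, D.dmul, W.dφ, Fin.sum_univ_four] at h1 ⊢
  linear_combination (-hf K * φ * φ) * h1 - hf K * φ * φ *
    (D.ft 0 * v 0 + D.ft 1 * v 1 + D.ft 2 * v 2 + D.ft 3 * v 3) * h2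

lemma Wt.green (W : Wt D S φ ψ sE rm) (hI : IBP D S) (a b : K) :
    S.I (φ ^ 2 * ∑ i, D.d i a * D.d i b) = - S.I (φ ^ 2 * (a * D.lap b)) := by
  have h1 := W.divv hI (fun i => a * D.d i b) (by
    have := D.nd b
    simp only [Fin.sum_univ_four] at this ⊢
    linear_combination a * this)
  rw [eq_neg_iff_add_eq_zero, ← map_add, ← h1]
  congr 1
  simp only [DC.lap, DC.dmul, Fin.sum_univ_four]
  ring

lemma Wt.E1 (W : Wt D S φ ψ sE rm) (hI : IBP D S) (w : K) :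
    S.I (φ ^ 2 * ∑ i, D.gr w i ^ 2) = S.I (φ ^ 2 * D.Wv * w ^ 2) + S.I (-(φ ^ 2 * w * D.L w)) := by
  have h0 := D.nd w
  have h1 := W.divv hI (fun i => w * D.d i w - hf K * hf K * (w * w) * D.ft i) (by
    have := D.ν_ft
    simp only [Fin.sum_univ_four] at this h0 ⊢
    linear_combination w * h0 - hf K * hf K * (w * w) * this)
  rw [← map_add, ← sub_eq_zero, ← map_sub, ← h1]
  congr 1
  have h2 := D.ft_dot _ h0
  have h3 := D.div_ft
  have h4 := two_hf K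
  simp only [DC.gr, DC.Wv, DC.L, DC.lf, DC.lap, map_sub, DC.dmul, der_hf, Fin.sum_univ_four]
    at h2 h3 ⊢
  linear_combination φ ^ 2 * hf K * hf K * w * w * h3 + φ ^ 2 * hf K * w * h2
    + φ ^ 2 * hf K * w * (D.ft 0 * D.d 0 w + D.ft 1 * D.d 1 w + D.ft 2 * D.d 2 w
      + D.ft 3 * D.d 3 w) * h4

lemma Wt.E2 (W : Wt D S φ ψ sE rm) (hI : IBP D S) (w : K) :
    S.I (φ ^ 2 * ∑ p, D.dT (D.gr w) p ^ 2) = S.I (φ ^ 2 * D.lap w ^ 2)
      + S.I (φ ^ 2 * (2 * ∑ i, D.ap w i ^ 2 - D.H * ∑ i, D.d i w * D.ap w i)) := by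
  have h1 : S.I (φ ^ 2 * ∑ p, D.dT (D.gr w) p ^ 2) =
      - S.I (φ ^ 2 * ∑ k, D.d k w * D.lap (D.d k w)) := by
    rw [Fintype.sum_prod_type_right, mul_sum, mul_sum, map_sum, map_sum, ← sum_neg_distrib]
    refine sum_congr rfl fun k _ => ?_
    rw [← W.green hI]
    simp only [DC.dT, DC.gr, sq]
  have h2 := W.green hI (D.lap w) w
  rw [h1, sq (D.lap w), ← neg_neg (S.I (φ ^ 2 * (D.lap w * D.lap w))), ← h2, ← map_neg, ← map_neg,
    ← map_add]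
  congr 1
  have h3 := D.nd w
  have h4 : ∑ k, D.d k w * ∑ l, D.d k (D.ν l) * D.ap w l = ∑ i, D.ap w i ^ 2 := by
    simp only [mul_sum]
    rw [sum_comm]
    refine sum_congr rfl fun l _ => ?_
    rw [sq]
    nth_rewrite 2 [DC.ap]
    rw [sum_mul]
    exact sum_congr rfl fun k _ => by rw [D.sym k l]; ring
  simp only [D.lap_d]
  generalize (∑ j, D.d j D.H * D.d j w + 2 * fp D.A (D.dM (D.gr w))) = t
  simp only [Fin.sum_univ_four] at h3 h4 ⊢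
  linear_combination φ ^ 2 * (2 * h4 + t * h3)

end Pool.Agent.MP48470b.An
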